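import Pool.Agent.W767.HL.Alg

/-!
# J6: the rotations, with the mass of the coefficients

Same as `alg`, `inv_iter` of `Pool/Agent/W767/HL/Alg.lean` (use `inv_start`, `inv_step`, whose last conclusion is
`t'(i)^2 = t(i)^2 + C^2 ‖G(-m j)‖^2`, other `t` unchanged). With `Π = ∏ t_i^2`, `C^2 Π = s^(2L)`:
`Π' - Π = s^(2L) ‖G(-m j)‖^2 / t_i^2 ≥ s^(2L) ‖G(-m j)‖^2 / tmax^2` where `tmax` is the largest FINAL `t_i` (all `t_i` increase), so
`tmax^(2L) ≥ Π_final ≥ s^(2L) ∑ ‖G(-m j)‖^2 / tmax^2`. Take `f = e_i` for the `i` with `t_i = tmax`. Steps `j = K, ..., j1`.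
-/

set_option autoImplicit false

namespace Pool.Agent.L5helper80.QL

noncomputable section

open MeasureTheory AddCircle Complex Filter Topology Pool.Agent.W767.HL

theorem Alg2_iter {L : ℕ} {m : ℕ → ℕ} {G : ℤ →₀ ℂ} {s : ℝ} {M K j1 : ℕ} (hL : 0 < L) (hs : 0 < s)
    (hm : StrictMono m) (hgap : ∀ j, L ≤ j → m (j - L) + m (j - 1) ≤ m j) (hj1 : 1 ≤ j1)
    (hM : ∀ j, j1 ≤ j → M + m (j - 1) ≤ m j)
    (hG : ∀ n : ℤ, n < -(m K : ℤ) → G n = 0)
    (hG2 : ∀ j, 1 ≤ j → ∀ n : ℤ, -(m j : ℤ) < n → n < -(m (j - 1) : ℤ) → G n = 0) :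
    ∀ d : ℕ, j1 + d ≤ K + 1 → ∃ (eF : ℤ →₀ ℂ) (e : ℕ → (ℤ →₀ ℂ)) (t : ℕ → ℝ) (C : ℝ),
      Inv L m G s M (K - d) eF e t C ∧ ∀ U : ℝ, (∀ i < L, t i ≤ U) →
        s ^ (2 * L) * ∑ j ∈ Finset.Icc (K + 1 - d) K, ‖G (-(m j : ℤ))‖ ^ 2 ≤
          (∏ i ∈ Finset.range L, t i ^ 2) * U ^ 2 := by
  intro d
  induction d with
  | zero =>
      intro _
      refine ⟨_, _, _, _, inv_start hs hG, fun U _ => ?_⟩
      have : Finset.Icc (K + 1 - 0) K = ∅ := Finset.Icc_eq_empty (by omega)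
      rw [this, Finset.sum_empty, mul_zero]
      positivity
  | succ d ih =>
      intro hd
      obtain ⟨eF, e, t, C, h, hU⟩ := ih (by omega)
      obtain ⟨eF', e', t', C', h', hne, hi⟩ := inv_step hL hs hm (hgap (K - d))
        (hM (K - d) (by omega)) (by omega) (hG2 _ (by omega)) h
      refine ⟨eF', e', t', C', h', fun U hUt => ?_⟩
      set i := (K - d) % L with hidef
      have hiL : i < L := Nat.mod_lt _ hL
      have hti : 0 < t i := hs.trans_le (h.t_ge i hiL)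
      have hti' : 0 < t' i := hs.trans_le (h'.t_ge i hiL)
      have hle : t i ≤ t' i := by
        refine le_of_sq_le_sq ?_ hti'.le
        rw [hi]
        nlinarith [sq_nonneg (C * ‖G (-(m (K - d) : ℤ))‖)]
      have hU0 : 0 < U := hti'.trans_le (hUt i hiL)
      have hUold : ∀ k < L, t k ≤ U := by
        intro k hk
        by_cases hki : k = i
        · rw [hki]; exact hle.trans (hUt i hiL)
        · rw [← hne k hk hki]; exact hUt k hk
      have h1 := hU U hUold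
      set a := ‖G (-(m (K - d) : ℤ))‖ ^ 2 with ha
      have hsum : ∑ j ∈ Finset.Icc (K + 1 - (d + 1)) K, ‖G (-(m j : ℤ))‖ ^ 2 =
          a + ∑ j ∈ Finset.Icc (K + 1 - d) K, ‖G (-(m j : ℤ))‖ ^ 2 := by
        have e1 : K + 1 - (d + 1) = K - d := by omega
        have e2 : K + 1 - d = (K - d) + 1 := by omega
        rw [e1, e2, ha]
        rw [← Finset.add_sum_Ioc_eq_sum_Icc (by omega : K - d ≤ K)]
        have e3 : Finset.Ioc (K - d) K = Finset.Icc (K - d + 1) K := by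
          ext x
          simp only [Finset.mem_Ioc, Finset.mem_Icc]
          omega
        rw [e3]
      set Q := ∏ x ∈ (Finset.range L).erase i, t x ^ 2 with hQ
      have hQ0 : 0 < Q := Finset.prod_pos fun x hx =>
        pow_pos (hs.trans_le (h.t_ge x (Finset.mem_range.mp (Finset.mem_of_mem_erase hx)))) 2
      have hP : ∏ x ∈ Finset.range L, t x ^ 2 = t i ^ 2 * Q :=
        (Finset.mul_prod_erase (Finset.range L) (fun x => t x ^ 2) (Finset.mem_range.mpr hiL)).symm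
      have hP' : ∏ x ∈ Finset.range L, t' x ^ 2 = t' i ^ 2 * Q := by
        rw [← Finset.mul_prod_erase (Finset.range L) (fun x => t' x ^ 2)
          (Finset.mem_range.mpr hiL)]
        congr 1
        refine Finset.prod_congr rfl fun x hx => ?_
        rw [hne x (Finset.mem_range.mp (Finset.mem_of_mem_erase hx)) (Finset.ne_of_mem_erase hx)]
      have hC2 : C ^ 2 * (t i ^ 2 * Q) = s ^ (2 * L) := by
        rw [← hP, Finset.prod_pow, ← mul_pow, h.C_eq, ← pow_mul, mul_comm L 2]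
      have hUi : t i ^ 2 ≤ U ^ 2 := pow_le_pow_left₀ hti.le (hUold i hiL) 2
      have h2 : s ^ (2 * L) * a ≤ C ^ 2 * a * Q * U ^ 2 := by
        rw [← hC2]
        have ha0 : 0 ≤ a := by positivity
        have : C ^ 2 * (t i ^ 2 * Q) * a = C ^ 2 * a * Q * t i ^ 2 := by ring
        rw [this]
        exact mul_le_mul_of_nonneg_left hUi (by positivity)
      rw [hsum, hP', hi, mul_add]
      rw [hP] at h1
      calc s ^ (2 * L) * a + s ^ (2 * L) * ∑ j ∈ Finset.Icc (K + 1 - d) K, ‖G (-(m j : ℤ))‖ ^ 2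
          ≤ C ^ 2 * a * Q * U ^ 2 + t i ^ 2 * Q * U ^ 2 := add_le_add h2 h1
        _ = (t i ^ 2 + C ^ 2 * a) * Q * U ^ 2 := by ring

theorem alg_mass {L : ℕ} {m : ℕ → ℕ} {G : ℤ →₀ ℂ} {s : ℝ} {M K j1 : ℕ} (hL : 0 < L) (hs : 0 < s)
    (hm : StrictMono m) (hgap : ∀ j, L ≤ j → m (j - L) + m (j - 1) ≤ m j) (hK : j1 ≤ K) (hj1 : 1 ≤ j1)
    (hM : ∀ j, j1 ≤ j → M + m (j - 1) ≤ m j)
    (hG : ∀ n : ℤ, n < -(m K : ℤ) → G n = 0)
    (hG2 : ∀ j, 1 ≤ j → ∀ n : ℤ, -(m j : ℤ) < n → n < -(m (j - 1) : ℤ) → G n = 0) :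
    ∃ (f : ℤ →₀ ℂ) (t : ℝ), s ≤ t ∧ (∀ n : ℤ, n < 0 → f n = 0) ∧ f 0 = t ∧
      (∀ n : ℤ, 0 < n → n < M → f n = 0) ∧
      (∀ z : ℂ, ‖z‖ = 1 → ‖ev f z‖ ^ 2 ≤ L * s ^ 2 + ‖ev G z‖ ^ 2) ∧
      s ^ (2 * L) * ∑ j ∈ Finset.Icc j1 K, ‖G (-(m j : ℤ))‖ ^ 2 ≤ t ^ (2 * (L + 1)) := by
  obtain ⟨eF, e, t, C, h, hU⟩ := Alg2_iter (M := M) (K := K) hL hs hm hgap hj1 hM hG hG2
    (K + 1 - j1) (by omega)
  obtain ⟨k, hkL, hkmax⟩ := Finset.exists_max_image (Finset.range L) t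
    ⟨0, Finset.mem_range.mpr hL⟩
  have hkL' : k < L := Finset.mem_range.mp hkL
  have htk : s ≤ t k := h.t_ge k hkL'
  have htk0 : 0 < t k := hs.trans_le htk
  refine ⟨e k, t k, htk, h.e_neg k hkL', h.e_zero k hkL', h.e_M k hkL', ?_, ?_⟩
  · intro z hz
    have h1 := h.norm_eq z hz
    have h2 := Finset.single_le_sum (f := fun i => ‖ev (e i) z‖ ^ 2)
      (fun i _ => sq_nonneg _) hkL
    have h3 := sq_nonneg ‖ev eF z‖
    linarith
  · have h1 := hU (t k) fun i hi => hkmax i (Finset.mem_range.mpr hi)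
    have e1 : K + 1 - (K + 1 - j1) = j1 := by omega
    rw [e1] at h1
    refine h1.trans ?_
    have h2 : ∏ i ∈ Finset.range L, t i ^ 2 ≤ (t k ^ 2) ^ L := by
      have : (t k ^ 2) ^ L = ∏ _i ∈ Finset.range L, t k ^ 2 := by
        rw [Finset.prod_const, Finset.card_range]
      rw [this]
      refine Finset.prod_le_prod (fun i _ => sq_nonneg _) fun i hi => ?_
      exact pow_le_pow_left₀ (hs.trans_le (h.t_ge i (Finset.mem_range.mp hi))).le (hkmax i hi) 2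
    calc (∏ i ∈ Finset.range L, t i ^ 2) * t k ^ 2 ≤ (t k ^ 2) ^ L * t k ^ 2 :=
          mul_le_mul_of_nonneg_right h2 (sq_nonneg _)
      _ = t k ^ (2 * (L + 1)) := by rw [← pow_succ, ← pow_mul]

end

end Pool.Agent.L5helper80.QL
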