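import Pool.Agent.L5helper80.QL.Defs

/-!
# J3: local orthogonality and size of a block of frequencies

SKETCH. block_L2: `d_n = |D_n| ρ^n`; `|∫ P_v ζ^(n-n')| = |v|^|n-n'| = e^{-t|n-n'|}`; so the integral is
`≤ ∑_{n,n'} d_n d_n' e^{-t|n-n'|} ≤ ∑_n d_n^2 ∑_{n'} e^{-t|n-n'|}` (`ab ≤ (a²+b²)/2`, symmetric). For frequencies
`-m_j`, `-m_j'` in the support of `D`: `|m_j - m_j'| t ≥ |j-j'| (q-1) m_min t ≥ |j-j'|` (`m_(i+1) - m_i ≥ (q-1) m_i`,
`m_min` the smaller one), so the inner sum is `≤ 1 + 2/(e-1) ≤ 3`.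
block_sum: `D = cont h' G - cont h G` consists of the `n < 0` with `e^{nh} < |G n| ≤ e^{nh'}` (`m = -n`); so
`|G_n|^2 ≤ mass (non h G) ≤ e^{-2Y}`; the weight is `e^{m h'/128}`. For `m h' ≤ 1` the weight is `≤ 2`. For `m h' > 1`:
`|G_n|^2 e^{mh'/128} ≤ |G_n|^{2-1/128} ≤ e^{-9Y/5} e^{-0.19 m h'}` (as `|G_n| ≤ e^{-mh'}`, `|G_n| ≤ e^{-Y}`, `|G_n| ≤ 1`), and
`∑_{m_j h' > 1} e^{-0.19 m_j h'} ≤ ∑ 1/(0.19 m_j h') ≤ q/(0.19 (q-1))`.
-/

set_option autoImplicit false

namespace Pool.Agent.L5helper80.QL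

noncomputable section

open MeasureTheory AddCircle Complex Filter Topology Pool.Agent.W767.HL

/-- sums of powers of `r` over different exponents -/
theorem Blk_geom {ι : Type} (F : Finset ι) (j : ι → ℕ) (hj : Set.InjOn j F) (r : ℝ) (h0 : 0 ≤ r)
    (h1 : r < 1) : ∑ i ∈ F, r ^ (j i) ≤ (1 - r)⁻¹ := by
  classical
  rw [← tsum_geometric_of_lt_one h0 h1, ← Finset.sum_image (f := fun k => r ^ k) (fun a ha b hb h => hj ha hb h)]
  exact (summable_geometric_of_lt_one h0 h1).sum_le_tsum _ (fun i _ => pow_nonneg h0 i)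

theorem Blk_pos {q : ℝ} {m : ℕ → ℕ} (hm : Lac q m) (j : ℕ) : (0 : ℝ) < m j := by
  induction j with
  | zero => exact_mod_cast hm.pos
  | succ j ih =>
    have h1 := hm.gap j
    have h2 := hm.one_lt
    nlinarith

theorem Blk_pow {q : ℝ} {m : ℕ → ℕ} (hm : Lac q m) (j i : ℕ) : q ^ i * (m j : ℝ) ≤ m (j + i) := by
  induction i with
  | zero => simp
  | succ i ih =>
    have h1 := hm.gap (j + i)
    have h2 := hm.one_lt
    calc q ^ (i + 1) * (m j : ℝ) = q * (q ^ i * (m j : ℝ)) := by ring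
      _ ≤ q * (m (j + i) : ℝ) := by
        apply mul_le_mul_of_nonneg_left ih
        linarith
      _ ≤ _ := h1

theorem Blk_lin {q : ℝ} {m : ℕ → ℕ} (hm : Lac q m) (j i : ℕ) :
    (m j : ℝ) + i * ((q - 1) * (m j : ℝ)) ≤ m (j + i) := by
  induction i with
  | zero => simp
  | succ i ih =>
    have h1 := hm.gap (j + i)
    have h2 := hm.one_lt
    have h3 := Blk_pos hm j
    have h4 : (0 : ℝ) ≤ i * ((q - 1) * (m j : ℝ)) := by
      have : 0 ≤ q - 1 := by linarith
      positivity
    have h5 : (m j : ℝ) ≤ m (j + i) := by linarith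
    have h6 : (q - 1) * (m j : ℝ) ≤ (q - 1) * m (j + i) :=
      mul_le_mul_of_nonneg_left h5 (by linarith)
    push_cast
    have h7 : (m (j + (i + 1)) : ℝ) = m (j + i + 1) := by rw [add_assoc]
    rw [h7]
    linarith

theorem Blk_inj {q : ℝ} {m : ℕ → ℕ} (hm : Lac q m) : Function.Injective m := by
  have h : StrictMono m := by
    apply strictMono_nat_of_lt_succ
    intro j
    have h1 := hm.gap j
    have h2 := hm.one_lt
    have h3 := Blk_pos hm j
    have h4 : (m j : ℝ) < m (j + 1) := by nlinarith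
    exact_mod_cast h4
  exact h.injective

/-- Fourier coefficients of the Poisson kernel -/
theorem Blk_four {v : ℂ} (hv : ‖v‖ < 1) (k : ℤ) :
    ‖∫ θ, (P v θ : ℂ) * ze θ ^ k ∂mu‖ ≤ ‖v‖ ^ k.natAbs := by
  have hnat : ∀ n : ℕ, ∫ θ, (P v θ : ℂ) * ze θ ^ n ∂mu = v ^ n := by
    intro n
    exact poisson (f := fun z => z ^ n) (differentiable_pow n) hv
  rcases Int.natAbs_eq k with h | h
  · have : (fun θ => (P v θ : ℂ) * ze θ ^ k) = fun θ => (P v θ : ℂ) * ze θ ^ k.natAbs := by
      funext θ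
      conv_lhs => rw [h, zpow_natCast]
    rw [this, hnat, norm_pow]
  · have : (fun θ => (P v θ : ℂ) * ze θ ^ k) =
        fun θ => (starRingEnd ℂ) ((P v θ : ℂ) * ze θ ^ k.natAbs) := by
      funext θ
      rw [map_mul, Complex.conj_ofReal, map_pow, conj_ze]
      conv_lhs => rw [h, zpow_neg, zpow_natCast]
      rw [inv_pow]
    rw [this, integral_conj, hnat, RCLike.norm_conj, norm_pow]

/-- the inner sum -/
theorem Blk_inner (J : Finset ℕ) (j : ℕ) :
    ∑ i ∈ J, Real.exp (-(((j : ℤ) - i).natAbs : ℝ)) ≤ 3 := by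
  classical
  have hexp : ∀ k : ℕ, Real.exp (-(k : ℝ)) ≤ (1 / 2 : ℝ) ^ k := by
    intro k
    rw [Real.exp_neg, one_div, inv_pow]
    apply inv_anti₀ (by positivity)
    have h1 : (2 : ℝ) ≤ Real.exp 1 := by
      have := Real.add_one_le_exp (1 : ℝ)
      linarith
    calc (2 : ℝ) ^ k ≤ Real.exp 1 ^ k := pow_le_pow_left₀ (by norm_num) h1 k
      _ = Real.exp k := by rw [← Real.exp_nat_mul, mul_one]
  rw [← Finset.sum_filter_add_sum_filter_not J (fun i => j ≤ i)]
  have h1 : ∑ i ∈ J.filter (fun i => j ≤ i), Real.exp (-(((j : ℤ) - i).natAbs : ℝ)) ≤ 2 := by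
    calc ∑ i ∈ J.filter (fun i => j ≤ i), Real.exp (-(((j : ℤ) - i).natAbs : ℝ))
        ≤ ∑ i ∈ J.filter (fun i => j ≤ i), (1 / 2 : ℝ) ^ (i - j) := by
          apply Finset.sum_le_sum
          intro i hi
          rw [Finset.mem_filter] at hi
          have : ((j : ℤ) - i).natAbs = i - j := by omega
          rw [this]
          exact hexp _
      _ ≤ (1 - 1 / 2)⁻¹ := by
          apply Blk_geom _ (fun i => i - j) _ _ (by norm_num) (by norm_num)
          intro a ha b hb hab
          simp only [Finset.coe_filter, Set.mem_setOf_eq] at ha hb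
          have hab' : a - j = b - j := hab
          omega
      _ = 2 := by norm_num
  have h2 : ∑ i ∈ J.filter (fun i => ¬ j ≤ i), Real.exp (-(((j : ℤ) - i).natAbs : ℝ)) ≤ 1 := by
    calc ∑ i ∈ J.filter (fun i => ¬ j ≤ i), Real.exp (-(((j : ℤ) - i).natAbs : ℝ))
        ≤ ∑ i ∈ J.filter (fun i => ¬ j ≤ i), (1 / 2 : ℝ) * (1 / 2 : ℝ) ^ (j - 1 - i) := by
          apply Finset.sum_le_sum
          intro i hi
          rw [Finset.mem_filter] at hi
          have : ((j : ℤ) - i).natAbs = (j - 1 - i) + 1 := by omega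
          rw [this, ← pow_succ']
          exact hexp _
      _ = (1 / 2 : ℝ) * ∑ i ∈ J.filter (fun i => ¬ j ≤ i), (1 / 2 : ℝ) ^ (j - 1 - i) := by
          rw [Finset.mul_sum]
      _ ≤ (1 / 2 : ℝ) * (1 - 1 / 2)⁻¹ := by
          apply mul_le_mul_of_nonneg_left _ (by norm_num)
          apply Blk_geom _ (fun i => j - 1 - i) _ _ (by norm_num) (by norm_num)
          intro a ha b hb hab
          simp only [Finset.coe_filter, Set.mem_setOf_eq] at ha hb
          have hab' : j - 1 - a = j - 1 - b := hab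
          omega
      _ = 1 := by norm_num
  linarith

theorem Blk_cast {z w : ℤ} (h : w ≤ (z.natAbs : ℤ)) : (w : ℝ) ≤ ((z.natAbs : ℕ) : ℝ) := by
  have h1 := (Int.cast_le (R := ℝ)).2 h
  rwa [Int.cast_natCast] at h1

theorem Blk_cast' {z w : ℤ} (h : (z.natAbs : ℤ) = w) : ((z.natAbs : ℕ) : ℝ) = (w : ℝ) := by
  have h1 := congrArg (fun x : ℤ => (x : ℝ)) h
  simp only [Int.cast_natCast] at h1
  exact h1

theorem block_L2 (q : ℝ) (m : ℕ → ℕ) (hm : Lac q m) (D : ℤ →₀ ℂ)
    (hD : ∀ n : ℤ, D n ≠ 0 → ∃ j, n = -(m j : ℤ)) (t : ℝ) (ht : 0 < t)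
    (hmin : ∀ n : ℤ, D n ≠ 0 → 1 ≤ (q - 1) * (-(n : ℝ)) * t) (v : ℂ) (hv : ‖v‖ = Real.exp (-t)) (ρ : ℝ)
    (hρ0 : 0 < ρ) (hρ1 : ρ ≤ 1) :
    ∫ θ, P v θ * ‖ev D (ρ * ze θ)‖ ^ 2 ∂mu ≤ 3 * ∑ n ∈ D.support, ‖D n‖ ^ 2 * ρ ^ (2 * n) := by
  classical
  have hv1 : ‖v‖ < 1 := by
    rw [hv]
    rw [← Real.exp_zero]
    exact Real.exp_lt_exp.2 (by linarith)
  set a : ℤ → ℂ := fun n => D n * (ρ : ℂ) ^ n with ha
  have hρc : (ρ : ℂ) ≠ 0 := by exact_mod_cast hρ0.ne'
  have hev : ∀ θ, ev D (ρ * ze θ) = ∑ n ∈ D.support, a n * ze θ ^ n := by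
    intro θ
    rw [ev_eq_sum, Finsupp.sum]
    refine Finset.sum_congr rfl fun n _ => ?_
    rw [mul_zpow, ha]
    ring
  -- the square of the norm
  have hsq : ∀ θ, ((P v θ * ‖ev D (ρ * ze θ)‖ ^ 2 : ℝ) : ℂ) =
      ∑ n ∈ D.support, ∑ k ∈ D.support, a n * (starRingEnd ℂ) (a k) * ((P v θ : ℂ) * ze θ ^ (n - k)) := by
    intro θ
    rw [ofReal_mul, ofReal_pow, ← Complex.mul_conj', hev, map_sum, Finset.sum_mul_sum, Finset.mul_sum]
    refine Finset.sum_congr rfl fun n _ => ?_
    rw [Finset.mul_sum]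
    refine Finset.sum_congr rfl fun k _ => ?_
    rw [map_mul, map_zpow₀, conj_ze, zpow_sub₀ (ze_ne θ), inv_zpow]
    ring
  have hint : ∀ n k : ℤ, Integrable (fun θ => (P v θ : ℂ) * ze θ ^ (n - k)) mu := by
    intro n k
    apply integrable_of_cont
    apply Continuous.mul
    · exact Complex.continuous_ofReal.comp (continuous_P hv1)
    · exact continuous_ze.zpow₀ _ (fun θ => Or.inl (ze_ne θ))
  have hI : ((∫ θ, P v θ * ‖ev D (ρ * ze θ)‖ ^ 2 ∂mu : ℝ) : ℂ) =
      ∑ n ∈ D.support, ∑ k ∈ D.support, a n * (starRingEnd ℂ) (a k) *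
        ∫ θ, (P v θ : ℂ) * ze θ ^ (n - k) ∂mu := by
    rw [← integral_complex_ofReal]
    simp only [hsq]
    rw [integral_finsetSum]
    · refine Finset.sum_congr rfl fun n _ => ?_
      rw [integral_finsetSum]
      · refine Finset.sum_congr rfl fun k _ => ?_
        rw [integral_const_mul]
      · intro k _
        exact (hint n k).const_mul _
    · intro n _
      apply integrable_finsetSum
      intro k _
      exact (hint n k).const_mul _
  have hle : ∫ θ, P v θ * ‖ev D (ρ * ze θ)‖ ^ 2 ∂mu ≤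
      ∑ n ∈ D.support, ∑ k ∈ D.support, ‖a n‖ * ‖a k‖ * ‖v‖ ^ (n - k).natAbs := by
    calc ∫ θ, P v θ * ‖ev D (ρ * ze θ)‖ ^ 2 ∂mu ≤ |∫ θ, P v θ * ‖ev D (ρ * ze θ)‖ ^ 2 ∂mu| := le_abs_self _
      _ = ‖((∫ θ, P v θ * ‖ev D (ρ * ze θ)‖ ^ 2 ∂mu : ℝ) : ℂ)‖ := by
        rw [Complex.norm_real, Real.norm_eq_abs]
      _ ≤ _ := by
        rw [hI]
        refine (norm_sum_le _ _).trans (Finset.sum_le_sum fun n _ => ?_)
        refine (norm_sum_le _ _).trans (Finset.sum_le_sum fun k _ => ?_)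
        rw [norm_mul, norm_mul, RCLike.norm_conj]
        exact mul_le_mul_of_nonneg_left (Blk_four hv1 _) (by positivity)
  -- the symmetric form
  have hsym : ∑ n ∈ D.support, ∑ k ∈ D.support, ‖a n‖ * ‖a k‖ * ‖v‖ ^ (n - k).natAbs ≤
      ∑ n ∈ D.support, ‖a n‖ ^ 2 * ∑ k ∈ D.support, ‖v‖ ^ (n - k).natAbs := by
    have h1 : ∑ n ∈ D.support, ∑ k ∈ D.support, ‖a n‖ * ‖a k‖ * ‖v‖ ^ (n - k).natAbs ≤
        ∑ n ∈ D.support, ∑ k ∈ D.support, (‖a n‖ ^ 2 / 2 * ‖v‖ ^ (n - k).natAbs +
          ‖a k‖ ^ 2 / 2 * ‖v‖ ^ (n - k).natAbs) := by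
      refine Finset.sum_le_sum fun n _ => Finset.sum_le_sum fun k _ => ?_
      rw [← add_mul]
      apply mul_le_mul_of_nonneg_right _ (by positivity)
      nlinarith [sq_nonneg (‖a n‖ - ‖a k‖)]
    refine h1.trans (le_of_eq ?_)
    simp only [Finset.sum_add_distrib]
    have h2 : ∑ n ∈ D.support, ∑ k ∈ D.support, ‖a k‖ ^ 2 / 2 * ‖v‖ ^ (n - k).natAbs =
        ∑ n ∈ D.support, ∑ k ∈ D.support, ‖a n‖ ^ 2 / 2 * ‖v‖ ^ (n - k).natAbs := by
      rw [Finset.sum_comm]
      refine Finset.sum_congr rfl fun n _ => Finset.sum_congr rfl fun k _ => ?_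
      rw [← Int.natAbs_neg (k - n), neg_sub]
    rw [h2, ← Finset.sum_add_distrib]
    refine Finset.sum_congr rfl fun n _ => ?_
    rw [← Finset.sum_add_distrib, Finset.mul_sum]
    refine Finset.sum_congr rfl fun k _ => ?_
    ring
  -- the inner sums
  have hinner : ∀ n ∈ D.support, ∑ k ∈ D.support, ‖v‖ ^ (n - k).natAbs ≤ 3 := by
    intro n hn
    have hex : ∀ k : ℤ, ∃ j : ℕ, D k ≠ 0 → k = -(m j : ℤ) := by
      intro k
      by_cases h : D k ≠ 0
      · obtain ⟨j, hj⟩ := hD k h
        exact ⟨j, fun _ => hj⟩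
      · exact ⟨0, fun h' => absurd h' h⟩
    choose J hJ using hex
    have hinjJ : Set.InjOn J D.support := by
      intro x hx y hy hxy
      have h1 := hJ x (Finsupp.mem_support_iff.1 hx)
      have h2 := hJ y (Finsupp.mem_support_iff.1 hy)
      rw [h1, h2, hxy]
    calc ∑ k ∈ D.support, ‖v‖ ^ (n - k).natAbs
        ≤ ∑ k ∈ D.support, Real.exp (-(((J n : ℤ) - J k).natAbs : ℝ)) := by
          refine Finset.sum_le_sum fun k hk => ?_
          rw [hv, ← Real.exp_nat_mul]
          apply Real.exp_le_exp.2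
          rw [mul_neg, neg_le_neg_iff]
          have hn' := Finsupp.mem_support_iff.1 hn
          have hk' := Finsupp.mem_support_iff.1 hk
          have e1 := hJ n hn'
          have e2 := hJ k hk'
          -- difference of frequencies
          have key : ∀ x y : ℤ, D x ≠ 0 → D y ≠ 0 → J x ≤ J y →
              (((J y : ℤ) - J x : ℤ) : ℝ) ≤ ((x - y : ℤ) : ℝ) * t := by
            intro x y hx hy hxy
            obtain ⟨i, hi⟩ := Nat.exists_eq_add_of_le hxy
            have h1 := Blk_lin hm (J x) i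
            rw [← hi] at h1
            have h2 := hmin x hx
            have h3 := hJ x hx
            have h4 := hJ y hy
            have h5 : (x : ℝ) = -(m (J x) : ℝ) := by
              conv_lhs => rw [h3]
              push_cast
              ring
            have h6 : (y : ℝ) = -(m (J y) : ℝ) := by
              conv_lhs => rw [h4]
              push_cast
              ring
            push_cast
            rw [hi, h5, h6]
            push_cast
            rw [h5] at h2
            have h7 : (i : ℝ) * 1 ≤ i * ((q - 1) * (m (J x)) * t) := by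
              apply mul_le_mul_of_nonneg_left _ (Nat.cast_nonneg i)
              have : (q - 1) * (-(-(m (J x) : ℝ))) * t = (q - 1) * (m (J x)) * t := by ring
              rw [← this]
              exact h2
            have h8 : (i : ℝ) * ((q - 1) * (m (J x))) * t ≤ ((m (J y) : ℝ) - m (J x)) * t := by
              apply mul_le_mul_of_nonneg_right _ ht.le
              linarith
            rw [hi] at h8
            push_cast at h8
            nlinarith
          rcases le_total (J n) (J k) with h | h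
          · have h1 := key n k hn' hk' h
            have h2 : ((((J n : ℤ) - J k).natAbs : ℕ) : ℝ) = (((J k : ℤ) - J n : ℤ) : ℝ) := by
              exact Blk_cast' (by omega)
            have h3 : ((n - k : ℤ) : ℝ) ≤ (((n - k).natAbs : ℕ) : ℝ) := by
              exact Blk_cast (by omega)
            rw [h2]
            nlinarith
          · have h1 := key k n hk' hn' h
            have h2 : ((((J n : ℤ) - J k).natAbs : ℕ) : ℝ) = (((J n : ℤ) - J k : ℤ) : ℝ) := by
              exact Blk_cast' (by omega)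
            have h3 : ((k - n : ℤ) : ℝ) ≤ (((n - k).natAbs : ℕ) : ℝ) := by
              exact Blk_cast (by omega)
            rw [h2]
            nlinarith
      _ = ∑ i ∈ D.support.image J, Real.exp (-(((J n : ℤ) - i).natAbs : ℝ)) := by
          rw [Finset.sum_image (f := fun i : ℕ => Real.exp (-(((J n : ℤ) - i).natAbs : ℝ)))
            (fun x hx y hy h => hinjJ hx hy h)]
      _ ≤ 3 := Blk_inner _ _
  have hfin : ∑ n ∈ D.support, ‖a n‖ ^ 2 * ∑ k ∈ D.support, ‖v‖ ^ (n - k).natAbs ≤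
      3 * ∑ n ∈ D.support, ‖D n‖ ^ 2 * ρ ^ (2 * n) := by
    rw [Finset.mul_sum]
    refine Finset.sum_le_sum fun n hn => ?_
    have h1 : ‖a n‖ ^ 2 = ‖D n‖ ^ 2 * ρ ^ (2 * n) := by
      rw [ha]
      simp only [norm_mul, norm_zpow, Complex.norm_real, Real.norm_eq_abs, abs_of_pos hρ0]
      rw [mul_pow, two_mul, zpow_add₀ hρ0.ne']
      ring
    rw [h1, mul_comm 3]
    exact mul_le_mul_of_nonneg_left (hinner n hn) (by positivity)
  exact hle.trans (hsym.trans hfin)

theorem block_sum (q : ℝ) (hq : 1 < q) : ∃ C : ℝ, 1 ≤ C ∧ ∀ (m : ℕ → ℕ) (G : ℤ →₀ ℂ) (h h' Y : ℝ),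
    Lac q m → Spec m G → (∀ n : ℤ, n < 0 → ‖G n‖ ≤ 1) → 0 < h' → h' ≤ h → 0 ≤ Y →
    mass (non h G) ≤ Real.exp (-(2 * Y)) →
    ∑ n ∈ (cont h' G - cont h G).support, ‖(cont h' G - cont h G) n‖ ^ 2 * Real.exp (-(h' / 256)) ^ (2 * n) ≤
      C * Real.exp (-(9 / 5 * Y)) := by
  classical
  have hq0 : 0 < q := by linarith
  have hr0 : 0 ≤ q⁻¹ := by positivity
  have hr1 : q⁻¹ < 1 := inv_lt_one_of_one_lt₀ hq
  refine ⟨2 + 100 / 19 * (1 - q⁻¹)⁻¹, ?_, ?_⟩
  · have : 0 ≤ (1 - q⁻¹)⁻¹ := inv_nonneg.2 (by linarith)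
    linarith
  intro m G h h' Y hm hsp hG1 hh' hhh hY hmass
  set D := cont h' G - cont h G with hDdef
  have hD : ∀ n, D n ≠ 0 → n < 0 ∧ D n = G n ∧ ‖G n‖ ≤ Real.exp (n * h') ∧
      ¬ (0 ≤ n ∨ ‖G n‖ ≤ Real.exp (n * h)) := by
    intro n hn
    have e1 : D n = (if 0 ≤ n ∨ ‖G n‖ ≤ Real.exp (n * h') then G n else 0) -
        (if 0 ≤ n ∨ ‖G n‖ ≤ Real.exp (n * h) then G n else 0) := by
      rw [hDdef, Finsupp.sub_apply]
      unfold cont
      rw [Finsupp.filter_apply, Finsupp.filter_apply]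
    by_cases h0 : 0 ≤ n
    · exfalso
      apply hn
      rw [e1, if_pos (Or.inl h0), if_pos (Or.inl h0), sub_self]
    · push Not at h0
      have hn0 : (n : ℝ) < 0 := by exact_mod_cast h0
      by_cases h1 : ‖G n‖ ≤ Real.exp (n * h)
      · exfalso
        apply hn
        have h2 : ‖G n‖ ≤ Real.exp (n * h') := by
          refine h1.trans (Real.exp_le_exp.2 ?_)
          nlinarith
        rw [e1, if_pos (Or.inr h2), if_pos (Or.inr h1), sub_self]
      · have h3 : ¬ (0 ≤ n ∨ ‖G n‖ ≤ Real.exp (n * h)) := by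
          rintro (h | h)
          · omega
          · exact h1 h
        by_cases h2 : ‖G n‖ ≤ Real.exp (n * h')
        · refine ⟨h0, ?_, h2, h3⟩
          rw [e1, if_pos (Or.inr h2), if_neg h3, sub_zero]
        · exfalso
          apply hn
          have h4 : ¬ (0 ≤ n ∨ ‖G n‖ ≤ Real.exp (n * h')) := by
            rintro (h | h)
            · omega
            · exact h2 h
          rw [e1, if_neg h4, if_neg h3, sub_zero]
  have hnon : ∀ n, D n ≠ 0 → non h G n = G n := by
    intro n hn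
    obtain ⟨-, -, -, h3⟩ := hD n hn
    unfold non
    rw [Finsupp.filter_apply, if_pos h3]
  have hsupp : D.support ⊆ (non h G).support := by
    intro n hn
    have hn' := Finsupp.mem_support_iff.1 hn
    rw [Finsupp.mem_support_iff, hnon n hn', ← (hD n hn').2.1]
    exact hn'
  have hsum : ∑ n ∈ D.support, ‖D n‖ ^ 2 ≤ Real.exp (-(2 * Y)) := by
    refine le_trans ?_ hmass
    unfold mass
    calc ∑ n ∈ D.support, ‖D n‖ ^ 2 = ∑ n ∈ D.support, ‖non h G n‖ ^ 2 := by
          refine Finset.sum_congr rfl fun n hn => ?_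
          have hn' := Finsupp.mem_support_iff.1 hn
          rw [hnon n hn', (hD n hn').2.1]
      _ ≤ _ := Finset.sum_le_sum_of_subset_of_nonneg hsupp (fun i _ _ => by positivity)
  have hsize : ∀ n ∈ D.support, ‖D n‖ ≤ Real.exp (-Y) := by
    intro n hn
    have h1 : ‖D n‖ ^ 2 ≤ Real.exp (-(2 * Y)) :=
      le_trans (Finset.single_le_sum (f := fun n => ‖D n‖ ^ 2) (fun i _ => by positivity) hn) hsum
    have h2 : Real.exp (-(2 * Y)) = Real.exp (-Y) ^ 2 := by
      rw [← Real.exp_nat_mul]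
      congr 1
      push_cast
      ring
    rw [h2] at h1
    exact le_of_sq_le_sq h1 (Real.exp_pos _).le
  have hweight : ∀ n : ℤ, Real.exp (-(h' / 256)) ^ (2 * n) = Real.exp (-(n : ℝ) * h' / 128) := by
    intro n
    rw [← Real.rpow_intCast, ← Real.exp_mul]
    congr 1
    push_cast
    ring
  -- split
  rw [← Finset.sum_filter_add_sum_filter_not D.support (fun n : ℤ => -(n : ℝ) * h' ≤ 1)]
  have hexpY : Real.exp (-(2 * Y)) ≤ Real.exp (-(9 / 5 * Y)) := Real.exp_le_exp.2 (by linarith)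
  have hA : ∑ n ∈ D.support.filter (fun n : ℤ => -(n : ℝ) * h' ≤ 1),
      ‖D n‖ ^ 2 * Real.exp (-(h' / 256)) ^ (2 * n) ≤ 2 * Real.exp (-(9 / 5 * Y)) := by
    calc ∑ n ∈ D.support.filter (fun n : ℤ => -(n : ℝ) * h' ≤ 1),
        ‖D n‖ ^ 2 * Real.exp (-(h' / 256)) ^ (2 * n)
        ≤ ∑ n ∈ D.support.filter (fun n : ℤ => -(n : ℝ) * h' ≤ 1), ‖D n‖ ^ 2 * 2 := by
          refine Finset.sum_le_sum fun n hn => ?_
          rw [Finset.mem_filter] at hn
          apply mul_le_mul_of_nonneg_left _ (by positivity)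
          rw [hweight]
          calc Real.exp (-(n : ℝ) * h' / 128) ≤ Real.exp (1 / 128) := Real.exp_le_exp.2 (by linarith [hn.2])
            _ ≤ 2 := by
              have h1 : Real.exp (1 / 128) ≤ Real.exp (Real.log 2) := by
                apply Real.exp_le_exp.2
                have := Real.log_two_gt_d9
                linarith
              rwa [Real.exp_log (by norm_num)] at h1
      _ = 2 * ∑ n ∈ D.support.filter (fun n : ℤ => -(n : ℝ) * h' ≤ 1), ‖D n‖ ^ 2 := by
          rw [← Finset.sum_mul, mul_comm]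
      _ ≤ 2 * ∑ n ∈ D.support, ‖D n‖ ^ 2 := by
          apply mul_le_mul_of_nonneg_left _ (by norm_num)
          exact Finset.sum_le_sum_of_subset_of_nonneg (Finset.filter_subset _ _)
            (fun i _ _ => by positivity)
      _ ≤ 2 * Real.exp (-(9 / 5 * Y)) := by linarith
  have hB : ∑ n ∈ D.support.filter (fun n : ℤ => ¬ -(n : ℝ) * h' ≤ 1),
      ‖D n‖ ^ 2 * Real.exp (-(h' / 256)) ^ (2 * n) ≤
        100 / 19 * (1 - q⁻¹)⁻¹ * Real.exp (-(9 / 5 * Y)) := by
    have hex : ∀ n : ℤ, ∃ j : ℕ, D n ≠ 0 → n = -(m j : ℤ) := by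
      intro n
      by_cases hn : D n ≠ 0
      · have h0 := (hD n hn).1
        by_contra hcon
        push Not at hcon
        have h1 : G n = 0 := by
          apply hsp n h0
          intro j hj
          exact (hcon j).2 hj
        apply hn
        rw [(hD n hn).2.1, h1]
      · exact ⟨0, fun h' => absurd h' hn⟩
    choose J hJ using hex
    -- the first index
    by_cases hemp : ∃ j : ℕ, 1 < (m j : ℝ) * h'
    · let j0 := Nat.find hemp
      have hj0 : 1 < (m j0 : ℝ) * h' := Nat.find_spec hemp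
      have hterm : ∀ n ∈ D.support.filter (fun n : ℤ => ¬ -(n : ℝ) * h' ≤ 1),
          ‖D n‖ ^ 2 * Real.exp (-(h' / 256)) ^ (2 * n) ≤
            100 / 19 * Real.exp (-(9 / 5 * Y)) * q⁻¹ ^ (J n - j0) ∧ j0 ≤ J n := by
        intro n hn
        rw [Finset.mem_filter] at hn
        obtain ⟨hns, hn1⟩ := hn
        push Not at hn1
        have hn' := Finsupp.mem_support_iff.1 hns
        obtain ⟨hn0, hDG, hle, -⟩ := hD n hn'
        have hJn := hJ n hn'
        have hcast : -(n : ℝ) = (m (J n) : ℝ) := by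
          conv_lhs => rw [hJn]
          push_cast
          ring
        have hj : j0 ≤ J n := by
          apply Nat.find_min'
          rw [← hcast]
          exact hn1
        refine ⟨?_, hj⟩
        obtain ⟨i, hi⟩ := Nat.exists_eq_add_of_le hj
        have hpow := Blk_pow hm j0 i
        rw [← hi] at hpow
        set y := -(n : ℝ) * h' with hy
        have hy1 : q ^ i ≤ y := by
          rw [hy, hcast]
          calc q ^ i = q ^ i * 1 := by ring
            _ ≤ q ^ i * ((m j0 : ℝ) * h') := by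
              apply mul_le_mul_of_nonneg_left hj0.le (by positivity)
            _ = (q ^ i * (m j0 : ℝ)) * h' := by ring
            _ ≤ _ := mul_le_mul_of_nonneg_right hpow hh'.le
        have hypos : 0 < y := lt_of_lt_of_le (by positivity) hy1
        have hx1 : ‖D n‖ ≤ Real.exp (-Y) := hsize n hns
        have hx2 : ‖D n‖ ≤ Real.exp (-y) := by
          rw [hDG]
          refine hle.trans (le_of_eq ?_)
          rw [hy]
          congr 1
          ring
        -- `x ^ 2 ≤ exp (-9/5 Y) exp (-y/5)`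
        have hx3 : ‖D n‖ ^ 2 ≤ Real.exp (-(9 / 5 * Y) - 1 / 5 * y) := by
          rcases (norm_nonneg (D n)).eq_or_lt with h0 | h0
          · rw [← h0]
            have := Real.exp_pos (-(9 / 5 * Y) - 1 / 5 * y)
            simpa using this.le
          · have l1 : Real.log ‖D n‖ ≤ -Y := by
              rw [← Real.log_exp (-Y)]
              exact Real.log_le_log h0 hx1
            have l2 : Real.log ‖D n‖ ≤ -y := by
              rw [← Real.log_exp (-y)]
              exact Real.log_le_log h0 hx2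
            calc ‖D n‖ ^ 2 = Real.exp (2 * Real.log ‖D n‖) := by
                  rw [two_mul, Real.exp_add, Real.exp_log h0]
                  ring
              _ ≤ _ := Real.exp_le_exp.2 (by linarith)
        rw [hweight, ← hy]
        calc ‖D n‖ ^ 2 * Real.exp (y / 128)
            ≤ Real.exp (-(9 / 5 * Y) - 1 / 5 * y) * Real.exp (y / 128) :=
              mul_le_mul_of_nonneg_right hx3 (Real.exp_pos _).le
          _ = Real.exp (-(9 / 5 * Y) - 1 / 5 * y + y / 128) := by rw [← Real.exp_add]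
          _ ≤ Real.exp (-(9 / 5 * Y) + -(19 / 100 * y)) := Real.exp_le_exp.2 (by linarith)
          _ = Real.exp (-(9 / 5 * Y)) * Real.exp (-(19 / 100 * y)) := Real.exp_add _ _
          _ ≤ Real.exp (-(9 / 5 * Y)) * (100 / 19 * q⁻¹ ^ i) := by
              apply mul_le_mul_of_nonneg_left _ (Real.exp_pos _).le
              rw [Real.exp_neg]
              have h5 : 19 / 100 * y ≤ Real.exp (19 / 100 * y) := by
                have := Real.add_one_le_exp (19 / 100 * y)
                linarith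
              have h6 : 19 / 100 * q ^ i ≤ Real.exp (19 / 100 * y) := by
                refine le_trans ?_ h5
                apply mul_le_mul_of_nonneg_left hy1 (by norm_num)
              calc (Real.exp (19 / 100 * y))⁻¹ ≤ (19 / 100 * q ^ i)⁻¹ :=
                    inv_anti₀ (by positivity) h6
                _ = 100 / 19 * q⁻¹ ^ i := by
                    rw [mul_inv, inv_pow]
                    norm_num
          _ = 100 / 19 * Real.exp (-(9 / 5 * Y)) * q⁻¹ ^ (J n - j0) := by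
              have : J n - j0 = i := by omega
              rw [this]
              ring
      calc ∑ n ∈ D.support.filter (fun n : ℤ => ¬ -(n : ℝ) * h' ≤ 1),
            ‖D n‖ ^ 2 * Real.exp (-(h' / 256)) ^ (2 * n)
          ≤ ∑ n ∈ D.support.filter (fun n : ℤ => ¬ -(n : ℝ) * h' ≤ 1),
              100 / 19 * Real.exp (-(9 / 5 * Y)) * q⁻¹ ^ (J n - j0) :=
            Finset.sum_le_sum fun n hn => (hterm n hn).1
        _ = 100 / 19 * Real.exp (-(9 / 5 * Y)) *
              ∑ n ∈ D.support.filter (fun n : ℤ => ¬ -(n : ℝ) * h' ≤ 1), q⁻¹ ^ (J n - j0) := by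
            rw [Finset.mul_sum]
        _ ≤ 100 / 19 * Real.exp (-(9 / 5 * Y)) * (1 - q⁻¹)⁻¹ := by
            apply mul_le_mul_of_nonneg_left _ (by positivity)
            apply Blk_geom _ (fun n => J n - j0) _ _ hr0 hr1
            intro x hx y hy hxy
            have hx' := (hterm x hx).2
            have hy' := (hterm y hy).2
            have hxs := (Finset.mem_filter.1 (Finset.mem_coe.1 hx)).1
            have hys := (Finset.mem_filter.1 (Finset.mem_coe.1 hy)).1
            have h1 : J x = J y := by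
              have : J x - j0 = J y - j0 := hxy
              omega
            rw [hJ x (Finsupp.mem_support_iff.1 hxs), hJ y (Finsupp.mem_support_iff.1 hys), h1]
        _ = _ := by ring
    · push Not at hemp
      have hempty : D.support.filter (fun n : ℤ => ¬ -(n : ℝ) * h' ≤ 1) = ∅ := by
        rw [Finset.filter_eq_empty_iff]
        intro n hn
        push Not
        have hn' := Finsupp.mem_support_iff.1 hn
        have hJn := hJ n hn'
        have hcast : -(n : ℝ) = (m (J n) : ℝ) := by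
          conv_lhs => rw [hJn]
          push_cast
          ring
        rw [hcast]
        exact hemp _
      rw [hempty, Finset.sum_empty]
      have : 0 ≤ (1 - q⁻¹)⁻¹ := inv_nonneg.2 (by linarith)
      positivity
  calc _ ≤ 2 * Real.exp (-(9 / 5 * Y)) + 100 / 19 * (1 - q⁻¹)⁻¹ * Real.exp (-(9 / 5 * Y)) :=
        add_le_add hA hB
    _ = _ := by ring

end

end Pool.Agent.L5helper80.QL
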