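import Pool.Agent.W767.HL.Alg

set_option autoImplicit false

namespace Pool.Agent.L5helper80.QL

noncomputable section

open MeasureTheory AddCircle Complex Filter Topology Pool.Agent.W767.HL

/-- the splitting of a majorant series -/
lemma chain_series {u : ℕ → ℝ} (hu : Summable u) {A B : ℝ} (hA : 0 < A) (hB : 0 < B) (hAB : A ≤ B)
    (h1 : ∀ k, u k ≤ A * 2 ^ k) (h2 : ∀ k, u k ≤ B * (1 / 2) ^ k) :
    ∑' k, u k ≤ 4 * Real.sqrt (A * B) := by
  have hs : 1 ≤ Real.sqrt (B / A) := by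
    rw [Real.one_le_sqrt, le_div_iff₀ hA]
    linarith
  obtain ⟨N, hN1, hN2⟩ : ∃ N : ℕ, Real.sqrt (B / A) ≤ 2 ^ N ∧ (2 : ℝ) ^ N ≤ 2 * Real.sqrt (B / A) := by
    have hex : ∃ N : ℕ, Real.sqrt (B / A) ≤ 2 ^ N := by
      obtain ⟨N, hN⟩ := pow_unbounded_of_one_lt (Real.sqrt (B / A)) (by norm_num : (1 : ℝ) < 2)
      exact ⟨N, hN.le⟩
    classical
    refine ⟨Nat.find hex, Nat.find_spec hex, ?_⟩
    rcases Nat.eq_zero_or_pos (Nat.find hex) with h0 | h0
    · rw [h0]
      linarith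
    · have := Nat.find_min hex (m := Nat.find hex - 1) (by omega)
      push Not at this
      have h3 : (2 : ℝ) ^ Nat.find hex = 2 * 2 ^ (Nat.find hex - 1) := by
        rw [← pow_succ']
        congr 1
        omega
      rw [h3]
      linarith
  have hAs : A * Real.sqrt (B / A) = Real.sqrt (A * B) := by
    have h3 : A = Real.sqrt (A ^ 2) := (Real.sqrt_sq hA.le).symm
    conv_lhs => rw [h3]
    rw [← Real.sqrt_mul (by positivity)]
    congr 1
    field_simp
    rw [h3.symm]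
  have hBs : B = Real.sqrt (A * B) * Real.sqrt (B / A) := by
    rw [← Real.sqrt_mul (by positivity)]
    have h3 : A * B * (B / A) = B ^ 2 := by field_simp
    rw [h3, Real.sqrt_sq hB.le]
  have hS : 0 < Real.sqrt (A * B) := Real.sqrt_pos.mpr (by positivity)
  rw [← hu.sum_add_tsum_nat_add N]
  have h3 : ∑ k ∈ Finset.range N, u k ≤ A * 2 ^ N := by
    calc ∑ k ∈ Finset.range N, u k ≤ ∑ k ∈ Finset.range N, A * 2 ^ k :=
          Finset.sum_le_sum fun k _ => h1 k
      _ = A * ∑ k ∈ Finset.range N, (2 : ℝ) ^ k := by rw [Finset.mul_sum]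
      _ ≤ A * 2 ^ N := by
          refine mul_le_mul_of_nonneg_left ?_ hA.le
          rw [geom_sum_eq (by norm_num)]
          norm_num
  have h4 : ∑' k, u (k + N) ≤ 2 * (B * (1 / 2) ^ N) := by
    have hg : HasSum (fun k : ℕ => B * (1 / 2) ^ N * (1 / 2 : ℝ) ^ k) (B * (1 / 2) ^ N * 2) :=
      hasSum_geometric_two.mul_left _
    have h5 : ∑' k, u (k + N) ≤ ∑' k : ℕ, B * (1 / 2) ^ N * (1 / 2 : ℝ) ^ k := by
      refine Summable.tsum_le_tsum (fun k => ?_) ((summable_nat_add_iff N).mpr hu) hg.summable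
      refine (h2 (k + N)).trans (le_of_eq ?_)
      rw [pow_add]
      ring
    rw [hg.tsum_eq] at h5
    linarith
  have h5 : B * (1 / 2) ^ N ≤ Real.sqrt (A * B) := by
    rw [one_div, inv_pow, ← div_eq_mul_inv, div_le_iff₀ (by positivity)]
    calc B = Real.sqrt (A * B) * Real.sqrt (B / A) := hBs
      _ ≤ Real.sqrt (A * B) * 2 ^ N := mul_le_mul_of_nonneg_left hN1 hS.le
  have h6 : A * 2 ^ N ≤ 2 * Real.sqrt (A * B) := by
    rw [← hAs]
    nlinarith
  linarith

lemma chain_step {f : ℂ → ℂ} {Ω : Set ℂ} (hf : DifferentiableOn ℂ f Ω) {ρ a b : ℝ} (hρ : 0 < ρ)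
    (hab : 0 ≤ a + b) (z : ℂ) (hz : Metric.closedBall z (4 * ρ) ⊆ Ω)
    (h4 : ∀ x ∈ Metric.closedBall z (4 * ρ), ‖f x‖ ≤ Real.exp a)
    (h1 : ∀ x ∈ Metric.closedBall z ρ, ‖f x‖ ≤ Real.exp (-b)) :
    ∀ x ∈ Metric.closedBall z (2 * ρ), ‖f x‖ ≤ Real.exp (-((b - a - 4) / 2)) := by
  intro x hx
  have hsub : Metric.closedBall z ρ ⊆ Metric.closedBall z (4 * ρ) :=
    Metric.closedBall_subset_closedBall (by linarith)
  have hd4 : DiffContOnCl ℂ f (Metric.ball z (4 * ρ)) := by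
    refine DifferentiableOn.diffContOnCl ?_
    rw [closure_ball _ (by positivity)]
    exact hf.mono hz
  have hd1 : DiffContOnCl ℂ f (Metric.ball z ρ) := by
    refine DifferentiableOn.diffContOnCl ?_
    rw [closure_ball _ (by positivity)]
    exact hf.mono (hsub.trans hz)
  have hc4 : ∀ k, ‖iteratedDeriv k f z‖ ≤ k.factorial * Real.exp a / (4 * ρ) ^ k := fun k =>
    Complex.norm_iteratedDeriv_le_of_forall_mem_sphere_norm_le k (by positivity) hd4
      fun y hy => h4 y (Metric.sphere_subset_closedBall hy)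
  have hc1 : ∀ k, ‖iteratedDeriv k f z‖ ≤ k.factorial * Real.exp (-b) / ρ ^ k := fun k =>
    Complex.norm_iteratedDeriv_le_of_forall_mem_sphere_norm_le k hρ hd1
      fun y hy => h1 y (Metric.sphere_subset_closedBall hy)
  have hxb : x ∈ Metric.ball z (4 * ρ) := by
    rw [Metric.mem_ball]
    rw [Metric.mem_closedBall] at hx
    linarith
  have hT := Complex.hasSum_taylorSeries_on_ball (hf.mono (Metric.ball_subset_closedBall.trans hz)) hxb
  have hxn : ‖x - z‖ ≤ 2 * ρ := by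
    rw [Metric.mem_closedBall, dist_eq_norm] at hx
    exact hx
  set u : ℕ → ℝ := fun k => ‖((k.factorial : ℂ))⁻¹ • (x - z) ^ k • iteratedDeriv k f z‖ with hu
  have hun : ∀ k, u k = (k.factorial : ℝ)⁻¹ * ‖x - z‖ ^ k * ‖iteratedDeriv k f z‖ := by
    intro k
    simp only [hu, norm_smul, norm_inv, norm_pow, Complex.norm_natCast]
    ring
  have hu1 : ∀ k, u k ≤ Real.exp (-b) * 2 ^ k := by
    intro k
    rw [hun]
    calc (k.factorial : ℝ)⁻¹ * ‖x - z‖ ^ k * ‖iteratedDeriv k f z‖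
        ≤ (k.factorial : ℝ)⁻¹ * (2 * ρ) ^ k * (k.factorial * Real.exp (-b) / ρ ^ k) := by
          gcongr
          exact hc1 k
      _ = Real.exp (-b) * 2 ^ k := by
          have : (k.factorial : ℝ) ≠ 0 := by positivity
          rw [mul_pow]
          field_simp
  have hu2 : ∀ k, u k ≤ Real.exp a * (1 / 2) ^ k := by
    intro k
    rw [hun]
    calc (k.factorial : ℝ)⁻¹ * ‖x - z‖ ^ k * ‖iteratedDeriv k f z‖
        ≤ (k.factorial : ℝ)⁻¹ * (2 * ρ) ^ k * (k.factorial * Real.exp a / (4 * ρ) ^ k) := by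
          gcongr
          exact hc4 k
      _ = Real.exp a * (1 / 2) ^ k := by
          have : (k.factorial : ℝ) ≠ 0 := by positivity
          have h5 : (4 * ρ) ^ k = 2 ^ k * (2 * ρ) ^ k := by
            rw [← mul_pow]; ring
          rw [h5, one_div, inv_pow]
          field_simp
  have hsum : Summable u := by
    refine Summable.of_nonneg_of_le (fun k => norm_nonneg _) hu2 ?_
    exact (summable_geometric_of_lt_one (by norm_num) (by norm_num)).mul_left _
  have hle : ‖f x‖ ≤ ∑' k, u k := by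
    rw [← hT.tsum_eq]
    exact norm_tsum_le_tsum_norm hsum
  refine hle.trans ?_
  have h6 := chain_series hsum (Real.exp_pos (-b)) (Real.exp_pos a)
    (Real.exp_le_exp.mpr (by linarith)) hu1 hu2
  refine h6.trans ?_
  have h7 : Real.sqrt (Real.exp (-b) * Real.exp a) = Real.exp ((a - b) / 2) := by
    rw [← Real.exp_add, show -b + a = (a - b) / 2 + (a - b) / 2 by ring, Real.exp_add,
      Real.sqrt_mul_self (Real.exp_pos _).le]
  rw [h7]
  have h8 : (4 : ℝ) ≤ Real.exp 2 := by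
    have := Real.add_one_le_exp (1 : ℝ)
    have h9 : Real.exp 2 = Real.exp 1 * Real.exp 1 := by rw [← Real.exp_add]; norm_num
    rw [h9]
    nlinarith
  calc 4 * Real.exp ((a - b) / 2) ≤ Real.exp 2 * Real.exp ((a - b) / 2) :=
        mul_le_mul_of_nonneg_right h8 (Real.exp_pos _).le
    _ = Real.exp (-((b - a - 4) / 2)) := by
        rw [← Real.exp_add]
        congr 1
        ring

theorem chain {f : ℂ → ℂ} {Ω : Set ℂ} (hΩ : IsOpen Ω) (hf : DifferentiableOn ℂ f Ω) {ρ a b : ℝ} (hρ : 0 < ρ)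
    (ha : 0 ≤ a) (hb : 0 ≤ b) (I : ℕ) (z : ℕ → ℂ) (hz : ∀ i ≤ I, Metric.closedBall (z i) (4 * ρ) ⊆ Ω)
    (hfa : ∀ i ≤ I, ∀ x ∈ Metric.closedBall (z i) (4 * ρ), ‖f x‖ ≤ Real.exp a)
    (hstep : ∀ i < I, ‖z (i + 1) - z i‖ ≤ ρ) (hfb : Real.exp (-b) ≤ ‖f (z I)‖) :
    ∃ x ∈ Metric.closedBall (z 0) ρ, Real.exp (-(2 ^ I * (b + a + 4))) ≤ ‖f x‖ := by
  by_contra hcon
  push Not at hcon
  set β : ℝ := 2 ^ I * (b + a + 4) + (a + 4) with hβ
  have hβ0 : 0 ≤ β := by positivity
  have key : ∀ i ≤ I, ∀ x ∈ Metric.closedBall (z i) ρ,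
      ‖f x‖ ≤ Real.exp (-(β / 2 ^ i - (a + 4))) := by
    intro i
    induction i with
    | zero =>
      intro _ x hx
      refine (hcon x hx).le.trans (le_of_eq ?_)
      rw [hβ]
      congr 1
      ring
    | succ i ih =>
      intro hi x hx
      have hi' : i ≤ I := by omega
      have h2i : (2 : ℝ) ^ i ≤ 2 ^ I := pow_le_pow_right₀ (by norm_num) hi'
      have hge : b + a + 4 ≤ β / 2 ^ i := by
        rw [le_div_iff₀ (by positivity), hβ]
        nlinarith [mul_nonneg (sub_nonneg.mpr h2i) (by positivity : (0 : ℝ) ≤ b + a + 4)]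
      have h1 := chain_step hf hρ (a := a) (b := β / 2 ^ i - (a + 4)) (by linarith) (z i)
        (hz i hi') (hfa i hi') (ih hi') x ?_
      · refine h1.trans (le_of_eq ?_)
        congr 1
        rw [pow_succ]
        field_simp
        ring
      · rw [Metric.mem_closedBall, dist_eq_norm] at hx ⊢
        have h3 := hstep i (by omega)
        calc ‖x - z i‖ = ‖(x - z (i + 1)) + (z (i + 1) - z i)‖ := by congr 1; ring
          _ ≤ ‖x - z (i + 1)‖ + ‖z (i + 1) - z i‖ := norm_add_le _ _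
          _ ≤ 2 * ρ := by linarith
  have h1 := key I le_rfl (z I) (Metric.mem_closedBall_self hρ.le)
  have h2 : β / 2 ^ I - (a + 4) = b + (a + 4) / 2 ^ I := by
    rw [hβ]
    field_simp
    ring
  rw [h2] at h1
  have h3 : Real.exp (-(b + (a + 4) / 2 ^ I)) < Real.exp (-b) := by
    apply Real.exp_lt_exp.mpr
    have : 0 < (a + 4) / 2 ^ I := by positivity
    linarith
  linarith

end

end Pool.Agent.L5helper80.QL
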