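import Pool.Agent.L5helper80.QL.Defs

/-!
# J2: the continued function is bounded by the Poisson integral of `|G|`

SKETCH. Let `PG(z) = ∑_{n≥0} G_n z^n + ∑_{n<0} G_n conj(z)^|n|` (Poisson integral of `G`), so `|PG(z)| ≤ S G z`
(`∫ P_z ζ^n = z^n` for `n ≥ 0` by `poisson`, conjugate for `n < 0`). With `x = ev (cont h G)`:
`x(z) - PG(z) = ∑_{n<0 in cont} G_n (z^{-m} - conj z^m) - ∑_{non} G_n conj z^m` (`m = -n`), `|z^{-m} - conj z^m| = 2 sinh(mt)`.
* cont, `mt ≤ 1`: `2 sinh(mt) ≤ 2 e mt`, `|G_n| ≤ 1`; geometric sum `∑_{m_j t ≤ 1} m_j t ≤ q/(q-1)`.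
* cont, `mt > 1`: `|G_n| ≤ e^{-mh} ≤ e^{-4mt}`, so the term is `≤ e^{-3mt} ≤ 1/(3mt)`; geometric sum.
* non: `|G_n| ≤ mass^(1/2) ≤ e^{-128}` and `|G_n| > e^{-mh}`, so `mh > 128`, `mt ≥ 1`; term `≤ e^{-mt} ≤ 1/(mt)`.
Frequencies: `n < 0`, `G n ≠ 0` implies `n = - m j` (`Spec`), `m` is strictly increasing with ratio `≥ q`.
-/

set_option autoImplicit false

namespace Pool.Agent.L5helper80.QL

noncomputable section

open MeasureTheory AddCircle Complex Filter Topology Pool.Agent.W767.HL

/-- A lacunary sum with a telescoping majorant. -/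
lemma Cnt_sum {q : ℝ} (hq : 1 < q) (u : ℕ → ℝ) (hu : ∀ j, 0 < u j)
    (hg : ∀ j, q * u j ≤ u (j + 1)) (N : ℕ) :
    ∑ j ∈ Finset.range N, u j / (1 + u j) ^ 2 ≤ q / (q - 1) := by
  have hq1 : 0 < q - 1 := by linarith
  have key : ∑ j ∈ Finset.range N, u j / (1 + u j) ^ 2
      ≤ q / (q - 1) * (u N / (1 + u N) - u 0 / (1 + u 0)) := by
    induction N with
    | zero => simp
    | succ N ih =>
      rw [Finset.sum_range_succ]
      have h0 := hu N
      have h1 := hu (N + 1)
      have h2 := hg N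
      have hqu : 0 < q * u N := by positivity
      have e1 : q * u N / (1 + q * u N) ≤ u (N + 1) / (1 + u (N + 1)) := by
        rw [div_le_div_iff₀ (by positivity) (by positivity)]
        nlinarith
      have e2 : u N / (1 + u N) ^ 2
          ≤ q / (q - 1) * (q * u N / (1 + q * u N) - u N / (1 + u N)) := by
        have : q / (q - 1) * (q * u N / (1 + q * u N) - u N / (1 + u N))
            = q * u N / ((1 + q * u N) * (1 + u N)) := by
          field_simp
          ring
        rw [this, div_le_div_iff₀ (by positivity) (by positivity)]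
        have : 0 ≤ u N * (1 + u N) * ((q - 1)) := by positivity
        nlinarith
      have e3 : q / (q - 1) * (q * u N / (1 + q * u N)) ≤ q / (q - 1) * (u (N + 1) / (1 + u (N + 1))) :=
        mul_le_mul_of_nonneg_left e1 (by positivity)
      nlinarith
  refine key.trans ?_
  have a1 : u N / (1 + u N) ≤ 1 := by
    rw [div_le_one (by have := hu N; positivity)]
    have := hu N
    linarith
  have a2 : 0 ≤ u 0 / (1 + u 0) := by
    have := hu 0
    positivity
  have : 0 ≤ q / (q - 1) := by positivity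
  nlinarith

lemma Cnt_small {u : ℝ} (hu : 0 < u) (h1 : u ≤ 1) : 6 * u ≤ 24 * (u / (1 + u) ^ 2) := by
  rw [← mul_div_assoc, le_div_iff₀ (by positivity)]
  nlinarith [mul_pos hu hu, mul_nonneg hu.le (sub_nonneg.2 h1)]

lemma Cnt_large {u : ℝ} (h1 : 1 < u) : Real.exp (-u) ≤ 24 * (u / (1 + u) ^ 2) := by
  have hu : 0 < u := by linarith
  have e : Real.exp (-u) ≤ 1 / u := by
    rw [Real.exp_neg, one_div]
    exact inv_anti₀ hu (by linarith [Real.add_one_le_exp u])
  refine e.trans ?_
  rw [← mul_div_assoc, div_le_div_iff₀ hu (by positivity)]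
  nlinarith

/-- the factor of a continued frequency -/
lemma Cnt_diff (k : ℕ) {t : ℝ} {z : ℂ} (hz : ‖z‖ = Real.exp (-t)) :
    ‖z ^ (-(k : ℤ)) - (starRingEnd ℂ) z ^ k‖
      = Real.exp (k * t) * |1 - Real.exp (-(2 * (k * t)))| := by
  have hz0 : z ≠ 0 := by
    intro h
    rw [h, norm_zero] at hz
    exact (Real.exp_pos _).ne hz
  have e1 : z ^ (-(k : ℤ)) - (starRingEnd ℂ) z ^ k
      = (z ^ k)⁻¹ * (((1 - Real.exp (-(2 * (k * t))) : ℝ)) : ℂ) := by
    have e2 : z * (starRingEnd ℂ) z = ((Real.exp (-(2 * t)) : ℝ) : ℂ) := by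
      rw [Complex.mul_conj, Complex.normSq_eq_norm_sq, hz, ← Real.exp_nat_mul]
      congr 2
      push_cast
      ring
    have e3 : z ^ k * (starRingEnd ℂ) z ^ k = ((Real.exp (-(2 * (k * t))) : ℝ) : ℂ) := by
      rw [← mul_pow, e2, ← Complex.ofReal_pow, ← Real.exp_nat_mul]
      congr 2
      ring
    have hzk : z ^ k ≠ 0 := pow_ne_zero _ hz0
    rw [zpow_neg, zpow_natCast, Complex.ofReal_sub, ← e3, Complex.ofReal_one]
    field_simp
  rw [e1, norm_mul, norm_inv, norm_pow, hz, Complex.norm_real, Real.norm_eq_abs]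
  congr 1
  rw [← Real.exp_nat_mul, ← Real.exp_neg]
  congr 1
  ring

lemma Cnt_term1 {k : ℕ} (hk : 1 ≤ k) {t h : ℝ} (ht : 0 < t) (hth : t ≤ h / 4) {z c : ℂ}
    (hz : ‖z‖ = Real.exp (-t)) (hc : ‖c‖ ≤ 1) (hc2 : ‖c‖ ≤ Real.exp (-(k * h))) :
    ‖c * (z ^ (-(k : ℤ)) - (starRingEnd ℂ) z ^ k)‖ ≤ 24 * ((k * t) / (1 + k * t) ^ 2) := by
  have hk0 : (0 : ℝ) < k := by exact_mod_cast hk
  have hu : 0 < (k : ℝ) * t := by positivity
  rw [norm_mul, Cnt_diff k hz]
  set u : ℝ := k * t with hu_def
  have hnn : 0 ≤ 1 - Real.exp (-(2 * u)) := by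
    have : Real.exp (-(2 * u)) ≤ 1 := Real.exp_le_one_iff.2 (by linarith)
    linarith
  rw [abs_of_nonneg hnn]
  rcases le_or_gt u 1 with h1 | h1
  · refine le_trans ?_ (Cnt_small hu h1)
    have a1 : 1 - Real.exp (-(2 * u)) ≤ 2 * u := by
      linarith [Real.add_one_le_exp (-(2 * u))]
    have a2 : Real.exp u ≤ 3 := by
      refine (Real.exp_le_exp.2 h1).trans ?_
      have := Real.exp_one_lt_d9
      linarith
    have a3 : Real.exp u * (1 - Real.exp (-(2 * u))) ≤ 3 * (2 * u) :=
      mul_le_mul a2 a1 hnn (by norm_num)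
    have a4 : 0 ≤ Real.exp u * (1 - Real.exp (-(2 * u))) := by positivity
    calc ‖c‖ * (Real.exp u * (1 - Real.exp (-(2 * u))))
        ≤ 1 * (Real.exp u * (1 - Real.exp (-(2 * u)))) := mul_le_mul_of_nonneg_right hc a4
      _ ≤ 6 * u := by linarith
  · refine le_trans ?_ (Cnt_large h1)
    have a1 : 1 - Real.exp (-(2 * u)) ≤ 1 := by linarith [Real.exp_pos (-(2 * u))]
    have a2 : ‖c‖ ≤ Real.exp (-(4 * u)) := by
      refine hc2.trans (Real.exp_le_exp.2 ?_)
      rw [hu_def]
      nlinarith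
    calc ‖c‖ * (Real.exp u * (1 - Real.exp (-(2 * u))))
        ≤ Real.exp (-(4 * u)) * (Real.exp u * 1) := by
          refine mul_le_mul a2 (mul_le_mul_of_nonneg_left a1 (Real.exp_pos _).le) ?_
            (Real.exp_pos _).le
          positivity
      _ = Real.exp (-(3 * u)) := by
          rw [mul_one, ← Real.exp_add]
          congr 1
          ring
      _ ≤ Real.exp (-u) := Real.exp_le_exp.2 (by linarith)

lemma Cnt_term2 {k : ℕ} {t h : ℝ} (hth : h / 128 ≤ t) {z c : ℂ}
    (hz : ‖z‖ = Real.exp (-t)) (hc : ‖c‖ ≤ Real.exp (-128)) (hc2 : ¬ ‖c‖ ≤ Real.exp (-(k * h))) :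
    ‖c * (starRingEnd ℂ) z ^ k‖ ≤ 24 * ((k * t) / (1 + k * t) ^ 2) := by
  have h1 : Real.exp (-(k * h)) < Real.exp (-128) := (not_le.1 hc2).trans_le hc
  have h2 : 128 < k * h := by
    have := Real.exp_lt_exp.1 h1
    linarith
  have hu : 1 < (k : ℝ) * t := by
    have : (k : ℝ) * (h / 128) ≤ k * t := mul_le_mul_of_nonneg_left hth (Nat.cast_nonneg k)
    linarith
  refine le_trans ?_ (Cnt_large hu)
  rw [norm_mul, norm_pow, Complex.norm_conj, hz, ← Real.exp_nat_mul]
  have hc1 : ‖c‖ ≤ 1 := hc.trans (Real.exp_le_one_iff.2 (by norm_num))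
  calc ‖c‖ * Real.exp (k * -t) ≤ 1 * Real.exp (k * -t) :=
        mul_le_mul_of_nonneg_right hc1 (Real.exp_pos _).le
    _ = Real.exp (-(k * t)) := by
        rw [one_mul]
        congr 1
        ring

/-- value of the Poisson integral of a monomial -/
def Cnt_mon (n : ℤ) (z : ℂ) : ℂ := if 0 ≤ n then z ^ n.toNat else (starRingEnd ℂ) z ^ (-n).toNat

lemma Cnt_poisson {w : ℂ} (hw : ‖w‖ < 1) (n : ℤ) :
    ∫ θ, (P w θ : ℂ) * ze θ ^ n ∂mu = Cnt_mon n w := by
  unfold Cnt_mon
  split_ifs with h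
  · obtain ⟨k, rfl⟩ := Int.eq_ofNat_of_zero_le h
    have := poisson (f := fun z : ℂ => z ^ k) (differentiable_pow k) hw
    simpa using this
  · obtain ⟨k, hk⟩ := Int.eq_ofNat_of_zero_le (show 0 ≤ -n by omega)
    have hn : n = -(k : ℤ) := by omega
    subst hn
    have h1 := poisson (f := fun z : ℂ => z ^ k) (differentiable_pow k) hw
    have h2 : ∀ θ, (P w θ : ℂ) * ze θ ^ (-(k : ℤ)) = (starRingEnd ℂ) ((P w θ : ℂ) * ze θ ^ k) := by
      intro θ
      rw [map_mul, Complex.conj_ofReal, map_pow, conj_ze, zpow_neg, zpow_natCast, inv_pow]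
    simp_rw [h2]
    rw [integral_conj, h1]
    simp

lemma Cnt_PG {w : ℂ} (hw : ‖w‖ < 1) (G : ℤ →₀ ℂ) :
    ‖∑ n ∈ G.support, G n * Cnt_mon n w‖ ≤ S G w := by
  have hint : ∀ n ∈ G.support, Integrable (fun θ => G n * ((P w θ : ℂ) * ze θ ^ n)) mu := by
    intro n _
    have hc : Continuous fun θ => (ze θ) ^ n := by
      refine continuous_ze.zpow₀ n fun θ => Or.inl (ze_ne θ)
    have := integrable_P_mul hw (integrable_of_cont hc)
    simpa only [real_smul] using this.const_mul (G n)
  have e : ∑ n ∈ G.support, G n * Cnt_mon n w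
      = ∫ θ, (P w θ : ℂ) * ev G (ze θ) ∂mu := by
    have : ∀ θ, (P w θ : ℂ) * ev G (ze θ) = ∑ n ∈ G.support, G n * ((P w θ : ℂ) * ze θ ^ n) := by
      intro θ
      rw [ev_eq_sum, Finsupp.sum, Finset.mul_sum]
      exact Finset.sum_congr rfl fun n _ => by ring
    simp_rw [this]
    rw [integral_finsetSum _ hint]
    refine Finset.sum_congr rfl fun n _ => ?_
    rw [integral_const_mul, Cnt_poisson hw]
  rw [e]
  refine (norm_integral_le_integral_norm _).trans_eq ?_
  unfold S Pz
  refine integral_congr_ae (Filter.Eventually.of_forall fun θ => ?_)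
  simp only [norm_mul, Complex.norm_real, Real.norm_of_nonneg (P_pos hw θ).le]

open Classical in
lemma Cnt_ev (h : ℝ) (G : ℤ →₀ ℂ) (z : ℂ) :
    ev (cont h G) z = ∑ n ∈ G.support,
      (if 0 ≤ n ∨ ‖G n‖ ≤ Real.exp (n * h) then G n * z ^ n else 0) := by
  unfold cont
  rw [ev_eq_sum, Finsupp.sum, Finsupp.support_filter, Finset.sum_filter]
  refine Finset.sum_congr rfl fun n _ => ?_
  split_ifs with hn
  · rw [Finsupp.filter_apply_pos (fun n : ℤ => 0 ≤ n ∨ ‖G n‖ ≤ Real.exp (n * h)) G hn]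
  · rfl

theorem cont_le (q : ℝ) (hq : 1 < q) : ∃ C : ℝ, 1 ≤ C ∧ ∀ (m : ℕ → ℕ) (G : ℤ →₀ ℂ) (h t : ℝ) (z : ℂ),
    Lac q m → Spec m G → (∀ n : ℤ, n < 0 → ‖G n‖ ≤ 1) → 0 < h → mass (non h G) ≤ Real.exp (-256) →
    ‖z‖ = Real.exp (-t) → h / 128 ≤ t → t ≤ h / 4 → h ≤ 1 → ‖ev (cont h G) z‖ ≤ S G z + C := by
  classical
  refine ⟨1 + 24 * (q / (q - 1)), ?_, ?_⟩
  · have : 0 < q - 1 := by linarith
    have : 0 ≤ q / (q - 1) := by positivity
    linarith
  intro m G h t z hlac hspec hG hh hmass hz ht1 ht2 _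
  have ht : 0 < t := by linarith
  have hz1 : ‖z‖ < 1 := by
    rw [hz]
    exact (Real.exp_lt_exp.2 (by linarith : -t < 0)).trans_eq Real.exp_zero
  -- positivity and monotonicity of `m`
  have hmpos : ∀ j, 0 < m j := by
    intro j
    induction j with
    | zero => exact hlac.pos
    | succ j ih =>
      have h1 := hlac.gap j
      have h2 : (0 : ℝ) < m j := by exact_mod_cast ih
      have h3 : (0 : ℝ) < m (j + 1) := by nlinarith
      exact_mod_cast h3
  have hmmono : StrictMono m := by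
    refine strictMono_nat_of_lt_succ fun j => ?_
    have h1 := hlac.gap j
    have h2 : (0 : ℝ) < m j := by exact_mod_cast hmpos j
    have h3 : (m j : ℝ) < m (j + 1) := by nlinarith
    exact_mod_cast h3
  -- the error
  have herr : ‖ev (cont h G) z - ∑ n ∈ G.support, G n * Cnt_mon n z‖
      ≤ ∑ n ∈ G.support with n < 0, 24 * (((-n : ℤ) : ℝ) * t / (1 + ((-n : ℤ) : ℝ) * t) ^ 2) := by
    rw [Cnt_ev, ← Finset.sum_sub_distrib, Finset.sum_filter]
    refine (norm_sum_le _ _).trans (Finset.sum_le_sum fun n hn => ?_)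
    by_cases h0 : 0 ≤ n
    · rw [if_pos (Or.inl h0), if_neg (by omega)]
      unfold Cnt_mon
      rw [if_pos h0]
      obtain ⟨k, rfl⟩ := Int.eq_ofNat_of_zero_le h0
      simp
    · obtain ⟨k, hk⟩ := Int.eq_ofNat_of_zero_le (show 0 ≤ -n by omega)
      have hn' : n = -(k : ℤ) := by omega
      have hk1 : 1 ≤ k := by omega
      have hneg : n < 0 := by omega
      rw [if_pos hneg]
      unfold Cnt_mon
      rw [if_neg h0]
      have hG1 := hG n hneg
      by_cases hc : ‖G n‖ ≤ Real.exp (n * h)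
      · rw [if_pos (Or.inr hc)]
        have hc' : ‖G n‖ ≤ Real.exp (-(k * h)) := by
          refine hc.trans_eq ?_
          rw [hn']
          congr 1
          push_cast
          ring
        have := Cnt_term1 hk1 ht ht2 hz hG1 hc'
        rw [← mul_sub]
        have e1 : (-n).toNat = k := by omega
        rw [e1]
        have e2 : z ^ n = z ^ (-(k : ℤ)) := by rw [hn']
        rw [e2, hk]
        simpa using this
      · rw [if_neg (by push Not; exact ⟨by omega, not_le.1 hc⟩)]
        have hc' : ¬ ‖G n‖ ≤ Real.exp (-(k * h)) := by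
          intro hle
          refine hc (hle.trans_eq ?_)
          rw [hn']
          congr 1
          push_cast
          ring
        have hm1 : ‖G n‖ ≤ Real.exp (-128) := by
          have h1 : ‖G n‖ ^ 2 ≤ mass (non h G) := by
            unfold mass
            have hcond : ¬ (0 ≤ n ∨ ‖G n‖ ≤ Real.exp (n * h)) := by
              push Not
              exact ⟨by omega, not_le.1 hc⟩
            have hv : non h G n = G n := by
              unfold non
              rw [Finsupp.filter_apply_pos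
                (fun n : ℤ => ¬ (0 ≤ n ∨ ‖G n‖ ≤ Real.exp (n * h))) G hcond]
            have hmem : n ∈ (non h G).support := by
              rw [Finsupp.mem_support_iff, hv]
              exact Finsupp.mem_support_iff.1 hn
            have := Finset.single_le_sum (f := fun n => ‖non h G n‖ ^ 2)
              (fun i _ => by positivity) hmem
            rw [hv] at this
            exact this
          have h2 : ‖G n‖ ^ 2 ≤ Real.exp (-128) ^ 2 := by
            refine (h1.trans hmass).trans_eq ?_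
            rw [← Real.exp_nat_mul]
            norm_num
          exact (pow_le_pow_iff_left₀ (norm_nonneg _) (Real.exp_pos _).le two_ne_zero).1 h2
        have := Cnt_term2 ht1 hz hm1 hc'
        have e1 : (-n).toNat = k := by omega
        rw [e1, zero_sub, norm_neg, hk]
        simpa using this
  -- the sum over the frequencies
  have hsum : ∑ n ∈ G.support with n < 0, 24 * (((-n : ℤ) : ℝ) * t / (1 + ((-n : ℤ) : ℝ) * t) ^ 2)
      ≤ 24 * (q / (q - 1)) := by
    rw [← Finset.mul_sum]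
    refine mul_le_mul_of_nonneg_left ?_ (by norm_num)
    have hex : ∀ n : ℤ, ∃ j : ℕ, n ∈ G.support.filter (fun n => n < 0) → n = -(m j : ℤ) := by
      intro n
      by_cases hn : n ∈ G.support.filter (fun n => n < 0)
      · rw [Finset.mem_filter] at hn
        by_contra hcon
        push Not at hcon
        exact Finsupp.mem_support_iff.1 hn.1 (hspec n hn.2 fun j => (hcon j).2)
      · exact ⟨0, fun h => absurd h hn⟩
    choose j hj using hex
    set T := G.support.filter (fun n => n < 0) with hT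
    have hinj : Set.InjOn j T := by
      intro a ha b hb hab
      have h1 := hj a ha
      have h2 := hj b hb
      rw [h1, h2, hab]
    have e1 : ∑ n ∈ T, ((-n : ℤ) : ℝ) * t / (1 + ((-n : ℤ) : ℝ) * t) ^ 2
        = ∑ i ∈ T.image j, ((m i : ℝ) * t) / (1 + (m i : ℝ) * t) ^ 2 := by
      rw [Finset.sum_image hinj]
      refine Finset.sum_congr rfl fun n hn => ?_
      have h1 : (-n : ℤ) = (m (j n) : ℤ) := by
        have := hj n hn
        omega
      rw [h1]
      simp
    rw [e1]
    obtain ⟨N, hN⟩ := (T.image j).exists_nat_subset_range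
    refine (Finset.sum_le_sum_of_subset_of_nonneg hN fun i _ _ => ?_).trans
      (Cnt_sum hq (fun i => (m i : ℝ) * t) (fun i => ?_) (fun i => ?_) N)
    · have : (0 : ℝ) < m i := by exact_mod_cast hmpos i
      positivity
    · have : (0 : ℝ) < m i := by exact_mod_cast hmpos i
      positivity
    · have := hlac.gap i
      nlinarith
  have hfin : ‖ev (cont h G) z‖ ≤ ‖∑ n ∈ G.support, G n * Cnt_mon n z‖
      + ‖ev (cont h G) z - ∑ n ∈ G.support, G n * Cnt_mon n z‖ := by
    have := norm_add_le (∑ n ∈ G.support, G n * Cnt_mon n z)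
      (ev (cont h G) z - ∑ n ∈ G.support, G n * Cnt_mon n z)
    simpa using this
  have hPG := Cnt_PG hz1 G
  linarith

end

end Pool.Agent.L5helper80.QL
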