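import Pool.Agent.W767.HL.Main

set_option autoImplicit false

/-!
# Half-lacunary series: definitions for the proof of log-integrability

`Ci`, `mu`, `ze`, `P` (Poisson kernel), `ev` (value of a Laurent polynomial) are those of the
library `W767/HL`.  Heights are measured by `t` with `‖z‖ = exp (-t)`.
-/

namespace Pool.Agent.L5helper80.QL

noncomputable section

open MeasureTheory AddCircle Complex Pool.Agent.W767.HL

/-- Gap sequence with ratio at least `q`. -/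
structure Lac (q : ℝ) (m : ℕ → ℕ) : Prop where
  one_lt : 1 < q
  pos : 0 < m 0
  gap : ∀ j, q * (m j : ℝ) ≤ (m (j + 1) : ℝ)

/-- All negative frequencies of `G` are among the `- m j`. -/
def Spec (m : ℕ → ℕ) (G : ℤ →₀ ℂ) : Prop := ∀ n : ℤ, n < 0 → (∀ j, n ≠ -(m j : ℤ)) → G n = 0

open Classical in
/-- The part of `G` which can be continued to the height `h`: all frequencies `n ≥ 0` and those
`n < 0` with `|G n| ≤ exp (n h)`. -/
def cont (h : ℝ) (G : ℤ →₀ ℂ) : ℤ →₀ ℂ := G.filter fun n => 0 ≤ n ∨ ‖G n‖ ≤ Real.exp (n * h)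

open Classical in
/-- The rest. -/
def non (h : ℝ) (G : ℤ →₀ ℂ) : ℤ →₀ ℂ := G.filter fun n => ¬ (0 ≤ n ∨ ‖G n‖ ≤ Real.exp (n * h))

/-- Sum of the squares of the coefficients. -/
def mass (F : ℤ →₀ ℂ) : ℝ := ∑ n ∈ F.support, ‖F n‖ ^ 2

/-- Poisson integral of a function on the circle. -/
def Pz (u : Ci → ℝ) (z : ℂ) : ℝ := ∫ θ, P z θ * u θ ∂mu

/-- Poisson integral of `|G|`. -/
def S (G : ℤ →₀ ℂ) (z : ℂ) : ℝ := Pz (fun θ => ‖ev G (ze θ)‖) z

/-- The standing assumptions on the Laurent polynomial `G`, the scales `h` and the levels `Λ`. -/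
structure Data (q : ℝ) (m : ℕ → ℕ) (G : ℤ →₀ ℂ) (h Λ : ℕ → ℝ) (N : ℕ) : Prop where
  lac : Lac q m
  spec : Spec m G
  small : ∀ n : ℤ, n < 0 → ‖G n‖ ≤ Real.exp (-1)
  hpos : ∀ i, 0 < h i
  hanti : Antitone h
  h1 : h 0 ≤ 1
  dbl : ∀ i, 2 * Λ i ≤ Λ (i + 1)
  massle : ∀ i, i ≤ N → mass (non (h i) G) ≤ Real.exp (-(2 * Λ i))
  massge : ∀ i, i ≤ N → Real.exp (-(2 * Λ i)) ≤ 2 * mass (non (2 * h i) G)

/-- The standing assumptions on the entire function `H`; its real part is a substitute for the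
harmonic measure of the set where `|G|` is small. -/
structure Har (G : ℤ →₀ ℂ) (Y : ℝ) (H : ℂ → ℂ) : Prop where
  diff : Differentiable ℂ H
  nonneg : ∀ z, ‖z‖ ≤ 1 → 0 ≤ (H z).re
  le2 : ∀ z, ‖z‖ ≤ 1 → (H z).re ≤ 2
  supp : ∀ θ, (H (ze θ)).re ≤ 1 / Y ∨ ‖ev G (ze θ)‖ ≤ 2 * Real.exp (-Y)

/-- kernel of the Cauchy formula -/
def ker (w z : ℂ) : ℂ := ((1 - ‖w‖ ^ 2 : ℝ) / (1 - (starRingEnd ℂ) w * z)) ^ 2 / (z - w)

/-- the conditions on the bounds `Δ` of the induction -/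
structure Bd (Δ : ℕ → ℝ) (N : ℕ) : Prop where
  pos : ∀ i, 0 < Δ i
  mono : ∀ i, Δ i ≤ Δ (i + 1)
  dbl : ∀ i, Δ (i + 1) ≤ 2 * Δ i
  two : 2 ≤ Δ N

/-- the induction hypothesis at the level `i` -/
def IH (H : ℂ → ℂ) (h Δ : ℕ → ℝ) (i : ℕ) : Prop := ∀ z, ‖z‖ ≤ Real.exp (-(h i / 64)) → (H z).re ≤ Δ i

end

end Pool.Agent.L5helper80.QL
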