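import Pool.Agent.L5helper80.QL.Har

/-!
# J9: existence of the function `H`

`τ_k = h_k/64`, `A₀ = A / 8450`, `cl x = max 0 (min 1 x)`.
`u(ζ) = cl(2 - |G(ζ)| e^Y) · ∏_{k ≤ N} cl(2 - S(e^{-τ_k} ζ)/A₀)`.
-/

set_option autoImplicit false

namespace Pool.Agent.L5helper80.QL

noncomputable section

open MeasureTheory AddCircle Complex Filter Topology Pool.Agent.W767.HL

/-- the clamp -/
def ExH_cl (x : ℝ) : ℝ := max 0 (min 1 x)

theorem ExH_cl_cont : Continuous ExH_cl := continuous_const.max (continuous_const.min continuous_id)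

theorem ExH_cl_nonneg (x : ℝ) : 0 ≤ ExH_cl x := le_max_left _ _

theorem ExH_cl_le (x : ℝ) : ExH_cl x ≤ 1 := max_le zero_le_one (min_le_left _ _)

theorem ExH_cl_one {x : ℝ} (h : 1 ≤ x) : ExH_cl x = 1 := by
  rw [ExH_cl, min_eq_left h, max_eq_right zero_le_one]

theorem ExH_cl_zero {x : ℝ} (h : x ≤ 0) : ExH_cl x = 0 := by
  rw [ExH_cl, min_eq_right (h.trans zero_le_one), max_eq_left h]

theorem ExH_surj {ζ : ℂ} (h : ‖ζ‖ = 1) : ∃ θ : Ci, ze θ = ζ := by
  refine ⟨((ζ.arg / (2 * Real.pi) : ℝ) : Ci), ?_⟩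
  have h1 := Complex.norm_mul_exp_arg_mul_I ζ
  rw [h, ofReal_one, one_mul] at h1
  have hpi : (Real.pi : ℂ) ≠ 0 := ofReal_ne_zero.2 Real.pi_ne_zero
  have e : 2 * Real.pi * I * ((ζ.arg / (2 * Real.pi) : ℝ) : ℂ) = ζ.arg * I := by
    push_cast
    field_simp
  rw [ze_coe, e, h1]

theorem ExH_exp_lt {x : ℝ} (h : 0 < x) : Real.exp (-x) < 1 := by
  rw [← Real.exp_zero]
  exact Real.exp_lt_exp.2 (by linarith)

/-- comparison of Poisson kernels off an arc -/
theorem ExH_comp {τ : ℝ} (h0 : 0 < τ) (h1 : τ ≤ 1 / 64) {θ₀ θ : Ci}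
    (hD : 64 * τ ≤ ‖ze θ - ze θ₀‖) :
    P ((Real.exp (-τ) : ℝ) * ze θ₀) θ ≤ 1 / 2 * P ((Real.exp (-(16 * τ)) : ℝ) * ze θ₀) θ := by
  set D := ‖ze θ - ze θ₀‖ with hDd
  have hD0 : 0 < D := by linarith
  set ρ := Real.exp (-τ) with hρ
  set r := Real.exp (-(16 * τ)) with hr
  have ρ0 : 0 < ρ := Real.exp_pos _
  have r0 : 0 < r := Real.exp_pos _
  have ρ1 : ρ ≤ 1 := Real.exp_le_one_iff.2 (by linarith)
  have r1 : r ≤ 1 := Real.exp_le_one_iff.2 (by linarith)
  have hρl : 1 - τ ≤ ρ := by have := Real.add_one_le_exp (-τ); linarith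
  have hrl : 1 - 16 * τ ≤ r := by have := Real.add_one_le_exp (-(16 * τ)); linarith
  have hdist : ∀ a : ℝ, 0 ≤ a → a ≤ 1 → ‖ze θ₀ - (a : ℂ) * ze θ₀‖ = 1 - a := by
    intro a _ ha1
    have : ze θ₀ - (a : ℂ) * ze θ₀ = ((1 - a : ℝ) : ℂ) * ze θ₀ := by push_cast; ring
    rw [this, norm_mul, norm_ze, mul_one, Complex.norm_real, Real.norm_of_nonneg (by linarith)]
  have a1 : 63 / 64 * D ≤ ‖ze θ - (ρ : ℂ) * ze θ₀‖ := by
    have t := norm_sub_le_norm_sub_add_norm_sub (ze θ) ((ρ : ℂ) * ze θ₀) (ze θ₀)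
    rw [norm_sub_rev ((ρ : ℂ) * ze θ₀), hdist ρ ρ0.le ρ1] at t
    rw [← hDd] at t
    linarith
  have a2 : ‖ze θ - (r : ℂ) * ze θ₀‖ ≤ 5 / 4 * D := by
    have t := norm_sub_le_norm_sub_add_norm_sub (ze θ) (ze θ₀) ((r : ℂ) * ze θ₀)
    rw [hdist r r0.le r1, ← hDd] at t
    linarith
  have a3 : 0 < ‖ze θ - (r : ℂ) * ze θ₀‖ := by
    have := dist_pos ((r : ℂ) * ze θ₀) θ
    rw [norm_rze r0.le] at this
    have : r < 1 := by
      rw [hr]; exact ExH_exp_lt (by linarith)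
    linarith
  have b1 : 1 - ρ ^ 2 ≤ 2 * τ := by nlinarith
  have b2 : 20 * τ ≤ 1 - r ^ 2 := by
    have e : r ^ 2 = Real.exp (-(32 * τ)) := by
      rw [hr, ← Real.exp_nat_mul]; congr 1; push_cast; ring
    have e2 : r ^ 2 * (1 + 32 * τ) ≤ 1 := by
      have := Real.add_one_le_exp (32 * τ)
      have e3 : r ^ 2 * Real.exp (32 * τ) = 1 := by
        rw [e, ← Real.exp_add, neg_add_cancel, Real.exp_zero]
      calc r ^ 2 * (1 + 32 * τ) ≤ r ^ 2 * Real.exp (32 * τ) :=
            mul_le_mul_of_nonneg_left (by linarith) (sq_nonneg _)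
        _ = 1 := e3
    nlinarith [sq_nonneg r, sq_nonneg τ, mul_pos h0 h0]
  unfold P
  rw [norm_rze ρ0.le, norm_rze r0.le]
  have c1 : (1 - ρ ^ 2) / ‖ze θ - (ρ : ℂ) * ze θ₀‖ ^ 2 ≤ 2 * τ / (63 / 64 * D) ^ 2 := by
    have : 0 ≤ 1 - ρ ^ 2 := by nlinarith
    exact div_le_div₀ (by linarith) b1 (by positivity) (pow_le_pow_left₀ (by positivity) a1 2)
  have c2 : 20 * τ / (5 / 4 * D) ^ 2 ≤ (1 - r ^ 2) / ‖ze θ - (r : ℂ) * ze θ₀‖ ^ 2 :=
    div_le_div₀ (by linarith) b2 (by positivity) (pow_le_pow_left₀ a3.le a2 2)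
  have c3 : 2 * τ / (63 / 64 * D) ^ 2 ≤ 1 / 2 * (20 * τ / (5 / 4 * D) ^ 2) := by
    have e1 : 2 * τ / (63 / 64 * D) ^ 2 = (2 * (64 / 63) ^ 2) * (τ / D ^ 2) := by
      field_simp
    have e2 : 1 / 2 * (20 * τ / (5 / 4 * D) ^ 2) = (1 / 2 * 20 * (4 / 5) ^ 2) * (τ / D ^ 2) := by
      field_simp
    rw [e1, e2]
    exact mul_le_mul_of_nonneg_right (by norm_num) (by positivity)
  linarith

theorem ExH_avg {G : ℤ →₀ ℂ} {ρ : ℝ} (h0 : 0 ≤ ρ) (h1 : ρ < 1) :
    ∫ θ, S G (ρ * ze θ) ∂mu = S G 0 := by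
  have h := Pz_semi (u := fun θ => ‖ev G (ze θ)‖) (continuous_ev_ze G).norm h0 h1 (v := 0)
    (by rw [norm_zero]; exact zero_lt_one)
  rw [mul_zero] at h
  refine Eq.trans ?_ h
  refine integral_congr_ae (Filter.Eventually.of_forall fun θ => ?_)
  simp only [P, norm_zero, sub_zero, norm_ze]
  rw [show ((1 : ℝ) - 0 ^ 2) / 1 ^ 2 = 1 by norm_num, one_mul]
  rfl

theorem exists_H : ∃ C : ℝ, 1 ≤ C ∧ ∀ (G : ℤ →₀ ℂ) (h : ℕ → ℝ) (N : ℕ) (Y A ε : ℝ), 1 ≤ Y → 0 < A → 0 < ε →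
    (∀ k ≤ N, 0 < h k ∧ h k ≤ 1) → ∃ H : ℂ → ℂ, Har G Y H ∧
      (∀ k ≤ N, ∀ z, ‖z‖ = Real.exp (-(h k / 64)) → A < S G z →
        ∃ z', ‖z'‖ ≤ Real.exp (-(h k / 64)) ∧ (H z).re ≤ (H z').re / 2 + ε) ∧
      mu.real {θ | ‖ev G (ze θ)‖ ≤ Real.exp (-Y)} ≤ (H 0).re + C * (N + 1) * S G 0 / A + ε := by
  refine ⟨8450, by norm_num, ?_⟩
  intro G h N Y A ε hY hA hε hh
  set τ : ℕ → ℝ := fun k => h k / 64 with hτ
  have τ0 : ∀ k ≤ N, 0 < τ k := fun k hk => by simp only [hτ]; linarith [(hh k hk).1]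
  have τ1 : ∀ k ≤ N, τ k ≤ 1 / 64 := fun k hk => by simp only [hτ]; linarith [(hh k hk).2]
  set ρ : ℕ → ℝ := fun k => Real.exp (-τ k) with hρ
  have ρ0 : ∀ k, 0 < ρ k := fun k => Real.exp_pos _
  have ρ1 : ∀ k ≤ N, ρ k < 1 := fun k hk => ExH_exp_lt (τ0 k hk)
  set A₀ : ℝ := A / 8450 with hA₀
  have hA0 : 0 < A₀ := by positivity
  have hcG : Continuous fun θ : Ci => ‖ev G (ze θ)‖ := (continuous_ev_ze G).norm
  have hcS : ∀ k ≤ N, Continuous fun θ : Ci => S G (ρ k * ze θ) := fun k hk =>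
    Pz_cont hcG (ρ0 k).le (ρ1 k hk)
  have hS0 : ∀ k ≤ N, ∀ θ : Ci, 0 ≤ S G (ρ k * ze θ) := fun k hk θ =>
    S_nonneg G (by rw [norm_rze (ρ0 k).le]; exact ρ1 k hk)
  -- the function `u`
  set u : Ci → ℝ := fun θ => ExH_cl (2 - ‖ev G (ze θ)‖ * Real.exp Y) *
    ∏ k ∈ Finset.range (N + 1), ExH_cl (2 - S G (ρ k * ze θ) / A₀) with hu
  have hle : ∀ k ∈ Finset.range (N + 1), k ≤ N := fun k hk =>
    Nat.lt_succ_iff.1 (Finset.mem_range.1 hk)
  have hprod0 : ∀ θ, 0 ≤ ∏ k ∈ Finset.range (N + 1), ExH_cl (2 - S G (ρ k * ze θ) / A₀) :=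
    fun θ => Finset.prod_nonneg fun k _ => ExH_cl_nonneg _
  have hprod1 : ∀ θ, ∏ k ∈ Finset.range (N + 1), ExH_cl (2 - S G (ρ k * ze θ) / A₀) ≤ 1 :=
    fun θ => Finset.prod_le_one (fun k _ => ExH_cl_nonneg _) fun k _ => ExH_cl_le _
  have hu0 : ∀ θ, 0 ≤ u θ := fun θ => mul_nonneg (ExH_cl_nonneg _) (hprod0 θ)
  have hu1 : ∀ θ, u θ ≤ 1 := fun θ => mul_le_one₀ (ExH_cl_le _) (hprod0 θ) (hprod1 θ)
  have huc : Continuous u := by
    refine (ExH_cl_cont.comp (continuous_const.sub (hcG.mul continuous_const))).mul ?_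
    refine continuous_finset_prod _ fun k hk => ?_
    exact ExH_cl_cont.comp (continuous_const.sub ((hcS k (hle k hk)).div_const A₀))
  -- the function `H`
  set δ : ℝ := min ε (min (1 / Y) 1) / 2 with hδ
  have hδ0 : 0 < δ := by
    have : 0 < 1 / Y := by positivity
    rw [hδ]
    have := lt_min hε (lt_min this one_pos)
    linarith
  have hδε : 2 * δ ≤ ε := by rw [hδ]; linarith [min_le_left ε (min (1 / Y) 1)]
  have hδY : 2 * δ ≤ 1 / Y := by
    rw [hδ]; linarith [(min_le_right ε (min (1 / Y) 1)).trans (min_le_left _ _)]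
  have hδ1 : 2 * δ ≤ 1 := by
    rw [hδ]; linarith [(min_le_right ε (min (1 / Y) 1)).trans (min_le_right _ _)]
  obtain ⟨H, hHd, hH⟩ := exists_trig_near (u := fun θ => u θ + δ) (huc.add continuous_const) hδ0
  have hlo : ∀ θ, u θ ≤ (H (ze θ)).re := fun θ => by
    have := (abs_le.1 (hH θ)).2; linarith
  have hup : ∀ θ, (H (ze θ)).re ≤ u θ + 2 * δ := fun θ => by
    have := (abs_le.1 (hH θ)).1; linarith
  have hcH : Continuous fun θ => (H (ze θ)).re :=
    Complex.continuous_re.comp (hHd.continuous.comp continuous_ze)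
  have hcirc : ∀ z : ℂ, ‖z‖ ≤ 1 → ‖z‖ < 1 ∨ ∃ θ : Ci, ze θ = z := fun z hz =>
    hz.lt_or_eq.imp_right ExH_surj
  refine ⟨H, ⟨hHd, ?_, ?_, ?_⟩, ?_, ?_⟩
  · intro z hz
    rcases hcirc z hz with h1 | ⟨θ, rfl⟩
    · rw [← poisson_re hHd h1]
      exact integral_nonneg fun θ => mul_nonneg (P_pos h1 θ).le ((hu0 θ).trans (hlo θ))
    · exact (hu0 θ).trans (hlo θ)
  · intro z hz
    have hb : ∀ θ, (H (ze θ)).re ≤ 2 := fun θ => by linarith [hup θ, hu1 θ]
    rcases hcirc z hz with h1 | ⟨θ, rfl⟩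
    · rw [← poisson_re hHd h1]
      calc ∫ θ, P z θ * (H (ze θ)).re ∂mu ≤ ∫ θ, P z θ * 2 ∂mu := by
            refine integral_mono (integrable_of_cont ((continuous_P h1).mul hcH))
              (integrable_of_cont ((continuous_P h1).mul continuous_const)) fun θ => ?_
            exact mul_le_mul_of_nonneg_left (hb θ) (P_pos h1 θ).le
        _ = 2 := by rw [integral_mul_const, integral_P h1, one_mul]
    · exact hb θ
  · intro θ
    by_cases hg : ‖ev G (ze θ)‖ ≤ 2 * Real.exp (-Y)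
    · exact Or.inr hg
    · left
      push Not at hg
      have h1 : 2 ≤ ‖ev G (ze θ)‖ * Real.exp Y := by
        have := mul_lt_mul_of_pos_right hg (Real.exp_pos Y)
        rw [mul_assoc, ← Real.exp_add, neg_add_cancel, Real.exp_zero, mul_one] at this
        exact this.le
      have h2 : u θ = 0 := by
        simp only [hu]
        rw [ExH_cl_zero (by linarith), zero_mul]
      have := hup θ
      rw [h2] at this
      linarith
  · intro k hk z hz hAz
    have hz' : ‖z‖ = ρ k := hz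
    obtain ⟨θ₀, hθ₀⟩ := ExH_surj (ζ := z / ρ k) (by
      rw [norm_div, hz', Complex.norm_real, Real.norm_of_nonneg (ρ0 k).le,
        div_self (ρ0 k).ne'])
    have hzθ : z = (ρ k : ℂ) * ze θ₀ := by
      rw [hθ₀, mul_div_cancel₀]
      exact ofReal_ne_zero.2 (ρ0 k).ne'
    have hz1 : ‖z‖ < 1 := by rw [hz']; exact ρ1 k hk
    set r := Real.exp (-(16 * τ k)) with hr
    have r0 : 0 < r := Real.exp_pos _
    have r1 : r < 1 := ExH_exp_lt (by linarith [τ0 k hk])
    have hw1 : ‖(r : ℂ) * ze θ₀‖ < 1 := by rw [norm_rze r0.le]; exact r1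
    refine ⟨(r : ℂ) * ze θ₀, ?_, ?_⟩
    · rw [norm_rze r0.le]
      show Real.exp (-(16 * τ k)) ≤ Real.exp (-τ k)
      exact Real.exp_le_exp.2 (by linarith [τ0 k hk])
    -- the function `u` vanishes near `θ₀`
    have hnear : ∀ θ, ‖ze θ - ze θ₀‖ < 64 * τ k → u θ = 0 := by
      intro θ hθ
      have hw : ‖(ρ k : ℂ) * ze θ‖ < 1 := by rw [norm_rze (ρ0 k).le]; exact ρ1 k hk
      have h1 := Pz_harnack hcG (fun θ => norm_nonneg _) hz1 hw
      have e1 : (1 - ‖z‖ ^ 2) / (1 - ‖(ρ k : ℂ) * ze θ‖ ^ 2) = 1 := by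
        rw [hz', norm_rze (ρ0 k).le]
        refine div_self ?_
        have := ρ1 k hk
        have := ρ0 k
        nlinarith
      rw [e1, one_mul] at h1
      have e2 : ‖z - (ρ k : ℂ) * ze θ‖ / (1 - ‖z‖) ≤ 64 := by
        rw [hz', hzθ, ← mul_sub, norm_mul, Complex.norm_real, Real.norm_of_nonneg (ρ0 k).le,
          norm_sub_rev, div_le_iff₀ (by linarith [ρ1 k hk])]
        have h2 : ρ k * (1 + τ k) ≤ 1 := by
          have h3 := Real.add_one_le_exp (τ k)
          calc ρ k * (1 + τ k) ≤ ρ k * Real.exp (τ k) :=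
                mul_le_mul_of_nonneg_left (by linarith) (ρ0 k).le
            _ = 1 := by simp only [hρ]; rw [← Real.exp_add, neg_add_cancel, Real.exp_zero]
        have h4 := mul_le_mul_of_nonneg_left hθ.le (ρ0 k).le
        nlinarith
      have e3 : 0 ≤ ‖z - (ρ k : ℂ) * ze θ‖ / (1 - ‖z‖) :=
        div_nonneg (norm_nonneg _) (by linarith)
      have e4 : (1 + ‖z - (ρ k : ℂ) * ze θ‖ / (1 - ‖z‖)) ^ 2 ≤ 4225 := by nlinarith
      have h5 : A < 4225 * S G (ρ k * ze θ) := by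
        refine hAz.trans_le (h1.trans ?_)
        exact mul_le_mul_of_nonneg_right e4 (hS0 k hk θ)
      have h6 : 2 - S G (ρ k * ze θ) / A₀ ≤ 0 := by
        have : 2 ≤ S G (ρ k * ze θ) / A₀ := by
          rw [le_div_iff₀ hA0, hA₀]
          linarith
        linarith
      simp only [hu]
      rw [Finset.prod_eq_zero (Finset.mem_range.2 (Nat.lt_succ_of_le hk)) (ExH_cl_zero h6),
        mul_zero]
    have hpt : ∀ θ, P z θ * u θ ≤ 1 / 2 * (P (r * ze θ₀) θ * u θ) := by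
      intro θ
      by_cases hθ : ‖ze θ - ze θ₀‖ < 64 * τ k
      · rw [hnear θ hθ, mul_zero, mul_zero, mul_zero]
      · have hP : P z θ ≤ 1 / 2 * P (r * ze θ₀) θ := by
          rw [hzθ]
          exact ExH_comp (τ0 k hk) (τ1 k hk) (not_lt.1 hθ)
        exact (mul_le_mul_of_nonneg_right hP (hu0 θ)).trans_eq (mul_assoc _ _ _)
    have i1 : Integrable (fun θ => P z θ * u θ) mu := integrable_of_cont ((continuous_P hz1).mul huc)
    have i2 : Integrable (fun θ => P z θ * (2 * δ)) mu :=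
      integrable_of_cont ((continuous_P hz1).mul continuous_const)
    calc (H z).re = ∫ θ, P z θ * (H (ze θ)).re ∂mu := (poisson_re hHd hz1).symm
      _ ≤ ∫ θ, (P z θ * u θ + P z θ * (2 * δ)) ∂mu := by
          refine integral_mono (integrable_of_cont ((continuous_P hz1).mul hcH)) (i1.add i2)
            fun θ => ?_
          simp only
          rw [← mul_add]
          exact mul_le_mul_of_nonneg_left (hup θ) (P_pos hz1 θ).le
      _ = ∫ θ, P z θ * u θ ∂mu + 2 * δ := by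
          rw [integral_add i1 i2, integral_mul_const, integral_P hz1, one_mul]
      _ ≤ ∫ θ, 1 / 2 * (P (r * ze θ₀) θ * u θ) ∂mu + 2 * δ := by
          refine add_le_add_left ?_ _
          exact integral_mono i1 (integrable_of_cont
            (continuous_const.mul ((continuous_P hw1).mul huc))) hpt
      _ = 1 / 2 * ∫ θ, P (r * ze θ₀) θ * u θ ∂mu + 2 * δ := by rw [integral_const_mul]
      _ ≤ 1 / 2 * (H (r * ze θ₀)).re + ε := by
          refine add_le_add ?_ hδε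
          refine mul_le_mul_of_nonneg_left ?_ (by norm_num)
          rw [← poisson_re hHd hw1]
          refine integral_mono (integrable_of_cont ((continuous_P hw1).mul huc))
            (integrable_of_cont ((continuous_P hw1).mul hcH)) fun θ => ?_
          exact mul_le_mul_of_nonneg_left (hlo θ) (P_pos hw1 θ).le
      _ = (H (r * ze θ₀)).re / 2 + ε := by ring
  · -- the measure bound
    set E : Set Ci := {θ | ‖ev G (ze θ)‖ ≤ Real.exp (-Y)} with hE
    have hEm : MeasurableSet E := (isClosed_le hcG continuous_const).measurableSet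
    have hpt : ∀ θ, E.indicator (fun _ => (1 : ℝ)) θ ≤
        u θ + ∑ k ∈ Finset.range (N + 1), S G (ρ k * ze θ) / A₀ := by
      intro θ
      have hs0 : ∀ k ∈ Finset.range (N + 1), 0 ≤ S G (ρ k * ze θ) / A₀ := fun k hk =>
        div_nonneg (hS0 k (hle k hk) θ) hA0.le
      by_cases hθ : θ ∈ E
      · rw [Set.indicator_of_mem hθ]
        by_cases hall : ∀ k ∈ Finset.range (N + 1), S G (ρ k * ze θ) / A₀ ≤ 1
        · have h1 : u θ = 1 := by
            have h2 : ‖ev G (ze θ)‖ * Real.exp Y ≤ 1 := by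
              have := mul_le_mul_of_nonneg_right (show ‖ev G (ze θ)‖ ≤ Real.exp (-Y) from hθ)
                (Real.exp_pos Y).le
              rwa [← Real.exp_add, neg_add_cancel, Real.exp_zero] at this
            simp only [hu]
            rw [ExH_cl_one (by linarith), Finset.prod_eq_one fun k hk =>
              ExH_cl_one (by linarith [hall k hk]), one_mul]
          have := Finset.sum_nonneg hs0
          linarith
        · push Not at hall
          obtain ⟨k, hk, hk1⟩ := hall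
          have h1 := Finset.single_le_sum hs0 hk
          have h2 := hu0 θ
          linarith
      · rw [Set.indicator_of_notMem hθ]
        exact add_nonneg (hu0 θ) (Finset.sum_nonneg hs0)
    have j1 : Integrable u mu := integrable_of_cont huc
    have j2 : ∀ k ∈ Finset.range (N + 1), Integrable (fun θ : Ci => S G (ρ k * ze θ) / A₀) mu :=
      fun k hk => integrable_of_cont ((hcS k (hle k hk)).div_const A₀)
    have hz0 : ‖(0 : ℂ)‖ < 1 := by rw [norm_zero]; exact zero_lt_one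
    have hH0 : ∫ θ, (H (ze θ)).re ∂mu = (H 0).re := by
      rw [← poisson_re hHd hz0]
      refine integral_congr_ae (Filter.Eventually.of_forall fun θ => ?_)
      simp only [P, norm_zero, sub_zero, norm_ze]
      rw [show ((1 : ℝ) - 0 ^ 2) / 1 ^ 2 = 1 by norm_num, one_mul]
    calc mu.real E = ∫ θ, E.indicator (fun _ => (1 : ℝ)) θ ∂mu := by
          rw [integral_indicator hEm, setIntegral_const, smul_eq_mul, mul_one]
      _ ≤ ∫ θ, (u θ + ∑ k ∈ Finset.range (N + 1), S G (ρ k * ze θ) / A₀) ∂mu :=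
          integral_mono ((integrable_const _).indicator hEm)
            (j1.add (integrable_finset_sum _ j2)) hpt
      _ = ∫ θ, u θ ∂mu + ∑ k ∈ Finset.range (N + 1), S G 0 / A₀ := by
          rw [integral_add j1 (integrable_finset_sum _ j2), integral_finset_sum _ j2]
          congr 1
          refine Finset.sum_congr rfl fun k hk => ?_
          rw [integral_div, ExH_avg (ρ0 k).le (ρ1 k (hle k hk))]
      _ ≤ (H 0).re + (N + 1) * (S G 0 / A₀) := by
          refine add_le_add ?_ ?_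
          · rw [← hH0]
            exact integral_mono j1 (integrable_of_cont hcH) hlo
          · rw [Finset.sum_const, Finset.card_range, nsmul_eq_mul]
            push_cast
            exact le_rfl
      _ ≤ (H 0).re + 8450 * (N + 1) * S G 0 / A + ε := by
          have : (N + 1 : ℝ) * (S G 0 / A₀) = 8450 * (N + 1) * S G 0 / A := by
            rw [hA₀]
            field_simp
          rw [this]
          linarith

end

end Pool.Agent.L5helper80.QL
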