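import Pool.Agent.L5helper80.QL.Defs

/-!
# J4: the kernel of the Cauchy formula

Written by helper79 for helper80.
-/

set_option autoImplicit false

namespace Pool.Agent.L5helper80.QL

noncomputable section

open MeasureTheory AddCircle Complex Filter Topology Pool.Agent.W767.HL

lemma Ker_den (w z : ℂ) :
    ‖1 - (starRingEnd ℂ) w * z‖ ^ 2 - ‖z - w‖ ^ 2 = (1 - ‖z‖ ^ 2) * (1 - ‖w‖ ^ 2) := by
  simp only [Complex.sq_norm, Complex.normSq_apply]
  simp only [sub_re, sub_im, mul_re, mul_im, conj_re, conj_im, one_re, one_im]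
  ring

lemma Ker_norm (w z : ℂ) :
    ‖ker w z‖ = (1 - ‖w‖ ^ 2) ^ 2 / (‖1 - (starRingEnd ℂ) w * z‖ ^ 2 * ‖z - w‖) := by
  unfold ker
  rw [norm_div, norm_pow, norm_div, Complex.norm_real, Real.norm_eq_abs, div_pow, sq_abs, div_div]

lemma Ker_exp (s : ℝ) : ‖(Real.exp (-s) : ℂ)‖ = Real.exp (-s) := by
  rw [Complex.norm_real, Real.norm_eq_abs, abs_of_pos (Real.exp_pos _)]

/-- bound on a circle outside of `w` (`s ≤ t/2`) -/
theorem ker_out {w : ℂ} {t s : ℝ} (hw : ‖w‖ = Real.exp (-t)) (ht1 : t ≤ 1) (hs0 : 0 ≤ s) (hst : 2 * s ≤ t) (ht : 0 < t) (θ : Ci) :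
    ‖ker w (Real.exp (-s) * ze θ)‖ ≤ 64 * P (w / Real.exp (-s)) θ := by
  set a : ℝ := ‖w‖ with ha
  set ρ : ℝ := Real.exp (-s) with hρ
  have hρ0 : 0 < ρ := Real.exp_pos _
  have hρ1 : ρ ≤ 1 := Real.exp_le_one_iff.2 (by linarith)
  have ha0 : 0 < a := by rw [hw]; exact Real.exp_pos _
  have ha1 : a < 1 := by rw [hw]; exact Real.exp_lt_one_iff.2 (by linarith)
  have hae : 1 / 16 ≤ a := by
    rw [hw]
    have h1 : Real.exp (-1) ≤ Real.exp (-t) := Real.exp_le_exp.2 (by linarith)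
    have h2 := Real.exp_one_lt_d9
    have h3 : Real.exp (-1) = (Real.exp 1)⁻¹ := Real.exp_neg 1
    have h4 : (1 : ℝ) / 16 ≤ (Real.exp 1)⁻¹ := by
      rw [one_div]
      apply inv_anti₀ (Real.exp_pos _)
      linarith
    linarith
  have hρa : a ≤ ρ ^ 2 := by
    rw [hw, hρ, ← Real.exp_nat_mul]
    apply Real.exp_le_exp.2
    push_cast
    linarith
  have hz : ‖(ρ : ℂ) * ze θ‖ = ρ := by
    rw [norm_mul, norm_ze, mul_one, Complex.norm_real, Real.norm_of_nonneg hρ0.le]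
  have hne : (ρ : ℂ) ≠ 0 := by exact_mod_cast hρ0.ne'
  rw [Ker_norm]
  set D : ℝ := ‖(ρ : ℂ) * ze θ - w‖ with hD
  set E : ℝ := ‖1 - (starRingEnd ℂ) w * ((ρ : ℂ) * ze θ)‖ with hE
  have hDE := Ker_den w ((ρ : ℂ) * ze θ)
  rw [hz, ← hD, ← hE, ← ha] at hDE
  have hD0 : 0 < D := by
    have h1 := norm_sub_norm_le ((ρ : ℂ) * ze θ) w
    rw [hz] at h1
    have h2 : a < ρ := by nlinarith
    linarith
  have hE0 : 1 - a ≤ E := by
    have h1 := norm_sub_norm_le (1 : ℂ) ((starRingEnd ℂ) w * ((ρ : ℂ) * ze θ))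
    rw [norm_one, norm_mul, hz, Complex.norm_conj] at h1
    have h2 : a * ρ ≤ a := by nlinarith
    linarith
  have hEpos : 0 < E := by linarith
  have hDle : D ≤ E := by
    apply le_of_sq_le_sq _ hEpos.le
    have : 0 ≤ (1 - ρ ^ 2) * (1 - a ^ 2) := by
      apply mul_nonneg <;> nlinarith
    linarith
  have hP : P (w / (ρ : ℂ)) θ = (ρ ^ 2 - a ^ 2) / D ^ 2 := by
    unfold P
    have e1 : ‖w / (ρ : ℂ)‖ = a / ρ := by
      rw [norm_div, Complex.norm_real, Real.norm_of_nonneg hρ0.le]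
    have e2 : ‖ze θ - w / (ρ : ℂ)‖ = D / ρ := by
      have : ze θ - w / (ρ : ℂ) = ((ρ : ℂ) * ze θ - w) / (ρ : ℂ) := by field_simp
      rw [this, norm_div, Complex.norm_real, Real.norm_of_nonneg hρ0.le]
    rw [e1, e2]
    field_simp
  rw [hP, ← mul_div_assoc, div_le_div_iff₀ (by positivity) (by positivity)]
  have k1 : 1 - a ≤ 16 * (ρ ^ 2 - a ^ 2) := by nlinarith
  have k2 : (1 - a ^ 2) ^ 2 ≤ 4 * (1 - a) ^ 2 := by
    have e : (1 - a ^ 2) ^ 2 = (1 + a) ^ 2 * (1 - a) ^ 2 := by ring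
    rw [e]
    apply mul_le_mul_of_nonneg_right _ (sq_nonneg _)
    nlinarith
  have k3 : (1 - a ^ 2) ^ 2 ≤ 64 * (ρ ^ 2 - a ^ 2) * E := by
    have h1 : (1 - a) * (1 - a) ≤ (16 * (ρ ^ 2 - a ^ 2)) * E :=
      mul_le_mul k1 hE0 (by linarith) (by linarith)
    nlinarith
  have k4 : 0 ≤ ρ ^ 2 - a ^ 2 := by linarith
  calc (1 - a ^ 2) ^ 2 * D ^ 2 ≤ (64 * (ρ ^ 2 - a ^ 2) * E) * D ^ 2 :=
        mul_le_mul_of_nonneg_right k3 (sq_nonneg _)
    _ = 64 * (ρ ^ 2 - a ^ 2) * E * D * D := by ring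
    _ ≤ 64 * (ρ ^ 2 - a ^ 2) * E * D * E := by
        apply mul_le_mul_of_nonneg_left hDle
        positivity
    _ = 64 * (ρ ^ 2 - a ^ 2) * (E ^ 2 * D) := by ring

/-- bound on a circle inside (`4 t ≤ s`) -/
theorem ker_in {w : ℂ} {t s : ℝ} (hw : ‖w‖ = Real.exp (-t)) (ht : 0 < t) (hs : 4 * t ≤ s) (hs1 : s ≤ 1) (θ : Ci) :
    ‖ker w (Real.exp (-s) * ze θ)‖ ≤ 64 * P (Real.exp (-s) * w) θ := by
  set a : ℝ := ‖w‖ with ha
  set ρ : ℝ := Real.exp (-s) with hρ
  have hρ0 : 0 < ρ := Real.exp_pos _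
  have ha0 : 0 < a := by rw [hw]; exact Real.exp_pos _
  have ha1 : a < 1 := by rw [hw]; exact Real.exp_lt_one_iff.2 (by linarith)
  have hae : 1 / 16 ≤ a := by
    rw [hw]
    have h1 : Real.exp (-1) ≤ Real.exp (-t) := Real.exp_le_exp.2 (by linarith)
    have h2 := Real.exp_one_lt_d9
    have h3 : Real.exp (-1) = (Real.exp 1)⁻¹ := Real.exp_neg 1
    have h4 : (1 : ℝ) / 16 ≤ (Real.exp 1)⁻¹ := by
      rw [one_div]
      apply inv_anti₀ (Real.exp_pos _)
      linarith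
    linarith
  have hρa : ρ ≤ a ^ 4 := by
    rw [hw, hρ, ← Real.exp_nat_mul]
    apply Real.exp_le_exp.2
    push_cast
    linarith
  have ha4 : a ^ 4 ≤ a ^ 3 := pow_le_pow_of_le_one ha0.le ha1.le (by norm_num)
  have ha3 : a ^ 3 ≤ a := by
    have := pow_le_pow_of_le_one ha0.le ha1.le (show 1 ≤ 3 by norm_num)
    simpa using this
  have hz : ‖(ρ : ℂ) * ze θ‖ = ρ := by
    rw [norm_mul, norm_ze, mul_one, Complex.norm_real, Real.norm_of_nonneg hρ0.le]
  rw [Ker_norm]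
  set D : ℝ := ‖(ρ : ℂ) * ze θ - w‖ with hD
  set E : ℝ := ‖1 - (starRingEnd ℂ) w * ((ρ : ℂ) * ze θ)‖ with hE
  have k0 : 1 - a ^ 2 ≤ 64 * (a - ρ) := by
    have e1 : a * (1 - a ^ 2) ≤ a - ρ := by nlinarith
    have e2 : 0 ≤ 1 - a ^ 2 := by nlinarith
    nlinarith
  have k00 : 0 < 1 - a ^ 2 := by nlinarith
  have hDa : a - ρ ≤ D := by
    have h1 := norm_sub_norm_le w ((ρ : ℂ) * ze θ)
    rw [hz, norm_sub_rev] at h1
    exact h1
  have hD0 : 0 < D := by linarith
  have hρ1 : ρ < 1 := by linarith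
  have hE0 : 0 < E := by
    have h1 := norm_sub_norm_le (1 : ℂ) ((starRingEnd ℂ) w * ((ρ : ℂ) * ze θ))
    rw [norm_one, norm_mul, hz, Complex.norm_conj] at h1
    have h2 : a * ρ < 1 := by nlinarith
    linarith
  have hP : P ((ρ : ℂ) * w) θ = (1 - (ρ * a) ^ 2) / E ^ 2 := by
    unfold P
    have e1 : ‖(ρ : ℂ) * w‖ = ρ * a := by
      rw [norm_mul, Complex.norm_real, Real.norm_of_nonneg hρ0.le]
    have e2 : ‖ze θ - (ρ : ℂ) * w‖ = E := by
      have h1 : (starRingEnd ℂ) (ze θ - (ρ : ℂ) * w) * ze θ = 1 - (starRingEnd ℂ) w * ((ρ : ℂ) * ze θ) := by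
        rw [map_sub, map_mul, conj_ze, Complex.conj_ofReal, sub_mul, inv_mul_cancel₀ (ze_ne θ)]
        ring
      rw [hE, ← h1, norm_mul, norm_ze, mul_one, Complex.norm_conj]
    rw [e1, e2]
  rw [hP, ← mul_div_assoc, div_le_div_iff₀ (by positivity) (by positivity)]
  have k1 : 1 - a ^ 2 ≤ 1 - (ρ * a) ^ 2 := by
    have : (ρ * a) ^ 2 ≤ a ^ 2 := by
      apply pow_le_pow_left₀ (by positivity)
      nlinarith
    linarith
  have k2 : (1 - a ^ 2) ^ 2 ≤ 64 * (1 - (ρ * a) ^ 2) * D := by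
    have h1 : (1 - a ^ 2) * (1 - a ^ 2) ≤ (1 - (ρ * a) ^ 2) * (64 * D) :=
      mul_le_mul k1 (by linarith) k00.le (by linarith)
    nlinarith
  calc (1 - a ^ 2) ^ 2 * E ^ 2 ≤ (64 * (1 - (ρ * a) ^ 2) * D) * E ^ 2 :=
        mul_le_mul_of_nonneg_right k2 (sq_nonneg _)
    _ = 64 * (1 - (ρ * a) ^ 2) * (E ^ 2 * D) := by ring

/-- the integral over the circle as a circle integral -/
lemma Ker_circle (F : ℂ → ℂ) {s : ℝ} (hs : 0 < s) :
    ∫ θ, (s * ze θ) * F (s * ze θ) ∂mu = (2 * Real.pi * I)⁻¹ * ∮ z in C(0, s), F z := by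
  have h1 := integral_ze (fun z : ℂ => (s * z) * F (s * z))
  have h2 : Real.circleAverage (fun z : ℂ => (s * z) * F (s * z)) 0 1 =
      Real.circleAverage (fun z : ℂ => z * F z) 0 s := by
    rw [Real.circleAverage_def, Real.circleAverage_def]
    congr 1
    refine intervalIntegral.integral_congr fun x _ => ?_
    have : (s : ℂ) * circleMap 0 1 x = circleMap 0 s x := by simp [circleMap]
    simp only [this]
  rw [h1, h2, Real.circleAverage_eq_circleIntegral hs.ne', smul_eq_mul]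
  congr 1
  apply circleIntegral.integral_congr hs.le
  intro z hz
  have hz0 : z ≠ 0 := by
    rintro rfl
    simp at hz
    exact hs.ne hz
  simp only [sub_zero, smul_eq_mul]
  field_simp

lemma Ker_num_diff {f : ℂ → ℂ} (hf : DifferentiableOn ℂ f {0}ᶜ) (w : ℂ) :
    DifferentiableOn ℂ (fun z => f z * ((1 - ‖w‖ ^ 2 : ℝ) / (1 - (starRingEnd ℂ) w * z)) ^ 2)
      {z | z ≠ 0 ∧ 1 - (starRingEnd ℂ) w * z ≠ 0} := by
  apply DifferentiableOn.mul
  · exact hf.mono fun z hz => hz.1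
  · apply DifferentiableOn.pow
    apply DifferentiableOn.div
    · fun_prop
    · fun_prop
    · exact fun z hz => hz.2

lemma Ker_open (w : ℂ) : IsOpen {z : ℂ | z ≠ 0 ∧ 1 - (starRingEnd ℂ) w * z ≠ 0} := by
  apply IsOpen.inter
  · exact isOpen_ne
  · exact isOpen_ne_fun (by fun_prop) continuous_const

lemma Ker_ne {w z : ℂ} {s : ℝ} (hw : ‖w‖ < s) (hs : s ≤ 1) (hz : ‖z‖ ≤ 1) : 1 - (starRingEnd ℂ) w * z ≠ 0 := by
  intro h
  have h1 : ‖(starRingEnd ℂ) w * z‖ = 1 := by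
    rw [sub_eq_zero] at h
    rw [← h, norm_one]
  rw [norm_mul, Complex.norm_conj] at h1
  nlinarith [norm_nonneg w, norm_nonneg z]

/-- Cauchy formula on the annulus, for a function analytic off `0` -/
theorem cauchy_annulus {f : ℂ → ℂ} (hf : DifferentiableOn ℂ f {0}ᶜ) {w : ℂ} {r s : ℝ} (hr : 0 < r)
    (hrw : r < ‖w‖) (hws : ‖w‖ < s) (hs : s ≤ 1) :
    ∫ θ, (s * ze θ) * f (s * ze θ) * ker w (s * ze θ) ∂mu - ∫ θ, (r * ze θ) * f (r * ze θ) * ker w (r * ze θ) ∂mu =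
      f w := by
  have hs0 : 0 < s := hr.trans (hrw.trans hws)
  have hw0 : w ≠ 0 := by
    intro h
    rw [h, norm_zero] at hrw
    linarith
  set G : ℂ → ℂ := fun z => f z * ((1 - ‖w‖ ^ 2 : ℝ) / (1 - (starRingEnd ℂ) w * z)) ^ 2 with hG
  set Ω : Set ℂ := {z | z ≠ 0 ∧ 1 - (starRingEnd ℂ) w * z ≠ 0} with hΩ
  have hΩo : IsOpen Ω := Ker_open w
  have hGd : DifferentiableOn ℂ G Ω := Ker_num_diff hf w
  have hwΩ : w ∈ Ω := ⟨hw0, Ker_ne hws hs (by linarith)⟩
  have hann : ∀ z : ℂ, r ≤ ‖z‖ → ‖z‖ ≤ s → z ∈ Ω := by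
    intro z h1 h2
    refine ⟨?_, Ker_ne hws hs (by linarith)⟩
    intro h
    rw [h, norm_zero] at h1
    linarith
  have hGw : G w = f w := by
    have h1 : (starRingEnd ℂ) w * w = ((‖w‖ ^ 2 : ℝ) : ℂ) := by
      rw [mul_comm, Complex.mul_conj, Complex.normSq_eq_norm_sq]
    have h2 : (1 : ℂ) - (starRingEnd ℂ) w * w = ((1 - ‖w‖ ^ 2 : ℝ) : ℂ) := by
      rw [h1]
      push_cast
      ring
    have h3 : ((1 - ‖w‖ ^ 2 : ℝ) : ℂ) ≠ 0 := by
      rw [← h2]
      exact hwΩ.2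
    simp only [hG]
    rw [h2, div_self h3, one_pow, mul_one]
  have hker : ∀ z, f z * ker w z = G z / (z - w) := by
    intro z
    simp only [hG, ker]
    ring
  have hds : DifferentiableOn ℂ (dslope G w) Ω :=
    (Complex.differentiableOn_dslope (hΩo.mem_nhds hwΩ)).2 hGd
  have hdsI : (∮ z in C(0, s), dslope G w z) = ∮ z in C(0, r), dslope G w z := by
    apply Complex.circleIntegral_eq_of_differentiable_on_annulus_off_countable hr
      (hrw.trans hws).le Set.countable_empty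
    · apply hds.continuousOn.mono
      intro z hz
      rw [Set.mem_sdiff, Metric.mem_closedBall, Metric.mem_ball, dist_zero_right, not_lt] at hz
      exact hann z hz.2 hz.1
    · intro z hz
      rw [Set.sdiff_empty, Set.mem_sdiff, Metric.mem_ball, Metric.mem_closedBall, dist_zero_right, not_le] at hz
      exact hds.differentiableAt (hΩo.mem_nhds (hann z hz.2.le hz.1.le))
  have hci : ∀ ρ : ℝ, 0 < ρ → r ≤ ρ → ρ ≤ s → ρ ≠ ‖w‖ →
      (∮ z in C(0, ρ), f z * ker w z) =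
        (∮ z in C(0, ρ), dslope G w z) + G w * ∮ z in C(0, ρ), (z - w)⁻¹ := by
    intro ρ h0 h1 h2 h3
    have hsph : ∀ z ∈ Metric.sphere (0 : ℂ) ρ, z ∈ Ω ∧ z ≠ w := by
      intro z hz
      rw [mem_sphere_zero_iff_norm] at hz
      refine ⟨hann z (by rw [hz]; exact h1) (by rw [hz]; exact h2), ?_⟩
      rintro rfl
      exact h3 hz.symm
    have c1 : CircleIntegrable (dslope G w) 0 ρ :=
      ContinuousOn.circleIntegrable h0.le (hds.continuousOn.mono fun z hz => (hsph z hz).1)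
    have c2 : CircleIntegrable (fun z => G w * (z - w)⁻¹) 0 ρ := by
      apply ContinuousOn.circleIntegrable h0.le
      apply ContinuousOn.mul continuousOn_const
      apply ContinuousOn.inv₀ (by fun_prop)
      intro z hz
      exact sub_ne_zero.2 (hsph z hz).2
    rw [← circleIntegral.integral_const_mul, ← circleIntegral.integral_add c1 c2]
    apply circleIntegral.integral_congr h0.le
    intro z hz
    have hzw := (hsph z hz).2
    simp only
    rw [hker, dslope_of_ne _ hzw, slope_def_field]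
    have := sub_ne_zero.2 hzw
    field_simp
    ring
  have hout : (∮ z in C(0, s), (z - w)⁻¹) = 2 * Real.pi * I :=
    circleIntegral.integral_sub_inv_of_mem_ball (by rw [Metric.mem_ball, dist_zero_right]; exact hws)
  have hin : (∮ z in C(0, r), (z - w)⁻¹) = 0 := by
    apply Complex.circleIntegral_eq_zero_of_differentiable_on_off_countable hr.le Set.countable_empty
    · apply ContinuousOn.inv₀ (by fun_prop)
      intro z hz
      rw [mem_closedBall_zero_iff] at hz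
      intro h
      rw [sub_eq_zero] at h
      rw [h] at hz
      linarith
    · intro z hz
      rw [Set.sdiff_empty, mem_ball_zero_iff] at hz
      apply DifferentiableAt.inv (by fun_prop)
      intro h
      rw [sub_eq_zero] at h
      rw [h] at hz
      linarith
  have e1 : ∫ θ, (s * ze θ) * f (s * ze θ) * ker w (s * ze θ) ∂mu =
      (2 * Real.pi * I)⁻¹ * ∮ z in C(0, s), f z * ker w z := by
    rw [← Ker_circle _ hs0]
    exact integral_congr_ae (Eventually.of_forall fun θ => by simp only; ring)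
  have e2 : ∫ θ, (r * ze θ) * f (r * ze θ) * ker w (r * ze θ) ∂mu =
      (2 * Real.pi * I)⁻¹ * ∮ z in C(0, r), f z * ker w z := by
    rw [← Ker_circle _ hr]
    exact integral_congr_ae (Eventually.of_forall fun θ => by simp only; ring)
  rw [e1, e2, hci s hs0 (hrw.trans hws).le le_rfl hws.ne', hci r hr le_rfl (hrw.trans hws).le hrw.ne,
    hdsI, hout, hin, hGw]
  have hpi : (2 * Real.pi * I : ℂ) ≠ 0 := Complex.two_pi_I_ne_zero
  field_simp
  ring

/-- the circle may be moved -/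
theorem cauchy_shift {f : ℂ → ℂ} (hf : DifferentiableOn ℂ f {0}ᶜ) {w : ℂ} {s s' : ℝ}
    (hws : ‖w‖ < s) (hss : s ≤ s') (hs : s' ≤ 1) :
    ∫ θ, (s * ze θ) * f (s * ze θ) * ker w (s * ze θ) ∂mu =
      ∫ θ, (s' * ze θ) * f (s' * ze θ) * ker w (s' * ze θ) ∂mu := by
  have hs0 : 0 < s := (norm_nonneg w).trans_lt hws
  have hs0' : 0 < s' := hs0.trans_le hss
  set G : ℂ → ℂ := fun z => f z * ((1 - ‖w‖ ^ 2 : ℝ) / (1 - (starRingEnd ℂ) w * z)) ^ 2 with hG
  set Ω : Set ℂ := {z | z ≠ 0 ∧ 1 - (starRingEnd ℂ) w * z ≠ 0} with hΩ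
  have hΩo : IsOpen Ω := Ker_open w
  have hGd : DifferentiableOn ℂ G Ω := Ker_num_diff hf w
  have hker : ∀ z, f z * ker w z = G z / (z - w) := by
    intro z
    simp only [hG, ker]
    ring
  have hann : ∀ z : ℂ, s ≤ ‖z‖ → ‖z‖ ≤ s' → z ∈ Ω ∧ z - w ≠ 0 := by
    intro z h1 h2
    refine ⟨⟨?_, Ker_ne (hws.trans_le hss) hs (by linarith)⟩, ?_⟩
    · intro h
      rw [h, norm_zero] at h1
      linarith
    · intro h
      rw [sub_eq_zero] at h
      rw [h] at h1
      linarith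
  have hI : (∮ z in C(0, s'), f z * ker w z) = ∮ z in C(0, s), f z * ker w z := by
    apply Complex.circleIntegral_eq_of_differentiable_on_annulus_off_countable hs0 hss
      Set.countable_empty
    · intro z hz
      rw [Set.mem_sdiff, Metric.mem_closedBall, Metric.mem_ball, dist_zero_right, not_lt] at hz
      obtain ⟨h1, h2⟩ := hann z hz.2 hz.1
      have : ContinuousAt (fun z => G z / (z - w)) z :=
        (hGd.differentiableAt (hΩo.mem_nhds h1)).continuousAt.div (by fun_prop) h2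
      refine ContinuousAt.continuousWithinAt ?_
      have e : (fun z => f z * ker w z) = fun z => G z / (z - w) := funext hker
      rw [e]
      exact this
    · intro z hz
      rw [Set.sdiff_empty, Set.mem_sdiff, Metric.mem_ball, Metric.mem_closedBall, dist_zero_right, not_le] at hz
      obtain ⟨h1, h2⟩ := hann z hz.2.le hz.1.le
      have e : (fun z => f z * ker w z) = fun z => G z / (z - w) := funext hker
      rw [e]
      exact (hGd.differentiableAt (hΩo.mem_nhds h1)).div (by fun_prop) h2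
  have e1 : ∫ θ, (s * ze θ) * f (s * ze θ) * ker w (s * ze θ) ∂mu =
      (2 * Real.pi * I)⁻¹ * ∮ z in C(0, s), f z * ker w z := by
    rw [← Ker_circle _ hs0]
    exact integral_congr_ae (Eventually.of_forall fun θ => by simp only; ring)
  have e2 : ∫ θ, (s' * ze θ) * f (s' * ze θ) * ker w (s' * ze θ) ∂mu =
      (2 * Real.pi * I)⁻¹ * ∮ z in C(0, s'), f z * ker w z := by
    rw [← Ker_circle _ hs0']
    exact integral_congr_ae (Eventually.of_forall fun θ => by simp only; ring)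
  rw [e1, e2, hI]

end

end Pool.Agent.L5helper80.QL
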