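import Pool.Agent.L5helper80.QL.Har
import Pool.Agent.L5helper80.QL.Cnt
import Pool.Agent.L5helper80.QL.Blk
import Pool.Agent.L5helper80.QL.Ker

/-!
# J5: the duality estimate

SKETCH. Notation `x_k = ev (cont (h k) G)`, `r = h_k/4`, `ν = ⌈(Λ_k/64)/r⌉₊`, `f(z) = z^ν e^{μH(z)} x_k(z)` (analytic off `0`),
`w` of height `t` (`|w| = e^{-t}`), `a = |w|`.
`f(w) = ∫_{|z|=1} z f ker_w - ∫_{|z|=e^{-r}} z f ker_w` (cauchy_annulus, `s = 1`).
On `|z| = 1`: `x_k = G - ∑_{i=k}^{N-1} D_i - non(h_N)G`, `D_i = cont(h_(i+1))G - cont(h_i)G`.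
* `G`: `∫ e^{μ Re H}|G| 64 P_w ≤ 192 (1 + S(w))` by the first hypothesis on `H` and `ker_out` with `s = 0`.
* `D_i`: move the circle to height `s_i = h_(i+1)/256` (cauchy_shift; `t ≥ h_k/128 ≥ 2 s_i`). There `e^{μ Re H} ≤ e^{Λ_i/4}`,
 `|ker| ≤ 64 P_{w/ρ}`, `ρ = e^{-s_i}`; Cauchy-Schwarz and block_L2 with `v = w/ρ` (height `t - s_i ≥ h_k/256`) and block_sum with
 `h = h_i, h' = h_(i+1), Y = Λ_i`: term `≤ 64 e^{Λ_i/4} (3 C e^{-1.8 Λ_i})^{1/2} = C' e^{-0.65 Λ_i}`; the sum over `i ≥ k` is `≤ C''`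
 since `Λ_i ≥ 2^(i-k) Λ_k ≥ ...`. The condition `hmin` of block_L2: `n = -m` in the support of `D_i` has `e^{-m h_i} < |G n| ≤ e^{-Λ_i}`, so
 `m > Λ_i/h_i ≥ Λ_k/h_k` and `(q-1) m h_k/256 ≥ (q-1) Λ_k/256 ≥ 1` if `Λ_k ≥ C ≥ 256/(q-1)`.
* `non(h_N)G`: on `|z| = 1`, `e^{μ Re H} ≤ e^{Λ_N/4}`, block_L2 with `ρ = 1`, `v = w`: `≤ 64 e^{Λ_N/4} (3 e^{-2Λ_N})^{1/2} ≤ 200`.
Inner circle `|z| = e^{-r}`: `|z^ν| e^{μ Re H} ≤ e^{-Λ_k/64} e^{Λ_k/64} = 1`, `|x_k(z)| ≤ S(z) + C` (cont_le), `|ker| ≤ 64 P_{e^{-r}w}` (ker_in,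
`4t ≤ h_k/8 ≤ r`), `∫ P_{e^{-r}w} S(e^{-r}ζ) = S(e^{-2r}w)` (Pz_semi) `≤ C S(w)` (Pz_harnack: `z' = e^{-2r}w`, `|z'-w| ≤ 1-|z'|`, and
`(1-|z'|²)/(1-|w|²) ≤ (4r+2t)/t ≤ 200`, as `t ≥ r/32`).
Finally `|w^ν| = e^{-νt} ≥ e^{-Λ_k/512 - 1}` since `ν ≤ Λ_k/(16 h_k) + 1`, `t ≤ h_k/32`.
-/

set_option autoImplicit false

namespace Pool.Agent.L5helper80.QL

noncomputable section

open MeasureTheory AddCircle Complex Filter Topology Pool.Agent.W767.HL

/-- the function in the Cauchy formula -/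
private def sbf (ν : ℕ) (μ : ℝ) (H : ℂ → ℂ) (F : ℤ →₀ ℂ) (z : ℂ) : ℂ :=
  z ^ ν * Complex.exp (μ * H z) * ev F z

/-- the integral in the Cauchy formula -/
private def sbJ (w : ℂ) (s : ℝ) (f : ℂ → ℂ) : ℂ :=
  ∫ θ, (s * ze θ) * f (s * ze θ) * ker w (s * ze θ) ∂mu

private lemma sb_ev_diff (F : ℤ →₀ ℂ) : DifferentiableOn ℂ (ev F) {0}ᶜ := by
  have : ev F = fun z => ∑ n ∈ F.support, F n * z ^ n := by
    ext z
    rw [ev_eq_sum, Finsupp.sum]
  rw [this]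
  refine DifferentiableOn.fun_sum fun n _ => DifferentiableOn.const_mul ?_ _
  intro z hz
  exact (differentiableAt_zpow.mpr (Or.inl hz)).differentiableWithinAt

private lemma sb_diff {ν : ℕ} {μ : ℝ} {H : ℂ → ℂ} (hH : Differentiable ℂ H) (F : ℤ →₀ ℂ) :
    DifferentiableOn ℂ (sbf ν μ H F) {0}ᶜ := by
  unfold sbf
  refine DifferentiableOn.mul (Differentiable.differentiableOn ?_) (sb_ev_diff F)
  fun_prop

private lemma sb_norm (ν : ℕ) (μ : ℝ) (H : ℂ → ℂ) (F : ℤ →₀ ℂ) (z : ℂ) :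
    ‖sbf ν μ H F z‖ = ‖z‖ ^ ν * Real.exp (μ * (H z).re) * ‖ev F z‖ := by
  unfold sbf
  rw [norm_mul, norm_mul, norm_pow, Complex.norm_exp]
  simp

private lemma sb_norm_circ {s : ℝ} (hs : 0 ≤ s) (θ : Ci) : ‖(s : ℂ) * ze θ‖ = s := by
  rw [norm_mul, norm_ze, mul_one, Complex.norm_real, Real.norm_of_nonneg hs]

private lemma sb_cont_ev {s : ℝ} (hs : 0 < s) (F : ℤ →₀ ℂ) : Continuous fun θ => ev F (s * ze θ) := by
  refine (sb_ev_diff F).continuousOn.comp_continuous (continuous_const.mul continuous_ze) fun θ => ?_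
  simp [hs.ne', ze_ne θ]

/-- Cauchy-Schwarz -/
private lemma sb_cs {v : ℂ} (hv : ‖v‖ < 1) {g : Ci → ℝ} (hg : Continuous g) {A : ℝ} (hA : 0 ≤ A)
    (h : ∫ θ, P v θ * g θ ^ 2 ∂mu ≤ A ^ 2) : ∫ θ, P v θ * g θ ∂mu ≤ A := by
  set c := ∫ θ, P v θ * g θ ∂mu with hc
  have i1 : Integrable (fun θ => P v θ * g θ ^ 2) mu := integrable_of_cont ((continuous_P hv).mul (hg.pow 2))
  have i2 : Integrable (fun θ => P v θ * g θ) mu := integrable_of_cont ((continuous_P hv).mul hg)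
  have i3 : Integrable (fun θ => P v θ) mu := integrable_of_cont (continuous_P hv)
  have h0 : 0 ≤ ∫ θ, P v θ * (g θ - c) ^ 2 ∂mu :=
    integral_nonneg fun θ => mul_nonneg (P_pos hv θ).le (sq_nonneg _)
  have h1 : ∫ θ, P v θ * (g θ - c) ^ 2 ∂mu = (∫ θ, P v θ * g θ ^ 2 ∂mu) - 2 * c * c + c ^ 2 * 1 := by
    rw [show (fun θ => P v θ * (g θ - c) ^ 2)
        = fun θ => (P v θ * g θ ^ 2 - 2 * c * (P v θ * g θ)) + c ^ 2 * P v θ by ext θ; ring]
    have i4 : Integrable (fun θ => 2 * c * (P v θ * g θ)) mu := i2.const_mul _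
    have i5 : Integrable (fun θ => P v θ * g θ ^ 2 - 2 * c * (P v θ * g θ)) mu := i1.sub i4
    rw [integral_add i5 (i3.const_mul _), integral_sub i1 i4,
      integral_const_mul, integral_const_mul, integral_P hv]
  refine le_of_sq_le_sq ?_ hA
  nlinarith

private lemma sb_term {w v : ℂ} (hv : ‖v‖ < 1) {ρ : ℝ} (hρ0 : 0 < ρ) (hρ1 : ρ ≤ 1) {ν : ℕ} {μ : ℝ} {H : ℂ → ℂ}
    {D : ℤ →₀ ℂ} {B A : ℝ} (hB : ∀ θ, μ * (H (ρ * ze θ)).re ≤ B)
    (hK : ∀ θ, ‖ker w (ρ * ze θ)‖ ≤ 64 * P v θ) (hA : 0 ≤ A)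
    (hI : ∫ θ, P v θ * ‖ev D (ρ * ze θ)‖ ^ 2 ∂mu ≤ A ^ 2) :
    ‖sbJ w ρ (sbf ν μ H D)‖ ≤ 64 * Real.exp B * A := by
  have hc : Continuous fun θ => ‖ev D (ρ * ze θ)‖ := (sb_cont_ev hρ0 D).norm
  have i2 : Integrable (fun θ => 64 * Real.exp B * (P v θ * ‖ev D (ρ * ze θ)‖)) mu :=
    (integrable_of_cont ((continuous_P hv).mul hc)).const_mul _
  unfold sbJ
  refine (norm_integral_le_of_norm_le i2 (Eventually.of_forall fun θ => ?_)).trans ?_
  · rw [norm_mul, norm_mul, sb_norm_circ hρ0.le, sb_norm, sb_norm_circ hρ0.le]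
    have h1 : ρ * (ρ ^ ν * Real.exp (μ * (H (ρ * ze θ)).re) * ‖ev D (ρ * ze θ)‖)
        ≤ Real.exp B * ‖ev D (ρ * ze θ)‖ := by
      have h2 : ρ * (ρ ^ ν * Real.exp (μ * (H (ρ * ze θ)).re)) ≤ Real.exp B := by
        have h3 : ρ ^ ν ≤ 1 := pow_le_one₀ hρ0.le hρ1
        have h4 : Real.exp (μ * (H (ρ * ze θ)).re) ≤ Real.exp B := Real.exp_le_exp.mpr (hB θ)
        have h5 : ρ * ρ ^ ν ≤ 1 := by
          calc ρ * ρ ^ ν ≤ 1 * 1 := mul_le_mul hρ1 h3 (by positivity) zero_le_one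
            _ = 1 := one_mul 1
        calc ρ * (ρ ^ ν * Real.exp (μ * (H (ρ * ze θ)).re))
            = (ρ * ρ ^ ν) * Real.exp (μ * (H (ρ * ze θ)).re) := by ring
          _ ≤ 1 * Real.exp B := mul_le_mul h5 h4 (Real.exp_pos _).le zero_le_one
          _ = Real.exp B := one_mul _
      calc ρ * (ρ ^ ν * Real.exp (μ * (H (ρ * ze θ)).re) * ‖ev D (ρ * ze θ)‖)
          = ρ * (ρ ^ ν * Real.exp (μ * (H (ρ * ze θ)).re)) * ‖ev D (ρ * ze θ)‖ := by ring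
        _ ≤ _ := mul_le_mul_of_nonneg_right h2 (norm_nonneg _)
    calc ρ * (ρ ^ ν * Real.exp (μ * (H (ρ * ze θ)).re) * ‖ev D (ρ * ze θ)‖) * ‖ker w (ρ * ze θ)‖
        ≤ Real.exp B * ‖ev D (ρ * ze θ)‖ * (64 * P v θ) :=
          mul_le_mul h1 (hK θ) (norm_nonneg _) (by positivity)
      _ = 64 * Real.exp B * (P v θ * ‖ev D (ρ * ze θ)‖) := by ring
  · rw [integral_const_mul]
    exact mul_le_mul_of_nonneg_left (sb_cs hv hc hA hI) (by positivity)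

private lemma sb_ker_cont {w : ℂ} (hw : ‖w‖ < 1) : Continuous fun θ => ker w (ze θ) := by
  unfold ker
  refine Continuous.div (Continuous.pow (Continuous.div continuous_const (continuous_const.sub (continuous_const.mul continuous_ze)) fun θ => ?_) 2)
    (continuous_ze.sub continuous_const) fun θ => ?_
  · intro h0
    have h1 : ‖(starRingEnd ℂ) w * ze θ‖ = ‖w‖ := by rw [norm_mul, norm_ze, mul_one, RCLike.norm_conj]
    have h2 : (starRingEnd ℂ) w * ze θ = 1 := (sub_eq_zero.mp h0).symm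
    rw [h2, norm_one] at h1
    exact absurd h1.symm hw.ne
  · intro h0
    have h2 : ze θ = w := sub_eq_zero.mp h0
    have h3 := norm_ze θ
    rw [h2] at h3
    exact hw.ne h3

private lemma sb_int {w : ℂ} (hw : ‖w‖ < 1) {ν : ℕ} {μ : ℝ} {H : ℂ → ℂ} (hH : Differentiable ℂ H) (F : ℤ →₀ ℂ) :
    Integrable (fun θ => (((1 : ℝ) : ℂ) * ze θ) * sbf ν μ H F (((1 : ℝ) : ℂ) * ze θ) * ker w (((1 : ℝ) : ℂ) * ze θ)) mu := by
  refine integrable_of_cont ?_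
  have h1 : Continuous fun θ => sbf ν μ H F (((1 : ℝ) : ℂ) * ze θ) := by
    refine (sb_diff hH F).continuousOn.comp_continuous (continuous_const.mul continuous_ze) fun θ => ?_
    simp [ze_ne θ]
  have h2 : Continuous fun θ => ker w (((1 : ℝ) : ℂ) * ze θ) := by
    simpa using sb_ker_cont hw
  exact ((continuous_const.mul continuous_ze).mul h1).mul h2

private lemma sb_sub {w : ℂ} (hw : ‖w‖ < 1) {ν : ℕ} {μ : ℝ} {H : ℂ → ℂ} (hH : Differentiable ℂ H) (F F' : ℤ →₀ ℂ) :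
    sbJ w 1 (sbf ν μ H (F - F')) = sbJ w 1 (sbf ν μ H F) - sbJ w 1 (sbf ν μ H F') := by
  unfold sbJ
  rw [← integral_sub (sb_int hw hH F) (sb_int hw hH F')]
  refine integral_congr_ae (Eventually.of_forall fun θ => ?_)
  simp only [sbf, ev_sub]
  ring

private lemma sb_ev_finset_sum {ι : Type*} (s : Finset ι) (F : ι → (ℤ →₀ ℂ)) (z : ℂ) :
    ev (∑ i ∈ s, F i) z = ∑ i ∈ s, ev (F i) z := by
  simp [ev]

private lemma sb_sum {w : ℂ} (hw : ‖w‖ < 1) {ν : ℕ} {μ : ℝ} {H : ℂ → ℂ} (hH : Differentiable ℂ H)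
    (s : Finset ℕ) (F : ℕ → (ℤ →₀ ℂ)) :
    sbJ w 1 (sbf ν μ H (∑ i ∈ s, F i)) = ∑ i ∈ s, sbJ w 1 (sbf ν μ H (F i)) := by
  unfold sbJ
  rw [← integral_finsetSum s fun i _ => sb_int hw hH (F i)]
  refine integral_congr_ae (Eventually.of_forall fun θ => ?_)
  simp only [sbf, sb_ev_finset_sum, Finset.mul_sum, Finset.sum_mul]

private lemma sb_mass {G : ℤ →₀ ℂ} {h Y : ℝ} (hm : mass (non h G) ≤ Real.exp (-(2 * Y))) {n : ℤ} (hn : n < 0)
    (hG : Real.exp (n * h) < ‖G n‖) : ‖G n‖ ≤ Real.exp (-Y) := by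
  classical
  have h1 : (non h G) n = G n := by
    unfold non
    rw [Finsupp.filter_apply, if_pos]
    push Not
    exact ⟨hn, hG⟩
  have h2 : ‖G n‖ ^ 2 ≤ mass (non h G) := by
    unfold mass
    rw [← h1]
    refine Finset.single_le_sum (f := fun n => ‖(non h G) n‖ ^ 2) (fun _ _ => sq_nonneg _) ?_
    rw [Finsupp.mem_support_iff, h1]
    intro h0
    rw [h0, norm_zero] at hG
    exact absurd hG (not_lt.mpr (Real.exp_pos _).le)
  refine le_of_sq_le_sq (h2.trans (hm.trans (le_of_eq ?_))) (Real.exp_pos _).le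
  rw [← Real.exp_nat_mul]
  congr 1
  push_cast
  ring

private lemma sb_freq {G : ℤ →₀ ℂ} {h Y : ℝ} (hm : mass (non h G) ≤ Real.exp (-(2 * Y))) {n : ℤ} (hn : n < 0)
    (hG : Real.exp (n * h) < ‖G n‖) : Y ≤ -(n : ℝ) * h := by
  have h1 := hG.le.trans (sb_mass hm hn hG)
  rw [Real.exp_le_exp] at h1
  linarith

private lemma sb_blk {G : ℤ →₀ ℂ} {h h' : ℝ} (hh : h' ≤ h) {n : ℤ} (hn : (cont h' G - cont h G) n ≠ 0) :
    n < 0 ∧ Real.exp (n * h) < ‖G n‖ ∧ G n ≠ 0 := by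
  classical
  unfold cont at hn
  rw [Finsupp.sub_apply, Finsupp.filter_apply, Finsupp.filter_apply] at hn
  have hn0 : n < 0 := by
    by_contra h0
    push Not at h0
    simp [h0] at hn
  have h1 : Real.exp (n * h) < ‖G n‖ := by
    by_contra h0
    push Not at h0
    have h2 : ‖G n‖ ≤ Real.exp (n * h') := by
      refine h0.trans (Real.exp_le_exp.mpr ?_)
      have : (n : ℝ) < 0 := by exact_mod_cast hn0
      nlinarith
    simp [h0, h2] at hn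
  refine ⟨hn0, h1, fun h0 => ?_⟩
  rw [h0, norm_zero] at h1
  exact absurd h1 (not_lt.mpr (Real.exp_pos _).le)

private lemma sb_lam {Λ : ℕ → ℝ} (hd : ∀ i, 2 * Λ i ≤ Λ (i + 1)) {k : ℕ} (j : ℕ) : 2 ^ j * Λ k ≤ Λ (k + j) := by
  induction j with
  | zero => simp
  | succ j ih =>
    have := hd (k + j)
    rw [pow_succ]
    have h2 : Λ (k + (j + 1)) = Λ (k + j + 1) := rfl
    rw [h2]
    linarith

private lemma sb_expsum {Λ : ℕ → ℝ} (hd : ∀ i, 2 * Λ i ≤ Λ (i + 1)) {k N : ℕ} (hk : 1 ≤ Λ k) :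
    ∑ i ∈ Finset.Ico k N, Real.exp (-(13 / 20 * Λ i)) ≤ 4 := by
  rw [Finset.sum_Ico_eq_sum_range]
  have h1 : ∀ j ∈ Finset.range (N - k), Real.exp (-(13 / 20 * Λ (k + j))) ≤ 20 / 13 * (1 / 2) ^ j := by
    intro j _
    have h2 := sb_lam hd (k := k) j
    have h3 : (2 : ℝ) ^ j ≤ Λ (k + j) := by
      refine le_trans ?_ h2
      have : (0 : ℝ) < 2 ^ j := by positivity
      nlinarith
    have h4 : 0 < Λ (k + j) := lt_of_lt_of_le (by positivity) h3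
    have h5 : Real.exp (-(13 / 20 * Λ (k + j))) ≤ 1 / (13 / 20 * Λ (k + j)) := by
      rw [Real.exp_neg, inv_eq_one_div]
      refine one_div_le_one_div_of_le (by positivity) ?_
      have := Real.add_one_le_exp (13 / 20 * Λ (k + j))
      linarith
    refine h5.trans ?_
    rw [one_div, mul_inv, one_div, inv_pow]
    have h6 : (Λ (k + j))⁻¹ ≤ (2 ^ j)⁻¹ := inv_anti₀ (by positivity) h3
    have h7 : ((13 : ℝ) / 20)⁻¹ = 20 / 13 := by norm_num
    rw [h7]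
    exact mul_le_mul_of_nonneg_left h6 (by norm_num)
  refine (Finset.sum_le_sum h1).trans ?_
  rw [← Finset.mul_sum]
  have h8 : ∑ i ∈ Finset.range (N - k), ((1 : ℝ) / 2) ^ i ≤ 2 := sum_geometric_two_le _
  linarith

/-- the contribution of one block -/
private lemma sb_block {q : ℝ} (hq : 1 < q) {Cb : ℝ} (hCb : 1 ≤ Cb)
    (hblk : ∀ (m : ℕ → ℕ) (G : ℤ →₀ ℂ) (h h' Y : ℝ),
      Lac q m → Spec m G → (∀ n : ℤ, n < 0 → ‖G n‖ ≤ 1) → 0 < h' → h' ≤ h → 0 ≤ Y →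
      mass (non h G) ≤ Real.exp (-(2 * Y)) →
      ∑ n ∈ (cont h' G - cont h G).support, ‖(cont h' G - cont h G) n‖ ^ 2 * Real.exp (-(h' / 256)) ^ (2 * n) ≤
        Cb * Real.exp (-(9 / 5 * Y)))
    {m : ℕ → ℕ} {G : ℤ →₀ ℂ} (hm : Lac q m) (hs : Spec m G) (hG1 : ∀ n : ℤ, n < 0 → ‖G n‖ ≤ 1)
    {h h' Y g t : ℝ} (hh' : 0 < h') (hhh : h' ≤ h) (hhg : h ≤ g) (hg1 : g ≤ 1) (hY : 256 / (q - 1) ≤ Y)
    (hmass : mass (non h G) ≤ Real.exp (-(2 * Y))) {w : ℂ} (hw : ‖w‖ = Real.exp (-t)) (ht1 : g / 128 ≤ t)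
    (ht2 : t ≤ g / 32) {ν : ℕ} {μ : ℝ} {H : ℂ → ℂ} (hH : Differentiable ℂ H)
    (hB : ∀ z, ‖z‖ = Real.exp (-(h' / 256)) → μ * (H z).re ≤ Y / 4) :
    ‖sbJ w 1 (sbf ν μ H (cont h' G - cont h G))‖ ≤ 64 * (2 * Cb) * Real.exp (-(13 / 20 * Y)) := by
  have hq1 : 0 < q - 1 := by linarith
  have hY0 : 0 ≤ Y := le_trans (by positivity) hY
  have hg0 : 0 < g := lt_of_lt_of_le hh' (hhh.trans hhg)
  have ht0 : 0 < t := lt_of_lt_of_le (by positivity) ht1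
  set s : ℝ := h' / 256 with hs_def
  have hs0 : 0 < s := by positivity
  have hst : 2 * s ≤ t := by
    rw [hs_def]
    linarith
  set ρ : ℝ := Real.exp (-s) with hρ
  have hρ0 : 0 < ρ := Real.exp_pos _
  have hρ1 : ρ ≤ 1 := Real.exp_le_one_iff.mpr (by linarith)
  have hwρ : ‖w‖ < ρ := by
    rw [hw, hρ, Real.exp_lt_exp]
    linarith
  have hshift := cauchy_shift (sb_diff (ν := ν) (μ := μ) hH (cont h' G - cont h G)) hwρ hρ1 le_rfl
  have h1 : sbJ w 1 (sbf ν μ H (cont h' G - cont h G)) = sbJ w ρ (sbf ν μ H (cont h' G - cont h G)) := hshift.symm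
  rw [h1]
  have hv : ‖w / (ρ : ℂ)‖ = Real.exp (-(t - s)) := by
    rw [norm_div, hw, Complex.norm_real, Real.norm_of_nonneg hρ0.le, hρ, ← Real.exp_sub]
    congr 1
    ring
  have hts : 0 < t - s := by linarith
  have hv1 : ‖w / (ρ : ℂ)‖ < 1 := by
    rw [hv, Real.exp_lt_one_iff]
    linarith
  have hL2 := block_L2 q m hm (cont h' G - cont h G) (fun n hn => by
      obtain ⟨hn0, _, hGn⟩ := sb_blk hhh hn
      by_contra hno
      push Not at hno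
      exact hGn (hs n hn0 hno)) (t - s) hts (fun n hn => by
      obtain ⟨hn0, hn1, _⟩ := sb_blk hhh hn
      have h2 := sb_freq hmass hn0 hn1
      have hn' : (n : ℝ) < 0 := by exact_mod_cast hn0
      have h3 : Y ≤ -(n : ℝ) * g := h2.trans (mul_le_mul_of_nonneg_left hhg (by linarith))
      have h4 : g / 256 ≤ t - s := by
        rw [hs_def]
        linarith
      have h5 : 256 ≤ (q - 1) * Y := by
        rw [div_le_iff₀ hq1] at hY
        linarith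
      have h6 : (q - 1) * (-(n : ℝ)) * (g / 256) ≤ (q - 1) * (-(n : ℝ)) * (t - s) :=
        mul_le_mul_of_nonneg_left h4 (mul_nonneg hq1.le (by linarith))
      have h7 : (q - 1) * Y ≤ (q - 1) * (-(n : ℝ) * g) := mul_le_mul_of_nonneg_left h3 hq1.le
      nlinarith) (w / (ρ : ℂ)) hv ρ hρ0 hρ1
  have hsum := hblk m G h h' Y hm hs hG1 hh' hhh hY0 hmass
  have hI : ∫ θ, P (w / (ρ : ℂ)) θ * ‖ev (cont h' G - cont h G) (ρ * ze θ)‖ ^ 2 ∂mu
      ≤ (2 * Cb * Real.exp (-(9 / 10 * Y))) ^ 2 := by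
    refine hL2.trans ((mul_le_mul_of_nonneg_left hsum (by norm_num)).trans ?_)
    have h8 : Real.exp (-(9 / 5 * Y)) = Real.exp (-(9 / 10 * Y)) ^ 2 := by
      rw [← Real.exp_nat_mul]
      congr 1
      push_cast
      ring
    rw [h8, mul_pow]
    have h9 : 0 ≤ Real.exp (-(9 / 10 * Y)) ^ 2 := sq_nonneg _
    have h10 : 3 * Cb ≤ (2 * Cb) ^ 2 := by nlinarith
    calc 3 * (Cb * Real.exp (-(9 / 10 * Y)) ^ 2) = 3 * Cb * Real.exp (-(9 / 10 * Y)) ^ 2 := by ring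
      _ ≤ _ := mul_le_mul_of_nonneg_right h10 h9
  refine (sb_term hv1 hρ0 hρ1 (B := Y / 4) (fun θ => hB _ ?_)
    (fun θ => ker_out hw (by linarith) hs0.le hst ht0 θ) (by positivity) hI).trans (le_of_eq ?_)
  · rw [sb_norm_circ hρ0.le]
  · have h11 : Real.exp (-(13 / 20 * Y)) = Real.exp (Y / 4) * Real.exp (-(9 / 10 * Y)) := by
      rw [← Real.exp_add]
      congr 1
      ring
    rw [h11]
    ring

/-- the contribution of the rest -/
private lemma sb_rest {q : ℝ} (hq : 1 < q)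
    {m : ℕ → ℕ} {G : ℤ →₀ ℂ} (hm : Lac q m) (hs : Spec m G)
    {h Y g t : ℝ} (hh : 0 < h) (hhg : h ≤ g) (hg1 : g ≤ 1) (hY : 256 / (q - 1) ≤ Y)
    (hmass : mass (non h G) ≤ Real.exp (-(2 * Y))) {w : ℂ} (hw : ‖w‖ = Real.exp (-t)) (ht1 : g / 128 ≤ t)
    (ht2 : t ≤ g / 32) {ν : ℕ} {μ : ℝ} {H : ℂ → ℂ}
    (hB : ∀ θ, μ * (H (ze θ)).re ≤ Y / 4) :
    ‖sbJ w 1 (sbf ν μ H (non h G))‖ ≤ 128 := by
  classical
  have hq1 : 0 < q - 1 := by linarith
  have hY0 : 0 ≤ Y := le_trans (by positivity) hY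
  have hg0 : 0 < g := lt_of_lt_of_le hh hhg
  have ht0 : 0 < t := lt_of_lt_of_le (by positivity) ht1
  have hw1 : ‖w‖ < 1 := by
    rw [hw, Real.exp_lt_one_iff]
    linarith
  have hnon : ∀ n : ℤ, (non h G) n ≠ 0 → n < 0 ∧ Real.exp (n * h) < ‖G n‖ ∧ G n ≠ 0 := by
    intro n hn
    unfold non at hn
    rw [Finsupp.filter_apply] at hn
    have h1 : ¬ (0 ≤ n ∨ ‖G n‖ ≤ Real.exp (n * h)) := by
      by_contra h0
      rw [if_neg (not_not_intro h0)] at hn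
      exact hn rfl
    rw [if_pos h1] at hn
    push Not at h1
    exact ⟨h1.1, h1.2, hn⟩
  have hL2 := block_L2 q m hm (non h G) (fun n hn => by
      obtain ⟨hn0, _, hGn⟩ := hnon n hn
      by_contra hno
      push Not at hno
      exact hGn (hs n hn0 hno)) t ht0 (fun n hn => by
      obtain ⟨hn0, hn1, _⟩ := hnon n hn
      have h2 := sb_freq hmass hn0 hn1
      have hn' : (n : ℝ) < 0 := by exact_mod_cast hn0
      have h3 : Y ≤ -(n : ℝ) * g := h2.trans (mul_le_mul_of_nonneg_left hhg (by linarith))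
      have h4 : g / 256 ≤ t := by linarith
      have h5 : 256 ≤ (q - 1) * Y := by
        rw [div_le_iff₀ hq1] at hY
        linarith
      have h6 : (q - 1) * (-(n : ℝ)) * (g / 256) ≤ (q - 1) * (-(n : ℝ)) * t :=
        mul_le_mul_of_nonneg_left h4 (mul_nonneg hq1.le (by linarith))
      have h7 : (q - 1) * Y ≤ (q - 1) * (-(n : ℝ) * g) := mul_le_mul_of_nonneg_left h3 hq1.le
      nlinarith) w hw 1 one_pos le_rfl
  have hI : ∫ θ, P w θ * ‖ev (non h G) (((1 : ℝ) : ℂ) * ze θ)‖ ^ 2 ∂mu ≤ (2 * Real.exp (-Y)) ^ 2 := by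
    refine hL2.trans ?_
    have h8 : ∑ n ∈ (non h G).support, ‖(non h G) n‖ ^ 2 * (1 : ℝ) ^ (2 * n) = mass (non h G) := by
      unfold mass
      simp
    rw [h8]
    have h9 : Real.exp (-(2 * Y)) = Real.exp (-Y) ^ 2 := by
      rw [← Real.exp_nat_mul]
      congr 1
      push_cast
      ring
    rw [h9] at hmass
    have h10 : 0 ≤ Real.exp (-Y) ^ 2 := sq_nonneg _
    rw [mul_pow]
    linarith
  refine (sb_term (ρ := 1) hw1 one_pos le_rfl (B := Y / 4) (fun θ => ?_)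
    (fun θ => ?_) (by positivity) hI).trans ?_
  · simpa using hB θ
  · have := ker_out hw (by linarith) le_rfl (by linarith : 2 * (0 : ℝ) ≤ t) ht0 θ
    simpa using this
  · have h11 : Real.exp (Y / 4) * Real.exp (-Y) ≤ 1 := by
      rw [← Real.exp_add, Real.exp_le_one_iff]
      linarith
    calc 64 * Real.exp (Y / 4) * (2 * Real.exp (-Y)) = 128 * (Real.exp (Y / 4) * Real.exp (-Y)) := by ring
      _ ≤ 128 * 1 := mul_le_mul_of_nonneg_left h11 (by norm_num)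
      _ = 128 := by norm_num

/-- the contribution of `G` itself -/
private lemma sb_main {G : ℤ →₀ ℂ} {t : ℝ} {w : ℂ} (hw : ‖w‖ = Real.exp (-t)) (ht0 : 0 < t) (ht1 : t ≤ 1)
    {ν : ℕ} {μ : ℝ} {H : ℂ → ℂ}
    (hB : ∀ θ, Real.exp (μ * (H (ze θ)).re) * ‖ev G (ze θ)‖ ≤ 3 * (1 + ‖ev G (ze θ)‖)) :
    ‖sbJ w 1 (sbf ν μ H G)‖ ≤ 192 * (1 + S G w) := by
  have hw1 : ‖w‖ < 1 := by
    rw [hw, Real.exp_lt_one_iff]
    linarith
  have hc : Continuous fun θ => ‖ev G (ze θ)‖ := (continuous_ev_ze G).norm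
  have i1 : Integrable (fun θ => P w θ * ‖ev G (ze θ)‖) mu :=
    integrable_of_cont ((continuous_P hw1).mul hc)
  have i0 : Integrable (fun θ => P w θ) mu := integrable_of_cont (continuous_P hw1)
  have i2 : Integrable (fun θ => 192 * (P w θ + P w θ * ‖ev G (ze θ)‖)) mu := (i0.add i1).const_mul _
  unfold sbJ
  refine (norm_integral_le_of_norm_le i2 (Eventually.of_forall fun θ => ?_)).trans ?_
  · rw [norm_mul, norm_mul, sb_norm_circ zero_le_one, sb_norm, sb_norm_circ zero_le_one]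
    have hk : ‖ker w (((1 : ℝ) : ℂ) * ze θ)‖ ≤ 64 * P w θ := by
      have := ker_out hw ht1 le_rfl (by linarith : 2 * (0 : ℝ) ≤ t) ht0 θ
      simpa using this
    have hb := hB θ
    have e1 : ((1 : ℝ) : ℂ) * ze θ = ze θ := by simp
    rw [e1] at hk ⊢
    rw [one_pow, one_mul, one_mul]
    calc Real.exp (μ * (H (ze θ)).re) * ‖ev G (ze θ)‖ * ‖ker w (ze θ)‖
        ≤ 3 * (1 + ‖ev G (ze θ)‖) * (64 * P w θ) := mul_le_mul hb hk (norm_nonneg _) (by positivity)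
      _ = 192 * (P w θ + P w θ * ‖ev G (ze θ)‖) := by ring
  · rw [integral_const_mul, integral_add i0 i1, integral_P hw1]
    exact le_rfl

/-- the inner circle -/
private lemma sb_inner {q : ℝ} {Cc : ℝ}
    (hcnt : ∀ (m : ℕ → ℕ) (G : ℤ →₀ ℂ) (h t : ℝ) (z : ℂ),
      Lac q m → Spec m G → (∀ n : ℤ, n < 0 → ‖G n‖ ≤ 1) → 0 < h → mass (non h G) ≤ Real.exp (-256) →
      ‖z‖ = Real.exp (-t) → h / 128 ≤ t → t ≤ h / 4 → h ≤ 1 → ‖ev (cont h G) z‖ ≤ S G z + Cc)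
    {m : ℕ → ℕ} {G : ℤ →₀ ℂ} (hm : Lac q m) (hs : Spec m G) (hG1 : ∀ n : ℤ, n < 0 → ‖G n‖ ≤ 1)
    {g t Y : ℝ} (hg0 : 0 < g) (hg1 : g ≤ 1) (hmass : mass (non g G) ≤ Real.exp (-256))
    {w : ℂ} (hw : ‖w‖ = Real.exp (-t)) (ht1 : g / 128 ≤ t)
    (ht2 : t ≤ g / 32) {ν : ℕ} (hν : Y / 16 ≤ ν * g) {μ : ℝ} {H : ℂ → ℂ}
    (hB : ∀ z, ‖z‖ = Real.exp (-(g / 4)) → μ * (H z).re ≤ Y / 64) :
    ‖sbJ w (Real.exp (-(g / 4))) (sbf ν μ H (cont g G))‖ ≤ 64 * (520 * S G w + Cc) := by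
  have ht0 : 0 < t := lt_of_lt_of_le (by positivity) ht1
  have hw1 : ‖w‖ < 1 := by
    rw [hw, Real.exp_lt_one_iff]
    linarith
  set r : ℝ := Real.exp (-(g / 4)) with hr
  have hr0 : 0 < r := Real.exp_pos _
  have hr1 : r < 1 := by
    rw [hr, Real.exp_lt_one_iff]
    linarith
  have hcG : Continuous fun θ => ‖ev G (ze θ)‖ := (continuous_ev_ze G).norm
  have hv1 : ‖(r : ℂ) * w‖ < 1 := by
    rw [norm_mul, Complex.norm_real, Real.norm_of_nonneg hr0.le]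
    calc r * ‖w‖ ≤ 1 * ‖w‖ := mul_le_mul_of_nonneg_right hr1.le (norm_nonneg _)
      _ < 1 := by rw [one_mul]; exact hw1
  have hS : Continuous fun θ => S G (r * ze θ) := Pz_cont hcG hr0.le hr1
  have i1 : Integrable (fun θ => P (r * w) θ * S G (r * ze θ)) mu :=
    integrable_of_cont ((continuous_P hv1).mul hS)
  have i0 : Integrable (fun θ => P (r * w) θ) mu := integrable_of_cont (continuous_P hv1)
  have i2 : Integrable (fun θ => 64 * (P (r * w) θ * S G (r * ze θ) + P (r * w) θ * Cc)) mu :=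
    (i1.add (i0.mul_const _)).const_mul _
  unfold sbJ
  refine (norm_integral_le_of_norm_le i2 (Eventually.of_forall fun θ => ?_)).trans ?_
  · have hn := sb_norm_circ hr0.le θ
    rw [norm_mul, norm_mul, sb_norm, hn]
    have hk : ‖ker w (r * ze θ)‖ ≤ 64 * P (r * w) θ := ker_in hw ht0 (by linarith) (by linarith) θ
    have hx : ‖ev (cont g G) (r * ze θ)‖ ≤ S G (r * ze θ) + Cc :=
      hcnt m G g (g / 4) (r * ze θ) hm hs hG1 hg0 hmass hn (by linarith) le_rfl hg1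
    have hE : r ^ ν * Real.exp (μ * (H (r * ze θ)).re) ≤ 1 := by
      rw [hr, ← Real.exp_nat_mul, ← Real.exp_add, Real.exp_le_one_iff]
      have := hB (r * ze θ) hn
      nlinarith
    have hE2 : r * (r ^ ν * Real.exp (μ * (H (r * ze θ)).re)) ≤ 1 := by
      calc r * (r ^ ν * Real.exp (μ * (H (r * ze θ)).re)) ≤ 1 * 1 :=
            mul_le_mul hr1.le hE (by positivity) zero_le_one
        _ = 1 := one_mul 1
    have hS0 : 0 ≤ S G (r * ze θ) + Cc := (norm_nonneg _).trans hx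
    calc r * (r ^ ν * Real.exp (μ * (H (r * ze θ)).re) * ‖ev (cont g G) (r * ze θ)‖) * ‖ker w (r * ze θ)‖
        = (r * (r ^ ν * Real.exp (μ * (H (r * ze θ)).re))) * ‖ev (cont g G) (r * ze θ)‖ * ‖ker w (r * ze θ)‖ := by ring
      _ ≤ 1 * (S G (r * ze θ) + Cc) * (64 * P (r * w) θ) := by
          refine mul_le_mul (mul_le_mul hE2 hx (norm_nonneg _) zero_le_one) hk (norm_nonneg _) ?_
          rw [one_mul]
          exact hS0
      _ = _ := by ring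
  · rw [integral_const_mul, integral_add i1 (i0.mul_const _), integral_mul_const, integral_P hv1]
    have hsemi : ∫ θ, P (r * w) θ * S G (r * ze θ) ∂mu = S G (r * (r * w)) := Pz_semi hcG hr0.le hr1 hv1
    rw [hsemi]
    refine mul_le_mul_of_nonneg_left ?_ (by norm_num)
    rw [one_mul]
    have hu0 : ∀ θ : Ci, 0 ≤ ‖ev G (ze θ)‖ := fun θ => norm_nonneg _
    have hzn : ‖(r : ℂ) * (r * w)‖ = Real.exp (-(g / 2 + t)) := by
      rw [norm_mul, norm_mul, Complex.norm_real, Real.norm_of_nonneg hr0.le, hw, hr, ← Real.exp_add,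
        ← Real.exp_add]
      congr 1
      ring
    have hz1 : ‖(r : ℂ) * (r * w)‖ < 1 := by
      rw [hzn, Real.exp_lt_one_iff]
      linarith
    have hhar := Pz_harnack hcG hu0 hz1 hw1
    have hdist : ‖(r : ℂ) * (r * w) - w‖ / (1 - ‖(r : ℂ) * (r * w)‖) ≤ 1 := by
      rw [div_le_one (by linarith)]
      have e1 : (r : ℂ) * (r * w) - w = -(((1 - r ^ 2 : ℝ) : ℂ) * w) := by
        push_cast
        ring
      have hr2 : 0 ≤ 1 - r ^ 2 := by nlinarith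
      have e2 : ‖(r : ℂ) * (r * w)‖ = r ^ 2 * ‖w‖ := by
        rw [norm_mul, norm_mul, Complex.norm_real, Real.norm_of_nonneg hr0.le]
        ring
      rw [e1, e2, norm_neg, norm_mul, Complex.norm_real, Real.norm_of_nonneg hr2]
      nlinarith
    have hrat : (1 - ‖(r : ℂ) * (r * w)‖ ^ 2) / (1 - ‖w‖ ^ 2) ≤ 130 := by
      have hden : t ≤ 1 - ‖w‖ ^ 2 := by
        rw [hw, ← Real.exp_nat_mul]
        have h1 : Real.exp (((2 : ℕ) : ℝ) * -t) ≤ 1 / (1 + 2 * t) := by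
          have h2 : ((2 : ℕ) : ℝ) * -t = -(2 * t) := by
            push_cast
            ring
          rw [h2, Real.exp_neg, inv_eq_one_div]
          refine one_div_le_one_div_of_le (by positivity) ?_
          have := Real.add_one_le_exp (2 * t)
          linarith
        have h3 : 1 / (1 + 2 * t) ≤ 1 - t := by
          rw [div_le_iff₀ (by positivity)]
          nlinarith
        push_cast at h1 ⊢
        linarith
      have hnum : 1 - ‖(r : ℂ) * (r * w)‖ ^ 2 ≤ 130 * t := by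
        rw [hzn, ← Real.exp_nat_mul]
        have := Real.add_one_le_exp (((2 : ℕ) : ℝ) * -(g / 2 + t))
        push_cast at this ⊢
        linarith
      rw [div_le_iff₀ (by linarith)]
      nlinarith
    have hSw : 0 ≤ S G w := S_nonneg G hw1
    have hz0 : 0 ≤ (1 - ‖(r : ℂ) * (r * w)‖ ^ 2) / (1 - ‖w‖ ^ 2) := by
      refine div_nonneg ?_ ?_
      · nlinarith [norm_nonneg ((r : ℂ) * (r * w))]
      · nlinarith [norm_nonneg w]
    have hd0 : 0 ≤ ‖(r : ℂ) * (r * w) - w‖ / (1 - ‖(r : ℂ) * (r * w)‖) :=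
      div_nonneg (norm_nonneg _) (by linarith)
    have h4 : (1 + ‖(r : ℂ) * (r * w) - w‖ / (1 - ‖(r : ℂ) * (r * w)‖)) ^ 2 ≤ 4 := by nlinarith
    have h5 : (1 - ‖(r : ℂ) * (r * w)‖ ^ 2) / (1 - ‖w‖ ^ 2) *
        (1 + ‖(r : ℂ) * (r * w) - w‖ / (1 - ‖(r : ℂ) * (r * w)‖)) ^ 2 ≤ 130 * 4 :=
      mul_le_mul hrat h4 (sq_nonneg _) (by norm_num)
    have h6 : S G ((r : ℂ) * (r * w)) ≤ 130 * 4 * S G w :=
      hhar.trans (mul_le_mul_of_nonneg_right h5 hSw)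
    linarith

private lemma sb_tele (f : ℕ → (ℤ →₀ ℂ)) {k N : ℕ} (hkN : k ≤ N) :
    ∑ i ∈ Finset.Ico k N, (f (i + 1) - f i) = f N - f k := by
  induction N, hkN using Nat.le_induction with
  | base => simp
  | succ N hN ih => rw [Finset.sum_Ico_succ_top hN, ih]; abel

private lemma sb_split (G : ℤ →₀ ℂ) (h : ℕ → ℝ) {k N : ℕ} (hkN : k ≤ N) :
    cont (h k) G = G - (∑ i ∈ Finset.Ico k N, (cont (h (i + 1)) G - cont (h i) G)) - non (h N) G := by
  classical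
  rw [sb_tele (fun i => cont (h i) G) hkN]
  have h1 : cont (h N) G + non (h N) G = G := by
    unfold cont non
    exact Finsupp.filter_add_filter_not _ _
  calc cont (h k) G = (cont (h N) G + non (h N) G) - (cont (h N) G - cont (h k) G) - non (h N) G := by abel
    _ = _ := by rw [h1]

theorem stepB (q : ℝ) (hq : 1 < q) : ∃ C : ℝ, 1 ≤ C ∧ ∀ (m : ℕ → ℕ) (G : ℤ →₀ ℂ) (h Λ : ℕ → ℝ) (N k : ℕ),
    Data q m G h Λ N → k ≤ N → C ≤ Λ k → ∀ (H : ℂ → ℂ) (μ : ℝ), Differentiable ℂ H → 0 ≤ μ →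
    (∀ θ, Real.exp (μ * (H (ze θ)).re) * ‖ev G (ze θ)‖ ≤ 3 * (1 + ‖ev G (ze θ)‖)) →
    (∀ θ, μ * (H (ze θ)).re ≤ Λ N / 4) →
    (∀ i, k ≤ i → i < N → ∀ z, ‖z‖ = Real.exp (-(h (i + 1) / 256)) → μ * (H z).re ≤ Λ i / 4) →
    (∀ z, ‖z‖ = Real.exp (-(h k / 4)) → μ * (H z).re ≤ Λ k / 64) →
    ∀ (w : ℂ) (t : ℝ), ‖w‖ = Real.exp (-t) → h k / 128 ≤ t → t ≤ h k / 32 →
      ‖ev (cont (h k) G) w‖ * Real.exp (μ * (H w).re) ≤ C * (1 + S G w) * Real.exp (Λ k / 512) := by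
  obtain ⟨Cc, hCc, hcnt⟩ := cont_le q hq
  obtain ⟨Cb, hCb, hblk⟩ := block_sum q hq
  have hq1 : 0 < q - 1 := by linarith
  refine ⟨256 / (q - 1) + 128 + 3 * (33600 + 512 * Cb + 64 * Cc), ?_, ?_⟩
  · have : 0 < 256 / (q - 1) := by positivity
    linarith
  intro m G h Λ N k hD hkN hCk H μ hH _ hB1 hB2 hB3 hB4 w t hw ht1 ht2
  have hq0 : 0 < 256 / (q - 1) := by positivity
  set g : ℝ := h k with hg
  have hg0 : 0 < g := hD.hpos k
  have hg1 : g ≤ 1 := (hD.hanti (Nat.zero_le k)).trans hD.h1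
  have ht0 : 0 < t := lt_of_lt_of_le (by positivity) ht1
  have htle : t ≤ 1 := by linarith
  have hw1 : ‖w‖ < 1 := by
    rw [hw, Real.exp_lt_one_iff]
    linarith
  have hΛk : 256 / (q - 1) ≤ Λ k := by linarith
  have hΛk128 : 128 ≤ Λ k := by linarith
  have hG1 : ∀ n : ℤ, n < 0 → ‖G n‖ ≤ 1 := fun n hn =>
    (hD.small n hn).trans (Real.exp_le_one_iff.mpr (by norm_num))
  have hΛmono : ∀ i, k ≤ i → Λ k ≤ Λ i := by
    intro i hi
    obtain ⟨j, rfl⟩ := Nat.exists_eq_add_of_le hi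
    have h1 := sb_lam hD.dbl (k := k) j
    have h2 : (1 : ℝ) ≤ 2 ^ j := one_le_pow₀ (by norm_num)
    nlinarith
  have hSw : 0 ≤ S G w := S_nonneg G hw1
  set ν : ℕ := ⌈Λ k / (16 * g)⌉₊ with hν
  have hν1 : Λ k / 16 ≤ ν * g := by
    have h1 : Λ k / (16 * g) ≤ ν := Nat.le_ceil _
    rw [div_le_iff₀ (by positivity)] at h1
    linarith
  have hν2 : (ν : ℝ) * t ≤ Λ k / 512 + 1 := by
    have h1 : (ν : ℝ) < Λ k / (16 * g) + 1 := Nat.ceil_lt_add_one (by positivity)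
    have h2 : (ν : ℝ) * t ≤ (Λ k / (16 * g) + 1) * (g / 32) :=
      mul_le_mul h1.le ht2 ht0.le (by positivity)
    have h3 : (Λ k / (16 * g) + 1) * (g / 32) = Λ k / 512 + g / 32 := by
      field_simp
      ring
    linarith
  -- the three parts of the integral over the unit circle
  have hJ : sbJ w 1 (sbf ν μ H (cont g G)) = sbJ w 1 (sbf ν μ H G)
      - ∑ i ∈ Finset.Ico k N, sbJ w 1 (sbf ν μ H (cont (h (i + 1)) G - cont (h i) G))
      - sbJ w 1 (sbf ν μ H (non (h N) G)) := by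
    rw [hg, sb_split G h hkN, sb_sub hw1 hH, sb_sub hw1 hH, sb_sum hw1 hH]
  have hA1 := sb_main (ν := ν) hw ht0 htle hB1
  have hA2 : ‖∑ i ∈ Finset.Ico k N, sbJ w 1 (sbf ν μ H (cont (h (i + 1)) G - cont (h i) G))‖
      ≤ 64 * (2 * Cb) * 4 := by
    refine (norm_sum_le _ _).trans ?_
    have h1 : ∀ i ∈ Finset.Ico k N, ‖sbJ w 1 (sbf ν μ H (cont (h (i + 1)) G - cont (h i) G))‖
        ≤ 64 * (2 * Cb) * Real.exp (-(13 / 20 * Λ i)) := by
      intro i hi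
      rw [Finset.mem_Ico] at hi
      exact sb_block hq hCb hblk hD.lac hD.spec hG1 (hD.hpos (i + 1)) (hD.hanti (Nat.le_succ i))
        (hD.hanti hi.1) hg1 (hΛk.trans (hΛmono i hi.1)) (hD.massle i hi.2.le) hw ht1 ht2 hH (hB3 i hi.1 hi.2)
    refine (Finset.sum_le_sum h1).trans ?_
    rw [← Finset.mul_sum]
    exact mul_le_mul_of_nonneg_left (sb_expsum hD.dbl (by linarith)) (by positivity)
  have hA3 := sb_rest (ν := ν) hq hD.lac hD.spec (hD.hpos N) (hD.hanti hkN) hg1 (hΛk.trans (hΛmono N hkN))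
    (hD.massle N le_rfl) hw ht1 ht2 hB2
  have hA4 := sb_inner (ν := ν) hcnt hD.lac hD.spec hG1 hg0 hg1
    ((hD.massle k hkN).trans (Real.exp_le_exp.mpr (by linarith))) hw ht1 ht2 hν1 hB4
  -- Cauchy formula
  have hr0 : 0 < Real.exp (-(g / 4)) := Real.exp_pos _
  have hrw : Real.exp (-(g / 4)) < ‖w‖ := by
    rw [hw, Real.exp_lt_exp]
    linarith
  have hcau : sbJ w 1 (sbf ν μ H (cont g G)) - sbJ w (Real.exp (-(g / 4))) (sbf ν μ H (cont g G))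
      = sbf ν μ H (cont g G) w := cauchy_annulus (sb_diff hH _) hr0 hrw hw1 le_rfl
  have hF : ‖sbf ν μ H (cont g G) w‖ ≤ (33600 + 512 * Cb + 64 * Cc) * (1 + S G w) := by
    rw [← hcau, hJ]
    refine (norm_sub_le _ _).trans ?_
    have h1 := norm_sub_le (sbJ w 1 (sbf ν μ H G)
      - ∑ i ∈ Finset.Ico k N, sbJ w 1 (sbf ν μ H (cont (h (i + 1)) G - cont (h i) G)))
      (sbJ w 1 (sbf ν μ H (non (h N) G)))
    have h2 := norm_sub_le (sbJ w 1 (sbf ν μ H G))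
      (∑ i ∈ Finset.Ico k N, sbJ w 1 (sbf ν μ H (cont (h (i + 1)) G - cont (h i) G)))
    have h3 : 0 ≤ Cb * S G w := mul_nonneg (by linarith) hSw
    have h4 : 0 ≤ Cc * S G w := mul_nonneg (by linarith) hSw
    nlinarith
  rw [sb_norm, hw, ← Real.exp_nat_mul] at hF
  have hE : Real.exp ((ν : ℝ) * t) ≤ 3 * Real.exp (Λ k / 512) := by
    refine (Real.exp_le_exp.mpr hν2).trans ?_
    rw [Real.exp_add]
    have := Real.exp_one_lt_d9
    nlinarith [Real.exp_pos (Λ k / 512)]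
  have hid : ‖ev (cont g G) w‖ * Real.exp (μ * (H w).re) = Real.exp ((ν : ℝ) * t) *
      (Real.exp ((ν : ℝ) * -t) * Real.exp (μ * (H w).re) * ‖ev (cont g G) w‖) := by
    have h1 : Real.exp ((ν : ℝ) * t) * Real.exp ((ν : ℝ) * -t) = 1 := by
      rw [← Real.exp_add]
      simp
    calc ‖ev (cont g G) w‖ * Real.exp (μ * (H w).re) = 1 * (Real.exp (μ * (H w).re) * ‖ev (cont g G) w‖) := by ring
      _ = (Real.exp ((ν : ℝ) * t) * Real.exp ((ν : ℝ) * -t)) * (Real.exp (μ * (H w).re) * ‖ev (cont g G) w‖) := by rw [h1]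
      _ = _ := by ring
  rw [hid]
  have hK0 : 0 ≤ (33600 + 512 * Cb + 64 * Cc) * (1 + S G w) := by positivity
  calc Real.exp ((ν : ℝ) * t) * (Real.exp ((ν : ℝ) * -t) * Real.exp (μ * (H w).re) * ‖ev (cont g G) w‖)
      ≤ (3 * Real.exp (Λ k / 512)) * ((33600 + 512 * Cb + 64 * Cc) * (1 + S G w)) :=
        mul_le_mul hE hF (by positivity) (by positivity)
    _ ≤ (256 / (q - 1) + 128 + 3 * (33600 + 512 * Cb + 64 * Cc)) * (1 + S G w) * Real.exp (Λ k / 512) := by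
        have h1 : 0 ≤ (256 / (q - 1) + 128) * (1 + S G w) * Real.exp (Λ k / 512) := by positivity
        nlinarith

end

end Pool.Agent.L5helper80.QL
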