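import Pool.Agent.L5helper80.QL.Har
import Pool.Agent.L5helper80.QL.StepB

/-!
# J12: step B in terms of the induction hypothesis

SKETCH. `μ = Λ_k/(64 Δ_{k+1})`. Check the hypotheses of stepB:
(4th) `|z| = e^{-h_k/4} ≤ e^{-h_(k+1)/64}`: `Re H ≤ Δ_(k+1)`, so `μ Re H ≤ Λ_k/64`.
(3rd) `k ≤ i < N`, `|z| = e^{-h_(i+1)/256}`: re_harnack with `z' = |z|³ z` (height `h_(i+1)/64`): first factor `≤ 1`,
`|z-z'|/(1-|z|) ≤ 3`, so `Re H(z) ≤ 16 Re H(z') ≤ 16 Δ_(i+1)`; `Δ_(i+1) ≤ 2^(i-k) Δ_(k+1)`, `Λ_i ≥ 2^(i-k) Λ_k`: `μ Re H(z) ≤ Λ_i/4`.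
(2nd) `Re H ≤ 2` and `Δ_(k+1) ≥ 2/2^(N-k-1)`: `2μ ≤ Λ_k 2^(N-k-1)/64 ≤ Λ_N/128`.
(1st) if `Re H ≤ 1/Λ_N`: `μ Re H ≤ 1/256`, `e^{1/256} ≤ 3`. Else `|G| ≤ 2e^{-Λ_N}`, `e^{μ Re H}|G| ≤ 2 e^{Λ_N/128 - Λ_N} ≤ 2`.
Then take logarithms in stepB: `μ Re H(w) ≤ b + log C + log(1+S(w)) + Λ_k/512`.
-/

set_option autoImplicit false

namespace Pool.Agent.L5helper80.QL

noncomputable section

open MeasureTheory AddCircle Complex Filter Topology Pool.Agent.W767.HL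

private lemma StepB2_lam {Λ : ℕ → ℝ} (hd : ∀ i, 2 * Λ i ≤ Λ (i + 1)) (k j : ℕ) : 2 ^ j * Λ k ≤ Λ (k + j) := by
  induction j with
  | zero => simp
  | succ j ih =>
    have h1 := hd (k + j)
    rw [pow_succ, ← add_assoc]
    linarith

private lemma StepB2_del {Δ : ℕ → ℝ} (hd : ∀ i, Δ (i + 1) ≤ 2 * Δ i) (k j : ℕ) : Δ (k + j) ≤ 2 ^ j * Δ k := by
  induction j with
  | zero => simp
  | succ j ih =>
    have h1 := hd (k + j)
    rw [pow_succ, ← add_assoc]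
    linarith

private lemma StepB2_exp : Real.exp 1 ≤ 3 := by linarith [Real.exp_one_lt_d9]

private lemma StepB2_har {H : ℂ → ℂ} (hH : Differentiable ℂ H) (h0 : ∀ z, ‖z‖ ≤ 1 → 0 ≤ (H z).re) {z : ℂ}
    (hz : ‖z‖ < 1) (D : ℝ) (hD : (H (((‖z‖ ^ 3 : ℝ) : ℂ) * z)).re ≤ D) : (H z).re ≤ 16 * D := by
  set r := ‖z‖ with hr
  have hr0 : 0 ≤ r := norm_nonneg z
  have e1 : ‖((r ^ 3 : ℝ) : ℂ) * z‖ = r ^ 4 := by
    rw [norm_mul, Complex.norm_real, Real.norm_of_nonneg (by positivity), ← hr]; ring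
  have hr4 : r ^ 4 ≤ r := by
    calc r ^ 4 ≤ r ^ 1 := pow_le_pow_of_le_one hr0 hz.le (by norm_num)
      _ = r := pow_one r
  have hw : ‖((r ^ 3 : ℝ) : ℂ) * z‖ < 1 := by rw [e1]; linarith
  have h1 := re_harnack hH h0 hz hw
  rw [e1, ← hr] at h1
  have e2 : ‖z - ((r ^ 3 : ℝ) : ℂ) * z‖ = (1 - r ^ 3) * r := by
    have : z - ((r ^ 3 : ℝ) : ℂ) * z = ((1 - r ^ 3 : ℝ) : ℂ) * z := by push_cast; ring
    rw [this, norm_mul, Complex.norm_real, Real.norm_of_nonneg, ← hr]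
    have : r ^ 3 ≤ 1 := pow_le_one₀ hr0 hz.le
    linarith
  rw [e2] at h1
  have hw0 : 0 ≤ (H (((r ^ 3 : ℝ) : ℂ) * z)).re := h0 _ hw.le
  have f1 : (1 - r ^ 2) / (1 - (r ^ 4) ^ 2) ≤ 1 := by
    have h2 : (r ^ 4) ^ 2 ≤ r ^ 2 := pow_le_pow_left₀ (by positivity) hr4 2
    have h3 : r ^ 2 < 1 := by nlinarith
    rw [div_le_one (by linarith)]
    linarith
  have f0 : 0 ≤ (1 - r ^ 2) / (1 - (r ^ 4) ^ 2) := by
    have h2 : (r ^ 4) ^ 2 ≤ r ^ 2 := pow_le_pow_left₀ (by positivity) hr4 2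
    have h3 : r ^ 2 < 1 := by nlinarith
    apply div_nonneg <;> linarith
  have f2 : 1 + (1 - r ^ 3) * r / (1 - r) ≤ 4 := by
    have h4 : (1 - r ^ 3) * r / (1 - r) ≤ 3 := by
      rw [div_le_iff₀ (by linarith)]
      have : (1 - r ^ 3) = (1 - r) * (1 + r + r ^ 2) := by ring
      rw [this]
      have h5 : (1 + r + r ^ 2) * r ≤ 3 := by nlinarith [pow_le_one₀ hr0 hz.le (n := 2), pow_le_one₀ hr0 hz.le (n := 3)]
      have h6 : 0 ≤ 1 - r := by linarith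
      nlinarith
    linarith
  have f3 : 0 ≤ 1 + (1 - r ^ 3) * r / (1 - r) := by
    have : r ^ 3 ≤ 1 := pow_le_one₀ hr0 hz.le
    have h7 : 0 ≤ (1 - r ^ 3) * r / (1 - r) := by
      apply div_nonneg
      · apply mul_nonneg _ hr0; linarith
      · linarith
    linarith
  have f4 : (1 + (1 - r ^ 3) * r / (1 - r)) ^ 2 ≤ 16 := by
    calc _ ≤ (4 : ℝ) ^ 2 := pow_le_pow_left₀ f3 f2 2
      _ = 16 := by norm_num
  calc (H z).re ≤ _ := h1
    _ ≤ 1 * 16 * (H (((r ^ 3 : ℝ) : ℂ) * z)).re := by gcongr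
    _ ≤ 16 * D := by linarith

theorem stepB2 (q : ℝ) (hq : 1 < q) : ∃ C : ℝ, 1 ≤ C ∧ ∀ (m : ℕ → ℕ) (G : ℤ →₀ ℂ) (h Λ Δ : ℕ → ℝ) (N k : ℕ)
    (H : ℂ → ℂ), Data q m G h Λ N → Har G (Λ N) H → Bd Δ N → k < N → C ≤ Λ k → (∀ i, k < i → i ≤ N → IH H h Δ i) →
    ∀ (w : ℂ) (t b : ℝ), ‖w‖ = Real.exp (-t) → h k / 128 ≤ t → t ≤ h k / 32 →
      Real.exp (-b) ≤ ‖ev (cont (h k) G) w‖ →
      (H w).re ≤ Δ (k + 1) * (1 / 8 + 64 * (b + C + Real.log (1 + S G w)) / Λ k) := by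
  obtain ⟨C, hC, hB⟩ := stepB q hq
  refine ⟨C, hC, ?_⟩
  intro m G h Λ Δ N k H hd hH hΔ hkN hCk hIH w t b hw ht1 ht2 hb
  have hΛk : 1 ≤ Λ k := hC.trans hCk
  have hΛk0 : 0 < Λ k := by linarith
  have hΔk : 0 < Δ (k + 1) := hΔ.pos _
  set μ : ℝ := Λ k / (64 * Δ (k + 1)) with hμ
  have hμ0 : 0 ≤ μ := by positivity
  have hμΔ : μ * Δ (k + 1) = Λ k / 64 := by rw [hμ]; field_simp
  obtain ⟨j, hj⟩ : ∃ j, N = k + 1 + j := ⟨N - (k + 1), by omega⟩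
  have hN1 : 2 ^ (j + 1) * Λ k ≤ Λ N := by
    have := StepB2_lam hd.dbl k (j + 1)
    rw [hj, show k + 1 + j = k + (j + 1) by ring]
    exact this
  have hN2 : 2 ≤ 2 ^ j * Δ (k + 1) := by
    have := StepB2_del hΔ.dbl (k + 1) j
    rw [← hj] at this
    exact hΔ.two.trans this
  have h2j : (0 : ℝ) < 2 ^ j := by positivity
  have h2μ : 2 * μ ≤ Λ N / 128 := by
    have e1 : 2 * μ * (2 ^ j * Δ (k + 1)) = 2 ^ (j + 1) * Λ k / 64 := by
      rw [pow_succ]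
      calc 2 * μ * (2 ^ j * Δ (k + 1)) = 2 * 2 ^ j * (μ * Δ (k + 1)) := by ring
        _ = _ := by rw [hμΔ]; ring
    have e2 : 2 * μ * 2 ≤ 2 * μ * (2 ^ j * Δ (k + 1)) := by gcongr
    linarith
  have hΛN : 1 ≤ Λ N := by
    have : (1 : ℝ) ≤ 2 ^ (j + 1) := one_le_pow₀ (by norm_num)
    nlinarith
  have hzn : ∀ θ, ‖ze θ‖ = 1 := fun θ => norm_ze θ
  have c1 : ∀ θ, Real.exp (μ * (H (ze θ)).re) * ‖ev G (ze θ)‖ ≤ 3 * (1 + ‖ev G (ze θ)‖) := by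
    intro θ
    have hn := norm_nonneg (ev G (ze θ))
    rcases hH.supp θ with h1 | h1
    · have h2 : μ * (H (ze θ)).re ≤ 1 := by
        have h3 : μ * (H (ze θ)).re ≤ μ * (1 / Λ N) := by gcongr
        have h4 : μ * (1 / Λ N) ≤ 1 := by
          rw [mul_one_div, div_le_one (by linarith)]
          linarith
        linarith
      have h3 : Real.exp (μ * (H (ze θ)).re) ≤ 3 := (Real.exp_le_exp.2 h2).trans StepB2_exp
      calc _ ≤ 3 * ‖ev G (ze θ)‖ := by gcongr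
        _ ≤ _ := by linarith
    · have h2 : μ * (H (ze θ)).re ≤ Λ N := by
        have h3 : μ * (H (ze θ)).re ≤ μ * 2 := by
          have := hH.le2 (ze θ) (hzn θ).le
          gcongr
        linarith
      calc _ ≤ Real.exp (Λ N) * (2 * Real.exp (-Λ N)) := by gcongr
        _ = 2 := by rw [mul_left_comm, ← Real.exp_add]; simp
        _ ≤ _ := by linarith
  have c2 : ∀ θ, μ * (H (ze θ)).re ≤ Λ N / 4 := by
    intro θ
    have h3 : μ * (H (ze θ)).re ≤ μ * 2 := by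
      have := hH.le2 (ze θ) (hzn θ).le
      gcongr
    linarith
  have c3 : ∀ i, k ≤ i → i < N → ∀ z, ‖z‖ = Real.exp (-(h (i + 1) / 256)) → μ * (H z).re ≤ Λ i / 4 := by
    intro i hki hiN z hz
    have hz1 : ‖z‖ < 1 := by
      rw [hz, Real.exp_lt_one_iff]
      have := hd.hpos (i + 1)
      linarith
    have h1 : (H (((‖z‖ ^ 3 : ℝ) : ℂ) * z)).re ≤ Δ (i + 1) := by
      apply hIH (i + 1) (by omega) (by omega)
      rw [norm_mul, Complex.norm_real, Real.norm_of_nonneg (by positivity), hz, ← Real.exp_nat_mul, ← Real.exp_add]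
      apply Real.exp_le_exp.2
      push_cast
      linarith
    have h2 := StepB2_har hH.diff hH.nonneg hz1 _ h1
    obtain ⟨l, hl⟩ : ∃ l, i = k + l := ⟨i - k, by omega⟩
    have h3 := StepB2_del hΔ.dbl (k + 1) l
    rw [show k + 1 + l = i + 1 by omega] at h3
    have h4 := StepB2_lam hd.dbl k l
    rw [← hl] at h4
    calc μ * (H z).re ≤ μ * (16 * (2 ^ l * Δ (k + 1))) := by
          apply mul_le_mul_of_nonneg_left _ hμ0
          linarith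
      _ = 16 * 2 ^ l * (μ * Δ (k + 1)) := by ring
      _ = 2 ^ l * Λ k / 4 := by rw [hμΔ]; ring
      _ ≤ Λ i / 4 := by linarith
  have c4 : ∀ z, ‖z‖ = Real.exp (-(h k / 4)) → μ * (H z).re ≤ Λ k / 64 := by
    intro z hz
    have h1 : (H z).re ≤ Δ (k + 1) := by
      apply hIH (k + 1) (by omega) (by omega)
      rw [hz]
      apply Real.exp_le_exp.2
      have h2 := hd.hanti (Nat.le_succ k)
      have h3 := hd.hpos (k + 1)
      have h4 := hd.hpos k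
      have h5 : h (k + 1) ≤ h k := h2
      linarith
    rw [← hμΔ]
    gcongr
  have hfin := hB m G h Λ N k hd hkN.le hCk H μ hH.diff hμ0 c1 c2 c3 c4 w t hw ht1 ht2
  have ht0 : 0 < t := by
    have := hd.hpos k
    linarith
  have hw1 : ‖w‖ < 1 := by rw [hw, Real.exp_lt_one_iff]; linarith
  have hS := S_nonneg G hw1
  have h5 : Real.exp (-b + μ * (H w).re) ≤ Real.exp (Real.log C + Real.log (1 + S G w) + Λ k / 512) := by
    rw [Real.exp_add, Real.exp_add, Real.exp_add, Real.exp_log (by linarith), Real.exp_log (by linarith)]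
    exact (mul_le_mul_of_nonneg_right hb (Real.exp_pos _).le).trans hfin
  have h6 := Real.exp_le_exp.1 h5
  have h7 : Real.log C ≤ C := (Real.log_le_sub_one_of_pos (by linarith)).trans (by linarith)
  have h8 : μ * (H w).re ≤ b + C + Real.log (1 + S G w) + Λ k / 512 := by linarith
  have h9 : (H w).re = 64 * Δ (k + 1) / Λ k * (μ * (H w).re) := by
    rw [hμ]; field_simp
  rw [h9]
  calc 64 * Δ (k + 1) / Λ k * (μ * (H w).re) ≤
        64 * Δ (k + 1) / Λ k * (b + C + Real.log (1 + S G w) + Λ k / 512) := by gcongr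
    _ = _ := by field_simp; ring

end

end Pool.Agent.L5helper80.QL
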