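import Pool.Agent.L5helper80.QL.Reach
import Pool.Agent.L5helper80.QL.StepB2

/-!
# J13: the case `h k ≤ h n / 8`

SKETCH. `τ_i = h_i/64`, `z0 = z = e^{-τ_n}ζ`. `T` by `mass(non(2h_n)G) = e^{-2T}` (mass `> 0` by `massge`, so `T ≤ Λ_n + ½`); `T ≥ 1 + log A ≥ 1`.
`reach` with `X = T`, `β = 1`, `t = τ_n`: with `w1 = e^{-(C1 h_n - τ_k)}ζ`, `∫_{bad} P_{w1} ≤ 1 - κ`, bad `= {|x_k(e^{-τ_k}ζ')| ≤ e^{-C2 T}}`.
`v0 = e^{-(τ_n - τ_k)}ζ` (`τ_k ≤ τ_n/8`), P_harnack: `P_{w1} ≤ C P_{v0}`; so `∫_{good} P_{v0} ≥ κ/C =: κ2`.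
`∫ P_{v0} S(e^{-τ_k}·) = S(z0) ≤ A` (Pz_semi), so with `A' = 2A/κ2`, `∫_{S > A'} P_{v0} ≤ κ2/2`.
On `good ∩ {S ≤ A'}` (`P_{v0}`-measure `≥ κ2/2`): stepB2 at `e^{-τ_k}ζ'` (height `h_k/64`), `b = C2 T`: `Re H ≤ Δ_(k+1)(1/8 + 64(C2 T + C + log(1+A'))/Λ_k) ≤ Δ_(k+1)/4`
as `Λ_k ≥ C_new Λ_n`, `T, log A ≤ Λ_n + 1`. Elsewhere `Re H(e^{-τ_k}ζ') ≤ Δ_k ≤ Δ_(k+1)` (IH at level `k`).
`Re H(z0) = ∫ P_{v0}(ζ') Re H(e^{-τ_k}ζ') ≤ Δ_(k+1)(1 - κ2/2 + κ2/8)` (`poisson_re` for `x ↦ H(e^{-τ_k}x)`).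
-/

set_option autoImplicit false

namespace Pool.Agent.L5helper80.QL

noncomputable section

open MeasureTheory AddCircle Complex Filter Topology Pool.Agent.W767.HL

lemma Far_cont (F : ℤ →₀ ℂ) {ρ : ℝ} (hρ : 0 < ρ) : Continuous fun θ => ev F ((ρ : ℂ) * ze θ) := by
  simp only [ev_eq_sum, Finsupp.sum]
  refine continuous_finsetSum _ fun n _ => continuous_const.mul ?_
  refine (continuous_const.mul continuous_ze).zpow₀ n fun θ => Or.inl ?_
  exact mul_ne_zero (Complex.ofReal_ne_zero.mpr hρ.ne') (ze_ne θ)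

/-- `1 - exp (-s) ≥ s / 2` for `0 ≤ s ≤ 1` -/
lemma Far_exp {s : ℝ} (h0 : 0 ≤ s) (h1 : s ≤ 1) : s / 2 ≤ 1 - Real.exp (-s) := by
  have h2 : 1 + s ≤ Real.exp s := by linarith [Real.add_one_le_exp s]
  have h3 : Real.exp (-s) ≤ 1 / (1 + s) := by
    rw [Real.exp_neg, ← one_div]
    exact one_div_le_one_div_of_le (by linarith) h2
  have h4 : 1 / (1 + s) ≤ 1 - s / 2 := by
    rw [div_le_iff₀ (by linarith)]
    nlinarith
  linarith

/-- comparison of the two Poisson kernels on the same ray -/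
lemma Far_ker {ζ : ℂ} (hζ : ‖ζ‖ = 1) {h a b C1 : ℝ} (hh : 0 < h) (hh1 : h ≤ 1) (hb : 0 < b)
    (hb1 : b ≤ h / 512) (ha : a = h / 64) (hC : 2 ≤ C1) (θ : Ci) :
    P (Real.exp (-(C1 * h - b)) * ζ) θ ≤ 600 * C1 * P (Real.exp (-(a - b)) * ζ) θ := by
  have hCh : 2 * h ≤ C1 * h := by nlinarith
  have h1 : 0 < C1 * h - b := by nlinarith
  have h2 : 0 < a - b := by rw [ha]; linarith
  have hn1 : ‖(Real.exp (-(C1 * h - b)) : ℂ) * ζ‖ = Real.exp (-(C1 * h - b)) := by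
    rw [norm_mul, hζ, mul_one, Complex.norm_real, Real.norm_of_nonneg (Real.exp_pos _).le]
  have hn2 : ‖(Real.exp (-(a - b)) : ℂ) * ζ‖ = Real.exp (-(a - b)) := by
    rw [norm_mul, hζ, mul_one, Complex.norm_real, Real.norm_of_nonneg (Real.exp_pos _).le]
  have hl1 : Real.exp (-(C1 * h - b)) < 1 := by
    rw [Real.exp_lt_one_iff]; linarith
  have hl2 : Real.exp (-(a - b)) < 1 := by
    rw [Real.exp_lt_one_iff]; linarith
  have hle : Real.exp (-(C1 * h - b)) ≤ Real.exp (-(a - b)) := by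
    apply Real.exp_le_exp.mpr
    rw [ha]
    linarith
  have hd : ‖(Real.exp (-(C1 * h - b)) : ℂ) * ζ - (Real.exp (-(a - b)) : ℂ) * ζ‖
      = Real.exp (-(a - b)) - Real.exp (-(C1 * h - b)) := by
    rw [← sub_mul, norm_mul, hζ, mul_one, ← Complex.ofReal_sub, Complex.norm_real, Real.norm_eq_abs,
      abs_sub_comm, abs_of_nonneg (by linarith)]
  have key := P_harnack (z := (Real.exp (-(C1 * h - b)) : ℂ) * ζ) (w := (Real.exp (-(a - b)) : ℂ) * ζ)
    (by rw [hn1]; exact hl1) (by rw [hn2]; exact hl2) θ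
  rw [hn1, hn2, hd] at key
  refine key.trans ?_
  refine mul_le_mul_of_nonneg_right ?_ (P_pos (by rw [hn2]; exact hl2) θ).le
  have e1 : 1 - Real.exp (-(C1 * h - b)) ^ 2 ≤ 2 * (C1 * h) := by
    rw [← Real.exp_nat_mul]
    have := Real.add_one_le_exp ((2 : ℕ) * (-(C1 * h - b)))
    push_cast at this ⊢
    linarith
  have e2 : h * 7 / 512 ≤ 1 - Real.exp (-(a - b)) ^ 2 := by
    rw [← Real.exp_nat_mul]
    have := Far_exp (s := 2 * (a - b)) (by linarith) (by rw [ha]; linarith)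
    have e : ((2 : ℕ) : ℝ) * (-(a - b)) = -(2 * (a - b)) := by push_cast; ring
    rw [e]
    rw [ha] at this ⊢
    linarith
  have e3 : (Real.exp (-(a - b)) - Real.exp (-(C1 * h - b))) / (1 - Real.exp (-(C1 * h - b))) ≤ 1 := by
    rw [div_le_one (by linarith)]
    linarith
  have e30 : 0 ≤ (Real.exp (-(a - b)) - Real.exp (-(C1 * h - b))) / (1 - Real.exp (-(C1 * h - b))) :=
    div_nonneg (by linarith) (by linarith)
  have e4 : (1 + (Real.exp (-(a - b)) - Real.exp (-(C1 * h - b))) / (1 - Real.exp (-(C1 * h - b)))) ^ 2 ≤ 4 := by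
    nlinarith
  have e5 : (1 - Real.exp (-(C1 * h - b)) ^ 2) / (1 - Real.exp (-(a - b)) ^ 2) ≤ 150 * C1 := by
    rw [div_le_iff₀ (by linarith [show 0 < h * 7 / 512 by positivity])]
    have : 150 * C1 * (h * 7 / 512) ≤ 150 * C1 * (1 - Real.exp (-(a - b)) ^ 2) :=
      mul_le_mul_of_nonneg_left e2 (by linarith)
    refine e1.trans (le_trans ?_ this)
    nlinarith [mul_pos (show (0:ℝ) < C1 by linarith) hh]
  have e6 : 0 ≤ (1 - Real.exp (-(C1 * h - b)) ^ 2) / (1 - Real.exp (-(a - b)) ^ 2) := by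
    apply div_nonneg
    · have : Real.exp (-(C1 * h - b)) ^ 2 ≤ 1 := pow_le_one₀ (Real.exp_pos _).le hl1.le
      linarith
    · linarith [show 0 < h * 7 / 512 by positivity]
  calc _ ≤ 150 * C1 * 4 := mul_le_mul e5 e4 (by positivity) (by linarith)
    _ = 600 * C1 := by ring

theorem far (q : ℝ) (hq : 1 < q) : ∃ c C : ℝ, 0 < c ∧ c < 1 ∧ 1 ≤ C ∧ ∀ (m : ℕ → ℕ) (G : ℤ →₀ ℂ) (h Λ Δ : ℕ → ℝ)
    (N n k : ℕ) (A : ℝ) (H : ℂ → ℂ), Data q m G h Λ N → Har G (Λ N) H → Bd Δ N → n < k → k < N → h k ≤ h n / 8 →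
    C ≤ Λ n → C * Λ n ≤ Λ k → 1 ≤ A → S G 0 ≤ A → mass (non (2 * h n) G) ≤ Real.exp (-(2 * (1 + Real.log A))) →
    (∀ i, n < i → i ≤ N → IH H h Δ i) →
    ∀ z, ‖z‖ = Real.exp (-(h n / 64)) → S G z ≤ A → (H z).re ≤ c * Δ (k + 1) := by
  obtain ⟨κ, C1, C2, hκ, hκ1, hC2, hC1, hreach⟩ := reach q hq
  obtain ⟨C3, hC3, hstep⟩ := stepB2 q hq
  set K : ℝ := 600 * C1 with hK
  have hK1 : 1200 ≤ K := by rw [hK]; linarith
  set κ2 : ℝ := κ / K with hκ2
  have hκ2p : 0 < κ2 := by positivity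
  have hκ21 : κ2 < 1 := by
    rw [hκ2, div_lt_one (by linarith)]
    linarith
  set C4 : ℝ := Real.log (1 + 2 / κ2) with hC4
  have hC4p : 0 ≤ C4 := Real.log_nonneg (by
    have : 0 ≤ 2 / κ2 := by positivity
    linarith)
  set C : ℝ := 512 * (2 * C2 + 2 + C3 + C4) with hC
  have hCb : 512 * 5 ≤ C := by rw [hC]; linarith
  refine ⟨1 - 3 / 8 * κ2, C, by linarith, by linarith, by linarith, ?_⟩
  intro m G h Λ Δ N n k A H hD hH hB hnk hkN hhk hCn hCk hA hS0 hmass hIH z hz hSz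
  have hΛn : 1 ≤ Λ n := by linarith
  have hΛk : C ≤ Λ k := by
    refine le_trans ?_ hCk
    nlinarith
  have hhn : 0 < h n := hD.hpos n
  have hhkp : 0 < h k := hD.hpos k
  have hhn1 : h n ≤ 1 := (hD.hanti (Nat.zero_le n)).trans hD.h1
  -- the number T
  have hmp : 0 < mass (non (2 * h n) G) := by
    have := hD.massge n (by omega)
    linarith [Real.exp_pos (-(2 * Λ n))]
  obtain ⟨T, hT⟩ : ∃ T : ℝ, mass (non (2 * h n) G) = Real.exp (-(2 * T)) :=
    ⟨-(Real.log (mass (non (2 * h n) G))) / 2, by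
      rw [show -(2 * (-(Real.log (mass (non (2 * h n) G))) / 2)) = Real.log (mass (non (2 * h n) G)) by ring,
        Real.exp_log hmp]⟩
  have hT1 : 1 + Real.log A ≤ T := by
    rw [hT, Real.exp_le_exp] at hmass
    linarith
  have hlA : 0 ≤ Real.log A := Real.log_nonneg hA
  have hT2 : T ≤ Λ n + 1 / 2 := by
    have h1 := hD.massge n (by omega)
    rw [hT] at h1
    have h2 : (2 : ℝ) ≤ Real.exp 1 := by linarith [Real.add_one_le_exp (1:ℝ)]
    have h3 : Real.exp (-(2 * Λ n)) ≤ Real.exp (1 + -(2 * T)) := by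
      rw [Real.exp_add]
      refine h1.trans (mul_le_mul_of_nonneg_right h2 (Real.exp_pos _).le)
    rw [Real.exp_le_exp] at h3
    linarith
  -- the point
  set ζ : ℂ := (Real.exp (h n / 64) : ℂ) * z with hζd
  have hζ : ‖ζ‖ = 1 := by
    rw [hζd, norm_mul, Complex.norm_real, Real.norm_of_nonneg (Real.exp_pos _).le, hz, ← Real.exp_add]
    simp
  have hzζ : z = (Real.exp (-(h n / 64)) : ℂ) * ζ := by
    rw [hζd, ← mul_assoc, ← Complex.ofReal_mul, ← Real.exp_add]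
    simp
  have hre := hreach m G h Λ N n k T T 1 A (h n / 64) ζ hD hnk.le hkN.le (by linarith) hT le_rfl hT1
    (by nlinarith) hA le_rfl (by linarith) (by rw [one_mul]; exact le_max_right _ _) hζ (by linarith)
    (by linarith) (by rw [← hzζ]; exact hSz) hS0
  rw [mul_one] at hre
  -- notation
  set τ : ℝ := h k / 64 with hτ
  have hτp : 0 < τ := by positivity
  set ρ : ℝ := Real.exp (-τ) with hρ
  have hρ0 : 0 < ρ := Real.exp_pos _
  have hρ1 : ρ < 1 := by rw [hρ, Real.exp_lt_one_iff]; linarith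
  set w1 : ℂ := (Real.exp (-(C1 * h n - τ)) : ℂ) * ζ with hw1
  set v0 : ℂ := (Real.exp (-(h n / 64 - τ)) : ℂ) * ζ with hv0
  have hτ8 : τ ≤ h n / 512 := by rw [hτ]; linarith
  have hw1n : ‖w1‖ < 1 := by
    rw [hw1, norm_mul, hζ, mul_one, Complex.norm_real, Real.norm_of_nonneg (Real.exp_pos _).le, Real.exp_lt_one_iff]
    nlinarith
  have hv0n : ‖v0‖ < 1 := by
    rw [hv0, norm_mul, hζ, mul_one, Complex.norm_real, Real.norm_of_nonneg (Real.exp_pos _).le, Real.exp_lt_one_iff]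
    linarith
  have hρv : (ρ : ℂ) * v0 = z := by
    rw [hv0, ← mul_assoc, ← Complex.ofReal_mul, hρ, ← Real.exp_add, hzζ]
    congr 3
    ring
  set bad : Set Ci := {θ | ‖ev (cont (h k) G) ((ρ : ℂ) * ze θ)‖ ≤ Real.exp (-(C2 * T))} with hbad
  have hbadm : MeasurableSet bad :=
    (isClosed_le (Far_cont _ hρ0).norm continuous_const).measurableSet
  -- the part of the kernel on the good set
  have hP1 : Integrable (P w1) mu := integrable_of_cont (continuous_P hw1n)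
  have hP0 : Integrable (P v0) mu := integrable_of_cont (continuous_P hv0n)
  have hgood1 : κ ≤ ∫ θ in badᶜ, P w1 θ ∂mu := by
    have h1 := integral_add_compl hbadm hP1
    rw [integral_P hw1n] at h1
    linarith
  have hgood2 : ∫ θ in badᶜ, P w1 θ ∂mu ≤ K * ∫ θ in badᶜ, P v0 θ ∂mu := by
    rw [← integral_const_mul]
    refine integral_mono hP1.integrableOn (hP0.integrableOn.const_mul K) fun θ => ?_
    exact Far_ker hζ hhn hhn1 hτp hτ8 rfl hC1 θ
  have hgood : κ2 ≤ ∫ θ in badᶜ, P v0 θ ∂mu := by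
    rw [hκ2, div_le_iff₀ (by linarith)]
    linarith
  -- the function S on the circle of radius ρ
  have hu : Continuous fun θ : Ci => ‖ev G (ze θ)‖ := (continuous_ev_ze G).norm
  have hScont : Continuous fun θ : Ci => S G ((ρ : ℂ) * ze θ) := Pz_cont hu hρ0.le hρ1
  have hSint : ∫ θ, P v0 θ * S G ((ρ : ℂ) * ze θ) ∂mu = S G z := by
    have := Pz_semi hu hρ0.le hρ1 hv0n
    rw [hρv] at this
    exact this
  have hSnn : ∀ θ : Ci, 0 ≤ S G ((ρ : ℂ) * ze θ) := fun θ => S_nonneg G (by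
    rw [norm_mul, norm_ze, mul_one, Complex.norm_real, Real.norm_of_nonneg hρ0.le]
    exact hρ1)
  set A' : ℝ := 2 * A / κ2 with hA'
  have hA'p : 0 < A' := by positivity
  -- the value of H
  have hHv : ∫ θ, P v0 θ * (H ((ρ : ℂ) * ze θ)).re ∂mu = (H z).re := by
    have hd : Differentiable ℂ fun x : ℂ => H ((ρ : ℂ) * x) := hH.diff.comp (differentiable_id.const_mul _)
    have := poisson_re hd hv0n
    rw [hρv] at this
    exact this
  have hΔ : 0 < Δ (k + 1) := hB.pos _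
  -- the pointwise bound
  have hpt : ∀ θ : Ci, (H ((ρ : ℂ) * ze θ)).re ≤
      Δ (k + 1) * (1 - 3 / 4 * (badᶜ).indicator (fun _ => (1 : ℝ)) θ + 3 / 4 * (S G ((ρ : ℂ) * ze θ) / A')) := by
    intro θ
    have hnorm : ‖(ρ : ℂ) * ze θ‖ = Real.exp (-(h k / 64)) := by
      rw [norm_mul, norm_ze, mul_one, Complex.norm_real, Real.norm_of_nonneg hρ0.le]
    have hb1 : (H ((ρ : ℂ) * ze θ)).re ≤ Δ (k + 1) :=
      (hIH k hnk hkN.le _ hnorm.le).trans (hB.mono k)
    have hq0 : 0 ≤ S G ((ρ : ℂ) * ze θ) / A' := div_nonneg (hSnn θ) hA'p.le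
    by_cases hθ : θ ∈ badᶜ
    · rw [Set.indicator_of_mem hθ]
      by_cases hs : S G ((ρ : ℂ) * ze θ) ≤ A'
      · have hev : Real.exp (-(C2 * T)) ≤ ‖ev (cont (h k) G) ((ρ : ℂ) * ze θ)‖ := by
          have : ¬ (‖ev (cont (h k) G) ((ρ : ℂ) * ze θ)‖ ≤ Real.exp (-(C2 * T))) := hθ
          exact (not_le.mp this).le
        have h1 := hstep m G h Λ Δ N k H hD hH hB hkN (by linarith [hC2, hC4p]) (fun i hi hiN => hIH i (by omega) hiN)
          ((ρ : ℂ) * ze θ) (h k / 64) (C2 * T) hnorm (by linarith) (by linarith) hev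
        have h2 : Real.log (1 + S G ((ρ : ℂ) * ze θ)) ≤ Real.log A + C4 := by
          rw [hC4, ← Real.log_mul (by linarith) (by positivity)]
          apply Real.log_le_log (by linarith [hSnn θ])
          calc 1 + S G ((ρ : ℂ) * ze θ) ≤ A + A' := by linarith
            _ = A * (1 + 2 / κ2) := by rw [hA']; ring
        have h3 : 64 * (C2 * T + C3 + Real.log (1 + S G ((ρ : ℂ) * ze θ))) / Λ k ≤ 1 / 8 := by
          rw [div_le_iff₀ (by linarith)]
          have h4 : C2 * T ≤ C2 * (Λ n + 1 / 2) := mul_le_mul_of_nonneg_left hT2 (by linarith)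
          have h5 : Real.log A ≤ Λ n := by linarith
          have h6 : C2 * T + C3 + Real.log (1 + S G ((ρ : ℂ) * ze θ)) ≤ (2 * C2 + 2 + C3 + C4) * Λ n := by
            nlinarith
          have h7 : C * Λ n = 512 * ((2 * C2 + 2 + C3 + C4) * Λ n) := by rw [hC]; ring
          linarith
        have h8 : (H ((ρ : ℂ) * ze θ)).re ≤ Δ (k + 1) * (1 / 4) :=
          h1.trans (mul_le_mul_of_nonneg_left (by linarith) hΔ.le)
        refine h8.trans (mul_le_mul_of_nonneg_left (by linarith) hΔ.le)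
      · have h1 : 1 ≤ S G ((ρ : ℂ) * ze θ) / A' := by
          rw [le_div_iff₀ hA'p]
          linarith
        refine hb1.trans ?_
        nlinarith
    · rw [Set.indicator_of_notMem hθ]
      refine hb1.trans ?_
      nlinarith
  -- integrate
  have hint1 : Integrable (fun θ => P v0 θ * (H ((ρ : ℂ) * ze θ)).re) mu := by
    have hc : Continuous fun θ : Ci => (H ((ρ : ℂ) * ze θ)).re :=
      Complex.continuous_re.comp (hH.diff.continuous.comp (continuous_const.mul continuous_ze))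
    exact integrable_P_mul hv0n (integrable_of_cont hc)
  have hint2 : Integrable (fun θ => P v0 θ * S G ((ρ : ℂ) * ze θ)) mu :=
    integrable_P_mul hv0n (integrable_of_cont hScont)
  have hint3 : Integrable (fun θ => (badᶜ).indicator (P v0) θ) mu :=
    hP0.indicator hbadm.compl
  have hmain : (H z).re ≤ ∫ θ, (Δ (k + 1) * P v0 θ - Δ (k + 1) * (3 / 4) * (badᶜ).indicator (P v0) θ
      + Δ (k + 1) * (3 / 4) / A' * (P v0 θ * S G ((ρ : ℂ) * ze θ))) ∂mu := by
    rw [← hHv]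
    refine integral_mono hint1 (((hP0.const_mul _).sub (hint3.const_mul _)).add (hint2.const_mul _)) fun θ => ?_
    have h1 := mul_le_mul_of_nonneg_left (hpt θ) (P_pos hv0n θ).le
    refine h1.trans (le_of_eq ?_)
    by_cases hθ : θ ∈ badᶜ
    · rw [Set.indicator_of_mem hθ, Set.indicator_of_mem hθ]
      ring
    · rw [Set.indicator_of_notMem hθ, Set.indicator_of_notMem hθ]
      ring
  have i1 := hP0.const_mul (Δ (k + 1))
  have i2 := hint3.const_mul (Δ (k + 1) * (3 / 4))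
  have i3 := hint2.const_mul (Δ (k + 1) * (3 / 4) / A')
  have hI := integral_add (f := fun θ => Δ (k + 1) * P v0 θ - Δ (k + 1) * (3 / 4) * (badᶜ).indicator (P v0) θ)
    (i1.sub i2) i3
  rw [hI, integral_sub i1 i2, integral_const_mul, integral_const_mul,
    integral_const_mul, integral_P hv0n, integral_indicator hbadm.compl, hSint] at hmain
  have hlast : Δ (k + 1) * (3 / 4) / A' * S G z ≤ Δ (k + 1) * (3 / 8) * κ2 := by
    have h1 : Δ (k + 1) * (3 / 4) / A' * S G z ≤ Δ (k + 1) * (3 / 4) / A' * A :=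
      mul_le_mul_of_nonneg_left hSz (by positivity)
    refine h1.trans (le_of_eq ?_)
    rw [hA']
    have hA0 : A ≠ 0 := by linarith
    field_simp
    ring
  have hg : Δ (k + 1) * (3 / 4) * κ2 ≤ Δ (k + 1) * (3 / 4) * ∫ θ in badᶜ, P v0 θ ∂mu :=
    mul_le_mul_of_nonneg_left hgood (by positivity)
  linarith

end

end Pool.Agent.L5helper80.QL
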