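import Pool.Agent.W767.HL.Alg

/-!
# J10: maximum principle (maximum modulus for `exp ∘ H`, compactness of the circle)
-/

set_option autoImplicit false

namespace Pool.Agent.L5helper80.QL

noncomputable section

open MeasureTheory AddCircle Complex Filter Topology Pool.Agent.W767.HL

theorem max_circle {H : ℂ → ℂ} (hH : Differentiable ℂ H) {r : ℝ} (hr : 0 < r) :
    ∃ z, ‖z‖ = r ∧ ∀ x, ‖x‖ ≤ r → (H x).re ≤ (H z).re := by
  have hne : (Metric.sphere (0 : ℂ) r).Nonempty := ⟨(r : ℂ), by simp [abs_of_pos hr]⟩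
  have hcont : Continuous fun z => (H z).re := Complex.continuous_re.comp hH.continuous
  obtain ⟨z, hz, hmax⟩ := (isCompact_sphere (0 : ℂ) r).exists_isMaxOn hne hcont.continuousOn
  refine ⟨z, by simpa using hz, fun x hx => ?_⟩
  have hd : DiffContOnCl ℂ (fun w => Complex.exp (H w)) (Metric.ball (0 : ℂ) r) :=
    (hH.cexp).diffContOnCl
  have hb : Bornology.IsBounded (Metric.ball (0 : ℂ) r) := Metric.isBounded_ball
  have hfr : ∀ w ∈ frontier (Metric.ball (0 : ℂ) r), ‖Complex.exp (H w)‖ ≤ Real.exp ((H z).re) := by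
    intro w hw
    rw [frontier_ball (0 : ℂ) hr.ne'] at hw
    rw [Complex.norm_exp]
    exact Real.exp_le_exp.mpr (hmax hw)
  have hx' : x ∈ closure (Metric.ball (0 : ℂ) r) := by
    rw [closure_ball (0 : ℂ) hr.ne']
    simpa using hx
  have := Complex.norm_le_of_forall_mem_frontier_norm_le hb hd hfr hx'
  rw [Complex.norm_exp] at this
  exact Real.exp_le_exp.mp this

end

end Pool.Agent.L5helper80.QL
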