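import Pool.Agent.L5helper80.QL.NearCore
import Pool.Agent.L5helper80.QL.StepB2

/-!
# J14b: the cases `h n ≤ 8 h k`

SKETCH. near_b: `T` by `mass(non(2h_n)G) = e^{-2T}` (mass `> 0` by `massge`, so `T ≤ Λ_n + ½`), `T ≥ 1 + log A ≥ 1`. near_core with `X = T`, `β = 1`:
`x` with `|x - z| ≤ h_k/4096`, `|x_k(x)| ≥ e^{-T e^C}`. `x` has height in `[h_k/128, h_k/32]`; stepB2 at `x`, `b = T e^C`;
`S(x) ≤ 2 S(z) ≤ 2A` (Pz_harnack); so `Re H(x) ≤ Δ_(k+1)(1/8 + 64(T e^C + C + log(1+2A))/Λ_k) ≤ Δ_(k+1)/4` as `Λ_k ≥ C_new Λ_n`; re_harnack from `x` to `z`: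
`Re H(z) ≤ 2 Re H(x)` (factor `(1-|z|²)/(1-|x|²) (1 + |x-z|/(1-|z|))² ≤ 2`).
near_c: `T` by `mass(non(2h_k)G) = e^{-2T}` (positive by hypothesis), `T ≤ 1 + log A =: X`, `β = X`, `n = k`: `b = X e^{CX}`, and
`Λ_k ≥ e^{C_new (1+log A)} = e^{C_new X}` dominates; same end.
-/

set_option autoImplicit false

namespace Pool.Agent.L5helper80.QL

noncomputable section

open MeasureTheory AddCircle Complex Filter Topology Pool.Agent.W767.HL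

/-- geometry near a point of height `h / 64` -/
lemma Near_geom {h : ℝ} (h0 : 0 < h) (h1 : h ≤ 1) {z x : ℂ} (hz : ‖z‖ = Real.exp (-(h / 64)))
    (hx : ‖x - z‖ ≤ h / 4096) :
    ∃ t, ‖x‖ = Real.exp (-t) ∧ h / 128 ≤ t ∧ t ≤ h / 32 ∧ ‖x‖ < 1 ∧ ‖z‖ < 1 ∧
      (1 - ‖x‖ ^ 2) / (1 - ‖z‖ ^ 2) * (1 + ‖x - z‖ / (1 - ‖x‖)) ^ 2 ≤ 2 ∧
      (1 - ‖z‖ ^ 2) / (1 - ‖x‖ ^ 2) * (1 + ‖z - x‖ / (1 - ‖z‖)) ^ 2 ≤ 2 := by
  obtain ⟨s, hs⟩ : ∃ s, s = h / 64 := ⟨_, rfl⟩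
  have hs0 : 0 < s := by rw [hs]; positivity
  have hs1 : s ≤ 1 / 64 := by rw [hs]; linarith
  rw [← hs] at hz
  have hδ : ‖x - z‖ ≤ s / 64 := by rw [hs]; linarith
  have e1 : 1 - s ≤ Real.exp (-s) := by linarith [Real.add_one_le_exp (-s)]
  have e2 : Real.exp (-s) ≤ 1 - 63 / 64 * s := by
    rw [Real.exp_neg]
    have h2 : 1 + s ≤ Real.exp s := by linarith [Real.add_one_le_exp s]
    have h3 : (Real.exp s)⁻¹ ≤ (1 + s)⁻¹ := inv_anti₀ (by positivity) h2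
    refine h3.trans ?_
    rw [inv_le_iff_one_le_mul₀ (by positivity)]
    nlinarith
  have hd1 : ‖x‖ ≤ ‖z‖ + ‖x - z‖ := by
    have := norm_add_le z (x - z)
    rwa [add_sub_cancel] at this
  have hd2 : ‖z‖ ≤ ‖x‖ + ‖x - z‖ := by
    have := norm_add_le x (z - x)
    rw [add_sub_cancel] at this
    rwa [norm_sub_rev x z]
  have ha1 : 1 - ‖z‖ ≥ 63 / 64 * s := by rw [hz]; linarith
  have ha2 : 1 - s ≤ ‖z‖ := by rw [hz]; exact e1
  have hc1 : 1 - ‖x‖ ≥ 62 / 64 * s := by linarith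
  have hc2 : 1 - 65 / 64 * s ≤ ‖x‖ := by linarith
  have hz0 := norm_nonneg z
  have hx0 := norm_nonneg x
  have hxz := norm_nonneg (x - z)
  have hzl : ‖z‖ < 1 := by linarith [mul_pos (by norm_num : (0:ℝ) < 63 / 64) hs0]
  have hxl : ‖x‖ < 1 := by linarith [mul_pos (by norm_num : (0:ℝ) < 62 / 64) hs0]
  have hxp : 0 < ‖x‖ := by linarith
  have hA : 63 / 64 * s ≤ 1 - ‖z‖ ^ 2 := by nlinarith
  have hB : 62 / 64 * s ≤ 1 - ‖x‖ ^ 2 := by nlinarith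
  have hA0 : 0 < 1 - ‖z‖ ^ 2 := by linarith [mul_pos (by norm_num : (0:ℝ) < 63 / 64) hs0]
  have hB0 : 0 < 1 - ‖x‖ ^ 2 := by linarith [mul_pos (by norm_num : (0:ℝ) < 62 / 64) hs0]
  have hAB : 1 - ‖x‖ ^ 2 ≤ (1 - ‖z‖ ^ 2) + s / 32 := by nlinarith
  have hBA : 1 - ‖z‖ ^ 2 ≤ (1 - ‖x‖ ^ 2) + s / 32 := by nlinarith
  have hq1 : (1 - ‖x‖ ^ 2) / (1 - ‖z‖ ^ 2) ≤ 11 / 10 := by
    rw [div_le_iff₀ hA0]
    linarith
  have hq2 : (1 - ‖z‖ ^ 2) / (1 - ‖x‖ ^ 2) ≤ 11 / 10 := by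
    rw [div_le_iff₀ hB0]
    linarith
  have hr1 : ‖x - z‖ / (1 - ‖x‖) ≤ 1 / 10 := by
    rw [div_le_iff₀ (by linarith)]
    linarith
  have hr2 : ‖z - x‖ / (1 - ‖z‖) ≤ 1 / 10 := by
    rw [div_le_iff₀ (by linarith), norm_sub_rev]
    linarith
  have hr1' : 0 ≤ ‖x - z‖ / (1 - ‖x‖) := div_nonneg hxz (by linarith)
  have hr2' : 0 ≤ ‖z - x‖ / (1 - ‖z‖) := div_nonneg (norm_nonneg _) (by linarith)
  have hq1' : 0 ≤ (1 - ‖x‖ ^ 2) / (1 - ‖z‖ ^ 2) := (div_pos hB0 hA0).le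
  have hq2' : 0 ≤ (1 - ‖z‖ ^ 2) / (1 - ‖x‖ ^ 2) := (div_pos hA0 hB0).le
  have key : ∀ a b : ℝ, 0 ≤ a → a ≤ 11 / 10 → 0 ≤ b → b ≤ 1 / 10 → a * (1 + b) ^ 2 ≤ 2 := by
    intro a b ha0 ha hb0 hb
    have h1 : (1 + b) ^ 2 ≤ (1 + 1 / 10) ^ 2 := pow_le_pow_left₀ (by linarith) (by linarith) 2
    calc a * (1 + b) ^ 2 ≤ 11 / 10 * (1 + 1 / 10) ^ 2 :=
          mul_le_mul ha h1 (by positivity) (by norm_num)
      _ ≤ 2 := by norm_num
  refine ⟨-Real.log ‖x‖, by rw [neg_neg, Real.exp_log hxp], ?_, ?_, hxl, hzl,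
    key _ _ hq1' hq1 hr1' hr1, key _ _ hq2' hq2 hr2' hr2⟩
  · have h2 : Real.log ‖x‖ ≤ -(s / 2) := by
      rw [Real.log_le_iff_le_exp hxp]
      have h3 := Real.add_one_le_exp (-(s / 2))
      linarith
    have : h / 128 = s / 2 := by rw [hs]; ring
    rw [this]
    linarith
  · have h2 : -(2 * s) ≤ Real.log ‖x‖ := by
      rw [Real.le_log_iff_exp_le hxp]
      have h3 : Real.exp (-(2 * s)) ≤ 1 - 31 / 16 * s := by
        rw [Real.exp_neg]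
        have h4 : 1 + 2 * s ≤ Real.exp (2 * s) := by linarith [Real.add_one_le_exp (2 * s)]
        have h5 : (Real.exp (2 * s))⁻¹ ≤ (1 + 2 * s)⁻¹ := inv_anti₀ (by positivity) h4
        refine h5.trans ?_
        rw [inv_le_iff_one_le_mul₀ (by positivity)]
        nlinarith
      linarith
    have : h / 32 = 2 * s := by rw [hs]; ring
    rw [this]
    linarith

/-- from a point near `z` to `z` -/
lemma Near_end (q : ℝ) (hq : 1 < q) : ∃ C : ℝ, 1 ≤ C ∧ ∀ (m : ℕ → ℕ) (G : ℤ →₀ ℂ) (h Λ Δ : ℕ → ℝ)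
    (N k : ℕ) (A b : ℝ) (H : ℂ → ℂ), Data q m G h Λ N → Har G (Λ N) H → Bd Δ N → k < N → C ≤ Λ k →
    1 ≤ A → (∀ i, k < i → i ≤ N → IH H h Δ i) → 512 * (b + C + Real.log A) ≤ Λ k →
    ∀ z x, ‖z‖ = Real.exp (-(h k / 64)) → S G z ≤ A → ‖x - z‖ ≤ h k / 4096 →
      Real.exp (-b) ≤ ‖ev (cont (h k) G) x‖ → (H z).re ≤ 1 / 2 * Δ (k + 1) := by
  obtain ⟨C, hC1, hC⟩ := stepB2 q hq
  refine ⟨C + 2, by linarith, ?_⟩
  intro m G h Λ Δ N k A b H hD hH hB hk hCk hA hI hb z x hz hSz hxz hbx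
  have hk0 := hD.hpos k
  have hk1 : h k ≤ 1 := (hD.hanti (Nat.zero_le k)).trans hD.h1
  obtain ⟨t, ht, ht1, ht2, hxl, hzl, hr1, hr2⟩ := Near_geom hk0 hk1 hz hxz
  have h1 := hC m G h Λ Δ N k H hD hH hB hk (by linarith) hI x t b ht ht1 ht2 hbx
  have hu : Continuous fun θ => ‖ev G (ze θ)‖ := (continuous_ev_ze G).norm
  have hSx : S G x ≤ 2 * A := by
    have h2 := Pz_harnack hu (fun θ => norm_nonneg _) hxl hzl
    have h3 : 0 ≤ S G z := S_nonneg G hzl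
    calc S G x ≤ (1 - ‖x‖ ^ 2) / (1 - ‖z‖ ^ 2) * (1 + ‖x - z‖ / (1 - ‖x‖)) ^ 2 * S G z := h2
      _ ≤ 2 * S G z := mul_le_mul_of_nonneg_right hr1 h3
      _ ≤ 2 * A := by linarith
  have hSx0 : 0 ≤ S G x := S_nonneg G hxl
  have hA0 : 0 < A := by linarith
  have hlog : Real.log (1 + S G x) ≤ 2 + Real.log A := by
    have h2 : 1 + S G x ≤ Real.exp 2 * A := by
      have h3 : (3 : ℝ) ≤ Real.exp 2 := by linarith [Real.add_one_le_exp (2 : ℝ)]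
      nlinarith
    calc Real.log (1 + S G x) ≤ Real.log (Real.exp 2 * A) := Real.log_le_log (by linarith) h2
      _ = 2 + Real.log A := by rw [Real.log_mul (Real.exp_pos 2).ne' hA0.ne', Real.log_exp]
  have hΛ : 0 < Λ k := by linarith
  have hfr : 64 * (b + C + Real.log (1 + S G x)) / Λ k ≤ 1 / 8 := by
    rw [div_le_iff₀ hΛ]
    linarith
  have hΔ := hB.pos (k + 1)
  have h4 : (H x).re ≤ Δ (k + 1) * (1 / 4) :=
    h1.trans (mul_le_mul_of_nonneg_left (by linarith) hΔ.le)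
  have h5 : (H z).re ≤ (1 - ‖z‖ ^ 2) / (1 - ‖x‖ ^ 2) * (1 + ‖z - x‖ / (1 - ‖z‖)) ^ 2 * (H x).re :=
    re_harnack hH.diff hH.nonneg hzl hxl
  have h6 : 0 ≤ (H x).re := hH.nonneg x hxl.le
  calc (H z).re ≤ (1 - ‖z‖ ^ 2) / (1 - ‖x‖ ^ 2) * (1 + ‖z - x‖ / (1 - ‖z‖)) ^ 2 * (H x).re := h5
    _ ≤ 2 * (H x).re := mul_le_mul_of_nonneg_right hr2 h6
    _ ≤ 1 / 2 * Δ (k + 1) := by linarith

theorem near_b (q : ℝ) (hq : 1 < q) : ∃ C : ℝ, 1 ≤ C ∧ ∀ (m : ℕ → ℕ) (G : ℤ →₀ ℂ) (h Λ Δ : ℕ → ℝ)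
    (N n k : ℕ) (A : ℝ) (H : ℂ → ℂ), Data q m G h Λ N → Har G (Λ N) H → Bd Δ N → n < k → k < N → h n ≤ 8 * h k →
    C ≤ Λ n → C * Λ n ≤ Λ k → 1 ≤ A → S G 0 ≤ A → mass (non (2 * h n) G) ≤ Real.exp (-(2 * (1 + Real.log A))) →
    (∀ i, k < i → i ≤ N → IH H h Δ i) →
    ∀ z, ‖z‖ = Real.exp (-(h k / 64)) → S G z ≤ A → (H z).re ≤ 1 / 2 * Δ (k + 1) := by
  obtain ⟨C0, hC01, hC0⟩ := near_core q hq
  obtain ⟨C1, hC11, hC1⟩ := Near_end q hq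
  obtain ⟨E, hE⟩ : ∃ E, E = Real.exp (C0 * 1) := ⟨_, rfl⟩
  have hE0 : 0 < E := by rw [hE]; exact Real.exp_pos _
  refine ⟨256 + 512 * (2 * E + C1 + 2), by nlinarith, ?_⟩
  intro m G h Λ Δ N n k A H hD hH hB hnk hk hh hCn hCk hA hS0 hmass hI z hz hSz
  have hΛn : 256 ≤ Λ n := by nlinarith
  have hΛn0 : 0 < Λ n := by linarith
  have hprod : 256 * Λ n + 512 * (2 * E + C1 + 2) * Λ n ≤ Λ k := by linarith
  have hΛkn : 512 * (2 * E + C1 + 2) * Λ n ≤ Λ k := by linarith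
  have hΛk : 256 * Λ n ≤ Λ k := by
    have : 0 ≤ 512 * (2 * E + C1 + 2) * Λ n := by positivity
    linarith
  have hlogA : 0 ≤ Real.log A := Real.log_nonneg hA
  -- the mass
  have hm1 := hD.massge n (by omega)
  have hmp : 0 < mass (non (2 * h n) G) := by
    have := Real.exp_pos (-(2 * Λ n))
    linarith
  obtain ⟨T, hT⟩ : ∃ T, T = -(1 / 2) * Real.log (mass (non (2 * h n) G)) := ⟨_, rfl⟩
  have hTm : mass (non (2 * h n) G) = Real.exp (-(2 * T)) := by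
    rw [hT]
    have : -(2 * (-(1 / 2) * Real.log (mass (non (2 * h n) G)))) =
        Real.log (mass (non (2 * h n) G)) := by ring
    rw [this, Real.exp_log hmp]
  have hT1 : 1 + Real.log A ≤ T := by
    rw [hTm, Real.exp_le_exp] at hmass
    linarith
  have hT2 : T ≤ Λ n + 1 / 2 := by
    rw [hTm] at hm1
    have h2 : Real.exp (-(2 * Λ n)) ≤ Real.exp (1 + -(2 * T)) := by
      rw [Real.exp_add]
      have h3 : (2 : ℝ) ≤ Real.exp 1 := by linarith [Real.add_one_le_exp (1 : ℝ)]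
      have h4 := Real.exp_pos (-(2 * T))
      nlinarith
    rw [Real.exp_le_exp] at h2
    linarith
  obtain ⟨x, hx1, hx2⟩ := hC0 m G h Λ N n k T T 1 A z hD hnk.le hk.le (by linarith) hh hTm le_rfl hT1
    (by linarith) hA le_rfl (by linarith) (by rw [one_mul]; exact le_max_right _ _) hz hSz hS0
  rw [← hE] at hx2
  refine hC1 m G h Λ Δ N k A (T * E) H hD hH hB hk ?_ hA hI ?_ z x hz hSz hx1 hx2
  · nlinarith
  · have h1 : T * E ≤ (2 * Λ n) * E := mul_le_mul_of_nonneg_right (by linarith) hE0.le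
    have h2 : C1 ≤ C1 * Λ n := by nlinarith
    have h3 : Real.log A ≤ 2 * Λ n := by linarith
    nlinarith

theorem near_c (q : ℝ) (hq : 1 < q) : ∃ C : ℝ, 1 ≤ C ∧ ∀ (m : ℕ → ℕ) (G : ℤ →₀ ℂ) (h Λ Δ : ℕ → ℝ)
    (N k : ℕ) (A : ℝ) (H : ℂ → ℂ), Data q m G h Λ N → Har G (Λ N) H → Bd Δ N → k < N →
    C ≤ Λ k → Real.exp (C * (1 + Real.log A)) ≤ Λ k → 1 ≤ A → S G 0 ≤ A →
    Real.exp (-(2 * (1 + Real.log A))) ≤ mass (non (2 * h k) G) →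
    (∀ i, k < i → i ≤ N → IH H h Δ i) →
    ∀ z, ‖z‖ = Real.exp (-(h k / 64)) → S G z ≤ A → (H z).re ≤ 1 / 2 * Δ (k + 1) := by
  obtain ⟨C0, hC01, hC0⟩ := near_core q hq
  obtain ⟨C1, hC11, hC1⟩ := Near_end q hq
  refine ⟨256 + (C0 + 1) + 512 * (C1 + 2), by nlinarith, ?_⟩
  intro m G h Λ Δ N k A H hD hH hB hk hCk hexp hA hS0 hmass hI z hz hSz
  have hlogA : 0 ≤ Real.log A := Real.log_nonneg hA
  obtain ⟨X, hX⟩ : ∃ X, X = 1 + Real.log A := ⟨_, rfl⟩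
  rw [← hX] at hexp hmass
  have hX1 : 1 ≤ X := by linarith
  have hmp : 0 < mass (non (2 * h k) G) := (Real.exp_pos _).trans_le hmass
  obtain ⟨T, hT⟩ : ∃ T, T = -(1 / 2) * Real.log (mass (non (2 * h k) G)) := ⟨_, rfl⟩
  have hTm : mass (non (2 * h k) G) = Real.exp (-(2 * T)) := by
    rw [hT]
    have : -(2 * (-(1 / 2) * Real.log (mass (non (2 * h k) G)))) =
        Real.log (mass (non (2 * h k) G)) := by ring
    rw [this, Real.exp_log hmp]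
  have hT1 : T ≤ X := by
    rw [hTm, Real.exp_le_exp] at hmass
    linarith
  have hY : 1 ≤ Real.exp ((C0 + 1) * X) := Real.one_le_exp (by positivity)
  -- the size of `Λ k`
  have hbig : (512 * (C1 + 2) + 1) * Real.exp ((C0 + 1) * X) ≤ Λ k := by
    refine le_trans ?_ hexp
    have h1 : (256 + (C0 + 1) + 512 * (C1 + 2)) * X =
        (C0 + 1) * X + (256 + 512 * (C1 + 2)) * X := by ring
    rw [h1, Real.exp_add, mul_comm]
    refine mul_le_mul_of_nonneg_left ?_ (Real.exp_pos _).le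
    have h2 := Real.add_one_le_exp ((256 + 512 * (C1 + 2)) * X)
    nlinarith
  have hXe : X ≤ Real.exp X := by linarith [Real.add_one_le_exp X]
  have hXE : X * Real.exp (C0 * X) ≤ Real.exp ((C0 + 1) * X) := by
    have h1 : (C0 + 1) * X = X + C0 * X := by ring
    rw [h1, Real.exp_add]
    exact mul_le_mul_of_nonneg_right hXe (Real.exp_pos _).le
  have hXE2 : X ≤ Real.exp ((C0 + 1) * X) := by
    refine hXe.trans (Real.exp_le_exp.2 ?_)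
    nlinarith
  have hXk : X + 1 ≤ Λ k := by nlinarith
  obtain ⟨x, hx1, hx2⟩ := hC0 m G h Λ N k k T X X A z hD le_rfl hk.le (by nlinarith)
    (by linarith [hD.hpos k]) hTm hT1 hX.ge
    hXk hA hX1 le_rfl (le_mul_of_one_le_right (by linarith) (le_max_left _ _)) hz hSz hS0
  refine hC1 m G h Λ Δ N k A (X * Real.exp (C0 * X)) H hD hH hB hk (by nlinarith) hA hI ?_ z x hz hSz hx1 hx2
  have h3 : Real.log A ≤ Real.exp ((C0 + 1) * X) := by linarith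
  have h4 : C1 ≤ C1 * Real.exp ((C0 + 1) * X) := by nlinarith
  nlinarith

end

end Pool.Agent.L5helper80.QL
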