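import Pool.Agent.L5helper80.QL.ExH
import Pool.Agent.L5helper80.QL.MaxP
import Pool.Agent.L5helper80.QL.Far
import Pool.Agent.L5helper80.QL.Near

/-!
# The finite theorem: downward induction over the levels
-/

set_option autoImplicit false

namespace Pool.Agent.L5helper80.QL

noncomputable section

open MeasureTheory AddCircle Complex Filter Topology Pool.Agent.W767.HL

/-- The bounds of the induction. -/
def Dl (Θ : ℝ) (N i : ℕ) : ℝ := 2 / Θ ^ 2 * Θ ^ (N - i)

lemma Dl_bd {Θ : ℝ} (h0 : 1 / 2 ≤ Θ) (h1 : Θ < 1) (N : ℕ) : Bd (Dl Θ N) N where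
  pos := fun i => by unfold Dl; positivity
  mono := fun i => by
    unfold Dl
    refine mul_le_mul_of_nonneg_left ?_ (by positivity)
    exact pow_le_pow_of_le_one (by linarith) h1.le (by omega)
  dbl := fun i => by
    unfold Dl
    have hΘ : 0 < Θ := by linarith
    have : Θ ^ (N - (i + 1)) ≤ 2 * Θ ^ (N - i) := by
      rcases Nat.lt_or_ge i N with h | h
      · rw [show N - i = (N - (i + 1)) + 1 by omega, pow_succ]
        have := pow_pos hΘ (N - (i + 1))
        nlinarith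
      · rw [show N - i = 0 by omega, show N - (i + 1) = 0 by omega]
        norm_num
    calc 2 / Θ ^ 2 * Θ ^ (N - (i + 1)) ≤ 2 / Θ ^ 2 * (2 * Θ ^ (N - i)) :=
          mul_le_mul_of_nonneg_left this (by positivity)
      _ = 2 * (2 / Θ ^ 2 * Θ ^ (N - i)) := by ring
  two := by
    unfold Dl
    have hΘ : 0 < Θ := by linarith
    rw [Nat.sub_self, pow_zero, mul_one, le_div_iff₀ (by positivity)]
    nlinarith

lemma Dl_step {Θ : ℝ} {N n : ℕ} (hn : n + 1 < N) : Dl Θ N n = Θ ^ 2 * Dl Θ N (n + 1 + 1) := by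
  unfold Dl
  rw [show N - n = (N - (n + 1 + 1)) + 2 by omega, pow_add]
  ring

lemma Dl_two {Θ : ℝ} (h0 : 0 < Θ) (h1 : Θ < 1) {N n : ℕ} (hn : N ≤ n + 2) : 2 ≤ Dl Θ N n := by
  unfold Dl
  have h2 : Θ ^ 2 ≤ Θ ^ (N - n) := pow_le_pow_of_le_one h0.le h1.le (by omega)
  have h3 : 0 < Θ ^ 2 := by positivity
  rw [div_mul_eq_mul_div, le_div_iff₀ h3]
  linarith

/-- the maximum of `Re H` on a circle which carries the exceptional property -/
lemma max_or {H : ℂ → ℂ} (hH : Differentiable ℂ H) {S' : ℂ → ℝ} {r A ε D : ℝ} (hr : 0 < r) (hε : 2 * ε ≤ D)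
    (hex : ∀ z, ‖z‖ = r → A < S' z → ∃ z', ‖z'‖ ≤ r ∧ (H z).re ≤ (H z').re / 2 + ε)
    (hb : ∀ z, ‖z‖ = r → S' z ≤ A → (H z).re ≤ D) : ∀ z, ‖z‖ ≤ r → (H z).re ≤ D := by
  obtain ⟨z0, hz0, hmax⟩ := max_circle hH hr
  have key : (H z0).re ≤ D := by
    by_cases h : S' z0 ≤ A
    · exact hb z0 hz0 h
    · push Not at h
      obtain ⟨z', hz', hle⟩ := hex z0 hz0 h
      have := hmax z' hz'
      linarith
  exact fun z hz => (hmax z hz).trans key

theorem finite_tail (q : ℝ) (hq : 1 < q) : ∃ K θ C : ℝ, 2 ≤ K ∧ 0 < θ ∧ θ < 1 ∧ 1 ≤ C ∧ ∀ B : ℝ, 1 ≤ B → ∃ N0 : ℕ,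
    ∀ (m : ℕ → ℕ) (G : ℤ →₀ ℂ) (h : ℕ → ℝ) (N : ℕ), N0 ≤ N → Data q m G h (fun i => K ^ (i + 1)) N → S G 0 ≤ B →
      mu.real {θ' | ‖ev G (ze θ')‖ ≤ Real.exp (-K ^ (N + 1))} ≤ C * B * θ ^ N := by
  obtain ⟨c3, C3, hc30, hc31, hC3, hfar⟩ := far q hq
  obtain ⟨Cb, hCb, hnb⟩ := near_b q hq
  obtain ⟨Cc, hCc, hnc⟩ := near_c q hq
  obtain ⟨C9, hC9, hexH⟩ := exists_H
  set K : ℝ := max 2 (max C3 (max Cb Cc)) with hK
  have hK2 : 2 ≤ K := le_max_left _ _
  have hK3 : C3 ≤ K := (le_max_left _ _).trans (le_max_right _ _)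
  have hKb : Cb ≤ K := ((le_max_left _ _).trans (le_max_right _ _)).trans (le_max_right _ _)
  have hKc : Cc ≤ K := ((le_max_right _ _).trans (le_max_right _ _)).trans (le_max_right _ _)
  set c0 : ℝ := max c3 (1 / 2) with hc0
  have hc0h : 1 / 2 ≤ c0 := le_max_right _ _
  have hc0c : c3 ≤ c0 := le_max_left _ _
  have hc01 : c0 < 1 := max_lt hc31 (by norm_num)
  set Θ : ℝ := Real.sqrt c0 with hΘ
  have hΘ2 : Θ ^ 2 = c0 := Real.sq_sqrt (by linarith)
  have hΘ0 : 0 < Θ := Real.sqrt_pos.mpr (by linarith)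
  have hΘ1 : Θ < 1 := by nlinarith
  have hΘh : 1 / 2 ≤ Θ := by nlinarith
  set ϑ : ℝ := Real.sqrt Θ with hϑ
  have hϑ2 : ϑ ^ 2 = Θ := Real.sq_sqrt hΘ0.le
  have hϑ0 : 0 < ϑ := Real.sqrt_pos.mpr hΘ0
  have hϑ1 : ϑ < 1 := by nlinarith
  have hΘϑ : Θ ≤ ϑ := by nlinarith
  set a : ℝ := 1 / (8 * Cc) with ha
  have hCc0 : 0 < Cc := by linarith
  have ha0 : 0 < a := by positivity
  have haC : Cc * a = 1 / 8 := by rw [ha]; field_simp
  set θ : ℝ := max ϑ (Real.exp (-(a / 2))) with hθ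
  have hθ0 : 0 < θ := hϑ0.trans_le (le_max_left _ _)
  have hθ1 : θ < 1 := max_lt hϑ1 (by rw [Real.exp_lt_one_iff]; linarith)
  have hϑθ : ϑ ≤ θ := le_max_left _ _
  have haθ : Real.exp (-(a / 2)) ≤ θ := le_max_right _ _
  refine ⟨K, θ, 2 / Θ ^ 2 * ϑ⁻¹ + C9 * (2 / a * Real.exp (a / 2)) + 1, hK2, hθ0, hθ1, ?_, ?_⟩
  · have h1 : 0 ≤ 2 / Θ ^ 2 * ϑ⁻¹ := by positivity
    have h2 : 0 ≤ C9 * (2 / a * Real.exp (a / 2)) := by positivity
    linarith
  intro B hB
  obtain ⟨N1, hN1⟩ := exists_nat_ge (8 * Cc)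
  obtain ⟨N2, hN2⟩ := exists_nat_ge (Real.log B / a)
  refine ⟨max (N1 + 1) N2, ?_⟩
  intro m G h N hN hD hS0
  have hNN1 : (N1 : ℝ) + 1 ≤ N := by
    have : N1 + 1 ≤ N := (le_max_left _ _).trans hN
    exact_mod_cast this
  have hNN2 : (N2 : ℝ) ≤ N := by
    have : N2 ≤ N := (le_max_right _ _).trans hN
    exact_mod_cast this
  have hN8 : 8 * Cc ≤ N := by linarith
  have hNpos : 1 ≤ N := by
    have : N1 + 1 ≤ N := (le_max_left _ _).trans hN
    omega
  set A : ℝ := Real.exp (a * N) with hA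
  have hlogA : Real.log A = a * N := Real.log_exp _
  have hA1 : 1 ≤ A := Real.one_le_exp (by positivity)
  have hA0 : 0 < A := Real.exp_pos _
  have hBA : B ≤ A := by
    have h1 : Real.log B ≤ a * N := by
      have : Real.log B / a ≤ N := hN2.trans hNN2
      rw [div_le_iff₀ ha0] at this
      linarith
    rw [hA, ← Real.exp_log (show 0 < B by linarith)]
    exact Real.exp_le_exp.mpr h1
  have hSA : S G 0 ≤ A := hS0.trans hBA
  set ε : ℝ := Θ ^ N with hε
  have hε0 : 0 < ε := by positivity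
  have hK0 : (0 : ℝ) < K := by linarith
  have hK1 : (1 : ℝ) ≤ K := by linarith
  have hKN1 : (1 : ℝ) ≤ K ^ (N + 1) := one_le_pow₀ hK1
  have hh1 : ∀ k, 0 < h k ∧ h k ≤ 1 := fun k => ⟨hD.hpos k, (hD.hanti (Nat.zero_le k)).trans hD.h1⟩
  obtain ⟨H, hH, hHex, hHmu⟩ := hexH G h N (K ^ (N + 1)) A ε hKN1 hA0 hε0 fun k _ => hh1 k
  have hbd := Dl_bd hΘh hΘ1 N
  have hεD : ∀ n, 2 * ε ≤ Dl Θ N n := by
    intro n
    unfold Dl
    have h1 : Θ ^ N ≤ Θ ^ (N - n) := pow_le_pow_of_le_one hΘ0.le hΘ1.le (by omega)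
    have h2 : (2 : ℝ) ≤ 2 / Θ ^ 2 := by
      rw [le_div_iff₀ (by positivity)]
      nlinarith
    have h3 : 0 < Θ ^ (N - n) := by positivity
    calc 2 * Θ ^ N ≤ 2 * Θ ^ (N - n) := by linarith
      _ ≤ 2 / Θ ^ 2 * Θ ^ (N - n) := mul_le_mul_of_nonneg_right h2 h3.le
  -- induction
  have main : ∀ d n : ℕ, n + d = N → N ≤ 2 * n → IH H h (Dl Θ N) n := by
    intro d
    induction d using Nat.strong_induction_on with
    | _ d ih =>
    intro n hnd hn2
    have hIH : ∀ i, n < i → i ≤ N → IH H h (Dl Θ N) i := by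
      intro i hi1 hi2
      exact ih (N - i) (by omega) i (by omega) (by omega)
    by_cases hnN : N ≤ n + 2
    · intro z hz
      have h1 : ‖z‖ ≤ 1 := hz.trans (by
        rw [Real.exp_le_one_iff]
        have := hD.hpos n
        linarith)
      exact (hH.le2 z h1).trans (Dl_two hΘ0 hΘ1 hnN)
    push Not at hnN
    have hn1 : n + 1 < N := by omega
    have hΛn : K ≤ K ^ (n + 1) := by
      have := pow_le_pow_right₀ hK1 (show 1 ≤ n + 1 by omega)
      simpa using this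
    have hΛs : K * K ^ (n + 1) = K ^ (n + 1 + 1) := by ring
    have hpn : (0 : ℝ) < K ^ (n + 1) := by positivity
    have hstep := Dl_step (Θ := Θ) hn1
    have hΔpos := hbd.pos (n + 1 + 1)
    by_cases hmass : mass (non (2 * h n) G) ≤ Real.exp (-(2 * (1 + Real.log A)))
    · by_cases h8 : h (n + 1) ≤ h n / 8
      · -- far
        refine max_or hH.diff (S' := S G) (A := A) (ε := ε) (Real.exp_pos _) (hεD n)
          (hHex n (by omega)) fun z hz hSz => ?_
        have := hfar m G h (fun i => K ^ (i + 1)) (Dl Θ N) N n (n + 1) A H hD hH hbd (by omega) hn1 h8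
          (hK3.trans hΛn) (by
            rw [← hΛs]
            exact mul_le_mul_of_nonneg_right hK3 hpn.le) hA1 hSA hmass hIH z hz hSz
        rw [hstep, hΘ2]
        exact this.trans (mul_le_mul_of_nonneg_right hc0c hΔpos.le)
      · -- near, level n + 1
        push Not at h8
        have hsub := max_or hH.diff (S' := S G) (A := A) (ε := ε) (D := Dl Θ N n)
          (Real.exp_pos (-(h (n + 1) / 64))) (hεD n)
          (hHex (n + 1) (by omega)) (fun z hz hSz => by
            have := hnb m G h (fun i => K ^ (i + 1)) (Dl Θ N) N n (n + 1) A H hD hH hbd (by omega) hn1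
              (by linarith) (hKb.trans hΛn) (by
                rw [← hΛs]
                exact mul_le_mul_of_nonneg_right hKb hpn.le) hA1 hSA hmass
              (fun i hi1 hi2 => hIH i (by omega) hi2) z hz hSz
            rw [hstep, hΘ2]
            exact this.trans (mul_le_mul_of_nonneg_right hc0h hΔpos.le))
        intro z hz
        refine hsub z (hz.trans (Real.exp_le_exp.mpr ?_))
        have := hD.hanti (Nat.le_succ n)
        simp only [Nat.succ_eq_add_one] at this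
        linarith
    · push Not at hmass
      refine max_or hH.diff (S' := S G) (A := A) (ε := ε) (Real.exp_pos _) (hεD n)
        (hHex n (by omega)) fun z hz hSz => ?_
      have hcond : Real.exp (Cc * (1 + Real.log A)) ≤ K ^ (n + 1) := by
        have e1 : Cc * (1 + Real.log A) ≤ (n + 1 : ℝ) / 2 := by
          rw [hlogA]
          have : Cc * (1 + a * N) = Cc + N / 8 := by
            rw [mul_add, mul_one, ← mul_assoc, haC]
            ring
          rw [this]
          have h2 : (N : ℝ) ≤ 2 * n := by exact_mod_cast hn2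
          linarith
        have e2 : (1 : ℝ) / 2 ≤ Real.log K := by
          have h1 := Real.log_le_log (by norm_num) hK2
          have h2 := Real.log_two_gt_d9
          linarith
        rw [← Real.exp_log (show (0 : ℝ) < K ^ (n + 1) by positivity), Real.log_pow]
        refine Real.exp_le_exp.mpr ?_
        push_cast
        have h3 : (0 : ℝ) ≤ n + 1 := by positivity
        nlinarith
      have := hnc m G h (fun i => K ^ (i + 1)) (Dl Θ N) N n A H hD hH hbd (by omega) (hKc.trans hΛn)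
        hcond hA1 hSA hmass.le hIH z hz hSz
      have h2 := hbd.dbl n
      linarith
  -- conclusion
  have h0 := main (N - (N + 1) / 2) ((N + 1) / 2) (by omega) (by omega) 0 (by
    rw [norm_zero]
    exact (Real.exp_pos _).le)
  have h1 : Dl Θ N ((N + 1) / 2) ≤ 2 / Θ ^ 2 * ϑ⁻¹ * θ ^ N := by
    unfold Dl
    rw [mul_assoc]
    refine mul_le_mul_of_nonneg_left ?_ (by positivity)
    have e1 : Θ ^ (N - (N + 1) / 2) ≤ ϑ⁻¹ * ϑ ^ N := by
      rw [← hϑ2, ← pow_mul]
      have e2 : ϑ⁻¹ * ϑ ^ N = ϑ ^ (N - 1) := by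
        obtain ⟨N', rfl⟩ : ∃ N', N = N' + 1 := ⟨N - 1, by omega⟩
        rw [pow_succ, Nat.add_sub_cancel]
        field_simp
      rw [e2]
      exact pow_le_pow_of_le_one hϑ0.le hϑ1.le (by omega)
    refine e1.trans (mul_le_mul_of_nonneg_left ?_ (by positivity))
    exact pow_le_pow_left₀ hϑ0.le hϑθ N
  have h2 : C9 * (N + 1) * S G 0 / A ≤ C9 * (2 / a * Real.exp (a / 2)) * B * θ ^ N := by
    have e1 : (N + 1 : ℝ) ≤ 2 / a * Real.exp (a / 2) * Real.exp (a * N / 2) := by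
      have := Real.add_one_le_exp (a * (N + 1) / 2)
      have e3 : Real.exp (a * (N + 1) / 2) = Real.exp (a / 2) * Real.exp (a * N / 2) := by
        rw [← Real.exp_add]
        congr 1
        ring
      rw [e3] at this
      have e4 : a * (N + 1) / 2 ≤ Real.exp (a / 2) * Real.exp (a * N / 2) := by linarith
      rw [mul_assoc, div_mul_eq_mul_div, le_div_iff₀ ha0]
      linarith
    have e2 : Real.exp (a * N / 2) / A ≤ θ ^ N := by
      rw [hA, ← Real.exp_sub]
      have e5 : a * N / 2 - a * N = N * (-(a / 2)) := by ring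
      rw [e5, Real.exp_nat_mul]
      exact pow_le_pow_left₀ (Real.exp_pos _).le haθ N
    calc C9 * (N + 1) * S G 0 / A ≤ C9 * (2 / a * Real.exp (a / 2) * Real.exp (a * N / 2)) * B / A := by
          have hS00 : 0 ≤ S G 0 := S_nonneg G (by simp)
          gcongr
      _ = C9 * (2 / a * Real.exp (a / 2)) * B * (Real.exp (a * N / 2) / A) := by ring
      _ ≤ _ := by
          refine mul_le_mul_of_nonneg_left e2 ?_
          positivity
  have h3 : ε ≤ θ ^ N := by
    rw [hε]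
    exact pow_le_pow_left₀ hΘ0.le (hΘϑ.trans hϑθ) N
  have h4 : 0 < θ ^ N := by positivity
  have h5 : 2 / Θ ^ 2 * ϑ⁻¹ * θ ^ N ≤ 2 / Θ ^ 2 * ϑ⁻¹ * B * θ ^ N := by
    have : 0 ≤ 2 / Θ ^ 2 * ϑ⁻¹ := by positivity
    refine mul_le_mul_of_nonneg_right ?_ h4.le
    exact le_mul_of_one_le_right this hB
  have h6 : θ ^ N ≤ B * θ ^ N := by nlinarith
  calc mu.real {θ' | ‖ev G (ze θ')‖ ≤ Real.exp (-K ^ (N + 1))}
      ≤ (H 0).re + C9 * (N + 1) * S G 0 / A + ε := hHmu
    _ ≤ 2 / Θ ^ 2 * ϑ⁻¹ * B * θ ^ N + C9 * (2 / a * Real.exp (a / 2)) * B * θ ^ N + B * θ ^ N := by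
        linarith
    _ = _ := by ring

end

end Pool.Agent.L5helper80.QL
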