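import Pool.Agent.L5helper80.QL.Defs
import Pool.Agent.L5helper80.QL.Alg2

/-!
# J7: good points

`L` from `q` as in `main_aux` of `W767/HL/Main.lean`.  Prepend `m'_0 = 0`, `m'_(j+1) = m_j`,
`M = ⌈(1-1/q) m_{j1}⌉₊`, `s = e^{-Y}`, `K` large; apply `alg_mass` to `F`.
-/

set_option autoImplicit false

namespace Pool.Agent.L5helper80.QL

noncomputable section

open MeasureTheory AddCircle Complex Filter Topology Pool.Agent.W767.HL

/-- the sequence `0, m 0, m 1, …` -/
private def mm (m : ℕ → ℕ) : ℕ → ℕ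
  | 0 => 0
  | j + 1 => m j

private lemma good_lt {q : ℝ} {m : ℕ → ℕ} (h : Lac q m) (j : ℕ) : 0 < m j ∧ m j < m (j + 1) := by
  have h1 := h.one_lt
  have key : ∀ j, 0 < m j → m j < m (j + 1) := by
    intro j hj
    have h2 := h.gap j
    have h3 : (0 : ℝ) < m j := by exact_mod_cast hj
    have h4 : (m j : ℝ) < m (j + 1) := by nlinarith
    exact_mod_cast h4
  have hpos : ∀ j, 0 < m j := by
    intro j
    induction j with
    | zero => exact h.pos
    | succ j ih => exact ih.trans (key j ih)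
  exact ⟨hpos j, key j (hpos j)⟩

private lemma good_mono {q : ℝ} {m : ℕ → ℕ} (h : Lac q m) : StrictMono m :=
  strictMono_nat_of_lt_succ fun j => (good_lt h j).2

private lemma good_mm {q : ℝ} {m : ℕ → ℕ} (h : Lac q m) : StrictMono (mm m) := by
  refine strictMono_nat_of_lt_succ fun j => ?_
  rcases j with _ | j
  · exact h.pos
  · exact (good_lt h j).2

private lemma good_pow {q : ℝ} {m : ℕ → ℕ} (h : Lac q m) (l j : ℕ) : q ^ l * (m j : ℝ) ≤ m (j + l) := by
  have hq : 0 < q := one_pos.trans h.one_lt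
  induction l with
  | zero => simp
  | succ l ih =>
    calc q ^ (l + 1) * (m j : ℝ) = q * (q ^ l * m j) := by ring
      _ ≤ q * m (j + l) := mul_le_mul_of_nonneg_left ih hq.le
      _ ≤ m (j + l + 1) := h.gap _

private lemma good_prev {q : ℝ} {m : ℕ → ℕ} (h : Lac q m) (j : ℕ) :
    (1 - 1 / q) * (m (j + 1) : ℝ) + m j ≤ m (j + 1) := by
  have hq : 0 < q := one_pos.trans h.one_lt
  have h1 := h.gap j
  have h2 : (m j : ℝ) ≤ 1 / q * m (j + 1) := by
    rw [div_mul_eq_mul_div, one_mul, le_div_iff₀ hq]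
    linarith
  linarith

private lemma good_gap {q : ℝ} {m : ℕ → ℕ} (h : Lac q m) {L : ℕ} (hL0 : 1 ≤ L)
    (hL : 1 / (1 - 1 / q) ≤ q ^ L) (j : ℕ) (hj : L ≤ j) : mm m (j - L) + mm m (j - 1) ≤ mm m j := by
  have hq : 0 < q := one_pos.trans h.one_lt
  have hη : 0 < 1 - 1 / q := by
    rw [sub_pos, div_lt_one hq]
    exact h.one_lt
  rcases Nat.eq_or_lt_of_le hj with h1 | h1
  · rw [← h1, Nat.sub_self]
    show 0 + _ ≤ _
    rw [zero_add]
    exact (good_mm h).monotone (Nat.sub_le _ _)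
  · obtain ⟨i, rfl⟩ : ∃ i, j = i + L + 1 := ⟨j - L - 1, by omega⟩
    obtain ⟨l, rfl⟩ : ∃ l, L = l + 1 := ⟨L - 1, by omega⟩
    rw [show i + (l + 1) + 1 - (l + 1) = i + 1 by omega, show i + (l + 1) + 1 - 1 = (i + l) + 1 by omega]
    show m i + m (i + l) ≤ m (i + (l + 1))
    have h2 := good_pow h (l + 1) i
    have h3 := good_prev h (i + l)
    rw [show i + l + 1 = i + (l + 1) by omega] at h3
    have h4 : (m i : ℝ) ≤ (1 - 1 / q) * m (i + (l + 1)) := by
      rw [div_le_iff₀ hη] at hL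
      have h5 : (0 : ℝ) ≤ m i := Nat.cast_nonneg _
      calc (m i : ℝ) ≤ (q ^ (l + 1) * (1 - 1 / q)) * m i := le_mul_of_one_le_left h5 hL
        _ = (1 - 1 / q) * (q ^ (l + 1) * m i) := by ring
        _ ≤ _ := mul_le_mul_of_nonneg_left h2 hη.le
    have h5 : (m i : ℝ) + m (i + l) ≤ m (i + (l + 1)) := by linarith
    exact_mod_cast h5

private lemma good_M {q : ℝ} {m : ℕ → ℕ} (h : Lac q m) (j1 : ℕ) (j : ℕ) (hj : j1 + 1 ≤ j) :
    ⌈(1 - 1 / q) * (m j1 : ℝ)⌉₊ + mm m (j - 1) ≤ mm m j := by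
  have hq : 0 < q := one_pos.trans h.one_lt
  have hη : 0 < 1 - 1 / q := by
    rw [sub_pos, div_lt_one hq]
    exact h.one_lt
  have hη1 : 1 - 1 / q ≤ 1 := by
    have : 0 < 1 / q := by positivity
    linarith
  obtain ⟨i, rfl⟩ : ∃ i, j = i + 1 := ⟨j - 1, by omega⟩
  have hi : j1 ≤ i := by omega
  rw [Nat.add_sub_cancel]
  show _ + mm m i ≤ m i
  have hmi : (m j1 : ℝ) ≤ m i := by exact_mod_cast (good_mono h).monotone hi
  rcases i with _ | i
  · show _ + 0 ≤ m 0
    rw [add_zero, Nat.ceil_le]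
    calc (1 - 1 / q) * (m j1 : ℝ) ≤ 1 * m 0 :=
          mul_le_mul hη1 hmi (Nat.cast_nonneg _) zero_le_one
      _ = m 0 := one_mul _
  · show _ + m i ≤ m (i + 1)
    have h1 := good_prev h i
    have h2 : m i ≤ m (i + 1) := (good_lt h i).2.le
    have h3 : ⌈(1 - 1 / q) * (m j1 : ℝ)⌉₊ ≤ m (i + 1) - m i := by
      rw [Nat.ceil_le, Nat.cast_sub h2]
      have := mul_le_mul_of_nonneg_left hmi hη.le
      linarith
    omega

/-- the sum of the squares of the negative coefficients -/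
private lemma good_sum {q : ℝ} {m : ℕ → ℕ} (h : Lac q m) {F : ℤ →₀ ℂ} (hF : Spec m F) (j1 K : ℕ)
    (hK : ∀ n : ℤ, n < -(mm m K : ℤ) → F n = 0) :
    ∑ n ∈ F.support.filter (fun n => n ≤ -(m j1 : ℤ)), ‖F n‖ ^ 2 ≤
      ∑ j ∈ Finset.Icc (j1 + 1) K, ‖F (-(mm m j : ℤ))‖ ^ 2 := by
  classical
  have hinj : Set.InjOn (fun j : ℕ => -(mm m j : ℤ)) (Finset.Icc (j1 + 1) K : Finset ℕ) := by
    intro a _ b _ hab
    have : mm m a = mm m b := by
      simp only at hab
      omega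
    exact (good_mm h).injective this
  rw [← Finset.sum_image (g := fun j : ℕ => -(mm m j : ℤ)) (f := fun n : ℤ => ‖F n‖ ^ 2) hinj]
  refine Finset.sum_le_sum_of_subset_of_nonneg ?_ fun _ _ _ => sq_nonneg _
  intro n hn
  obtain ⟨h1, h2⟩ := Finset.mem_filter.1 hn
  have h3 : F n ≠ 0 := Finsupp.mem_support_iff.1 h1
  have hpos := (good_lt h j1).1
  obtain ⟨j, hj⟩ : ∃ j, n = -(m j : ℤ) := by
    by_contra hcon
    push Not at hcon
    exact h3 (hF n (by omega) hcon)
  have h4 : j1 ≤ j := by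
    have : m j1 ≤ m j := by omega
    exact (good_mono h).le_iff_le.1 this
  have h5 : j + 1 ≤ K := by
    by_contra hcon
    push Not at hcon
    have h6 : mm m K < mm m (j + 1) := good_mm h hcon
    have h7 : mm m (j + 1) = m j := rfl
    exact h3 (hK n (by omega))
  exact Finset.mem_image.2 ⟨j + 1, Finset.mem_Icc.2 ⟨by omega, h5⟩, hj.symm⟩

/-- lower bound at `w` and Jensen -/
private lemma good_jensen {L : ℕ} (hL : 1 ≤ L) {M : ℕ} {F f : ℤ →₀ ℂ} {s t B : ℝ} (hs : 0 < s) (hs1 : s ≤ 1)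
    (hst : s ≤ t) (hneg : ∀ n : ℤ, n < 0 → f n = 0) (hf0 : f 0 = t)
    (hfM : ∀ n : ℤ, 0 < n → n < M → f n = 0)
    (hle : ∀ z : ℂ, ‖z‖ = 1 → ‖ev f z‖ ^ 2 ≤ L * s ^ 2 + ‖ev F z‖ ^ 2)
    {w : ℂ} (hw : ‖w‖ < 1) (hw0 : w ≠ 0)
    (hB : ∫ θ, P w θ * ‖ev F (ze θ)‖ ∂mu ≤ B) (hB0 : ∫ θ, ‖ev F (ze θ)‖ ∂mu ≤ B)
    (hsM : ‖w‖ ^ M * (2 * (L + B)) ≤ s / 2) :
    2 * Real.log (t / 2) ≤ ∫ θ, P w θ * Real.log (L * s ^ 2 + ‖ev F (ze θ)‖ ^ 2) ∂mu := by
  have ht : 0 < t := hs.trans_le hst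
  have hL1 : (1 : ℝ) ≤ L := by exact_mod_cast hL
  have hbd : ∀ θ, ‖ev f (ze θ)‖ ≤ L + ‖ev F (ze θ)‖ := by
    intro θ
    have h1 := hle _ (norm_ze θ)
    refine le_of_sq_le_sq (h1.trans ?_) (by positivity)
    have h2 : s ^ 2 ≤ 1 := pow_le_one₀ hs.le hs1
    nlinarith [norm_nonneg (ev F (ze θ)), mul_nonneg (Nat.cast_nonneg (α := ℝ) L)
      (norm_nonneg (ev F (ze θ)))]
  have hcG := continuous_ev_ze F
  have hbi : Integrable (fun θ => (L : ℝ) + ‖ev F (ze θ)‖) mu :=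
    integrable_of_cont (continuous_const.add hcG.norm)
  have hint : ∀ v : ℂ, ‖v‖ < 1 → ∫ θ, P v θ * ((L : ℝ) + ‖ev F (ze θ)‖) ∂mu
      = L + ∫ θ, P v θ * ‖ev F (ze θ)‖ ∂mu := by
    intro v hv
    have i1 : Integrable (fun θ => P v θ * (L : ℝ)) mu :=
      integrable_of_cont ((continuous_P hv).mul continuous_const)
    have i2 : Integrable (fun θ => P v θ * ‖ev F (ze θ)‖) mu :=
      integrable_of_cont ((continuous_P hv).mul hcG.norm)
    simp only [mul_add]
    rw [integral_add i1 i2, integral_mul_const, integral_P hv, one_mul]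
  have hP0 : ∀ θ, P 0 θ = 1 := by
    intro θ
    simp [P, norm_ze]
  have htle : t ≤ L + B := by
    have h1 := norm_poisson_le (differentiable_ev hneg) (w := 0) (by simp)
    have h2 : ev f 0 = t := by
      rw [ev_eq_sum, Finsupp.sum]
      rw [← hf0]
      by_cases h0 : (0 : ℤ) ∈ f.support
      · rw [Finset.sum_eq_single 0]
        · simp
        · intro n _ hn
          rw [zero_zpow n hn, mul_zero]
        · exact fun h => absurd h0 h
      · rw [Finset.sum_eq_zero]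
        · exact (Finsupp.notMem_support_iff.mp h0).symm
        · intro n hn
          have : n ≠ 0 := fun h => h0 (h ▸ hn)
          rw [zero_zpow n this, mul_zero]
    rw [h2, Complex.norm_real, Real.norm_of_nonneg ht.le] at h1
    refine h1.trans ?_
    have h3 : ∫ θ, P 0 θ * ‖ev f (ze θ)‖ ∂mu ≤ ∫ θ, P 0 θ * ((L : ℝ) + ‖ev F (ze θ)‖) ∂mu := by
      refine integral_mono (integrable_of_cont ((continuous_P (by simp)).mul
        (continuous_ev_ze f).norm)) (integrable_of_cont ((continuous_P (by simp)).mul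
        (continuous_const.add hcG.norm))) fun θ => ?_
      exact mul_le_mul_of_nonneg_left (hbd θ) (P_pos (by simp) θ).le
    rw [hint 0 (by simp)] at h3
    simp only [hP0, one_mul] at h3 ⊢
    linarith
  have hclose : ‖ev f w - t‖ ≤ s / 2 := by
    refine (gap_bound hneg hf0 hfM ht.le hw hw0 hbi hbd).trans ?_
    rw [hint w hw]
    refine le_trans (mul_le_mul_of_nonneg_left ?_ (by positivity)) hsM
    linarith
  have hlow : t / 2 ≤ ‖ev f w‖ := by
    have h1 := norm_sub_norm_le (t : ℂ) (t - ev f w)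
    rw [sub_sub_cancel, Complex.norm_real, Real.norm_of_nonneg ht.le, norm_sub_rev] at h1
    linarith
  have hj := jensen (differentiable_ev hneg) (v := fun θ => L * s ^ 2 + ‖ev F (ze θ)‖ ^ 2)
    (continuous_const.add (hcG.norm.pow 2)) (fun θ => by positivity)
    (fun θ => hle _ (norm_ze θ)) hw
  have h2 : (t / 2) ^ 2 ≤ Real.exp (∫ θ, P w θ * Real.log (L * s ^ 2 + ‖ev F (ze θ)‖ ^ 2) ∂mu) :=
    (pow_le_pow_left₀ (by positivity) hlow 2).trans hj
  have := Real.log_le_log (by positivity) h2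
  rw [Real.log_exp, Real.log_pow] at this
  exact_mod_cast this

/-- upper bound for the logarithmic integral -/
private lemma good_upper {L : ℕ} (hL : 1 ≤ L) {F : ℤ →₀ ℂ} {Y B : ℝ} (hY : 0 ≤ Y) (hB1 : 1 ≤ B)
    {w : ℂ} (hw : ‖w‖ < 1) (hB : ∫ θ, P w θ * ‖ev F (ze θ)‖ ∂mu ≤ B) :
    ∫ θ, P w θ * Real.log (L * Real.exp (-Y) ^ 2 + ‖ev F (ze θ)‖ ^ 2) ∂mu ≤
      2 * Real.log (L + 1 + B) + 2 - 2 * Y * ∫ θ in {θ | ‖ev F (ze θ)‖ ≤ Real.exp (-Y)}, P w θ ∂mu := by
  set s := Real.exp (-Y) with hs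
  have hs0 : 0 < s := Real.exp_pos _
  have hs1 : s ≤ 1 := by
    rw [hs, Real.exp_le_one_iff]
    linarith
  have hL1 : (1 : ℝ) ≤ L := by exact_mod_cast hL
  have hcG := (continuous_ev_ze F).norm
  set E : Set Ci := {θ | ‖ev F (ze θ)‖ ≤ s} with hE
  have hEm : MeasurableSet E := (isClosed_le hcG continuous_const).measurableSet
  have hlogs : Real.log s = -Y := by rw [hs, Real.log_exp]
  set b : ℝ := L + 1 + B with hb
  have hb0 : 0 < b := by positivity
  have hpt : ∀ θ, P w θ * Real.log (L * s ^ 2 + ‖ev F (ze θ)‖ ^ 2) ≤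
      P w θ * (2 * Real.log b) + (P w θ * ‖ev F (ze θ)‖) * (2 / b) - 2 * Y * E.indicator (P w) θ := by
    intro θ
    set x := ‖ev F (ze θ)‖ with hx
    have hx0 : 0 ≤ x := norm_nonneg _
    have hP := P_pos hw θ
    by_cases hθ : θ ∈ E
    · rw [Set.indicator_of_mem hθ]
      have hxs : x ≤ s := hθ
      have h1 : Real.log (L * s ^ 2 + x ^ 2) ≤ 2 * Real.log b - 2 * Y := by
        have h2 : L * s ^ 2 + x ^ 2 ≤ b * s ^ 2 := by
          have : x ^ 2 ≤ s ^ 2 := pow_le_pow_left₀ hx0 hxs 2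
          rw [hb]
          nlinarith [sq_nonneg s]
        have h3 := Real.log_le_log (by positivity) h2
        rw [Real.log_mul hb0.ne' (by positivity), Real.log_pow, hlogs] at h3
        have h4 : 0 ≤ Real.log b := Real.log_nonneg (by rw [hb]; linarith)
        push_cast at h3
        linarith
      have h5 : 0 ≤ P w θ * x * (2 / b) := by positivity
      nlinarith
    · rw [Set.indicator_of_notMem hθ, mul_zero, sub_zero]
      have h1 : Real.log (L * s ^ 2 + x ^ 2) ≤ 2 * Real.log b + x * (2 / b) := by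
        have h2 : L * s ^ 2 + x ^ 2 ≤ (b + x) ^ 2 := by
          have : s ^ 2 ≤ 1 := pow_le_one₀ hs0.le hs1
          rw [hb]
          nlinarith [mul_nonneg (by linarith : (0 : ℝ) ≤ L + 1 + B) hx0]
        have h3 := Real.log_le_log (by positivity) h2
        rw [Real.log_pow] at h3
        have h4 : Real.log (b + x) ≤ Real.log b + x / b := by
          have h5 : b + x = b * (1 + x / b) := by field_simp
          rw [h5, Real.log_mul hb0.ne' (by positivity)]
          have h6 := Real.log_le_sub_one_of_pos (show 0 < 1 + x / b by positivity)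
          linarith
        push_cast at h3
        calc Real.log (L * s ^ 2 + x ^ 2) ≤ 2 * Real.log (b + x) := h3
          _ ≤ 2 * (Real.log b + x / b) := by linarith
          _ = _ := by ring
      calc P w θ * Real.log (L * s ^ 2 + x ^ 2) ≤ P w θ * (2 * Real.log b + x * (2 / b)) :=
            mul_le_mul_of_nonneg_left h1 hP.le
        _ = _ := by ring
  have i1 : Integrable (fun θ => P w θ * (2 * Real.log b)) mu :=
    integrable_of_cont ((continuous_P hw).mul continuous_const)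
  have i2 : Integrable (fun θ => P w θ * ‖ev F (ze θ)‖) mu :=
    integrable_of_cont ((continuous_P hw).mul hcG)
  have i2' : Integrable (fun θ => (P w θ * ‖ev F (ze θ)‖) * (2 / b)) mu := i2.mul_const _
  have iP : Integrable (P w) mu := integrable_of_cont (continuous_P hw)
  have i3 : Integrable (fun θ => 2 * Y * E.indicator (P w) θ) mu := (iP.indicator hEm).const_mul _
  have i12 : Integrable (fun θ => P w θ * (2 * Real.log b) + (P w θ * ‖ev F (ze θ)‖) * (2 / b)) mu := i1.add i2'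
  have hcl : Continuous fun θ => Real.log (L * s ^ 2 + ‖ev F (ze θ)‖ ^ 2) :=
    (continuous_const.add (hcG.pow 2)).log fun θ =>
      (show (0 : ℝ) < L * s ^ 2 + ‖ev F (ze θ)‖ ^ 2 by positivity).ne'
  have h1 : ∫ θ, P w θ * Real.log (L * s ^ 2 + ‖ev F (ze θ)‖ ^ 2) ∂mu ≤
      ∫ θ, (P w θ * (2 * Real.log b) + (P w θ * ‖ev F (ze θ)‖) * (2 / b) - 2 * Y * E.indicator (P w) θ) ∂mu :=
    integral_mono (integrable_of_cont ((continuous_P hw).mul hcl)) (i12.sub i3) hpt
  rw [integral_sub i12 i3, integral_add i1 i2', integral_mul_const, integral_P hw, one_mul, integral_mul_const,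
    integral_const_mul, integral_indicator hEm] at h1
  refine h1.trans ?_
  have h2 : (∫ θ, P w θ * ‖ev F (ze θ)‖ ∂mu) * (2 / b) ≤ 2 := by
    calc (∫ θ, P w θ * ‖ev F (ze θ)‖ ∂mu) * (2 / b) ≤ B * (2 / b) :=
          mul_le_mul_of_nonneg_right hB (by positivity)
      _ ≤ b * (2 / b) := mul_le_mul_of_nonneg_right (by rw [hb]; linarith) (by positivity)
      _ = 2 := by field_simp
  linarith

theorem good_points (q : ℝ) (hq : 1 < q) : ∃ κ C : ℝ, 0 < κ ∧ κ < 1 ∧ 1 ≤ C ∧ ∀ (m : ℕ → ℕ) (F : ℤ →₀ ℂ) (j1 : ℕ)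
    (T Y B : ℝ) (w : ℂ), Lac q m → Spec m F → ‖w‖ < 1 → w ≠ 0 → 0 ≤ T → 1 ≤ B →
    Real.exp (-(2 * T)) ≤ ∑ n ∈ F.support.filter (fun n => n ≤ -(m j1 : ℤ)), ‖F n‖ ^ 2 →
    ∫ θ, P w θ * ‖ev F (ze θ)‖ ∂mu ≤ B → ∫ θ, ‖ev F (ze θ)‖ ∂mu ≤ B → 2 * T + C * (1 + Real.log B) ≤ Y →
    ‖w‖ ^ ⌈(1 - 1 / q) * m j1⌉₊ ≤ Real.exp (-(Y + C * (1 + Real.log B))) →
    ∫ θ in {θ | ‖ev F (ze θ)‖ ≤ Real.exp (-Y)}, P w θ ∂mu ≤ 1 - κ := by
  have hq0 : 0 < q := one_pos.trans hq
  obtain ⟨L', hL'⟩ : ∃ L : ℕ, 1 / (1 - 1 / q) < q ^ L := pow_unbounded_of_one_lt _ hq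
  set L : ℕ := L' + 1 with hLdef
  have hL : 1 / (1 - 1 / q) ≤ q ^ L := hL'.le.trans (pow_le_pow_right₀ hq.le (Nat.le_succ L'))
  have hL0 : 1 ≤ L := by omega
  have hL1 : (1 : ℝ) ≤ L := by exact_mod_cast hL0
  set c0 : ℝ := Real.log (L + 2) + 1 + Real.log 2 with hc0
  have hlog2 : 0 < Real.log 2 := Real.log_pos one_lt_two
  have hlogL : 0 ≤ Real.log (L + 2) := Real.log_nonneg (by linarith)
  have hc1 : 1 ≤ c0 := by rw [hc0]; linarith
  set C : ℝ := 4 * (L + 1) * c0 with hC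
  have hC4 : 4 * ((L : ℝ) + 1) ≤ C := by
    rw [hC]
    exact le_mul_of_one_le_right (by positivity) hc1
  refine ⟨1 / (4 * (L + 1)), C, by positivity, ?_, by linarith, ?_⟩
  · rw [div_lt_one (by positivity)]
    linarith
  intro m F j1 T Y B w hlac hF hw hw0 hT hB1 hmass hB hB0 hY hwM
  have hlogB : 0 ≤ Real.log B := Real.log_nonneg hB1
  have hY0 : 0 < Y := by
    have : 0 < C * (1 + Real.log B) := by positivity
    linarith
  set s : ℝ := Real.exp (-Y) with hs
  have hs0 : 0 < s := Real.exp_pos _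
  have hs1 : s ≤ 1 := by
    rw [hs, Real.exp_le_one_iff]
    linarith
  -- `K`
  obtain ⟨K, hK1, hK⟩ : ∃ K, j1 + 1 ≤ K ∧ ∀ n : ℤ, n < -(mm m K : ℤ) → F n = 0 := by
    set b : ℕ := F.support.sup (fun n => n.natAbs) with hb
    refine ⟨j1 + 1 + b, by omega, fun n hn => ?_⟩
    by_contra hne
    have h1 : n.natAbs ≤ b := Finset.le_sup (f := fun n : ℤ => n.natAbs) (Finsupp.mem_support_iff.2 hne)
    have h2 : j1 + 1 + b ≤ mm m (j1 + 1 + b) := (good_mm hlac).le_apply
    omega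
  have hG2 : ∀ j, 1 ≤ j → ∀ n : ℤ, -(mm m j : ℤ) < n → n < -(mm m (j - 1) : ℤ) → F n = 0 := by
    intro j hj n hn1 hn2
    obtain ⟨i, rfl⟩ : ∃ i, j = i + 1 := ⟨j - 1, by omega⟩
    rw [Nat.add_sub_cancel] at hn2
    refine hF n (by omega) fun k hk => ?_
    have h1 : mm m (i + 1) = m i := rfl
    have h2 : m k < m i := by omega
    have h3 : k < i := (good_mono hlac).lt_iff_lt.1 h2
    obtain ⟨i', rfl⟩ : ∃ i', i = i' + 1 := ⟨i - 1, by omega⟩
    have h4 : mm m (i' + 1) = m i' := rfl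
    have h5 : m k ≤ m i' := (good_mono hlac).monotone (by omega)
    omega
  obtain ⟨f, t, hst, hneg, hf0, hfM, hle, hgrow⟩ := alg_mass (L := L) (m := mm m) (G := F) (s := s)
    (M := ⌈(1 - 1 / q) * (m j1 : ℝ)⌉₊) (K := K) (j1 := j1 + 1) hL0 hs0 (good_mm hlac)
    (good_gap hlac hL0 hL) hK1 (Nat.succ_le_succ (Nat.zero_le _)) (good_M hlac j1) hK hG2
  have ht : 0 < t := hs0.trans_le hst
  have hsum := good_sum hlac hF j1 K hK
  -- growth of `t`
  have hlogt : -(T + L * Y) ≤ (L + 1) * Real.log t := by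
    have h1 : s ^ (2 * L) * Real.exp (-(2 * T)) ≤ t ^ (2 * (L + 1)) :=
      (mul_le_mul_of_nonneg_left (hmass.trans hsum) (by positivity)).trans hgrow
    have h2 := Real.log_le_log (by positivity) h1
    rw [Real.log_mul (by positivity) (by positivity), Real.log_pow, Real.log_pow, Real.log_exp,
      Real.log_exp] at h2
    push_cast at h2
    linarith
  -- closeness
  have hsM : ‖w‖ ^ ⌈(1 - 1 / q) * (m j1 : ℝ)⌉₊ * (2 * (L + B)) ≤ s / 2 := by
    have h1 : Real.exp (-(Y + C * (1 + Real.log B))) = s * (Real.exp (-C) * Real.exp (-(C * Real.log B))) := by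
      rw [hs, ← Real.exp_add, ← Real.exp_add]
      congr 1
      ring
    have h2 : Real.exp (-(C * Real.log B)) ≤ 1 / B := by
      have h3 : 1 / B = Real.exp (-Real.log B) := by
        rw [Real.exp_neg, Real.exp_log (by linarith), one_div]
      rw [h3, Real.exp_le_exp]
      have : 1 ≤ C := by linarith
      nlinarith
    have h3 : Real.exp (-C) ≤ 1 / (4 * (L + 1)) := by
      rw [Real.exp_neg, ← one_div]
      refine one_div_le_one_div_of_le (by positivity) ?_
      have := Real.add_one_le_exp C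
      linarith
    have h4 : (L : ℝ) + B ≤ (L + 1) * B := by nlinarith
    calc ‖w‖ ^ ⌈(1 - 1 / q) * (m j1 : ℝ)⌉₊ * (2 * (L + B)) ≤
        (s * (1 / (4 * (L + 1)) * (1 / B))) * (2 * ((L + 1) * B)) := by
          refine mul_le_mul ?_ (by linarith) (by positivity) (by positivity)
          refine hwM.trans ?_
          rw [h1]
          refine mul_le_mul_of_nonneg_left ?_ hs0.le
          exact mul_le_mul h3 h2 (Real.exp_pos _).le (by positivity)
      _ = s / 2 := by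
          have : B ≠ 0 := by linarith
          field_simp
          ring
  have hj := good_jensen hL0 hs0 hs1 hst hneg hf0 hfM hle hw hw0 hB hB0 hsM
  have hu := good_upper hL0 hY0.le hB1 hw hB
  set p := ∫ θ in {θ | ‖ev F (ze θ)‖ ≤ Real.exp (-Y)}, P w θ ∂mu with hp
  have h1 : 2 * Real.log (t / 2) ≤ 2 * Real.log (L + 1 + B) + 2 - 2 * Y * p := hj.trans hu
  rw [Real.log_div ht.ne' two_ne_zero] at h1
  have h2 : Real.log (L + 1 + B) ≤ Real.log (L + 2) + Real.log B := by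
    rw [← Real.log_mul (by positivity) (by linarith)]
    refine Real.log_le_log (by positivity) ?_
    nlinarith
  have h3 : Y * p ≤ c0 + Real.log B - Real.log t := by
    rw [hc0]
    linarith
  have h4 : c0 + Real.log B ≤ c0 * (1 + Real.log B) := by nlinarith
  have h5 : (L + 1) * (Y * p) ≤ (L + 1) * (c0 * (1 + Real.log B)) + (T + L * Y) := by
    have h6 : (L + 1 : ℝ) * (Y * p) ≤ (L + 1) * (c0 + Real.log B - Real.log t) :=
      mul_le_mul_of_nonneg_left h3 (by positivity)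
    have h7 : (L + 1 : ℝ) * (c0 + Real.log B) ≤ (L + 1) * (c0 * (1 + Real.log B)) :=
      mul_le_mul_of_nonneg_left h4 (by positivity)
    nlinarith
  have h6 : (L + 1) * (c0 * (1 + Real.log B)) ≤ Y / 4 := by
    have h7 : C * (1 + Real.log B) ≤ Y := by linarith
    rw [hC] at h7
    nlinarith
  have h7 : T ≤ Y / 2 := by
    have : 0 < C * (1 + Real.log B) := by positivity
    linarith
  have h8 : (L + 1) * (Y * p) ≤ (L + 3 / 4) * Y := by nlinarith
  have h9 : (L + 1) * p ≤ L + 3 / 4 := by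
    have h10 : ((L + 1) * p) * Y ≤ (L + 3 / 4) * Y := by nlinarith
    exact le_of_mul_le_mul_right h10 hY0
  have h10 : p ≤ (L + 3 / 4) / (L + 1) := by
    rw [le_div_iff₀ (by positivity)]
    linarith
  refine h10.trans (le_of_eq ?_)
  field_simp
  ring

end

end Pool.Agent.L5helper80.QL
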