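import Pool.Agent.L5helper80.QL.Defs

/-!
# J1: Harnack inequality and the semigroup property

P_harnack: P_z/P_w = ((1-|z|^2)/(1-|w|^2)) (|ζ-w|/|ζ-z|)^2, |ζ-w| ≤ |ζ-z| + |z-w|, |ζ-z| ≥ 1-|z| (`dist_pos`).
Pz_cont: continuity of a parametric integral (compact space, jointly continuous integrand).
Pz_semi: for `u = Re H`, `H` entire, both sides are `Re H(ρ v)` (`poisson_re` for `H` and for `z ↦ H (ρ z)`);
general continuous `u`: `exists_trig_near` and `∫ P = 1`, let `ε → 0`.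
-/

set_option autoImplicit false

namespace Pool.Agent.L5helper80.QL

noncomputable section

open MeasureTheory AddCircle Complex Filter Topology Pool.Agent.W767.HL

theorem P_harnack {z w : ℂ} (hz : ‖z‖ < 1) (hw : ‖w‖ < 1) (θ : Ci) :
    P z θ ≤ (1 - ‖z‖ ^ 2) / (1 - ‖w‖ ^ 2) * (1 + ‖z - w‖ / (1 - ‖z‖)) ^ 2 * P w θ := by
  have hz1 : 0 < 1 - ‖z‖ := by linarith
  have hw1 : 0 < 1 - ‖w‖ := by linarith
  have hz2 : 0 < 1 - ‖z‖ ^ 2 := by nlinarith [norm_nonneg z]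
  have hw2 : 0 < 1 - ‖w‖ ^ 2 := by nlinarith [norm_nonneg w]
  have dz := dist_pos z θ
  have dw := dist_pos w θ
  have dz0 : 0 < ‖ze θ - z‖ := by linarith
  have dw0 : 0 < ‖ze θ - w‖ := by linarith
  have tri : ‖ze θ - w‖ ≤ ‖ze θ - z‖ + ‖z - w‖ := by
    have := norm_add_le (ze θ - z) (z - w)
    simpa using this
  have key : ‖ze θ - w‖ ≤ ‖ze θ - z‖ * (1 + ‖z - w‖ / (1 - ‖z‖)) := by
    refine tri.trans ?_
    rw [mul_add, mul_one]
    have : ‖z - w‖ ≤ ‖ze θ - z‖ * (‖z - w‖ / (1 - ‖z‖)) := by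
      rw [mul_div_assoc', le_div_iff₀ hz1, mul_comm]
      exact mul_le_mul_of_nonneg_right dz (norm_nonneg _)
    linarith
  have key2 : ‖ze θ - w‖ ^ 2 ≤ ‖ze θ - z‖ ^ 2 * (1 + ‖z - w‖ / (1 - ‖z‖)) ^ 2 := by
    rw [← mul_pow]
    exact pow_le_pow_left₀ dw0.le key 2
  unfold P
  set A := (1 + ‖z - w‖ / (1 - ‖z‖)) ^ 2 with hA
  have e : (1 - ‖z‖ ^ 2) / (1 - ‖w‖ ^ 2) * A * ((1 - ‖w‖ ^ 2) / ‖ze θ - w‖ ^ 2) =
      (1 - ‖z‖ ^ 2) * A / ‖ze θ - w‖ ^ 2 := by
    field_simp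
  rw [e, div_le_div_iff₀ (by positivity) (by positivity)]
  calc (1 - ‖z‖ ^ 2) * ‖ze θ - w‖ ^ 2 ≤ (1 - ‖z‖ ^ 2) * (‖ze θ - z‖ ^ 2 * A) :=
        mul_le_mul_of_nonneg_left key2 hz2.le
    _ = (1 - ‖z‖ ^ 2) * A * ‖ze θ - z‖ ^ 2 := by ring

/-- Harnack inequality for Poisson integrals of nonnegative functions -/
theorem Pz_harnack {u : Ci → ℝ} (hu : Continuous u) (hu0 : ∀ θ, 0 ≤ u θ) {z w : ℂ} (hz : ‖z‖ < 1) (hw : ‖w‖ < 1) :
    Pz u z ≤ (1 - ‖z‖ ^ 2) / (1 - ‖w‖ ^ 2) * (1 + ‖z - w‖ / (1 - ‖z‖)) ^ 2 * Pz u w := by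
  unfold Pz
  rw [← integral_const_mul]
  refine integral_mono (integrable_of_cont ((continuous_P hz).mul hu))
    (integrable_of_cont (continuous_const.mul ((continuous_P hw).mul hu))) fun θ => ?_
  have := mul_le_mul_of_nonneg_right (P_harnack hz hw θ) (hu0 θ)
  simpa only [mul_assoc] using this

/-- Harnack inequality for entire functions with nonnegative real part on the closed unit disc -/
theorem re_harnack {H : ℂ → ℂ} (hH : Differentiable ℂ H) (h0 : ∀ z, ‖z‖ ≤ 1 → 0 ≤ (H z).re) {z w : ℂ}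
    (hz : ‖z‖ < 1) (hw : ‖w‖ < 1) :
    (H z).re ≤ (1 - ‖z‖ ^ 2) / (1 - ‖w‖ ^ 2) * (1 + ‖z - w‖ / (1 - ‖z‖)) ^ 2 * (H w).re := by
  have h := Pz_harnack (u := fun θ => (H (ze θ)).re)
    (Complex.continuous_re.comp (hH.continuous.comp continuous_ze))
    (fun θ => h0 _ (norm_ze θ).le) hz hw
  unfold Pz at h
  rwa [poisson_re hH hz, poisson_re hH hw] at h

/-- the Poisson integral of a continuous function on an inner circle is continuous -/
theorem Pz_cont {u : Ci → ℝ} (hu : Continuous u) {ρ : ℝ} (h0 : 0 ≤ ρ) (h1 : ρ < 1) :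
    Continuous fun θ => Pz u (ρ * ze θ) := by
  have hn : ∀ θ : Ci, ‖(ρ : ℂ) * ze θ‖ = ρ := by
    intro θ
    rw [norm_mul, norm_ze, mul_one, Complex.norm_real, Real.norm_of_nonneg h0]
  have hf : Continuous (Function.uncurry fun (θ φ : Ci) => P (ρ * ze θ) φ * u φ) := by
    refine Continuous.mul ?_ (hu.comp continuous_snd)
    unfold P
    have c1 : Continuous fun x : Ci × Ci => (ρ : ℂ) * ze x.1 :=
      continuous_const.mul (continuous_ze.comp continuous_fst)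
    have c2 : Continuous fun x : Ci × Ci => ze x.2 := continuous_ze.comp continuous_snd
    refine Continuous.div (continuous_const.sub (c1.norm.pow 2)) ((c2.sub c1).norm.pow 2) ?_
    rintro ⟨θ, φ⟩
    have h := dist_pos ((ρ : ℂ) * ze θ) φ
    rw [hn] at h
    have h2 : 0 < ‖ze φ - (ρ : ℂ) * ze θ‖ := by linarith
    exact (pow_pos h2 2).ne'
  have := continuous_parametric_integral_of_continuous (μ := mu) hf (s := Set.univ) isCompact_univ
  rw [Measure.restrict_univ] at this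
  exact this

theorem Har_near {u k : Ci → ℝ} (hu : Continuous u) (hk : Continuous k) {ε : ℝ}
    (h : ∀ θ, |u θ - k θ| ≤ ε) {z : ℂ} (hz : ‖z‖ < 1) :
    |∫ θ, P z θ * u θ ∂mu - ∫ θ, P z θ * k θ ∂mu| ≤ ε := by
  have e : ∫ θ, P z θ * u θ ∂mu - ∫ θ, P z θ * k θ ∂mu = ∫ θ, (P z θ * u θ - P z θ * k θ) ∂mu :=
    (integral_sub (integrable_of_cont ((continuous_P hz).mul hu))
      (integrable_of_cont ((continuous_P hz).mul hk))).symm
  rw [e]
  refine (abs_integral_le_integral_abs).trans ?_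
  calc ∫ θ, |P z θ * u θ - P z θ * k θ| ∂mu ≤ ∫ θ, P z θ * ε ∂mu := by
        refine integral_mono (integrable_of_cont (((continuous_P hz).mul hu).sub
          ((continuous_P hz).mul hk)).abs)
          (integrable_of_cont ((continuous_P hz).mul continuous_const)) fun θ => ?_
        simp only
        rw [← mul_sub, abs_mul, abs_of_pos (P_pos hz θ)]
        exact mul_le_mul_of_nonneg_left (h θ) (P_pos hz θ).le
    _ = ε := by rw [integral_mul_const, integral_P hz, one_mul]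

theorem Pz_semi {u : Ci → ℝ} (hu : Continuous u) {ρ : ℝ} (h0 : 0 ≤ ρ) (h1 : ρ < 1) {v : ℂ} (hv : ‖v‖ < 1) :
    ∫ θ, P v θ * Pz u (ρ * ze θ) ∂mu = Pz u (ρ * v) := by
  have hn : ∀ θ : Ci, ‖(ρ : ℂ) * ze θ‖ < 1 := by
    intro θ
    rw [norm_mul, norm_ze, mul_one, Complex.norm_real, Real.norm_of_nonneg h0]
    exact h1
  have hρv : ‖(ρ : ℂ) * v‖ < 1 := by
    rw [norm_mul, Complex.norm_real, Real.norm_of_nonneg h0]
    nlinarith [norm_nonneg v]
  refine eq_of_abs_sub_eq_zero ?_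
  refine le_antisymm (le_of_forall_pos_le_add fun ε hε => ?_) (abs_nonneg _)
  rw [zero_add]
  have hε2 : 0 < ε / 2 := half_pos hε
  obtain ⟨H, hH, hHu⟩ := exists_trig_near hu hε2
  have hcH : Continuous fun θ => (H (ze θ)).re :=
    Complex.continuous_re.comp (hH.continuous.comp continuous_ze)
  have a1 : ∀ z : ℂ, ‖z‖ < 1 → |Pz u z - (H z).re| ≤ ε / 2 := by
    intro z hz
    have := Har_near hu hcH hHu hz
    rwa [poisson_re hH hz] at this
  have hHρ : Differentiable ℂ fun z => H (ρ * z) :=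
    hH.comp (differentiable_id.const_mul (ρ : ℂ))
  have a2 : ∫ θ, P v θ * (H (ρ * ze θ)).re ∂mu = (H (ρ * v)).re :=
    poisson_re (f := fun z => H (ρ * z)) hHρ hv
  have a3 : |∫ θ, P v θ * Pz u (ρ * ze θ) ∂mu - ∫ θ, P v θ * (H (ρ * ze θ)).re ∂mu| ≤ ε / 2 :=
    Har_near (Pz_cont hu h0 h1)
      (Complex.continuous_re.comp (hH.continuous.comp (continuous_const.mul continuous_ze)))
      (fun θ => a1 _ (hn θ)) hv
  rw [a2] at a3
  have a4 := a1 _ hρv
  rw [abs_le] at a3 a4 ⊢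
  constructor <;> linarith [a3.1, a3.2, a4.1, a4.2]

theorem S_nonneg (G : ℤ →₀ ℂ) {z : ℂ} (hz : ‖z‖ < 1) : 0 ≤ S G z := by
  unfold S Pz
  exact integral_nonneg fun θ => mul_nonneg (P_pos hz θ).le (norm_nonneg _)

end

end Pool.Agent.L5helper80.QL
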