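import Pool.Agent.L5helper80.QL.Defs

/-!
# J16: existence of the scales

SKETCH. For `h > 0` let `M(h) = ∑' n, if n < 0 ∧ |c n| > e^{nh} then |c n|² else 0` (summable). `M` is monotone in `h`; the condition on `h` for a given `n`
is open and upward closed (`h > h^(n) = log|c n| / n`, and `h^(n) > 0` since `|c n| < 1`), so `M` is left-continuous, and `M(h) → 0` as `h → 0+`
(dominated convergence for sums, `tendsto_tsum_of_dominated_convergence`, or: given `ε` take a finite set `s` with tail `< ε`, all `h^(n)`, `n ∈ s`, are positive).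
For `h > 1`: the `n*` with `|c n*| = e^{-1}` is included (`e^{n* h} < e^{-1}`), so `M(h) ≥ e^{-2}`. `Λ_i = K^(i+1) ≥ 2`.
`h_i = sSup {h > 0 : M(h) ≤ e^{-2Λ_i}}`: the set is nonempty, bounded by `1`; `0 < h_i ≤ 1`; antitone in `i`; `M(h_i) ≤ e^{-2Λ_i}` by left-continuity
(or directly: each finite partial sum of `M(h_i)` is a partial sum of `M(h)` for `h < h_i` close to `h_i`); `M(2h_i) > e^{-2Λ_i}`.
For the truncation `c_T = tr c (-T) T`: `mass(non h c_T)` is a partial sum of `M(h)`, so `≤ M(h)` for all `T` and `→ M(h)` as `T → ∞`;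
`massge` for the finitely many `i ≤ N` holds eventually. `Spec` and `small` for `tr` from `tr_apply`.
-/

set_option autoImplicit false

namespace Pool.Agent.L5helper80.QL

noncomputable section

open MeasureTheory AddCircle Complex Filter Topology Pool.Agent.W767.HL

open Classical in
/-- the terms of the mass at the height `h` -/
def Par_u (c : ℤ → ℂ) (h : ℝ) (n : ℤ) : ℝ := if n < 0 ∧ Real.exp (n * h) < ‖c n‖ then ‖c n‖ ^ 2 else 0

def Par_M (c : ℤ → ℂ) (h : ℝ) : ℝ := ∑' n, Par_u c h n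

lemma Par_u_nonneg (c : ℤ → ℂ) (h : ℝ) (n : ℤ) : 0 ≤ Par_u c h n := by
  rw [Par_u]; split_ifs
  · positivity
  · exact le_rfl

lemma Par_u_le (c : ℤ → ℂ) (h : ℝ) (n : ℤ) : Par_u c h n ≤ ‖c n‖ ^ 2 := by
  rw [Par_u]; split_ifs
  · exact le_rfl
  · positivity

lemma Par_u_mono (c : ℤ → ℂ) {h h' : ℝ} (hh : h ≤ h') (n : ℤ) : Par_u c h n ≤ Par_u c h' n := by
  by_cases h1 : n < 0 ∧ Real.exp (n * h) < ‖c n‖
  · have h2 : n < 0 ∧ Real.exp (n * h') < ‖c n‖ := by
      refine ⟨h1.1, lt_of_le_of_lt ?_ h1.2⟩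
      apply Real.exp_le_exp.2
      have : (n : ℝ) < 0 := by exact_mod_cast h1.1
      nlinarith
    rw [Par_u, Par_u, if_pos h1, if_pos h2]
  · rw [Par_u, if_neg h1]
    exact Par_u_nonneg _ _ _

lemma Par_summable {c : ℤ → ℂ} (hc : Summable fun n => ‖c n‖ ^ 2) (h : ℝ) : Summable (Par_u c h) :=
  Summable.of_nonneg_of_le (Par_u_nonneg c h) (Par_u_le c h) hc

lemma Par_M_mono {c : ℤ → ℂ} (hc : Summable fun n => ‖c n‖ ^ 2) {h h' : ℝ} (hh : h ≤ h') : Par_M c h ≤ Par_M c h' :=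
  (Par_summable hc h).tsum_le_tsum (Par_u_mono c hh) (Par_summable hc h')

lemma Par_norm_le (c : ℤ → ℂ) (h : ℝ) (n : ℤ) : ‖Par_u c h n‖ ≤ ‖c n‖ ^ 2 := by
  rw [Real.norm_eq_abs, abs_of_nonneg (Par_u_nonneg c h n)]
  exact Par_u_le c h n

/-- left continuity -/
lemma Par_left {c : ℤ → ℂ} (hc : Summable fun n => ‖c n‖ ^ 2) (h0 : ℝ) :
    Tendsto (Par_M c) (𝓝[<] h0) (𝓝 (Par_M c h0)) := by
  refine tendsto_tsum_of_dominated_convergence hc (fun n => ?_) (Eventually.of_forall fun h n => Par_norm_le c h n)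
  by_cases h1 : n < 0 ∧ Real.exp (n * h0) < ‖c n‖
  · have h2 : ∀ᶠ h in 𝓝 h0, Real.exp (n * h) < ‖c n‖ := by
      have : Continuous fun h : ℝ => Real.exp (n * h) := by fun_prop
      exact this.continuousAt.eventually_lt continuousAt_const h1.2
    refine tendsto_const_nhds.congr' ?_
    filter_upwards [h2.filter_mono nhdsWithin_le_nhds] with h hh
    rw [Par_u, Par_u, if_pos h1, if_pos ⟨h1.1, hh⟩]
  · refine tendsto_const_nhds.congr' ?_
    filter_upwards [self_mem_nhdsWithin] with h hh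
    have h3 := Par_u_mono c (le_of_lt hh) n
    have h4 : Par_u c h0 n = 0 := by rw [Par_u, if_neg h1]
    rw [h4] at h3 ⊢
    exact le_antisymm (Par_u_nonneg c h n) h3

lemma Par_zero {c : ℤ → ℂ} (hc : Summable fun n => ‖c n‖ ^ 2) (hle : ∀ n : ℤ, n < 0 → ‖c n‖ ≤ Real.exp (-1)) :
    Tendsto (Par_M c) (𝓝[>] 0) (𝓝 0) := by
  suffices hs : Tendsto (Par_M c) (𝓝[>] 0) (𝓝 (∑' _ : ℤ, (0 : ℝ))) by
    rwa [tsum_zero] at hs
  refine tendsto_tsum_of_dominated_convergence hc (fun n => ?_) (Eventually.of_forall fun h n => Par_norm_le c h n)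
  refine tendsto_const_nhds.congr' ?_
  by_cases hn : n < 0
  · have h1 : ‖c n‖ < Real.exp (n * (0 : ℝ)) := by
      rw [mul_zero, Real.exp_zero]
      exact lt_of_le_of_lt (hle n hn) (by rw [Real.exp_lt_one_iff]; norm_num)
    have h2 : ∀ᶠ h in 𝓝 (0 : ℝ), ‖c n‖ < Real.exp (n * h) := by
      have : Continuous fun h : ℝ => Real.exp (n * h) := by fun_prop
      exact continuousAt_const.eventually_lt this.continuousAt h1
    have h3 : ∀ᶠ h in 𝓝[>] (0 : ℝ), ‖c n‖ < Real.exp (n * h) := h2.filter_mono nhdsWithin_le_nhds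
    filter_upwards [h3] with h hh
    rw [Par_u, if_neg fun hx => absurd hx.2 (not_lt.2 hh.le)]
  · refine Eventually.of_forall fun h => ?_
    show (0 : ℝ) = Par_u c h n
    rw [Par_u, if_neg fun hx => hn hx.1]

lemma Par_one {c : ℤ → ℂ} (hc : Summable fun n => ‖c n‖ ^ 2) (hex : ∃ n : ℤ, n < 0 ∧ ‖c n‖ = Real.exp (-1)) {h : ℝ}
    (hh : 1 < h) : Real.exp (-2) ≤ Par_M c h := by
  obtain ⟨n, hn, hcn⟩ := hex
  have h1 : n < 0 ∧ Real.exp (n * h) < ‖c n‖ := by
    refine ⟨hn, ?_⟩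
    rw [hcn]
    apply Real.exp_lt_exp.2
    have : (n : ℝ) ≤ -1 := by exact_mod_cast (by omega : n ≤ -1)
    nlinarith
  have h2 : Par_u c h n = Real.exp (-2) := by
    rw [Par_u, if_pos h1, hcn, ← Real.exp_nat_mul]
    norm_num
  rw [← h2]
  exact (Par_summable hc h).le_tsum n fun j _ => Par_u_nonneg c h j

lemma Par_mass (c : ℤ → ℂ) (h : ℝ) (T : ℕ) :
    mass (non h (tr c (-(T : ℤ)) T)) = ∑ n ∈ Finset.Icc (-(T : ℤ)) T, Par_u c h n := by
  rw [mass]
  have h1 : ∀ n, non h (tr c (-(T : ℤ)) T) n =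
      if -(T : ℤ) ≤ n ∧ n ≤ T then (if n < 0 ∧ Real.exp (n * h) < ‖c n‖ then c n else 0) else 0 := by
    intro n
    rw [non, Finsupp.filter_apply, tr_apply]
    by_cases h2 : -(T : ℤ) ≤ n ∧ n ≤ T
    · simp only [if_pos h2]
      by_cases h3 : n < 0 ∧ Real.exp (n * h) < ‖c n‖
      · rw [if_pos h3, if_pos]
        rw [not_or, not_le, not_le]
        exact h3
      · rw [if_neg h3, if_neg]
        rw [not_not]
        by_contra h4
        rw [not_or, not_le, not_le] at h4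
        exact h3 h4
    · simp only [if_neg h2, ite_self]
  have h2 : (non h (tr c (-(T : ℤ)) T)).support ⊆ Finset.Icc (-(T : ℤ)) T := by
    intro n hn
    rw [Finsupp.mem_support_iff, h1] at hn
    by_contra h3
    rw [Finset.mem_Icc] at h3
    rw [if_neg h3] at hn
    exact hn rfl
  rw [Finset.sum_subset h2]
  · refine Finset.sum_congr rfl fun n hn => ?_
    rw [h1, if_pos (Finset.mem_Icc.1 hn), Par_u]
    split_ifs <;> simp
  · intro n _ hn
    rw [Finsupp.notMem_support_iff.1 hn]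
    simp

lemma Par_mass_le {c : ℤ → ℂ} (hc : Summable fun n => ‖c n‖ ^ 2) (h : ℝ) (T : ℕ) :
    mass (non h (tr c (-(T : ℤ)) T)) ≤ Par_M c h := by
  rw [Par_mass]
  exact (Par_summable hc h).sum_le_tsum _ fun n _ => Par_u_nonneg c h n

lemma Par_mass_tendsto {c : ℤ → ℂ} (hc : Summable fun n => ‖c n‖ ^ 2) (h : ℝ) :
    Tendsto (fun T : ℕ => mass (non h (tr c (-(T : ℤ)) T))) atTop (𝓝 (Par_M c h)) := by
  simp only [Par_mass]
  have h1 : Tendsto (fun T : ℕ => Finset.Icc (-(T : ℤ)) T) atTop atTop := by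
    refine tendsto_atTop_finset_of_monotone (fun a b hab => Finset.Icc_subset_Icc (by omega) (by omega)) fun n =>
      ⟨n.natAbs, Finset.mem_Icc.2 (by omega)⟩
  exact (Par_summable hc h).hasSum.comp h1

theorem params (q : ℝ) (m : ℕ → ℕ) (hm : Lac q m) (c : ℤ → ℂ) (hc : Summable fun n => ‖c n‖ ^ 2)
    (hspec : ∀ n : ℤ, n < 0 → (∀ j, n ≠ -(m j : ℤ)) → c n = 0) (hle : ∀ n : ℤ, n < 0 → ‖c n‖ ≤ Real.exp (-1))
    (hex : ∃ n : ℤ, n < 0 ∧ ‖c n‖ = Real.exp (-1)) (K : ℝ) (hK : 2 ≤ K) :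
    ∃ h : ℕ → ℝ, ∀ N : ℕ, ∀ᶠ T : ℕ in atTop, Data q m (tr c (-(T : ℤ)) T) h (fun i => K ^ (i + 1)) N := by
  obtain ⟨ε, hε⟩ : ∃ ε : ℕ → ℝ, ε = fun i => Real.exp (-(2 * K ^ (i + 1))) := ⟨_, rfl⟩
  have hεpos : ∀ i, 0 < ε i := fun i => by rw [hε]; exact Real.exp_pos _
  have hKi : ∀ i : ℕ, 2 ≤ K ^ (i + 1) := by
    intro i
    calc (2 : ℝ) ≤ K := hK
      _ = K ^ 1 := (pow_one K).symm
      _ ≤ K ^ (i + 1) := pow_le_pow_right₀ (by linarith) (by omega)
  have hε2 : ∀ i, ε i < Real.exp (-2) := by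
    intro i
    rw [hε]
    apply Real.exp_lt_exp.2
    have := hKi i
    linarith
  have hεanti : ∀ i j, i ≤ j → ε j ≤ ε i := by
    intro i j hij
    rw [hε]
    apply Real.exp_le_exp.2
    have : K ^ (i + 1) ≤ K ^ (j + 1) := pow_le_pow_right₀ (by linarith) (by omega)
    linarith
  obtain ⟨E, hE⟩ : ∃ E : ℕ → Set ℝ, E = fun i => {h | 0 < h ∧ Par_M c h ≤ ε i} := ⟨_, rfl⟩
  have hmem : ∀ i h, h ∈ E i ↔ 0 < h ∧ Par_M c h ≤ ε i := fun i h => by rw [hE]; rfl
  have hne : ∀ i, (E i).Nonempty := by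
    intro i
    have h1 : ∀ᶠ h in 𝓝[>] (0 : ℝ), Par_M c h < ε i := (Par_zero hc hle).eventually_lt_const (hεpos i)
    have h2 : ∀ᶠ h in 𝓝[>] (0 : ℝ), h ∈ Set.Ioi (0 : ℝ) := self_mem_nhdsWithin
    obtain ⟨h, hh1, hh2⟩ := (h1.and h2).exists
    exact ⟨h, (hmem i h).2 ⟨hh2, hh1.le⟩⟩
  have hub : ∀ i, ∀ h ∈ E i, h ≤ 1 := by
    intro i h hh
    by_contra h1
    have h2 := Par_one hc hex (not_le.1 h1)
    have h3 := ((hmem i h).1 hh).2
    have h4 := hε2 i
    linarith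
  have hbdd : ∀ i, BddAbove (E i) := fun i => ⟨1, fun h hh => hub i h hh⟩
  have hpos : ∀ i, 0 < sSup (E i) := by
    intro i
    obtain ⟨h, hh⟩ := hne i
    exact lt_of_lt_of_le ((hmem i h).1 hh).1 (le_csSup (hbdd i) hh)
  have hMle : ∀ i, Par_M c (sSup (E i)) ≤ ε i := by
    intro i
    refine le_of_tendsto (Par_left hc (sSup (E i))) ?_
    have h1 : ∀ᶠ h in 𝓝[<] (sSup (E i)), h ∈ Set.Iio (sSup (E i)) := self_mem_nhdsWithin
    filter_upwards [h1] with h hh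
    obtain ⟨h', hh', hlt⟩ := exists_lt_of_lt_csSup (hne i) hh
    exact (Par_M_mono hc hlt.le).trans ((hmem i h').1 hh').2
  have hMge : ∀ i, ε i < Par_M c (2 * sSup (E i)) := by
    intro i
    by_contra h1
    have h2 : 2 * sSup (E i) ∈ E i := (hmem i _).2 ⟨by linarith [hpos i], not_lt.1 h1⟩
    have h3 := le_csSup (hbdd i) h2
    linarith [hpos i]
  refine ⟨fun i => sSup (E i), fun N => ?_⟩
  have hev : ∀ᶠ T : ℕ in atTop, ∀ i ∈ Finset.range (N + 1),
      ε i < mass (non (2 * sSup (E i)) (tr c (-(T : ℤ)) T)) := by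
    rw [Filter.eventually_all_finset]
    intro i _
    exact (Par_mass_tendsto hc (2 * sSup (E i))).eventually_const_lt (hMge i)
  filter_upwards [hev] with T hT
  refine ⟨hm, ?_, ?_, hpos, ?_, ?_, ?_, ?_, ?_⟩
  · intro n hn hj
    rw [tr_apply, hspec n hn hj, ite_self]
  · intro n hn
    rw [tr_apply]
    split_ifs
    · exact hle n hn
    · rw [norm_zero]; exact (Real.exp_pos _).le
  · intro i j hij
    apply csSup_le_csSup (hbdd i) (hne j)
    intro h hh
    exact (hmem i h).2 ⟨((hmem j h).1 hh).1, ((hmem j h).1 hh).2.trans (hεanti i j hij)⟩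
  · exact csSup_le (hne 0) (hub 0)
  · intro i
    show 2 * K ^ (i + 1) ≤ K ^ (i + 1 + 1)
    rw [pow_succ K (i + 1), mul_comm (K ^ (i + 1)) K]
    apply mul_le_mul_of_nonneg_right hK
    positivity
  · intro i _
    have h1 := (Par_mass_le hc (sSup (E i)) T).trans (hMle i)
    rw [hε] at h1
    exact h1
  · intro i hi
    have h1 := hT i (Finset.mem_range.2 (by omega))
    have h2 := hεpos i
    have h3 : Real.exp (-(2 * K ^ (i + 1))) = ε i := by rw [hε]
    show Real.exp (-(2 * K ^ (i + 1))) ≤ 2 * mass (non (2 * sSup (E i)) (tr c (-(T : ℤ)) T))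
    rw [h3]
    linarith

end

end Pool.Agent.L5helper80.QL
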