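import Pool.Agent.L5helper80.QL.Fin
import Pool.Agent.L5helper80.QL.Par

/-!
# Passage to the limit
-/

set_option autoImplicit false

namespace Pool.Agent.L5helper80.QL

noncomputable section

open MeasureTheory AddCircle Complex Filter Topology Pool.Agent.W767.HL

lemma tr_smul (c : ℤ → ℂ) (l : ℂ) (a b : ℤ) : tr (fun n => l * c n) a b = l • tr c a b := by
  ext n
  rw [tr_apply, Finsupp.smul_apply, tr_apply]
  split_ifs <;> simp

lemma P_zero (θ : Ci) : P 0 θ = 1 := by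
  unfold P
  rw [norm_zero, sub_zero, norm_ze]
  norm_num

lemma S_zero (G : ℤ →₀ ℂ) : S G 0 = ∫ θ, ‖ev G (ze θ)‖ ∂mu := by
  unfold S Pz
  simp only [P_zero, one_mul]

/-- a summable sequence attains its maximum over the negative integers -/
lemma exists_max {c : ℤ → ℂ} (hc : Summable fun n => ‖c n‖ ^ 2) (hne : ∃ n : ℤ, n < 0 ∧ c n ≠ 0) :
    ∃ n : ℤ, n < 0 ∧ c n ≠ 0 ∧ ∀ k : ℤ, k < 0 → ‖c k‖ ≤ ‖c n‖ := by
  obtain ⟨n0, hn0, hcn0⟩ := hne
  have hpos : 0 < ‖c n0‖ := norm_pos_iff.mpr hcn0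
  have hfin : {n : ℤ | ‖c n0‖ ≤ ‖c n‖}.Finite := by
    have h1 := hc.tendsto_cofinite_zero.eventually_lt_const (show (0 : ℝ) < ‖c n0‖ ^ 2 by positivity)
    rw [Filter.eventually_cofinite] at h1
    refine h1.subset fun n hn => ?_
    simp only [Set.mem_ofPred_eq, not_lt] at hn ⊢
    exact pow_le_pow_left₀ hpos.le hn 2
  have hfin2 : {n : ℤ | n < 0 ∧ ‖c n0‖ ≤ ‖c n‖}.Finite := hfin.subset fun n hn => hn.2
  obtain ⟨n, hn, hmax⟩ := hfin2.exists_maximalFor (fun n => ‖c n‖) _ ⟨n0, hn0, le_rfl⟩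
  refine ⟨n, hn.1, norm_pos_iff.mp (hpos.trans_le hn.2), fun k hk => ?_⟩
  by_cases h : ‖c n0‖ ≤ ‖c k‖
  · rcases le_total ‖c k‖ ‖c n‖ with h2 | h2
    · exact h2
    · exact hmax ⟨hk, h⟩ h2
  · push Not at h
    exact h.le.trans hn.2

/-- transfer of the measure of the set where the function is small to the limit -/
lemma small_lim {g : Ci → ℂ} (hg : Integrable g mu) {G : ℕ → Ci → ℂ} (hG : ∀ N, Integrable (G N) mu)
    (hlim : Tendsto (fun N => ∫ θ, ‖G N θ - g θ‖ ∂mu) atTop (𝓝 0)) {y b : ℝ} (hy : 0 < y)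
    (hb : ∀ᶠ T in atTop, mu.real {θ | ‖G T θ‖ ≤ y} ≤ b) : mu.real {θ | ‖g θ‖ ≤ y / 2} ≤ b := by
  have hlim2 : Tendsto (fun N => b + (2 / y) * ∫ θ, ‖G N θ - g θ‖ ∂mu) atTop (𝓝 b) := by
    simpa using (hlim.const_mul (2 / y)).const_add b
  refine ge_of_tendsto hlim2 ?_
  filter_upwards [hb] with T hT
  have hi : Integrable (fun θ => ‖G T θ - g θ‖) mu := ((hG T).sub hg).norm
  have hmk := mul_meas_ge_le_integral_of_nonneg (μ := mu) (f := fun θ => ‖G T θ - g θ‖)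
    (Filter.Eventually.of_forall fun _ => norm_nonneg _) hi (y / 2)
  have hsub : {θ | ‖g θ‖ ≤ y / 2} ⊆ {θ | ‖G T θ‖ ≤ y} ∪ {θ | y / 2 ≤ ‖G T θ - g θ‖} := by
    intro θ hθ
    simp only [Set.mem_ofPred_eq, Set.mem_union] at hθ ⊢
    by_contra hcon
    push Not at hcon
    have := norm_sub_norm_le (G T θ) (g θ)
    linarith [hcon.1, hcon.2]
  calc mu.real {θ | ‖g θ‖ ≤ y / 2} ≤ mu.real ({θ | ‖G T θ‖ ≤ y} ∪ {θ | y / 2 ≤ ‖G T θ - g θ‖}) :=
        measureReal_mono hsub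
    _ ≤ mu.real {θ | ‖G T θ‖ ≤ y} + mu.real {θ | y / 2 ≤ ‖G T θ - g θ‖} := measureReal_union_le _ _
    _ ≤ b + (2 / y) * ∫ θ, ‖G T θ - g θ‖ ∂mu := by
        refine add_le_add hT ?_
        rw [div_mul_eq_mul_div, le_div_iff₀ hy]
        have : y / 2 * mu.real {θ | y / 2 ≤ ‖G T θ - g θ‖} ≤ ∫ θ, ‖G T θ - g θ‖ ∂mu := hmk
        linarith

theorem tail (q : ℝ) (hq : 1 < q) : ∃ K θ : ℝ, 2 ≤ K ∧ 0 < θ ∧ θ < 1 ∧ ∀ (m : ℕ → ℕ) (g : Lp ℂ 2 mu), Lac q m →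
    (∀ n : ℤ, n < 0 → (∀ j, n ≠ -(m j : ℤ)) → fourierCoeff g n = 0) →
    (∃ n : ℤ, n < 0 ∧ fourierCoeff g n ≠ 0) →
    ∃ D : ℝ, ∃ N0 : ℕ, ∀ N ≥ N0, mu.real {θ' | ‖g θ'‖ ≤ Real.exp (-K ^ N)} ≤ D * θ ^ N := by
  obtain ⟨K, θ, C, hK, hθ0, hθ1, hC, hfin⟩ := finite_tail q hq
  refine ⟨K, θ, hK, hθ0, hθ1, ?_⟩
  intro m g hm hspec hex
  have hsum : Summable fun n => ‖fourierCoeff g n‖ ^ 2 := (hasSum_sq_fourierCoeff g).summable
  obtain ⟨n0, hn0, hcn0, hmax⟩ := exists_max hsum hex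
  set c : ℤ → ℂ := fourierCoeff g with hc
  have hcpos : 0 < ‖c n0‖ := norm_pos_iff.mpr hcn0
  set l : ℝ := Real.exp (-1) / ‖c n0‖ with hl
  have hl0 : 0 < l := by positivity
  have hln : ‖(l : ℂ)‖ = l := by rw [Complex.norm_real, Real.norm_of_nonneg hl0.le]
  set c' : ℤ → ℂ := fun n => (l : ℂ) * c n with hc'
  have hsum' : Summable fun n => ‖c' n‖ ^ 2 := by
    have : (fun n => ‖c' n‖ ^ 2) = fun n => l ^ 2 * ‖c n‖ ^ 2 := by
      ext n
      change ‖(l : ℂ) * c n‖ ^ 2 = l ^ 2 * ‖c n‖ ^ 2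
      rw [norm_mul, hln, mul_pow]
    rw [this]
    exact hsum.mul_left _
  have hspec' : ∀ n : ℤ, n < 0 → (∀ j, n ≠ -(m j : ℤ)) → c' n = 0 := by
    intro n hn hj
    change (l : ℂ) * c n = 0
    rw [hspec n hn hj, mul_zero]
  have hle' : ∀ n : ℤ, n < 0 → ‖c' n‖ ≤ Real.exp (-1) := by
    intro n hn
    simp only [hc', norm_mul, hln]
    rw [hl, div_mul_eq_mul_div, div_le_iff₀ hcpos]
    exact mul_le_mul_of_nonneg_left (hmax n hn) (Real.exp_pos _).le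
  have hex' : ∃ n : ℤ, n < 0 ∧ ‖c' n‖ = Real.exp (-1) := by
    refine ⟨n0, hn0, ?_⟩
    simp only [hc', norm_mul, hln]
    rw [hl, div_mul_cancel₀ _ hcpos.ne']
  obtain ⟨h, hD⟩ := params q m hm c' hsum' hspec' hle' hex' K hK
  -- the truncations
  have hgi : Integrable (g : Ci → ℂ) mu := (Lp.memLp g).integrable (by norm_num)
  have hGi : ∀ T : ℕ, Integrable (fun θ => ev (tr c (-(T : ℤ)) T) (ze θ)) mu := fun T =>
    integrable_of_cont (continuous_ev_ze _)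
  have hlim := trunc_tendsto g
  obtain ⟨B, hB⟩ := Pint_tendsto (w := 0) (by simp) hgi hGi hlim
  have hS : ∀ T : ℕ, S (tr c' (-(T : ℤ)) T) 0 ≤ max 1 (l * B) := by
    intro T
    refine le_trans ?_ (le_max_right _ _)
    rw [S_zero]
    have h1 := hB T
    simp only [P_zero, one_mul] at h1
    rw [hc', tr_smul]
    simp only [ev_smul, norm_mul, hln]
    rw [integral_const_mul]
    exact mul_le_mul_of_nonneg_left h1 hl0.le
  obtain ⟨N0, hN0⟩ := hfin (max 1 (l * B)) (le_max_left _ _)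
  have hgi' : Integrable (fun θ => (l : ℂ) * g θ) mu := hgi.const_mul _
  have hGi' : ∀ T : ℕ, Integrable (fun θ => ev (tr c' (-(T : ℤ)) T) (ze θ)) mu := fun T =>
    integrable_of_cont (continuous_ev_ze _)
  have hlim' : Tendsto (fun T : ℕ => ∫ θ, ‖ev (tr c' (-(T : ℤ)) T) (ze θ) - (l : ℂ) * g θ‖ ∂mu)
      atTop (𝓝 0) := by
    have h1 := hlim.const_mul l
    rw [mul_zero] at h1
    refine h1.congr fun T => ?_
    rw [← integral_const_mul]
    refine integral_congr_ae (Filter.Eventually.of_forall fun θ => ?_)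
    simp only
    rw [hc', tr_smul, ev_smul, ← mul_sub, norm_mul, hln]
  have key : ∀ N, N0 ≤ N → mu.real {θ' | ‖(l : ℂ) * g θ'‖ ≤ Real.exp (-K ^ (N + 1)) / 2} ≤
      C * max 1 (l * B) * θ ^ N := by
    intro N hN
    refine small_lim hgi' hGi' hlim' (Real.exp_pos _) ?_
    filter_upwards [hD N] with T hT
    exact hN0 m (tr c' (-(T : ℤ)) T) h N hN hT (hS T)
  obtain ⟨N1, hN1⟩ := exists_nat_ge (Real.log (2 * l))
  have hK1 : (1 : ℝ) ≤ K := by linarith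
  refine ⟨C * max 1 (l * B) / θ ^ 2, max N0 N1 + 2, fun N hN => ?_⟩
  obtain ⟨M, rfl⟩ : ∃ M, N = M + 2 := ⟨N - 2, by omega⟩
  have hM0 : N0 ≤ M := by have := le_max_left N0 N1; omega
  have hM1 : N1 ≤ M := by have := le_max_right N0 N1; omega
  have hk := key M hM0
  have hscale : l * Real.exp (-K ^ (M + 2)) ≤ Real.exp (-K ^ (M + 1)) / 2 := by
    have e1 : Real.log (2 * l) ≤ K ^ (M + 1) := by
      have e2 : ((M + 1 : ℕ) : ℝ) ≤ K ^ (M + 1) := by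
        have e3 := one_add_mul_le_pow (show (-2 : ℝ) ≤ K - 1 by linarith) (M + 1)
        rw [add_sub_cancel] at e3
        have e4 : ((M + 1 : ℕ) : ℝ) * 1 ≤ ((M + 1 : ℕ) : ℝ) * (K - 1) :=
          mul_le_mul_of_nonneg_left (by linarith) (by positivity)
        linarith
      have e5 : (N1 : ℝ) ≤ ((M + 1 : ℕ) : ℝ) := by exact_mod_cast (by omega : N1 ≤ M + 1)
      linarith
    have e6 : 2 * l ≤ Real.exp (K ^ (M + 1)) := by
      rw [← Real.exp_log (show 0 < 2 * l by positivity)]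
      exact Real.exp_le_exp.mpr e1
    have e7 : K ^ (M + 2) = K * K ^ (M + 1) := by ring
    have e8 : Real.exp (-K ^ (M + 2)) ≤ Real.exp (-K ^ (M + 1)) * Real.exp (-K ^ (M + 1)) := by
      rw [← Real.exp_add]
      refine Real.exp_le_exp.mpr ?_
      have : 0 < K ^ (M + 1) := by positivity
      nlinarith
    have e9 : Real.exp (K ^ (M + 1)) * Real.exp (-K ^ (M + 1)) = 1 := by
      rw [← Real.exp_add]
      simp
    have e10 := Real.exp_pos (-K ^ (M + 1))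
    have e11 : 2 * l * Real.exp (-K ^ (M + 1)) ≤ 1 := by
      rw [← e9]
      exact mul_le_mul_of_nonneg_right e6 e10.le
    calc l * Real.exp (-K ^ (M + 2)) ≤ l * (Real.exp (-K ^ (M + 1)) * Real.exp (-K ^ (M + 1))) :=
          mul_le_mul_of_nonneg_left e8 hl0.le
      _ = (2 * l * Real.exp (-K ^ (M + 1))) * Real.exp (-K ^ (M + 1)) / 2 := by ring
      _ ≤ 1 * Real.exp (-K ^ (M + 1)) / 2 := by
          gcongr
      _ = _ := by ring
  calc mu.real {θ' | ‖g θ'‖ ≤ Real.exp (-K ^ (M + 2))}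
      ≤ mu.real {θ' | ‖(l : ℂ) * g θ'‖ ≤ Real.exp (-K ^ (M + 1)) / 2} := by
        refine measureReal_mono fun θ' hθ' => ?_
        simp only [Set.mem_ofPred_eq] at hθ' ⊢
        rw [norm_mul, hln]
        exact (mul_le_mul_of_nonneg_left hθ' hl0.le).trans hscale
    _ ≤ C * max 1 (l * B) * θ ^ M := hk
    _ = C * max 1 (l * B) / θ ^ 2 * θ ^ (M + 2) := by
        have hθ2 : θ ^ 2 ≠ 0 := by positivity
        generalize C * max 1 (l * B) = Z
        rw [pow_add, mul_comm (θ ^ M), ← mul_assoc, div_mul_cancel₀ _ hθ2]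

end

end Pool.Agent.L5helper80.QL
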