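import Pool.Agent.W767.HL.Main

/-!
# J18: integrability of a power of the logarithm from the tail
-/

set_option autoImplicit false

namespace Pool.Agent.L5helper80.QL

noncomputable section

open MeasureTheory AddCircle Complex Filter Topology Pool.Agent.W767.HL

open scoped ENNReal

theorem lp_log_abs_le {y : ℝ} (hy : 0 < y) : (ENNReal.log (ENNReal.ofReal y)).abs = ENNReal.ofReal |Real.log y| := by
  rw [ENNReal.log_ofReal_of_pos hy, EReal.abs_def]
  
theorem lp_pow_le_one_add {x : ℝ≥0∞} {p : ℝ} (hp : 0 < p) (hp1 : p ≤ 1) : x ^ p ≤ 1 + x := by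
  rcases le_total x 1 with h | h
  · exact (ENNReal.rpow_le_one h hp.le).trans le_self_add
  · calc x ^ p ≤ x ^ (1 : ℝ) := ENNReal.rpow_le_rpow_of_exponent_le h hp1
      _ = x := ENNReal.rpow_one x
      _ ≤ 1 + x := le_add_self

/-- the pointwise bound -/
theorem lp_point_bound {K : ℝ} (hK : 2 ≤ K) (N0 : ℕ) {p : ℝ} (hp : 0 < p) (hp1 : p ≤ 1) (c : ℂ) :
    (ENNReal.log ‖c‖ₑ).abs ^ p ≤ (1 + ‖c‖ₑ) + ENNReal.ofReal ((K ^ N0) ^ p) +
      ∑' N : ℕ, (if ‖c‖ ≤ Real.exp (-K ^ (N0 + N)) then ENNReal.ofReal ((K ^ (N0 + N + 1)) ^ p) else 0) := by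
  have hK0 : 0 < K := by linarith
  have hK1 : 1 ≤ K := by linarith
  rcases eq_or_ne c 0 with rfl | hc
  · -- the series diverges
    have h1 : (∑' N : ℕ, (if ‖(0 : ℂ)‖ ≤ Real.exp (-K ^ (N0 + N)) then
        ENNReal.ofReal ((K ^ (N0 + N + 1)) ^ p) else 0)) = ⊤ := by
      rw [eq_top_iff]
      calc (⊤ : ℝ≥0∞) = ∑' _ : ℕ, (1 : ℝ≥0∞) := by
            rw [ENNReal.tsum_const_eq_top_of_ne_zero one_ne_zero]
        _ ≤ _ := by
            refine ENNReal.tsum_le_tsum fun N => ?_
            rw [if_pos (by rw [norm_zero]; positivity)]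
            rw [← ENNReal.ofReal_one]
            refine ENNReal.ofReal_le_ofReal ?_
            exact Real.one_le_rpow (one_le_pow₀ hK1) hp.le
    rw [h1, add_top]
    exact le_top
  · have hpos : 0 < ‖c‖ := norm_pos_iff.2 hc
    have he : ‖c‖ₑ = ENNReal.ofReal ‖c‖ := (ofReal_norm c).symm
    rw [he, lp_log_abs_le hpos]
    rcases le_total 1 ‖c‖ with h1 | h1
    · have h2 : |Real.log ‖c‖| ≤ ‖c‖ := by
        rw [abs_of_nonneg (Real.log_nonneg h1)]
        exact (Real.log_le_sub_one_of_pos hpos).trans (by linarith)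
      calc ENNReal.ofReal |Real.log ‖c‖| ^ p ≤ ENNReal.ofReal ‖c‖ ^ p :=
            ENNReal.rpow_le_rpow (ENNReal.ofReal_le_ofReal h2) hp.le
        _ ≤ 1 + ENNReal.ofReal ‖c‖ := lp_pow_le_one_add hp hp1
        _ ≤ _ := by rw [add_assoc]; exact le_self_add
    · set y : ℝ := -Real.log ‖c‖ with hy
      have hy0 : 0 ≤ y := by rw [hy]; linarith [Real.log_nonpos hpos.le h1]
      have habs : |Real.log ‖c‖| = y := by
        rw [abs_of_nonpos (Real.log_nonpos hpos.le h1)]
      have hc2 : ‖c‖ = Real.exp (-y) := by rw [hy, neg_neg, Real.exp_log hpos]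
      rw [habs, ENNReal.ofReal_rpow_of_nonneg hy0 hp.le]
      rcases le_or_gt y (K ^ N0) with h2 | h2
      · calc ENNReal.ofReal (y ^ p) ≤ ENNReal.ofReal ((K ^ N0) ^ p) :=
              ENNReal.ofReal_le_ofReal (Real.rpow_le_rpow hy0 h2 hp.le)
          _ ≤ (1 + ENNReal.ofReal ‖c‖) + ENNReal.ofReal ((K ^ N0) ^ p) := le_add_self
          _ ≤ _ := le_self_add
      · -- find the shell
        have hex : ∃ n : ℕ, y < K ^ (N0 + n + 1) := by
          obtain ⟨n, hn⟩ := pow_unbounded_of_one_lt y (by linarith : 1 < K)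
          refine ⟨n, hn.trans_le ?_⟩
          exact pow_le_pow_right₀ hK1 (by omega)
        classical
        set n := Nat.find hex with hn
        have h3 : y < K ^ (N0 + n + 1) := Nat.find_spec hex
        have h4 : K ^ (N0 + n) ≤ y := by
          rcases Nat.eq_zero_or_pos n with h0 | h0
          · rw [h0, Nat.add_zero]; exact h2.le
          · have h5 := Nat.find_min hex (m := n - 1) (by omega)
            have h6 : N0 + (n - 1) + 1 = N0 + n := by omega
            rw [h6] at h5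
            exact not_lt.1 h5
        calc ENNReal.ofReal (y ^ p) ≤ ENNReal.ofReal ((K ^ (N0 + n + 1)) ^ p) :=
              ENNReal.ofReal_le_ofReal (Real.rpow_le_rpow hy0 h3.le hp.le)
          _ = (if ‖c‖ ≤ Real.exp (-K ^ (N0 + n)) then
                ENNReal.ofReal ((K ^ (N0 + n + 1)) ^ p) else 0) := by
              rw [if_pos]
              rw [hc2]
              exact Real.exp_le_exp.2 (by linarith)
          _ ≤ ∑' N : ℕ, (if ‖c‖ ≤ Real.exp (-K ^ (N0 + N)) then
                ENNReal.ofReal ((K ^ (N0 + N + 1)) ^ p) else 0) := ENNReal.le_tsum n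
          _ ≤ _ := le_add_self

theorem lint_log {g : Ci → ℂ} (hg : Integrable g mu) {K θ D : ℝ} (hK : 2 ≤ K) (hθ0 : 0 < θ) (hθ1 : θ < 1) (N0 : ℕ)
    (htail : ∀ N ≥ N0, mu.real {θ' | ‖g θ'‖ ≤ Real.exp (-K ^ N)} ≤ D * θ ^ N) {p : ℝ} (hp : 0 < p) (hp1 : p ≤ 1)
    (hpK : K ^ p * θ < 1) : ∫⁻ θ', (ENNReal.log ‖g θ'‖ₑ).abs ^ p ∂mu < ⊤ := by
  have hK0 : 0 < K := by linarith
  have hK1 : 1 ≤ K := by linarith
  have hD : 0 ≤ D := by
    have h1 := htail N0 le_rfl
    have h2 : 0 ≤ D * θ ^ N0 := le_trans measureReal_nonneg h1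
    exact nonneg_of_mul_nonneg_left h2 (by positivity)
  set E : ℕ → Set Ci := fun N => {θ' | ‖g θ'‖ ≤ Real.exp (-K ^ (N0 + N))} with hE
  have hEm : ∀ N, NullMeasurableSet (E N) mu := by
    intro N
    have h1 : NullMeasurableSet ((fun θ' => ‖g θ'‖) ⁻¹' Set.Iic (Real.exp (-K ^ (N0 + N)))) mu :=
      hg.aestronglyMeasurable.norm.aemeasurable.nullMeasurable measurableSet_Iic
    have h2 : E N = (fun θ' => ‖g θ'‖) ⁻¹' Set.Iic (Real.exp (-K ^ (N0 + N))) := rfl
    rw [h2]
    exact h1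
  have hEmu : ∀ N, mu (E N) ≤ ENNReal.ofReal (D * θ ^ (N0 + N)) := by
    intro N
    have h1 : mu.real (E N) ≤ D * θ ^ (N0 + N) := htail (N0 + N) (Nat.le_add_right N0 N)
    rw [measureReal_def] at h1
    rw [← ENNReal.ofReal_toReal (measure_ne_top mu (E N))]
    exact ENNReal.ofReal_le_ofReal h1
  calc ∫⁻ θ', (ENNReal.log ‖g θ'‖ₑ).abs ^ p ∂mu
      ≤ ∫⁻ θ', ((1 + ‖g θ'‖ₑ) + ENNReal.ofReal ((K ^ N0) ^ p) +
          ∑' N : ℕ, (E N).indicator (fun _ => ENNReal.ofReal ((K ^ (N0 + N + 1)) ^ p)) θ') ∂mu := by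
        refine lintegral_mono fun θ' => ?_
        refine (lp_point_bound hK N0 hp hp1 (g θ')).trans (le_of_eq ?_)
        congr 1
    _ = (∫⁻ θ', (1 + ‖g θ'‖ₑ) ∂mu + ∫⁻ _, ENNReal.ofReal ((K ^ N0) ^ p) ∂mu) +
          ∑' N : ℕ, ∫⁻ θ', (E N).indicator (fun _ => ENNReal.ofReal ((K ^ (N0 + N + 1)) ^ p)) θ' ∂mu := by
        rw [lintegral_add_right', lintegral_add_right _ measurable_const, lintegral_tsum]
        · intro N
          exact aemeasurable_const.indicator₀ (hEm N)
        · refine AEMeasurable.tsum fun N => ?_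
          exact aemeasurable_const.indicator₀ (hEm N)
    _ < ⊤ := by
        refine ENNReal.add_lt_top.2 ⟨ENNReal.add_lt_top.2 ⟨?_, ?_⟩, ?_⟩
        · rw [lintegral_add_left measurable_const, lintegral_const, measure_univ, one_mul]
          exact ENNReal.add_lt_top.2 ⟨ENNReal.one_lt_top, hg.2⟩
        · rw [lintegral_const, measure_univ, mul_one]
          exact ENNReal.ofReal_lt_top
        · have hle : ∀ N : ℕ, ∫⁻ θ', (E N).indicator (fun _ => ENNReal.ofReal ((K ^ (N0 + N + 1)) ^ p)) θ' ∂mu ≤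
              ENNReal.ofReal (((K ^ (N0 + 1)) ^ p * (D * θ ^ N0)) * (K ^ p * θ) ^ N) := by
            intro N
            refine (lintegral_indicator_const_le _ _).trans ?_
            refine (mul_le_mul_right (hEmu N) _).trans ?_
            rw [← ENNReal.ofReal_mul (by positivity)]
            refine ENNReal.ofReal_le_ofReal (le_of_eq ?_)
            have e1 : K ^ (N0 + N + 1) = K ^ (N0 + 1) * K ^ N := by ring
            rw [e1, Real.mul_rpow (by positivity) (by positivity), ← Real.rpow_pow_comm hK0.le p N]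
            ring
          refine lt_of_le_of_lt (ENNReal.tsum_le_tsum hle) ?_
          rw [← ENNReal.ofReal_tsum_of_nonneg (fun N => by positivity)]
          · exact ENNReal.ofReal_lt_top
          · exact (summable_geometric_of_lt_one (by positivity) hpK).mul_left _

end

end Pool.Agent.L5helper80.QL
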