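import Pool.Agent.L5helper80.QL.Reach
import Pool.Agent.L5helper80.QL.Chain

/-!
# J14a: a point near `z` where the continued function is not small

SKETCH. `z = e^{-h_k/64}ζ`, `x_k = ev (cont (h k) G)`. `reach` with `t = h_k/64` (`h_n/512 ≤ t ≤ h_n`): with `s = C1 β h_n - h_k/64`, `w1 = e^{-s}ζ`:
`∫_{bad} P_{w1} ≤ 1 - κ`, bad `= {θ : |x_k(e^{-h_k/64} ze θ)| ≤ e^{-C2 X}}`. Far points: for `R = 100/κ`, `∫_{|ze θ - ζ| > R s} P_{w1} ≤ 48/R < κ`: compare with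
`w_R = e^{-Rs}ζ`: `P_{w1}(ζ') ≤ 2s/((1-1/R)²|ζ'-ζ|²)`, `P_{w_R}(ζ') ≥ (1-e^{-2Rs})/(2|ζ'-ζ|)²`, and `1-e^{-2Rs} ≥ Rs/3` as `Rs < |ζ'-ζ| ≤ 2`
(nothing to do if no such `ζ'`). So there is a good `ζ'` with `|ζ'-ζ| ≤ R s ≤ 8 R C1 β h_k`.
Chain (J8) for `f = x_k` (analytic off `0`, `Ω = {0}ᶜ`), `ρ = h_k/4096`, points `z_i = e^{-h_k/64} ζ e^{iφ·i/I}` on the circle from `z` to `e^{-h_k/64}ζ'`
(`ζ' = ζe^{iφ}`, `|φ| ≤ (π/2)|ζ'-ζ|`), `I ≤ C β`. Points `x` in `closedBall (z_i) (4ρ)` have height in `[h_k/128, h_k/4]`, so `|x_k(x)| ≤ S(x) + C`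
(cont_le) and by Pz_harnack `S(x) ≤ C β² S(z) ≤ C β² A` (`|x - z| ≤ C β h_k`, `1 - |x| ≥ h_k/200`). So `a = log(Cβ²A + C) ≤ C X`
(`β ≤ X`, `log A ≤ X`, `1 ≤ X`), `b = C2 X`, and `2^I (b + a + 4) ≤ X e^{Cβ}`.
-/

set_option autoImplicit false

namespace Pool.Agent.L5helper80.QL

noncomputable section

open MeasureTheory AddCircle Complex Filter Topology Pool.Agent.W767.HL

lemma NearCore_diff (f : ℤ →₀ ℂ) : DifferentiableOn ℂ (ev f) {0}ᶜ := by
  have : ev f = fun z => ∑ n ∈ f.support, f n * z ^ n := by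
    ext z
    rw [ev_eq_sum, Finsupp.sum]
  rw [this]
  refine DifferentiableOn.fun_sum fun n hn => ?_
  exact (differentiableOn_zpow n _ (Or.inl (by simp))).const_mul _

lemma NearCore_cont (f : ℤ →₀ ℂ) {r : ℝ} (hr : r ≠ 0) : Continuous fun θ => ev f ((r : ℂ) * ze θ) :=
  (NearCore_diff f).continuousOn.comp_continuous (continuous_const.mul continuous_ze)
    (fun θ => by
      simp only [Set.mem_compl_iff, Set.mem_singleton_iff, mul_eq_zero, not_or]
      exact ⟨by exact_mod_cast hr, ze_ne θ⟩)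

lemma NearCore_nrm {r : ℝ} (hr : 0 ≤ r) {ζ : ℂ} (hζ : ‖ζ‖ = 1) : ‖(r : ℂ) * ζ‖ = r := by
  rw [norm_mul, hζ, mul_one, Complex.norm_real, Real.norm_of_nonneg hr]

lemma NearCore_pt {κ s : ℝ} (hκ : 0 < κ) (hκ1 : κ < 1) (hs : 0 < s) {ζ : ℂ} (hζ : ‖ζ‖ = 1)
    (h2 : 100 / κ * s < 2) {θ : Ci} (hθ : 100 / κ * s < ‖ze θ - ζ‖) :
    P ((Real.exp (-s) : ℝ) * ζ) θ ≤ κ / 4 * P ((Real.exp (-(100 / κ * s)) : ℝ) * ζ) θ := by
  set R := 100 / κ with hR
  have hR0 : 100 < R := by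
    rw [hR, lt_div_iff₀ hκ]
    nlinarith
  set d := ‖ze θ - ζ‖ with hd
  have hRs : 0 < R * s := by positivity
  have hd0 : 0 < d := hRs.trans hθ
  have e1 : ∀ u : ℝ, 0 ≤ u → ‖ζ - (Real.exp (-u) : ℝ) * ζ‖ ≤ u := by
    intro u hu
    have : ζ - (Real.exp (-u) : ℝ) * ζ = ((1 - Real.exp (-u) : ℝ) : ℂ) * ζ := by
      push_cast
      ring
    have h1 : Real.exp (-u) ≤ 1 := Real.exp_le_one_iff.2 (by linarith)
    rw [this, NearCore_nrm (by linarith) hζ]
    linarith [Real.add_one_le_exp (-u)]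
  have e2 : ∀ u : ℝ, 0 ≤ u → d - u ≤ ‖ze θ - (Real.exp (-u) : ℝ) * ζ‖ := by
    intro u hu
    have h1 : ze θ - ζ = (ze θ - (Real.exp (-u) : ℝ) * ζ) - (ζ - (Real.exp (-u) : ℝ) * ζ) := by ring
    have h2 := norm_sub_le (ze θ - (Real.exp (-u) : ℝ) * ζ) (ζ - (Real.exp (-u) : ℝ) * ζ)
    rw [← h1] at h2
    linarith [e1 u hu]
  have e3 : ∀ u : ℝ, 0 ≤ u → ‖ze θ - (Real.exp (-u) : ℝ) * ζ‖ ≤ d + u := by
    intro u hu
    have h1 : ze θ - (Real.exp (-u) : ℝ) * ζ = (ze θ - ζ) + (ζ - (Real.exp (-u) : ℝ) * ζ) := by ring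
    have h2 := norm_add_le (ze θ - ζ) (ζ - (Real.exp (-u) : ℝ) * ζ)
    rw [← h1] at h2
    linarith [e1 u hu]
  have hsd : s ≤ d / 100 := by
    rw [le_div_iff₀ (by norm_num)]
    nlinarith
  unfold P
  rw [NearCore_nrm (Real.exp_pos _).le hζ, NearCore_nrm (Real.exp_pos _).le hζ]
  have hD1 : 0.99 * d ≤ ‖ze θ - (Real.exp (-s) : ℝ) * ζ‖ := by
    have := e2 s hs.le
    linarith
  have hD2 : ‖ze θ - (Real.exp (-(R * s)) : ℝ) * ζ‖ ≤ 2 * d := by
    have := e3 (R * s) hRs.le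
    linarith
  have hD2' : 0 < ‖ze θ - (Real.exp (-(R * s)) : ℝ) * ζ‖ := by
    have := e2 (R * s) hRs.le
    linarith
  have hn1 : 1 - Real.exp (-s) ^ 2 ≤ 2 * s := by
    rw [← Real.exp_nat_mul]
    have := Real.add_one_le_exp ((2 : ℕ) * -s)
    push_cast at this ⊢
    linarith
  have hn2 : 2 * (R * s) / 5 ≤ 1 - Real.exp (-(R * s)) ^ 2 := by
    rw [← Real.exp_nat_mul]
    set u := R * s
    have h3 : Real.exp ((2 : ℕ) * -u) = (Real.exp (2 * u))⁻¹ := by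
      rw [← Real.exp_neg]
      congr 1
      push_cast
      ring
    have h4 := Real.add_one_le_exp (2 * u)
    have h5 : (Real.exp (2 * u))⁻¹ ≤ (2 * u + 1)⁻¹ := by
      gcongr
    rw [h3]
    have h6 : (2 * u + 1)⁻¹ ≤ 1 - 2 * u / 5 := by
      rw [inv_le_iff_one_le_mul₀ (by positivity)]
      nlinarith
    linarith
  have hA : (1 - Real.exp (-s) ^ 2) / ‖ze θ - (Real.exp (-s) : ℝ) * ζ‖ ^ 2 ≤ 2 * s / (0.99 * d) ^ 2 := by
    have h0 : 0 ≤ 1 - Real.exp (-s) ^ 2 := by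
      have h1 : Real.exp (-s) ≤ 1 := Real.exp_le_one_iff.2 (by linarith)
      have h2 := Real.exp_pos (-s)
      nlinarith
    gcongr
  have hB : 2 * (R * s) / 5 / (2 * d) ^ 2 ≤
      (1 - Real.exp (-(R * s)) ^ 2) / ‖ze θ - (Real.exp (-(R * s)) : ℝ) * ζ‖ ^ 2 := by
    have h0 : 0 ≤ 2 * (R * s) / 5 := by positivity
    have h1 := h0.trans hn2
    gcongr
  refine hA.trans (le_trans ?_ (mul_le_mul_of_nonneg_left hB (by positivity)))
  have hRk : κ * R = 100 := by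
    rw [hR]
    field_simp
  have : κ / 4 * (2 * (R * s) / 5 / (2 * d) ^ 2) = (κ * R) * s / (40 * d ^ 2) := by
    field_simp
    ring
  rw [this, hRk, div_le_div_iff₀ (by positivity) (by positivity)]
  nlinarith [mul_pos hs (pow_pos hd0 2)]

lemma NearCore_far {κ s : ℝ} (hκ : 0 < κ) (hκ1 : κ < 1) (hs : 0 < s) {ζ : ℂ} (hζ : ‖ζ‖ = 1) :
    ∫ θ in {θ : Ci | 100 / κ * s < ‖ze θ - ζ‖}, P ((Real.exp (-s) : ℝ) * ζ) θ ∂mu ≤ κ / 4 := by
  by_cases h2 : 2 ≤ 100 / κ * s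
  · have : {θ : Ci | 100 / κ * s < ‖ze θ - ζ‖} = ∅ := by
      ext θ
      simp only [Set.mem_ofPred_eq, Set.mem_empty_iff_false, iff_false, not_lt]
      have := norm_sub_le (ze θ) ζ
      rw [norm_ze, hζ] at this
      linarith
    rw [this]
    simp
    positivity
  · push Not at h2
    have hw : ∀ u : ℝ, 0 < u → ‖((Real.exp (-u) : ℝ) : ℂ) * ζ‖ < 1 := by
      intro u hu
      rw [NearCore_nrm (Real.exp_pos _).le hζ]
      exact Real.exp_lt_one_iff.2 (by linarith)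
    have hRs : 0 < 100 / κ * s := by positivity
    have hmeas : MeasurableSet {θ : Ci | 100 / κ * s < ‖ze θ - ζ‖} :=
      (isOpen_lt continuous_const (continuous_ze.sub continuous_const).norm).measurableSet
    have i1 := integrable_of_cont (continuous_P (hw s hs))
    have i2 := (integrable_of_cont (continuous_P (hw _ hRs))).const_mul (κ / 4)
    calc _ ≤ ∫ θ in {θ : Ci | 100 / κ * s < ‖ze θ - ζ‖},
          κ / 4 * P ((Real.exp (-(100 / κ * s)) : ℝ) * ζ) θ ∂mu :=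
        setIntegral_mono_on i1.integrableOn i2.integrableOn hmeas
          (fun θ hθ => NearCore_pt hκ hκ1 hs hζ h2 hθ)
      _ ≤ ∫ θ, κ / 4 * P ((Real.exp (-(100 / κ * s)) : ℝ) * ζ) θ ∂mu :=
        setIntegral_le_integral i2 (Filter.Eventually.of_forall fun θ =>
          mul_nonneg (by positivity) (P_pos (hw _ hRs) θ).le)
      _ = κ / 4 := by rw [integral_const_mul, integral_P (hw _ hRs), mul_one]

lemma NearCore_ex {κ s : ℝ} (hκ : 0 < κ) (hκ1 : κ < 1) (hs : 0 < s) {ζ : ℂ} (hζ : ‖ζ‖ = 1)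
    {B : Set Ci} (hB : MeasurableSet B) (hint : ∫ θ in B, P ((Real.exp (-s) : ℝ) * ζ) θ ∂mu ≤ 1 - κ) :
    ∃ θ, θ ∉ B ∧ ‖ze θ - ζ‖ ≤ 100 / κ * s := by
  by_contra hcon
  push Not at hcon
  have hw : ‖((Real.exp (-s) : ℝ) : ℂ) * ζ‖ < 1 := by
    rw [NearCore_nrm (Real.exp_pos _).le hζ]
    exact Real.exp_lt_one_iff.2 (by linarith)
  have i1 := integrable_of_cont (continuous_P hw)
  have h1 := integral_add_compl hB i1
  rw [integral_P hw] at h1
  have h2 : ∫ θ in Bᶜ, P ((Real.exp (-s) : ℝ) * ζ) θ ∂mu ≤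
      ∫ θ in {θ : Ci | 100 / κ * s < ‖ze θ - ζ‖}, P ((Real.exp (-s) : ℝ) * ζ) θ ∂mu :=
    setIntegral_mono_set i1.integrableOn (Filter.Eventually.of_forall fun θ => (P_pos hw θ).le)
      (Filter.Eventually.of_forall fun θ hθ => hcon θ hθ)
  have h3 := NearCore_far hκ hκ1 hs hζ
  linarith

/-- Chord between two points of the unit circle. -/
lemma NearCore_arc (x y : ℝ) : ‖Complex.exp (x * I) - Complex.exp (y * I)‖ ≤ |x - y| := by
  have h : Complex.exp (x * I) - Complex.exp (y * I) =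
      Complex.exp (y * I) * (Complex.exp (I * ((x - y : ℝ) : ℂ)) - 1) := by
    rw [mul_sub, ← Complex.exp_add, mul_one]
    congr 2
    push_cast
    ring
  rw [h, norm_mul, Complex.norm_exp_ofReal_mul_I, one_mul]
  simpa using Real.norm_exp_I_mul_ofReal_sub_one_le (x := x - y)

lemma NearCore_height {hk : ℝ} (h0 : 0 < hk) (h1 : hk ≤ 1) {y : ℂ} {x : ℂ} (hy : ‖y‖ = Real.exp (-(hk / 64)))
    (hx : ‖x - y‖ ≤ hk / 1024) :
    ∃ t, ‖x‖ = Real.exp (-t) ∧ hk / 128 ≤ t ∧ t ≤ hk / 4 := by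
  have hxl : Real.exp (-(hk / 4)) ≤ ‖x‖ := by
    have h2 : ‖y‖ ≤ ‖x‖ + ‖x - y‖ := by
      have := norm_sub_le x (x - y)
      rwa [sub_sub_cancel] at this
    have h3 : Real.exp (-(hk / 4)) ≤ 1 - hk / 5 := by
      have h4 := Real.add_one_le_exp (hk / 4)
      rw [Real.exp_neg]
      have h5 : (Real.exp (hk / 4))⁻¹ ≤ (hk / 4 + 1)⁻¹ := by gcongr
      have h6 : (hk / 4 + 1)⁻¹ ≤ 1 - hk / 5 := by
        rw [inv_le_iff_one_le_mul₀ (by positivity)]
        nlinarith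
      exact h5.trans h6
    have h4 := Real.add_one_le_exp (-(hk / 64))
    linarith
  have hxu : ‖x‖ ≤ Real.exp (-(hk / 128)) := by
    have h2 : ‖x‖ ≤ ‖y‖ + ‖x - y‖ := by
      have := norm_add_le y (x - y)
      rwa [add_sub_cancel] at this
    have h3 : Real.exp (-(hk / 128)) = Real.exp (-(hk / 64)) * Real.exp (hk / 128) := by
      rw [← Real.exp_add]
      congr 1
      ring
    have h4 := Real.add_one_le_exp (hk / 128)
    have h5 := Real.add_one_le_exp (-(hk / 64))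
    have h6 : 1 / 2 ≤ Real.exp (-(hk / 64)) := by linarith
    rw [h3]
    nlinarith [Real.exp_pos (-(hk / 64)), Real.exp_pos (hk / 128)]
  have hx0 : 0 < ‖x‖ := (Real.exp_pos _).trans_le hxl
  refine ⟨-Real.log ‖x‖, by rw [neg_neg, Real.exp_log hx0], ?_, ?_⟩
  · have := Real.log_le_log hx0 hxu
    rw [Real.log_exp] at this
    linarith
  · have := Real.log_le_log (Real.exp_pos _) hxl
    rw [Real.log_exp] at this
    linarith

lemma NearCore_one_sub {u : ℝ} (h0 : 0 ≤ u) (h1 : u ≤ 1 / 32) : 32 / 33 * u ≤ 1 - Real.exp (-u) := by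
  have h4 := Real.add_one_le_exp u
  rw [Real.exp_neg]
  have h5 : (Real.exp u)⁻¹ ≤ (u + 1)⁻¹ := by gcongr
  have h6 : (u + 1)⁻¹ ≤ 1 - 32 / 33 * u := by
    rw [inv_le_iff_one_le_mul₀ (by positivity)]
    nlinarith
  linarith

lemma NearCore_S (G : ℤ →₀ ℂ) {hk L t : ℝ} (h0 : 0 < hk) (h1 : hk ≤ 1) (hL : 1 ≤ L) {x z : ℂ}
    (hz : ‖z‖ = Real.exp (-(hk / 64))) (hx : ‖x‖ = Real.exp (-t)) (ht1 : hk / 128 ≤ t) (ht2 : t ≤ hk / 4)
    (hxz : ‖x - z‖ ≤ L * hk) : S G x ≤ 20 * (201 * L) ^ 2 * S G z := by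
  have hz1 : ‖z‖ < 1 := by
    rw [hz]
    exact Real.exp_lt_one_iff.2 (by linarith)
  have hx1 : ‖x‖ < 1 := by
    rw [hx]
    exact Real.exp_lt_one_iff.2 (by linarith)
  have hS0 := S_nonneg G hz1
  have hH := Pz_harnack (u := fun θ => ‖ev G (ze θ)‖) (continuous_ev_ze G).norm (fun θ => norm_nonneg _) hx1 hz1
  refine hH.trans (mul_le_mul_of_nonneg_right ?_ hS0)
  have a1 : 1 - ‖x‖ ^ 2 ≤ hk / 2 := by
    rw [hx, ← Real.exp_nat_mul]
    have := Real.add_one_le_exp ((2 : ℕ) * -t)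
    push_cast at this ⊢
    linarith
  have a2 : hk / 40 ≤ 1 - ‖z‖ ^ 2 := by
    rw [hz, ← Real.exp_nat_mul]
    have := NearCore_one_sub (u := hk / 32) (by positivity) (by linarith)
    have e : ((2 : ℕ) : ℝ) * -(hk / 64) = -(hk / 32) := by
      push_cast
      ring
    rw [e]
    linarith
  have a3 : hk / 200 ≤ 1 - ‖x‖ := by
    rw [hx]
    have := NearCore_one_sub (u := hk / 128) (by positivity) (by linarith)
    have h2 : Real.exp (-t) ≤ Real.exp (-(hk / 128)) := Real.exp_le_exp.2 (by linarith)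
    linarith
  have a0 : 0 ≤ 1 - ‖x‖ ^ 2 := by
    nlinarith [norm_nonneg x]
  have b1 : (1 - ‖x‖ ^ 2) / (1 - ‖z‖ ^ 2) ≤ 20 := by
    rw [div_le_iff₀ (by linarith)]
    linarith
  have b2 : 1 + ‖x - z‖ / (1 - ‖x‖) ≤ 201 * L := by
    have : ‖x - z‖ / (1 - ‖x‖) ≤ 200 * L := by
      rw [div_le_iff₀ (by linarith)]
      nlinarith
    linarith
  have b3 : 0 ≤ 1 + ‖x - z‖ / (1 - ‖x‖) := by
    have : 0 ≤ ‖x - z‖ / (1 - ‖x‖) := div_nonneg (norm_nonneg _) (by linarith)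
    linarith
  have b4 : 0 ≤ (1 - ‖x‖ ^ 2) / (1 - ‖z‖ ^ 2) := div_nonneg a0 (by linarith)
  exact mul_le_mul b1 (pow_le_pow_left₀ b3 b2 2) (by positivity) (by norm_num)

theorem near_core (q : ℝ) (hq : 1 < q) : ∃ C : ℝ, 1 ≤ C ∧ ∀ (m : ℕ → ℕ) (G : ℤ →₀ ℂ)
    (h Λ : ℕ → ℝ) (N n k : ℕ) (T X β A : ℝ) (z : ℂ), Data q m G h Λ N → n ≤ k → k ≤ N → 256 ≤ Λ k → h n ≤ 8 * h k →
    mass (non (2 * h n) G) = Real.exp (-(2 * T)) → T ≤ X → 1 + Real.log A ≤ X → X + 1 ≤ Λ k → 1 ≤ A → 1 ≤ β → β ≤ X →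
    X ≤ β * max 1 T → ‖z‖ = Real.exp (-(h k / 64)) → S G z ≤ A → S G 0 ≤ A →
    ∃ x, ‖x - z‖ ≤ h k / 4096 ∧ Real.exp (-(X * Real.exp (C * β))) ≤ ‖ev (cont (h k) G) x‖ := by
  obtain ⟨κ, C1, C2, hκ, hκ1, hC2, hC1, hreach⟩ := reach q hq
  obtain ⟨C0, hC0, hcont⟩ := cont_le q hq
  set R := 100 / κ with hR
  have hR0 : 100 < R := by
    rw [hR, lt_div_iff₀ hκ]
    linarith
  set C3 := 65536 * R * C1 with hC3
  set C4 := 1 + 16 * R * C1 with hC4
  set C5 := 20 * (201 * C4) ^ 2 with hC5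
  set C6 := C2 + Real.log (C5 + C0) + 7 with hC6
  have hC30 : 0 < C3 := by positivity
  have hC41 : 1 ≤ C4 := by
    have : 0 < R * C1 := by positivity
    rw [hC4]
    linarith
  have hC51 : 1 ≤ C5 := by
    have e : 1 ≤ (201 * C4) ^ 2 := one_le_pow₀ (by linarith)
    rw [hC5]
    linarith
  have hlog5 : 0 ≤ Real.log (C5 + C0) := Real.log_nonneg (by linarith)
  refine ⟨C3 + 2 + C6, by linarith, ?_⟩
  intro m G h Λ N n k T X β A z D hnk hkN hΛ hh hmass hTX hAX hXΛ hA hβ hβX hXβ hz hSz hS0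
  have h0 : 0 < h k := D.hpos k
  have h1 : h k ≤ 1 := (D.hanti (Nat.zero_le k)).trans D.h1
  have hkn : h k ≤ h n := D.hanti hnk
  have hX1 : 1 ≤ X := hβ.trans hβX
  set r0 := Real.exp (-(h k / 64)) with hr0
  have hr0p : 0 < r0 := Real.exp_pos _
  have hr01 : r0 ≤ 1 := Real.exp_le_one_iff.2 (by linarith)
  obtain ⟨ζ, hζ, hzζ⟩ : ∃ ζ : ℂ, ‖ζ‖ = 1 ∧ z = (r0 : ℂ) * ζ := by
    refine ⟨z / r0, ?_, ?_⟩
    · rw [norm_div, hz, Complex.norm_real, Real.norm_of_nonneg hr0p.le, div_self hr0p.ne']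
    · have : (r0 : ℂ) ≠ 0 := by exact_mod_cast hr0p.ne'
      rw [mul_div_cancel₀ _ this]
  have hre := hreach m G h Λ N n k T X β A (h k / 64) ζ D hnk hkN hΛ hmass hTX hAX hXΛ hA hβ hβX hXβ hζ
    (by linarith) (by linarith) (by rw [← hr0, ← hzζ]; exact hSz) hS0
  set s := C1 * β * h n - h k / 64 with hs
  have hs0 : 0 < s := by
    have : 1 * 1 * h k ≤ C1 * β * h n := by gcongr; linarith
    rw [hs]
    linarith
  have hmeas : MeasurableSet {θ : Ci | ‖ev (cont (h k) G) (Real.exp (-(h k / 64)) * ze θ)‖ ≤ Real.exp (-(C2 * X))} :=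
    (isClosed_le (NearCore_cont _ (Real.exp_pos _).ne').norm continuous_const).measurableSet
  obtain ⟨θ, hθB, hθ⟩ := NearCore_ex hκ hκ1 hs0 hζ hmeas hre
  rw [Set.mem_ofPred_eq, not_le] at hθB
  -- the arc
  set φ := Complex.arg (ze θ / ζ) with hφ
  have hζ0 : ζ ≠ 0 := by
    intro h2
    rw [h2, norm_zero] at hζ
    exact zero_ne_one hζ
  have hexp : Complex.exp (φ * I) = ze θ / ζ := by
    have h2 := Complex.norm_mul_exp_arg_mul_I (ze θ / ζ)
    rw [norm_div, norm_ze, hζ, div_one, Complex.ofReal_one, one_mul] at h2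
    exact h2
  have hφle : |φ| ≤ 16 * R * C1 * β * h k := by
    have h2 := Complex.angle_le_mul_norm_sub (norm_ze θ) hζ
    rw [Complex.angle_eq_abs_arg (ze_ne θ) hζ0] at h2
    have h3 : Real.pi / 2 * ‖ze θ - ζ‖ ≤ 2 * (R * s) := by
      have := Real.pi_le_four
      gcongr
      linarith
    have h4 : s ≤ C1 * β * (8 * h k) := by
      have : C1 * β * h n ≤ C1 * β * (8 * h k) := by gcongr
      rw [hs]
      linarith
    have h5 : 2 * (R * s) ≤ 2 * (R * (C1 * β * (8 * h k))) := by gcongr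
    calc |φ| ≤ 2 * (R * (C1 * β * (8 * h k))) := h2.trans (h3.trans h5)
      _ = _ := by ring
  set ρ := h k / 4096 with hρ
  have hρ0 : 0 < ρ := by positivity
  obtain ⟨Is, hIs1, hIs2, hIs3⟩ : ∃ Is : ℕ, 1 ≤ Is ∧ |φ| / Is ≤ ρ ∧ (Is : ℝ) ≤ C3 * β + 2 := by
    refine ⟨⌈|φ| / ρ⌉₊ + 1, by omega, ?_, ?_⟩
    · have h2 := Nat.le_ceil (|φ| / ρ)
      rw [div_le_iff₀ hρ0] at h2
      rw [div_le_iff₀ (by positivity)]
      push_cast
      nlinarith
    · have h2 := Nat.ceil_lt_add_one (a := |φ| / ρ) (by positivity)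
      have h3 : |φ| / ρ ≤ C3 * β := by
        rw [div_le_iff₀ hρ0]
        calc |φ| ≤ 16 * R * C1 * β * h k := hφle
          _ = C3 * β * ρ := by rw [hC3, hρ]; ring
      push_cast
      linarith
  have hIsp : (0 : ℝ) < Is := by exact_mod_cast hIs1
  let w : ℕ → ℂ := fun i => (r0 : ℂ) * ζ * Complex.exp ((φ * (i / Is) : ℝ) * I)
  have hw0 : w 0 = z := by
    simp only [w, Nat.cast_zero, zero_div, mul_zero, Complex.ofReal_zero, zero_mul, Complex.exp_zero, mul_one]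
    exact hzζ.symm
  have hwI : w Is = (r0 : ℂ) * ze θ := by
    simp only [w]
    rw [div_self hIsp.ne', mul_one, hexp]
    field_simp
  have hwn : ∀ i, ‖w i‖ = r0 := by
    intro i
    simp only [w]
    rw [norm_mul, NearCore_nrm hr0p.le hζ, Complex.norm_exp_ofReal_mul_I, mul_one]
  have hwd : ∀ i j : ℕ, ‖w i - w j‖ ≤ |φ * (i / Is) - φ * (j / Is)| := by
    intro i j
    have h2 : w i - w j = (r0 : ℂ) * ζ * (Complex.exp ((φ * (i / Is) : ℝ) * I) - Complex.exp ((φ * (j / Is) : ℝ) * I)) := by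
      simp only [w]
      ring
    rw [h2, norm_mul, NearCore_nrm hr0p.le hζ]
    calc r0 * _ ≤ 1 * _ := by gcongr
      _ = _ := one_mul _
      _ ≤ _ := NearCore_arc _ _
  set Lc := C4 * β with hLc
  have hLc1 : 1 ≤ Lc := one_le_mul_of_one_le_of_one_le hC41 hβ
  set a := Real.log ((C5 + C0) * β ^ 2 * A) with ha
  have hin : 1 ≤ (C5 + C0) * β ^ 2 * A := by
    have h2 : 1 ≤ (C5 + C0) := by linarith
    have h3 : 1 ≤ β ^ 2 := one_le_pow₀ hβ
    exact one_le_mul_of_one_le_of_one_le (one_le_mul_of_one_le_of_one_le h2 h3) hA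
  have ha0 : 0 ≤ a := Real.log_nonneg hin
  have haX : a ≤ Real.log (C5 + C0) + 3 * X := by
    have hβ0 : 0 < β := by linarith
    have hA0 : 0 < A := by linarith
    have h2 : a = Real.log (C5 + C0) + 2 * Real.log β + Real.log A := by
      rw [ha, Real.log_mul (by positivity) hA0.ne', Real.log_mul (by positivity) (by positivity), Real.log_pow]
      push_cast
      ring
    have h3 := Real.log_le_sub_one_of_pos hβ0
    rw [h2]
    linarith
  have hbound : ∀ i ≤ Is, ∀ x ∈ Metric.closedBall (w i) (4 * ρ), ‖ev (cont (h k) G) x‖ ≤ Real.exp a := by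
    intro i hi x hx
    rw [Metric.mem_closedBall, dist_eq_norm] at hx
    have hx2 : ‖x - w i‖ ≤ h k / 1024 := by
      rw [hρ] at hx
      linarith
    obtain ⟨t, ht, ht1, ht2⟩ := NearCore_height h0 h1 (hwn i) hx2
    have hc := hcont m G (h k) t x D.lac D.spec (fun j hj => (D.small j hj).trans (Real.exp_le_one_iff.2 (by norm_num)))
      h0 ((D.massle k hkN).trans (Real.exp_le_exp.2 (by linarith))) ht ht1 ht2 h1
    have hxz : ‖x - z‖ ≤ Lc * h k := by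
      have h2 : x - z = (x - w i) + (w i - w 0) := by
        rw [hw0]
        ring
      have h3 : ‖w i - w 0‖ ≤ |φ| := by
        refine (hwd i 0).trans ?_
        rw [Nat.cast_zero, zero_div, mul_zero, sub_zero, abs_mul]
        have h4 : |(i : ℝ) / Is| ≤ 1 := by
          rw [abs_of_nonneg (by positivity), div_le_one hIsp]
          exact_mod_cast hi
        calc |φ| * |(i : ℝ) / Is| ≤ |φ| * 1 := by gcongr
          _ = |φ| := mul_one _
      rw [h2]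
      refine (norm_add_le _ _).trans ?_
      have h5 : Lc * h k = β * h k + 16 * R * C1 * β * h k := by
        rw [hLc, hC4]
        ring
      have h6 : 1 * h k ≤ β * h k := by gcongr
      rw [h5]
      linarith
    have hS := NearCore_S G h0 h1 hLc1 hz ht ht1 ht2 hxz
    have hS2 : S G x ≤ C5 * β ^ 2 * A := by
      refine hS.trans ?_
      have h2 : 20 * (201 * Lc) ^ 2 = C5 * β ^ 2 := by
        rw [hLc, hC5]
        ring
      rw [h2]
      gcongr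
    rw [ha, Real.exp_log (by linarith)]
    refine hc.trans ?_
    have h3 : 1 ≤ β ^ 2 := one_le_pow₀ hβ
    have h4 : 1 ≤ β ^ 2 * A := one_le_mul_of_one_le_of_one_le h3 hA
    have h5 : C0 * 1 ≤ C0 * (β ^ 2 * A) := by gcongr
    calc S G x + C0 ≤ C5 * β ^ 2 * A + C0 * (β ^ 2 * A) := by linarith
      _ = _ := by ring
  have hsub : ∀ i ≤ Is, Metric.closedBall (w i) (4 * ρ) ⊆ ({0}ᶜ : Set ℂ) := by
    intro i hi x hx
    rw [Metric.mem_closedBall, dist_eq_norm] at hx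
    have hx2 : ‖x - w i‖ ≤ h k / 1024 := by
      rw [hρ] at hx
      linarith
    obtain ⟨t, ht, -, -⟩ := NearCore_height h0 h1 (hwn i) hx2
    simp only [Set.mem_compl_iff, Set.mem_singleton_iff]
    intro h2
    rw [h2, norm_zero] at ht
    exact (Real.exp_pos (-t)).ne ht
  have hstep : ∀ i < Is, ‖w (i + 1) - w i‖ ≤ ρ := by
    intro i hi
    refine (hwd (i + 1) i).trans ?_
    have h2 : φ * (((i + 1 : ℕ) : ℝ) / Is) - φ * ((i : ℝ) / Is) = φ / Is := by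
      push_cast
      field_simp
      ring
    rw [h2, abs_div, abs_of_pos hIsp]
    exact hIs2
  have hend : Real.exp (-(C2 * X)) ≤ ‖ev (cont (h k) G) (w Is)‖ := by
    rw [hwI]
    exact hθB.le
  obtain ⟨x, hx, hxf⟩ := chain (isOpen_compl_singleton) (NearCore_diff (cont (h k) G)) hρ0 ha0
    (by positivity : 0 ≤ C2 * X) Is w hsub hbound hstep hend
  rw [hw0, Metric.mem_closedBall, dist_eq_norm] at hx
  refine ⟨x, hx, le_trans (Real.exp_le_exp.2 (neg_le_neg ?_)) hxf⟩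
  have h2 : C2 * X + a + 4 ≤ X * C6 := by
    have e : X * C6 = C2 * X + Real.log (C5 + C0) * X + 7 * X := by
      rw [hC6]
      ring
    have e2 := mul_le_mul_of_nonneg_left hX1 hlog5
    rw [e]
    linarith
  have h3 : (2 : ℝ) ^ Is ≤ Real.exp (C3 * β + 2) := by
    calc (2 : ℝ) ^ Is ≤ (Real.exp 1) ^ Is := by
          gcongr
          linarith [Real.add_one_le_exp (1 : ℝ)]
      _ = Real.exp Is := by rw [← Real.exp_nat_mul, mul_one]
      _ ≤ _ := Real.exp_le_exp.2 hIs3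
  have hC60 : 0 ≤ C6 := by linarith
  have h4 : C6 ≤ Real.exp (C6 * β) := by
    have := Real.add_one_le_exp (C6 * β)
    have e := mul_le_mul_of_nonneg_left hβ hC60
    linarith
  calc (2 : ℝ) ^ Is * (C2 * X + a + 4) ≤ Real.exp (C3 * β + 2) * (X * Real.exp (C6 * β)) := by
        have h5 : C2 * X + a + 4 ≤ X * Real.exp (C6 * β) := h2.trans (by gcongr)
        have h6 : 0 ≤ C2 * X + a + 4 := by positivity
        gcongr
    _ = X * Real.exp (C3 * β + 2 + C6 * β) := by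
        rw [Real.exp_add (C3 * β + 2)]
        ring
    _ ≤ X * Real.exp ((C3 + 2 + C6) * β) := by
        have e : (C3 + 2 + C6) * β = C3 * β + 2 * β + C6 * β := by ring
        gcongr
        rw [e]
        linarith

end

end Pool.Agent.L5helper80.QL
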