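import Pool.Agent.L5helper80.QL.Har
import Pool.Agent.L5helper80.QL.Cnt
import Pool.Agent.L5helper80.QL.Good

/-!
# J11: good points seen from a point above
(written by helper96)

`good_points` is applied to the dilation `reachF` of `cont (h k) G`.
-/

set_option autoImplicit false

namespace Pool.Agent.L5helper80.QL

noncomputable section

open MeasureTheory AddCircle Complex Filter Topology Pool.Agent.W767.HL

/-- dilation of a Laurent polynomial -/
def reachF (ρ : ℂ) (f : ℤ →₀ ℂ) : ℤ →₀ ℂ :=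
  Finsupp.onFinset f.support (fun n => f n * ρ ^ n) (fun n hn => by
    rw [Finsupp.mem_support_iff]
    intro h
    exact hn (by rw [h, zero_mul]))

lemma reachF_apply (ρ : ℂ) (f : ℤ →₀ ℂ) (n : ℤ) : reachF ρ f n = f n * ρ ^ n := rfl

lemma reach_ev (ρ : ℂ) (f : ℤ →₀ ℂ) (z : ℂ) : ev (reachF ρ f) z = ev f (ρ * z) := by
  rw [ev_eq_sum, ev_eq_sum, reachF, Finsupp.onFinset_sum _ (fun n => by rw [zero_mul]), Finsupp.sum]
  refine Finset.sum_congr rfl fun n _ => ?_
  rw [mul_zpow]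
  ring

lemma reach_const {q : ℝ} (hq : 1 < q) {C7 C : ℝ} (h7 : 1 ≤ C7) (hC : 1 ≤ C) :
    ∃ C1 : ℝ, 2 ≤ C1 ∧ 4 + 2 * (C7 * (2 + Real.log (6144 * C1 + C))) ≤ (1 - 1 / q) * C1 / 4 := by
  have hb : 0 < 1 - 1 / q := by
    have : 1 / q < 1 := by rw [div_lt_one (by linarith)]; exact hq
    linarith
  set b := 1 - 1 / q with hbdef
  set s := 2 * C7 * 6144 * 8 / b with hs
  have hs0 : 0 < s := by positivity
  set D := 4 + 4 * C7 + 2 * C7 * (C / s - 1 + Real.log s) with hD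
  refine ⟨max 2 (8 * D / b), le_max_left _ _, ?_⟩
  set C1 := max 2 (8 * D / b) with hC1
  have h2 : 2 ≤ C1 := le_max_left _ _
  have h8 : 8 * D / b ≤ C1 := le_max_right _ _
  rw [div_le_iff₀ hb] at h8
  have hK : 0 < 6144 * C1 + C := by positivity
  have hlog : Real.log (6144 * C1 + C) ≤ (6144 * C1 + C) / s - 1 + Real.log s := by
    have h1 : Real.log (6144 * C1 + C) = Real.log ((6144 * C1 + C) / s) + Real.log s := by
      rw [← Real.log_mul (by positivity) hs0.ne', div_mul_cancel₀ _ hs0.ne']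
    have h3 := Real.log_le_sub_one_of_pos (show 0 < (6144 * C1 + C) / s by positivity)
    linarith
  have h4 : 2 * C7 * (6144 * C1 / s) = b * C1 / 8 := by
    rw [hs]
    field_simp
  have h5 : (6144 * C1 + C) / s = 6144 * C1 / s + C / s := by rw [add_div]
  have h6 : 2 * C7 * Real.log (6144 * C1 + C) ≤ 2 * C7 * ((6144 * C1 + C) / s - 1 + Real.log s) :=
    mul_le_mul_of_nonneg_left hlog (by linarith)
  rw [h5] at h6
  nlinarith [h4, h6, h8]

lemma reach_lac_strictMono {q : ℝ} {m : ℕ → ℕ} (hm : Lac q m) : StrictMono m := by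
  have hpos : ∀ j, 0 < m j := by
    intro j
    induction j with
    | zero => exact hm.pos
    | succ j ih =>
      have h1 := hm.gap j
      have h2 : (0 : ℝ) < m j := by exact_mod_cast ih
      have h3 : (0 : ℝ) < m (j + 1) := by nlinarith [hm.one_lt]
      exact_mod_cast h3
  refine strictMono_nat_of_lt_succ fun j => ?_
  have h1 := hm.gap j
  have h2 : (0 : ℝ) < m j := by exact_mod_cast hpos j
  have h3 : (m j : ℝ) < m (j + 1) := by nlinarith [hm.one_lt]
  exact_mod_cast h3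

open Classical in
lemma reach_mem_non {h : ℝ} {G : ℤ →₀ ℂ} {n : ℤ} :
    n ∈ (non h G).support ↔ G n ≠ 0 ∧ n < 0 ∧ Real.exp (n * h) < ‖G n‖ := by
  rw [Finsupp.mem_support_iff, non, Finsupp.filter_apply]
  constructor
  · intro h1
    by_cases h2 : 0 ≤ n ∨ ‖G n‖ ≤ Real.exp (n * h)
    · rw [if_neg (not_not.mpr h2)] at h1
      exact absurd rfl h1
    · rw [if_pos h2] at h1
      push Not at h2
      exact ⟨h1, h2.1, h2.2⟩
  · rintro ⟨h1, h2, h3⟩
    rw [if_pos (by push Not; exact ⟨h2, h3⟩)]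
    exact h1

open Classical in
lemma reach_non_apply {h : ℝ} {G : ℤ →₀ ℂ} {n : ℤ} (hn : n ∈ (non h G).support) : non h G n = G n := by
  rw [reach_mem_non] at hn
  rw [non, Finsupp.filter_apply, if_pos (by push Not; exact hn.2)]

open Classical in
lemma reach_cont_apply {h : ℝ} {G : ℤ →₀ ℂ} {n : ℤ} (hn : n ∉ (non h G).support) : cont h G n = G n := by
  rw [cont, Finsupp.filter_apply]
  by_cases h1 : G n = 0
  · rw [h1, ite_self]
  rw [reach_mem_non] at hn
  push Not at hn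
  rw [if_pos]
  by_cases h2 : n < 0
  · exact Or.inr (hn h1 h2)
  · exact Or.inl (not_lt.mp h2)

open Classical in
lemma reach_cont_zero {h : ℝ} {G : ℤ →₀ ℂ} {n : ℤ} (hn : G n = 0) : cont h G n = 0 := by
  rw [cont, Finsupp.filter_apply, hn, ite_self]

/-- the first frequency beyond the height `2 h_n`, and the mass from it on -/
lemma reach_mass {q : ℝ} {m : ℕ → ℕ} {G : ℤ →₀ ℂ} {hn hk Λ T : ℝ} (hm : Lac q m) (hS : Spec m G)
    (hsm : ∀ n : ℤ, n < 0 → ‖G n‖ ≤ Real.exp (-1)) (hn0 : 0 < hn) (hk0 : 0 < hk)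
    (hmass : mass (non (2 * hn) G) = Real.exp (-(2 * T)))
    (hle : mass (non hk G) ≤ Real.exp (-(2 * Λ))) (hT : T + 1 ≤ Λ) :
    ∃ j1 : ℕ, max 1 T ≤ 2 * (m j1 * hn) ∧
      Real.exp (-(2 * (max T 0 + 1))) ≤
        ∑ n ∈ (reachF (Real.exp (-(hk / 64)) : ℝ) (cont hk G)).support.filter (fun n => n ≤ -(m j1 : ℤ)),
          ‖reachF (Real.exp (-(hk / 64)) : ℝ) (cont hk G) n‖ ^ 2 := by
  have hmono := reach_lac_strictMono hm
  set s := (non (2 * hn) G).support with hs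
  have hsum : ∑ n ∈ s, ‖G n‖ ^ 2 = Real.exp (-(2 * T)) := by
    rw [← hmass, mass]
    refine Finset.sum_congr rfl fun n hn' => ?_
    rw [reach_non_apply hn']
  have hne : s.Nonempty := by
    rw [Finset.nonempty_iff_ne_empty]
    intro h0
    rw [h0, Finset.sum_empty] at hsum
    exact (Real.exp_pos _).ne hsum
  have hidx : ∀ n ∈ s, ∃ j, n = -(m j : ℤ) := by
    intro n hn'
    obtain ⟨h1, h2, -⟩ := reach_mem_non.mp hn'
    by_contra h3
    push Not at h3
    exact h1 (hS n h2 h3)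
  have hex : ∃ j, (-(m j : ℤ)) ∈ s := by
    obtain ⟨n, hn'⟩ := hne
    obtain ⟨j, hj⟩ := hidx n hn'
    exact ⟨j, hj ▸ hn'⟩
  classical
  set j1 := Nat.find hex with hj1
  have hj1s : (-(m j1 : ℤ)) ∈ s := Nat.find_spec hex
  have hall : ∀ n ∈ s, n ≤ -(m j1 : ℤ) := by
    intro n hn'
    obtain ⟨j, hj⟩ := hidx n hn'
    have h1 : j1 ≤ j := Nat.find_min' hex (hj ▸ hn')
    have h2 : m j1 ≤ m j := hmono.monotone h1
    rw [hj]
    have : (m j1 : ℤ) ≤ m j := by exact_mod_cast h2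
    linarith
  refine ⟨j1, ?_, ?_⟩
  · obtain ⟨-, h2, h3⟩ := reach_mem_non.mp hj1s
    have h4 := hsm _ h2
    have h5 : ‖G (-(m j1 : ℤ))‖ ^ 2 ≤ Real.exp (-(2 * T)) := by
      rw [← hsum]
      exact Finset.single_le_sum (f := fun n => ‖G n‖ ^ 2) (fun _ _ => by positivity) hj1s
    have h6 : ‖G (-(m j1 : ℤ))‖ ≤ Real.exp (-T) := by
      have : Real.exp (-(2 * T)) = Real.exp (-T) ^ 2 := by
        rw [← Real.exp_nat_mul]
        congr 1
        push_cast
        ring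
      rw [this] at h5
      exact le_of_sq_le_sq h5 (Real.exp_pos _).le
    push_cast at h3
    have h7 := Real.exp_lt_exp.mp (h3.trans_le h4)
    have h8 := Real.exp_lt_exp.mp (h3.trans_le h6)
    refine max_le ?_ ?_ <;> nlinarith
  · have hρ : (0 : ℝ) < Real.exp (-(hk / 64)) := Real.exp_pos _
    have hρ1 : Real.exp (-(hk / 64)) ≤ 1 := by
      rw [Real.exp_le_one_iff]; linarith
    have hFG : ∀ n ∈ s, n ∉ (non hk G).support →
        ‖G n‖ ^ 2 ≤ ‖reachF (Real.exp (-(hk / 64)) : ℝ) (cont hk G) n‖ ^ 2 ∧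
        n ∈ (reachF (Real.exp (-(hk / 64)) : ℝ) (cont hk G)).support := by
      intro n hn' hn2
      obtain ⟨h1, h2, h3⟩ := reach_mem_non.mp hn'
      have h4 : reachF (Real.exp (-(hk / 64)) : ℝ) (cont hk G) n =
          G n * ((Real.exp (-(hk / 64)) : ℝ) : ℂ) ^ n := by
        rw [reachF_apply, reach_cont_apply hn2]
      have h5 : ‖G n * ((Real.exp (-(hk / 64)) : ℝ) : ℂ) ^ n‖ =
          ‖G n‖ * Real.exp (-(hk / 64)) ^ n := by
        rw [norm_mul, norm_zpow, Complex.norm_real, Real.norm_of_nonneg hρ.le]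
      have h6 : 1 ≤ Real.exp (-(hk / 64)) ^ n := by
        rw [← Real.rpow_intCast, ← Real.exp_mul]
        rw [Real.one_le_exp_iff]
        have h7 : (n : ℝ) < 0 := by exact_mod_cast h2
        nlinarith
      constructor
      · rw [h4, h5]
        have h8 : ‖G n‖ ≤ ‖G n‖ * Real.exp (-(hk / 64)) ^ n := by
          nlinarith [norm_nonneg (G n)]
        exact pow_le_pow_left₀ (norm_nonneg _) h8 2
      · rw [Finsupp.mem_support_iff, h4]
        refine mul_ne_zero h1 (zpow_ne_zero _ ?_)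
        exact_mod_cast hρ.ne'
    have h1 : ∑ n ∈ s.filter (fun n => n ∉ (non hk G).support), ‖G n‖ ^ 2 ≤
        ∑ n ∈ (reachF (Real.exp (-(hk / 64)) : ℝ) (cont hk G)).support.filter
          (fun n => n ≤ -(m j1 : ℤ)), ‖reachF (Real.exp (-(hk / 64)) : ℝ) (cont hk G) n‖ ^ 2 := by
      refine (Finset.sum_le_sum (f := fun n => ‖G n‖ ^ 2)
        (g := fun n => ‖reachF (Real.exp (-(hk / 64)) : ℝ) (cont hk G) n‖ ^ 2) ?_).trans
        (Finset.sum_le_sum_of_subset_of_nonneg ?_ (fun _ _ _ => by positivity))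
      · intro n hn'
        rw [Finset.mem_filter] at hn'
        exact (hFG n hn'.1 hn'.2).1
      · intro n hn'
        rw [Finset.mem_filter] at hn' ⊢
        exact ⟨(hFG n hn'.1 hn'.2).2, hall n hn'.1⟩
    have h2 : ∑ n ∈ s.filter (fun n => ¬ n ∉ (non hk G).support), ‖G n‖ ^ 2 ≤
        Real.exp (-(2 * Λ)) := by
      refine le_trans ?_ hle
      rw [mass]
      have h3 : ∑ n ∈ (non hk G).support, ‖non hk G n‖ ^ 2 =
          ∑ n ∈ (non hk G).support, ‖G n‖ ^ 2 :=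
        Finset.sum_congr rfl fun n hn' => by rw [reach_non_apply hn']
      rw [h3]
      refine Finset.sum_le_sum_of_subset_of_nonneg ?_ (fun _ _ _ => by positivity)
      intro n hn'
      rw [Finset.mem_filter] at hn'
      exact not_not.mp hn'.2
    have h3 := Finset.sum_filter_add_sum_filter_not s (fun n => n ∉ (non hk G).support)
      (fun n => ‖G n‖ ^ 2)
    rw [hsum] at h3
    have h4 : Real.exp (-(2 * Λ)) ≤ 1 / 2 * Real.exp (-(2 * T)) := by
      have h5 : Real.exp (-(2 * Λ)) ≤ Real.exp (-2 + -(2 * T)) := Real.exp_le_exp.mpr (by linarith)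
      rw [Real.exp_add] at h5
      have h6 : Real.exp (-2) ≤ 1 / 2 := by
        have := Real.add_one_le_exp (2 : ℝ)
        rw [Real.exp_neg, inv_eq_one_div]
        exact one_div_le_one_div_of_le (by norm_num) (by linarith)
      nlinarith [Real.exp_pos (-(2 * T))]
    have h5 : Real.exp (-(2 * (max T 0 + 1))) ≤ 1 / 2 * Real.exp (-(2 * T)) := by
      have h5 : Real.exp (-(2 * (max T 0 + 1))) ≤ Real.exp (-2 + -(2 * T)) :=
        Real.exp_le_exp.mpr (by linarith [le_max_left T 0])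
      rw [Real.exp_add] at h5
      have h6 : Real.exp (-2) ≤ 1 / 2 := by
        have := Real.add_one_le_exp (2 : ℝ)
        rw [Real.exp_neg, inv_eq_one_div]
        exact one_div_le_one_div_of_le (by norm_num) (by linarith)
      nlinarith [Real.exp_pos (-(2 * T))]
    linarith

lemma reach_continuous_norm (G : ℤ →₀ ℂ) : Continuous fun θ => ‖ev G (ze θ)‖ :=
  (continuous_ev_ze G).norm

lemma reach_P_zero (θ : Ci) : P 0 θ = 1 := by
  rw [P, sub_zero, norm_ze, norm_zero]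
  norm_num

/-- the Poisson integral of the dilated function -/
lemma reach_int {G : ℤ →₀ ℂ} {hk C : ℝ} (hk0 : 0 < hk)
    (hb : ∀ θ, ‖ev (cont hk G) ((Real.exp (-(hk / 64)) : ℝ) * ze θ)‖ ≤
      S G ((Real.exp (-(hk / 64)) : ℝ) * ze θ) + C) {w : ℂ} (hw : ‖w‖ < 1) :
    ∫ θ, P w θ * ‖ev (reachF (Real.exp (-(hk / 64)) : ℝ) (cont hk G)) (ze θ)‖ ∂mu ≤
      S G ((Real.exp (-(hk / 64)) : ℝ) * w) + C := by
  have hρ : (0 : ℝ) < Real.exp (-(hk / 64)) := Real.exp_pos _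
  have hρ1 : Real.exp (-(hk / 64)) < 1 := by
    rw [Real.exp_lt_one_iff]; linarith
  have hcont := Pz_cont (reach_continuous_norm G) hρ.le hρ1
  have hsemi := Pz_semi (reach_continuous_norm G) hρ.le hρ1 hw
  have h1 : ∫ θ, P w θ * ‖ev (reachF (Real.exp (-(hk / 64)) : ℝ) (cont hk G)) (ze θ)‖ ∂mu ≤
      ∫ θ, (P w θ * Pz (fun θ => ‖ev G (ze θ)‖) ((Real.exp (-(hk / 64)) : ℝ) * ze θ) +
        P w θ * C) ∂mu := by
    refine integral_mono ?_ ?_ ?_
    · exact integrable_of_cont ((continuous_P hw).mul (continuous_ev_ze _).norm)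
    · exact integrable_of_cont (((continuous_P hw).mul hcont).add
        ((continuous_P hw).mul continuous_const))
    · intro θ
      have h2 := hb θ
      have h3 := (P_pos hw θ).le
      simp only
      rw [reach_ev, ← mul_add]
      exact mul_le_mul_of_nonneg_left h2 h3
  refine h1.trans (le_of_eq ?_)
  have i1 : Integrable (fun θ => P w θ *
      Pz (fun θ => ‖ev G (ze θ)‖) ((Real.exp (-(hk / 64)) : ℝ) * ze θ)) mu :=
    integrable_of_cont ((continuous_P hw).mul hcont)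
  have i2 : Integrable (fun θ => P w θ * C) mu :=
    integrable_of_cont ((continuous_P hw).mul continuous_const)
  rw [integral_add i1 i2, hsemi, integral_mul_const, integral_P hw, one_mul]
  rfl

/-- comparison of two points on one radius -/
lemma reach_harnack {G : ℤ →₀ ℂ} {hn t r A : ℝ} {ζ : ℂ} (hn0 : 0 < hn) (hn1 : hn ≤ 1)
    (hζ : ‖ζ‖ = 1) (ht : hn / 512 ≤ t) (ht1 : t ≤ hn) (hr : hn ≤ r) (hA : 0 ≤ A)
    (hS : S G ((Real.exp (-t) : ℝ) * ζ) ≤ A) :
    S G ((Real.exp (-r) : ℝ) * ζ) ≤ 6144 * (r / hn) * A := by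
  have hr0 : 0 < r := by linarith
  have ht0 : 0 < t := by linarith
  have hz : ‖((Real.exp (-r) : ℝ) : ℂ) * ζ‖ = Real.exp (-r) := by
    rw [norm_mul, hζ, mul_one, Complex.norm_real, Real.norm_of_nonneg (Real.exp_pos _).le]
  have hw : ‖((Real.exp (-t) : ℝ) : ℂ) * ζ‖ = Real.exp (-t) := by
    rw [norm_mul, hζ, mul_one, Complex.norm_real, Real.norm_of_nonneg (Real.exp_pos _).le]
  have hz1 : Real.exp (-r) < 1 := by rw [Real.exp_lt_one_iff]; linarith
  have hw1 : Real.exp (-t) < 1 := by rw [Real.exp_lt_one_iff]; linarith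
  have hzw : ‖((Real.exp (-r) : ℝ) : ℂ) * ζ - ((Real.exp (-t) : ℝ) : ℂ) * ζ‖ ≤
      1 - Real.exp (-r) := by
    rw [← sub_mul, norm_mul, hζ, mul_one, ← Complex.ofReal_sub, Complex.norm_real,
      Real.norm_eq_abs, abs_sub_comm, abs_of_nonneg]
    · linarith
    · have := Real.exp_le_exp.mpr (show -r ≤ -t by linarith)
      linarith
  have hh := Pz_harnack (reach_continuous_norm G) (fun θ => norm_nonneg _)
    (z := ((Real.exp (-r) : ℝ) : ℂ) * ζ) (w := ((Real.exp (-t) : ℝ) : ℂ) * ζ)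
    (by rw [hz]; exact hz1) (by rw [hw]; exact hw1)
  rw [hz, hw] at hh
  have e1 : 1 - Real.exp (-r) ^ 2 ≤ 2 * r := by
    have : Real.exp (-r) ^ 2 = Real.exp (-(2 * r)) := by
      rw [← Real.exp_nat_mul]; congr 1; push_cast; ring
    rw [this]
    have := Real.add_one_le_exp (-(2 * r))
    linarith
  have e2 : hn / 768 ≤ 1 - Real.exp (-t) ^ 2 := by
    have h1 : Real.exp (-t) ^ 2 = (Real.exp (2 * t))⁻¹ := by
      rw [← Real.exp_neg, ← Real.exp_nat_mul]; congr 1; push_cast; ring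
    have h2 : 1 + 2 * t ≤ Real.exp (2 * t) := by
      have := Real.add_one_le_exp (2 * t); linarith
    have h3 : (Real.exp (2 * t))⁻¹ ≤ (1 + 2 * t)⁻¹ := inv_anti₀ (by linarith) h2
    have h4 : (1 + 2 * t)⁻¹ ≤ 1 - 2 * t / 3 := by
      rw [inv_le_iff_one_le_mul₀ (by linarith)]
      nlinarith
    rw [h1]
    linarith
  have e2' : 0 < 1 - Real.exp (-t) ^ 2 := by linarith
  have e3 : (1 + ‖((Real.exp (-r) : ℝ) : ℂ) * ζ - ((Real.exp (-t) : ℝ) : ℂ) * ζ‖ /
      (1 - Real.exp (-r))) ^ 2 ≤ 4 := by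
    have h1 : ‖((Real.exp (-r) : ℝ) : ℂ) * ζ - ((Real.exp (-t) : ℝ) : ℂ) * ζ‖ /
      (1 - Real.exp (-r)) ≤ 1 := by
      rw [div_le_one (by linarith)]
      exact hzw
    have h2 : 0 ≤ ‖((Real.exp (-r) : ℝ) : ℂ) * ζ - ((Real.exp (-t) : ℝ) : ℂ) * ζ‖ /
      (1 - Real.exp (-r)) := div_nonneg (norm_nonneg _) (by linarith)
    nlinarith
  have e4 : (1 - Real.exp (-r) ^ 2) / (1 - Real.exp (-t) ^ 2) ≤ 2 * r / (hn / 768) :=
    div_le_div₀ (by linarith) e1 (by linarith) e2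
  have e5 : 0 ≤ (1 - Real.exp (-r) ^ 2) / (1 - Real.exp (-t) ^ 2) := by
    refine div_nonneg ?_ e2'.le
    have : Real.exp (-r) ^ 2 ≤ 1 := pow_le_one₀ (Real.exp_pos _).le hz1.le
    linarith
  have hSS : S G (((Real.exp (-r) : ℝ) : ℂ) * ζ) ≤
      (1 - Real.exp (-r) ^ 2) / (1 - Real.exp (-t) ^ 2) *
      (1 + ‖((Real.exp (-r) : ℝ) : ℂ) * ζ - ((Real.exp (-t) : ℝ) : ℂ) * ζ‖ /
      (1 - Real.exp (-r))) ^ 2 * S G (((Real.exp (-t) : ℝ) : ℂ) * ζ) := hh
  refine hSS.trans ?_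
  have e6 : (1 - Real.exp (-r) ^ 2) / (1 - Real.exp (-t) ^ 2) *
      (1 + ‖((Real.exp (-r) : ℝ) : ℂ) * ζ - ((Real.exp (-t) : ℝ) : ℂ) * ζ‖ /
      (1 - Real.exp (-r))) ^ 2 ≤ 2 * r / (hn / 768) * 4 :=
    mul_le_mul e4 e3 (by positivity) (e5.trans e4)
  have e7 : 2 * r / (hn / 768) * 4 = 6144 * (r / hn) := by
    field_simp
    ring
  rw [e7] at e6
  calc _ ≤ 6144 * (r / hn) * S G (((Real.exp (-t) : ℝ) : ℂ) * ζ) :=
        mul_le_mul_of_nonneg_right e6 (S_nonneg G (by rw [hw]; exact hw1))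
    _ ≤ _ := mul_le_mul_of_nonneg_left hS (by positivity)

theorem reach (q : ℝ) (hq : 1 < q) : ∃ κ C1 C2 : ℝ, 0 < κ ∧ κ < 1 ∧ 1 ≤ C2 ∧ 2 ≤ C1 ∧ ∀ (m : ℕ → ℕ) (G : ℤ →₀ ℂ)
    (h Λ : ℕ → ℝ) (N n k : ℕ) (T X β A t : ℝ) (ζ : ℂ), Data q m G h Λ N → n ≤ k → k ≤ N → 256 ≤ Λ k →
    mass (non (2 * h n) G) = Real.exp (-(2 * T)) → T ≤ X → 1 + Real.log A ≤ X → X + 1 ≤ Λ k → 1 ≤ A → 1 ≤ β → β ≤ X →
    X ≤ β * max 1 T → ‖ζ‖ = 1 → h n / 512 ≤ t → t ≤ h n → S G (Real.exp (-t) * ζ) ≤ A → S G 0 ≤ A →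
    ∫ θ in {θ | ‖ev (cont (h k) G) (Real.exp (-(h k / 64)) * ze θ)‖ ≤ Real.exp (-(C2 * X))},
      P (Real.exp (-(C1 * β * h n - h k / 64)) * ζ) θ ∂mu ≤ 1 - κ := by
  obtain ⟨κ, C7, hκ0, hκ1, h7, hgood⟩ := good_points q hq
  obtain ⟨C, hC, hcnt⟩ := cont_le q hq
  obtain ⟨C1, h2, hC1⟩ := reach_const hq h7 hC
  have hK1 : 1 ≤ 6144 * C1 + C := by linarith
  have hlK : 0 ≤ Real.log (6144 * C1 + C) := Real.log_nonneg hK1
  refine ⟨κ, C1, 4 + C7 * (2 + Real.log (6144 * C1 + C)), hκ0, hκ1, by nlinarith, h2, ?_⟩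
  intro m G h Λ N n k T X β A t ζ hD hnk hkN hΛ hmass hTX hAX hXΛ hA hβ hβX hXβ hζ ht ht1 hS hS0
  have hn0 := hD.hpos n
  have hk0 := hD.hpos k
  have hkn : h k ≤ h n := hD.hanti hnk
  have hn1 : h n ≤ 1 := (hD.hanti (Nat.zero_le n)).trans hD.h1
  have hX1 : 1 ≤ X := hβ.trans hβX
  have hml := hD.massle k hkN
  obtain ⟨j1, hj1, hmj⟩ := reach_mass hD.lac hD.spec hD.small hn0 hk0 hmass hml (by linarith)
  set F := reachF (Real.exp (-(h k / 64)) : ℝ) (cont (h k) G) with hF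
  have hSpec : Spec m F := by
    intro i hi hi2
    rw [hF, reachF_apply, reach_cont_zero (hD.spec i hi hi2), zero_mul]
  have hρ : (0 : ℝ) < Real.exp (-(h k / 64)) := Real.exp_pos _
  have hb : ∀ θ, ‖ev (cont (h k) G) ((Real.exp (-(h k / 64)) : ℝ) * ze θ)‖ ≤
      S G ((Real.exp (-(h k / 64)) : ℝ) * ze θ) + C := by
    intro θ
    refine hcnt m G (h k) (h k / 64) _ hD.lac hD.spec (fun i hi => (hD.small i hi).trans ?_) hk0
      (hml.trans (Real.exp_le_exp.mpr (by linarith))) ?_ (by linarith) (by linarith) (by linarith)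
    · rw [Real.exp_le_one_iff]; norm_num
    · rw [norm_mul, norm_ze, mul_one, Complex.norm_real, Real.norm_of_nonneg hρ.le]
  set r := C1 * β * h n with hr
  have hCβ : 2 ≤ C1 * β := by nlinarith
  have hrn : 2 * h n ≤ r := by rw [hr]; nlinarith
  set w : ℂ := (Real.exp (-(r - h k / 64)) : ℝ) * ζ with hw
  have hwn : ‖w‖ = Real.exp (-(r - h k / 64)) := by
    rw [hw, norm_mul, hζ, mul_one, Complex.norm_real, Real.norm_of_nonneg (Real.exp_pos _).le]
  have hw1 : ‖w‖ < 1 := by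
    rw [hwn, Real.exp_lt_one_iff]
    linarith
  have hw0 : w ≠ 0 := by
    rw [← norm_ne_zero_iff, hwn]
    exact (Real.exp_pos _).ne'
  set B := 6144 * C1 * β * A + C with hB
  have hβA : 1 ≤ β * A := by nlinarith
  have hB1 : 1 ≤ B := by
    rw [hB]
    have : 0 ≤ 6144 * C1 * β * A := by positivity
    linarith
  have hlogB : 1 + Real.log B ≤ (2 + Real.log (6144 * C1 + C)) * X := by
    have h1 : B ≤ (6144 * C1 + C) * (β * A) := by
      rw [hB]
      nlinarith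
    have h3 : Real.log B ≤ Real.log (6144 * C1 + C) + (Real.log β + Real.log A) := by
      rw [← Real.log_mul (by linarith) (by linarith), ← Real.log_mul (by linarith) (by positivity)]
      exact Real.log_le_log (by linarith) h1
    have h4 : Real.log β ≤ β - 1 := Real.log_le_sub_one_of_pos (by linarith)
    nlinarith
  have hI1 : ∫ θ, P w θ * ‖ev F (ze θ)‖ ∂mu ≤ B := by
    refine (reach_int hk0 hb hw1).trans ?_
    have h1 : ((Real.exp (-(h k / 64)) : ℝ) : ℂ) * w = ((Real.exp (-r) : ℝ) : ℂ) * ζ := by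
      rw [hw, ← mul_assoc, ← Complex.ofReal_mul, ← Real.exp_add]
      congr 3
      ring
    rw [h1]
    have h3 := reach_harnack hn0 hn1 hζ ht ht1 (by linarith : h n ≤ r) (by linarith : 0 ≤ A) hS
    have h4 : r / h n = C1 * β := by
      rw [hr]
      field_simp
    rw [h4] at h3
    rw [hB]
    linarith
  have hI2 : ∫ θ, ‖ev F (ze θ)‖ ∂mu ≤ B := by
    have h1 := reach_int (w := 0) hk0 hb (by rw [norm_zero]; exact one_pos)
    simp only [reach_P_zero, one_mul, mul_zero] at h1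
    refine h1.trans ?_
    rw [hB]
    have h3 : A ≤ 6144 * C1 * β * A := by
      have : 1 ≤ 6144 * C1 * β := by nlinarith
      nlinarith
    linarith
  have hgp := hgood m F j1 (max T 0 + 1) ((4 + C7 * (2 + Real.log (6144 * C1 + C))) * X) B w hD.lac
    hSpec hw1 hw0 (by positivity) hB1 hmj hI1 hI2 ?_ ?_
  · have hset : {θ | ‖ev F (ze θ)‖ ≤ Real.exp (-((4 + C7 * (2 + Real.log (6144 * C1 + C))) * X))} =
        {θ | ‖ev (cont (h k) G) (((Real.exp (-(h k / 64)) : ℝ) : ℂ) * ze θ)‖ ≤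
          Real.exp (-((4 + C7 * (2 + Real.log (6144 * C1 + C))) * X))} := by
      ext θ
      simp only [Set.mem_setOf_eq, hF, reach_ev]
    rw [hset] at hgp
    exact hgp
  · have h1 : max T 0 ≤ X := max_le hTX (by linarith)
    have h3 : C7 * (1 + Real.log B) ≤ C7 * ((2 + Real.log (6144 * C1 + C)) * X) :=
      mul_le_mul_of_nonneg_left hlogB (by linarith)
    nlinarith
  · rw [hwn, ← Real.exp_nat_mul, Real.exp_le_exp]
    have hb0 : 0 < 1 - 1 / q := by
      have : 1 / q < 1 := by rw [div_lt_one (by linarith)]; exact hq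
      linarith
    have h1 : (1 - 1 / q) * m j1 ≤ (⌈(1 - 1 / q) * m j1⌉₊ : ℝ) := Nat.le_ceil _
    have h3 : C7 * (1 + Real.log B) ≤ C7 * ((2 + Real.log (6144 * C1 + C)) * X) :=
      mul_le_mul_of_nonneg_left hlogB (by linarith)
    have h4 : r / 2 ≤ r - h k / 64 := by linarith
    have h5 : (1 - 1 / q) * m j1 * (r / 2) ≤ (⌈(1 - 1 / q) * m j1⌉₊ : ℝ) * (r - h k / 64) :=
      mul_le_mul h1 h4 (by linarith) (by positivity)
    have h6 : (1 - 1 / q) * m j1 * (r / 2) = (1 - 1 / q) * C1 / 4 * (β * (2 * (m j1 * h n))) := by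
      rw [hr]; ring
    have h8 : X ≤ β * (2 * (m j1 * h n)) :=
      hXβ.trans (mul_le_mul_of_nonneg_left hj1 (by linarith))
    have h9 : (4 + 2 * (C7 * (2 + Real.log (6144 * C1 + C)))) * X ≤
        (1 - 1 / q) * C1 / 4 * (β * (2 * (m j1 * h n))) :=
      mul_le_mul hC1 h8 (by linarith) (by positivity)
    nlinarith

end

end Pool.Agent.L5helper80.QL
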