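import Pool.Agent.L5helper80.QL.Lim
import Pool.Agent.L5helper80.QL.Lp

/-!
# Reduction of the general series
-/

set_option autoImplicit false

namespace Pool.Agent.L5helper80.QL

noncomputable section

open MeasureTheory AddCircle Complex Filter Topology Pool.Agent.W767.HL

/-- Multiplication by a monomial. -/
lemma exists_mul (g : Lp ℂ 2 mu) (b : ℤ) : ∃ g' : Lp ℂ 2 mu, (∀ᵐ θ ∂mu, ‖g' θ‖ = ‖g θ‖) ∧
    ∀ n : ℤ, fourierCoeff g' n = fourierCoeff g (n - b) := by
  have hmeas : AEStronglyMeasurable (fun θ => (fourier b θ : ℂ) * g θ) mu :=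
    ((fourier b).continuous.aestronglyMeasurable).mul (Lp.aestronglyMeasurable g)
  have hnorm : ∀ θ, ‖(fourier b θ : ℂ) * g θ‖ = ‖g θ‖ := by
    intro θ
    rw [norm_mul, fourier_eq, norm_zpow, norm_ze, one_zpow, one_mul]
  have hmem : MemLp (fun θ => (fourier b θ : ℂ) * g θ) 2 mu :=
    (Lp.memLp g).of_le hmeas (Filter.Eventually.of_forall fun θ => (hnorm θ).le)
  refine ⟨hmem.toLp _, ?_, ?_⟩
  · filter_upwards [hmem.coeFn_toLp] with θ hθ
    rw [hθ, hnorm]
  · intro n
    unfold fourierCoeff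
    refine integral_congr_ae ?_
    filter_upwards [hmem.coeFn_toLp] with θ hθ
    rw [hθ, smul_eq_mul, smul_eq_mul, ← mul_assoc]
    congr 1
    rw [← fourier_add]
    congr 2
    ring

lemma exists_p {K θ : ℝ} (hK : 2 ≤ K) (hθ0 : 0 < θ) (hθ1 : θ < 1) :
    ∃ p : ℝ, 0 < p ∧ p ≤ 1 ∧ K ^ p * θ < 1 := by
  have hlK : 0 < Real.log K := Real.log_pos (by linarith)
  have hlθ : Real.log θ < 0 := Real.log_neg hθ0 hθ1
  set p := min 1 (-Real.log θ / (2 * Real.log K)) with hp
  have hp0 : 0 < p := lt_min one_pos (by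
    apply div_pos <;> linarith)
  refine ⟨p, hp0, min_le_left _ _, ?_⟩
  have h1 : p * Real.log K ≤ -Real.log θ / 2 := by
    have h2 : p ≤ -Real.log θ / (2 * Real.log K) := min_le_right _ _
    rw [le_div_iff₀ (by linarith)] at h2
    linarith
  rw [Real.rpow_def_of_pos (by linarith), ← Real.exp_log hθ0, ← Real.exp_add, Real.exp_lt_one_iff]
  linarith

theorem final (q : ℝ) (hq : 1 < q) : ∃ p : ℝ, 0 < p ∧ ∀ (n : ℕ → ℤ), (∀ k, n k < 0) →
    (∀ᶠ k in atTop, q ≤ (n (k + 1) : ℝ) / (n k : ℝ)) → ∀ (g : Lp ℂ 2 mu),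
    (∀ j : ℤ, j < 0 → (∀ k, n k ≠ j) → fourierCoeff g j = 0) → g ≠ 0 →
    ∫⁻ θ, (ENNReal.log ‖g θ‖ₑ).abs ^ p ∂mu < ⊤ := by
  obtain ⟨K, θ, hK, hθ0, hθ1, htail⟩ := tail q hq
  obtain ⟨p, hp0, hp1, hpK⟩ := exists_p hK hθ0 hθ1
  refine ⟨p, hp0, ?_⟩
  intro n hneg hlac g hc hg
  -- the conclusion for a shifted function implies the one for `g`
  have red : ∀ (b : ℤ) (m : ℕ → ℕ), Lac q m →
      (∀ i : ℤ, i < 0 → (∀ j, i ≠ -(m j : ℤ)) → fourierCoeff g (i - b) = 0) →
      (∃ i : ℤ, i < 0 ∧ fourierCoeff g (i - b) ≠ 0) →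
      ∫⁻ θ, (ENNReal.log ‖g θ‖ₑ).abs ^ p ∂mu < ⊤ := by
    intro b m hm h1 h2
    obtain ⟨g', hg', hcoef⟩ := exists_mul g b
    obtain ⟨D, N0, hD⟩ := htail m g' hm (fun i hi hj => by rw [hcoef]; exact h1 i hi hj)
      (by
        obtain ⟨i, hi, hne⟩ := h2
        exact ⟨i, hi, by rw [hcoef]; exact hne⟩)
    have h3 := lint_log (g := g') ((Lp.memLp g').integrable (by norm_num)) hK hθ0 hθ1 N0 hD hp0 hp1 hpK
    refine lt_of_eq_of_lt (lintegral_congr_ae ?_) h3
    filter_upwards [hg'] with θ' hθ'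
    have : ‖g θ'‖ₑ = ‖g' θ'‖ₑ := by
      rw [← ofReal_norm, ← ofReal_norm, hθ']
    rw [this]
  obtain ⟨K1, hK1⟩ := eventually_atTop.mp hlac
  set p' : ℕ → ℕ := fun k => (n k).natAbs with hp'
  have hpn : ∀ k, n k = -(p' k : ℤ) := fun k => by
    have := hneg k
    simp only [hp']
    omega
  have hp0' : ∀ k, 0 < p' k := fun k => by
    have := hneg k
    simp only [hp']
    omega
  have hpq : ∀ k, K1 ≤ k → q * p' k ≤ p' (k + 1) := by
    intro k hk
    have h1 := hK1 k hk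
    rw [hpn, hpn] at h1
    push_cast at h1
    rw [neg_div_neg_eq, le_div_iff₀ (by exact_mod_cast hp0' k)] at h1
    exact h1
  have hplt : ∀ k, K1 ≤ k → p' k < p' (k + 1) := by
    intro k hk
    have h1 := hpq k hk
    have h2 : (0 : ℝ) < p' k := by exact_mod_cast hp0' k
    have h3 : (p' k : ℝ) < p' (k + 1) := by nlinarith
    exact_mod_cast h3
  have hps : StrictMono fun i => p' (K1 + i) :=
    strictMono_nat_of_lt_succ fun i => hplt (K1 + i) (by omega)
  obtain ⟨b0, hb0⟩ : ∃ b, ∀ i, i < K1 → p' i < b := by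
    refine ⟨(Finset.range K1).sup p' + 1, fun i hi => ?_⟩
    exact Nat.lt_succ_of_le (Finset.le_sup (f := p') (Finset.mem_range.mpr hi))
  set k1 := K1 + b0 with hk1
  have hb1 : b0 ≤ p' k1 := hps.le_apply
  have hle : ∀ i, i ≤ k1 → p' i ≤ p' k1 := by
    intro i hi
    by_cases h : i < K1
    · exact (hb0 i h).le.trans hb1
    · have : p' (K1 + (i - K1)) ≤ p' (K1 + b0) := hps.monotone (show i - K1 ≤ b0 by omega)
      rwa [show K1 + (i - K1) = i by omega] at this
  have hlt : ∀ i j, K1 ≤ i → i < j → p' i < p' j := by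
    intro i j hi hij
    have : p' (K1 + (i - K1)) < p' (K1 + (j - K1)) := hps (show i - K1 < j - K1 by omega)
    rwa [show K1 + (i - K1) = i by omega, show K1 + (j - K1) = j by omega] at this
  set m : ℕ → ℕ := fun j => p' (k1 + 1 + j) - p' k1 with hm
  have hmlt : ∀ j, p' k1 < p' (k1 + 1 + j) := fun j => hlt _ _ (by omega) (by omega)
  have hmLac : Lac q m := by
    refine ⟨hq, ?_, fun j => ?_⟩
    · have := hmlt 0
      simp only [hm]
      omega
    · have h1 := hpq (k1 + 1 + j) (by omega)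
      have e1 : ((m j : ℕ) : ℝ) = p' (k1 + 1 + j) - p' k1 := by
        simp only [hm]
        rw [Nat.cast_sub (hmlt j).le]
      have e2 : ((m (j + 1) : ℕ) : ℝ) = p' (k1 + 1 + j + 1) - p' k1 := by
        simp only [hm]
        rw [Nat.cast_sub (hmlt (j + 1)).le]
        rfl
      rw [e1, e2]
      have h2 : (0 : ℝ) ≤ p' k1 := by positivity
      nlinarith
  by_cases hcase : ∃ i : ℤ, i < 0 ∧ fourierCoeff g (i - p' k1) ≠ 0
  · refine red (p' k1) m hmLac (fun i hi hj => ?_) hcase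
    refine hc _ (by omega) fun k hk => ?_
    rw [hpn k] at hk
    by_cases h : k ≤ k1
    · have := hle k h
      omega
    · have h1 := hj (k - (k1 + 1))
      simp only [hm] at h1
      rw [show k1 + 1 + (k - (k1 + 1)) = k by omega] at h1
      have h2 := hlt k1 k (by omega) (by omega)
      push Not at h
      apply h1
      rw [Nat.cast_sub h2.le]
      omega
  · push Not at hcase
    -- no coefficients below `- p' k1`
    have hzero : ∀ i : ℤ, i < -(p' k1 : ℤ) → fourierCoeff g i = 0 := by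
      intro i hi
      have := hcase (i + p' k1) (by omega)
      rwa [add_sub_cancel_right] at this
    obtain ⟨i0, hi0⟩ : ∃ i0 : ℤ, fourierCoeff g i0 ≠ 0 := by
      by_contra hcon
      push Not at hcon
      apply hg
      have h1 := hasSum_fourier_series_L2 g
      simp only [hcon, zero_smul] at h1
      exact h1.unique hasSum_zero
    obtain ⟨v, hv, hvmin⟩ : ∃ v : ℤ, fourierCoeff g v ≠ 0 ∧ ∀ i, fourierCoeff g i ≠ 0 → v ≤ i := by
      obtain ⟨v, hv1, hv2⟩ := Int.exists_least_of_bdd (P := fun i => fourierCoeff g i ≠ 0)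
        ⟨-(p' k1 : ℤ), fun i hi => by
          by_contra hcon
          push Not at hcon
          exact hi (hzero i hcon)⟩ ⟨i0, hi0⟩
      exact ⟨v, hv1, hv2⟩
    set Q : ℕ := ⌈q⌉₊ with hQ
    have hQq : q ≤ Q := Nat.le_ceil q
    refine red (-v - 1) (fun j => Q ^ j) ⟨hq, by simp, fun j => ?_⟩ (fun i hi hj => ?_) ⟨-1, by norm_num, ?_⟩
    · push_cast
      rw [pow_succ, mul_comm]
      exact mul_le_mul_of_nonneg_left hQq (by positivity)
    · by_contra hcon
      have h1 := hvmin _ hcon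
      have h2 := hj 0
      simp only [pow_zero, Nat.cast_one] at h2
      omega
    · rw [show (-1 : ℤ) - (-v - 1) = v by ring]
      exact hv

end

end Pool.Agent.L5helper80.QL
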