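import Pool.Agent.L5helper80.QL.Red

/-!
# The logarithm of a half-lacunary series belongs to some `L^p`
-/

set_option autoImplicit false

namespace Pool.Agent.L5helper80.QL

noncomputable section

open MeasureTheory AddCircle Complex Filter Topology Pool.Agent.W767.HL

lemma memLp_log {g : Ci → ℂ} (hg : AEStronglyMeasurable g mu) {p : ℝ} (hp : 0 < p)
    (h : ∫⁻ θ, (ENNReal.log ‖g θ‖ₑ).abs ^ p ∂mu < ⊤) :
    MemLp (fun θ => Real.log ‖g θ‖) (ENNReal.ofReal p) mu := by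
  have hp0 : ENNReal.ofReal p ≠ 0 := (ENNReal.ofReal_pos.mpr hp).ne'
  refine ⟨(Real.measurable_log.comp_aemeasurable hg.norm.aemeasurable).aestronglyMeasurable, ?_⟩
  rw [eLpNorm_lt_top_iff_lintegral_rpow_enorm_lt_top hp0 ENNReal.ofReal_ne_top,
    ENNReal.toReal_ofReal hp.le]
  refine (lintegral_mono fun θ => ?_).trans_lt h
  rcases eq_or_ne (g θ) 0 with h0 | h0
  · rw [h0, norm_zero, Real.log_zero, enorm_zero, ENNReal.zero_rpow_of_pos hp]
    exact zero_le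
  · have hpos : 0 < ‖g θ‖ := norm_pos_iff.mpr h0
    rw [← ofReal_norm (g θ), lp_log_abs_le hpos, Real.enorm_eq_ofReal_abs]

/-- for spectra with gap ratio eventually at least `q` -/
theorem uniform (q : ℝ) (hq : 1 < q) : ∃ p : ℝ, 0 < p ∧ ∀ (n : ℕ → ℤ), (∀ k, n k < 0) →
    (∀ᶠ k in atTop, q ≤ (n (k + 1) : ℝ) / (n k : ℝ)) → ∀ (a : ℤ → ℂ)
    (g₁ g₂ : Lp ℂ 2 (haarAddCircle : Measure (AddCircle (1 : ℝ)))),
    HasSum (fun k => a (n k) • fourierLp 2 (n k)) g₁ →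
    HasSum (fun j : ℕ => a (j : ℤ) • fourierLp 2 (j : ℤ)) g₂ → g₁ + g₂ ≠ 0 →
    haarAddCircle {θ : AddCircle (1 : ℝ) | (g₁ + g₂ : Lp ℂ 2 haarAddCircle) θ = 0} = 0 ∧
      MemLp (fun θ : AddCircle (1 : ℝ) => Real.log ‖(g₁ + g₂ : Lp ℂ 2 haarAddCircle) θ‖)
        (ENNReal.ofReal p) haarAddCircle := by
  obtain ⟨p, hp, hfin⟩ := final q hq
  refine ⟨p, hp, ?_⟩
  intro n hneg hlac a g₁ g₂ h₁ h₂ hg
  have hc : ∀ j : ℤ, j < 0 → (∀ k, n k ≠ j) → fourierCoeff (g₁ + g₂ : Lp ℂ 2 mu) j = 0 := by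
    intro j hj hjn
    have e1 : fourierCoeff g₁ j = 0 := coeff_eq_zero h₁ hjn
    have e2 : fourierCoeff g₂ j = 0 := coeff_eq_zero (n := fun i : ℕ => (i : ℤ))
      (b := fun i => a i) h₂ fun k => by omega
    rw [← inner_fourier] at e1 e2 ⊢
    rw [map_add, e1, e2, add_zero]
  exact ⟨main_aux n hneg hq hlac _ hc hg,
    memLp_log (Lp.aestronglyMeasurable _) hp (hfin n hneg hlac _ hc hg)⟩

end

end Pool.Agent.L5helper80.QL
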